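import Pool.Agent.Y265.HY.N5
import Pool.Agent.Y265.HY.PS2
import Pool.Agent.TH294.RS.Fin

/-! From the total fourth moment to all local fourth moments, hyperbolic surfaces. -/
set_option autoImplicit false
open MeasureTheory Filter Topology Complex
open scoped ContDiff ENNReal

namespace Pool.Agent.Q175.RW.TM

open Pool.Agent.W745.RW Pool.Agent.TH294.RS Pool.Agent.Y265.HY

noncomputable section

variable {U : Set ℂ} {lam : ℕ → ℝ} {f : ℕ → ℂ → ℝ} {ψ φ : ℂ → ℝ}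

/-- eigenfunctions on `U` whose total fourth moment is asymptotically at most Gaussian -/
structure TD (U : Set ℂ) (lam : ℕ → ℝ) (f : ℕ → ℂ → ℝ) : Prop where
  oU : IsOpen U
  sU : ∀ z ∈ U, 0 < z.im
  fin : IntegrableOn (fun z : ℂ => 1 / z.im ^ 2) U
  lp : ∀ n, 0 < lam n
  ll : Tendsto lam atTop atTop
  sf : ∀ n, ContDiffOn ℝ ∞ (f n) U
  ef : ∀ n, ∀ z ∈ U, z.im ^ 2 * lap (f n) z + lam n * f n z = 0
  qe : ∀ φ, TF U φ → ∀ k : ℕ, Tendsto (fun n => ∫ z, ((φ z / z.im ^ 2 : ℝ) : ℂ) *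
      ((f n z : ℂ) * (FD (lam n))^[k] (fun w => (f n w : ℂ)) z)) atTop
      (𝓝 (if k = 0 then ((∫ z, φ z / z.im ^ 2 : ℝ) : ℂ) else 0))
  i4 : ∀ n, IntegrableOn (fun z => f n z ^ 4 / z.im ^ 2) U
  h4 : ∀ ε : ℝ, 0 < ε → ∀ᶠ n in atTop,
    ∫ z in U, f n z ^ 4 / z.im ^ 2 ≤ 3 * (∫ z in U, 1 / z.im ^ 2) + ε

lemma TD.raw (X : TD U lam f) : Raw U (fun z => z.im) (fun n => 1 / √(lam n)) f := by
  have him : ContDiff ℝ ∞ (fun z : ℂ => z.im) := imCLM.contDiff
  refine ⟨fun n => div_pos one_pos (Real.sqrt_pos.2 (X.lp n)), ?_, him.contDiffOn, X.sU, X.sf,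
    fun n z hz => ?_, fun φ hφ k => ?_⟩
  · have h2 : Tendsto (fun n => √(lam n)) atTop atTop := Real.tendsto_sqrt_atTop.comp X.ll
    exact (h2.inv_tendsto_atTop).congr (fun n => by simp [one_div])
  · have h1 := X.ef n z hz
    have h2 : (1 / √(lam n)) ^ 2 = 1 / lam n := by
      rw [div_pow, Real.sq_sqrt (X.lp n).le, one_pow]
    show (1 / √(lam n)) ^ 2 * (z.im ^ 2 * lap (f n) z) + f n z = 0
    have h3 : z.im ^ 2 * lap (f n) z = - (lam n * f n z) := by linarith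
    have h4 := (X.lp n).ne'
    rw [h2, h3]
    field_simp
    ring
  · have hφ' := TF.mulc X.oU hφ (him.pow 2).contDiffOn
    have h1 := X.qe _ hφ' k
    have e : ∀ z : ℂ, φ z * z.im ^ 2 / z.im ^ 2 = φ z := by
      intro z
      by_cases hz : z ∈ U
      · have : z.im ≠ 0 := (X.sU z hz).ne'
        field_simp
      · rw [TF.zero hφ hz]; simp
    simp only [e] at h1
    refine h1.congr fun n => ?_
    rw [FD_eq]

lemma TD.ci (X : TD U lam f) : ContinuousOn (fun z : ℂ => 1 / z.im ^ 2) U :=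
  continuousOn_const.div (continuous_im.continuousOn.pow 2) fun z hz => by
    have := X.sU z hz
    positivity

lemma TD.iw (X : TD U lam f) (hψ : ContinuousOn ψ U) {M : ℝ} (hM : ∀ z ∈ U, |ψ z| ≤ M) :
    IntegrableOn (fun z => ψ z / z.im ^ 2) U := by
  have h1 := Integrable.bdd_mul (c := M) X.fin (hψ.aestronglyMeasurable X.oU.measurableSet)
    ((ae_restrict_mem X.oU.measurableSet).mono fun z hz => hM z hz)
  refine h1.congr (Eventually.of_forall fun z => ?_)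
  show ψ z * (1 / z.im ^ 2) = _
  ring

lemma TD.iw4 (X : TD U lam f) (n : ℕ) (hψ : ContinuousOn ψ U) {M : ℝ} (hM : ∀ z ∈ U, |ψ z| ≤ M) :
    IntegrableOn (fun z => ψ z * f n z ^ 4 / z.im ^ 2) U := by
  have h1 := Integrable.bdd_mul (c := M) (X.i4 n) (hψ.aestronglyMeasurable X.oU.measurableSet)
    ((ae_restrict_mem X.oU.measurableSet).mono fun z hz => hM z hz)
  refine h1.congr (Eventually.of_forall fun z => ?_)
  show ψ z * (f n z ^ 4 / z.im ^ 2) = _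
  ring

lemma TD.low (X : TD U lam f) (hψ : ContinuousOn ψ U) (h0 : ∀ z ∈ U, 0 ≤ ψ z) {M : ℝ}
    (hM : ∀ z ∈ U, |ψ z| ≤ M) {ε : ℝ} (hε : 0 < ε) :
    ∀ᶠ n in atTop, 3 * (∫ z in U, ψ z / z.im ^ 2) - ε ≤ ∫ z in U, ψ z * f n z ^ 4 / z.im ^ 2 := by
  have im0 : ∀ z ∈ U, z.im ^ 2 ≠ 0 := fun z hz => pow_ne_zero 2 (X.sU z hz).ne'
  have key := X.raw.fin X.oU 1 X.oU subset_rfl (w := fun z => ψ z / z.im ^ 2)
    (hψ.div (continuous_im.continuousOn.pow 2) im0)
    (fun z hz => div_nonneg (h0 z hz) (sq_nonneg _))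
  have nn : ∀ n, 0 ≤ ∫ z in U, ψ z * f n z ^ 4 / z.im ^ 2 := fun n =>
    setIntegral_nonneg X.oU.measurableSet fun z hz =>
      div_nonneg (mul_nonneg (h0 z hz) (by positivity)) (sq_nonneg _)
  have e1 : ∫⁻ z in U, ENNReal.ofReal (ψ z / z.im ^ 2) =
      ENNReal.ofReal (∫ z in U, ψ z / z.im ^ 2) :=
    (ofReal_integral_eq_lintegral_ofReal (X.iw hψ hM)
      ((ae_restrict_mem X.oU.measurableSet).mono fun z hz =>
        div_nonneg (h0 z hz) (sq_nonneg _))).symm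
  have e2 : ∀ n, ∫⁻ z in U, ENNReal.ofReal (ψ z / z.im ^ 2 * f n z ^ (2 * (1 + 1))) =
      ENNReal.ofReal (∫ z in U, ψ z * f n z ^ 4 / z.im ^ 2) := by
    intro n
    rw [ofReal_integral_eq_lintegral_ofReal (X.iw4 n hψ hM)
      ((ae_restrict_mem X.oU.measurableSet).mono fun z hz =>
        div_nonneg (mul_nonneg (h0 z hz) (by positivity)) (sq_nonneg _))]
    refine lintegral_congr fun z => ?_
    congr 1
    ring
  simp only [e2] at key
  rw [e1, ← ENNReal.ofReal_mul (by norm_num), pow_one] at key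
  by_cases hc : 3 * (∫ z in U, ψ z / z.im ^ 2) - ε < 0
  · exact Eventually.of_forall fun n => hc.le.trans (nn n)
  · have hc' := not_lt.1 hc
    have h1 : ENNReal.ofReal (3 * (∫ z in U, ψ z / z.im ^ 2) - ε) <
        ENNReal.ofReal (3 * ∫ z in U, ψ z / z.im ^ 2) :=
      (ENNReal.ofReal_lt_ofReal_iff (by linarith)).2 (by linarith)
    have h2 := eventually_lt_of_lt_liminf (h1.trans_le key)
    filter_upwards [h2] with n hn
    exact ((ENNReal.ofReal_lt_ofReal_iff_of_nonneg hc').1 hn).le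

/-- the measures `f⁴ dμ` converge to `3 dμ`, tested with bounded continuous functions -/
theorem TD.weak (X : TD U lam f) (hψ : ContinuousOn ψ U) {M : ℝ} (hM : ∀ z ∈ U, |ψ z| ≤ M) :
    Tendsto (fun n => ∫ z in U, ψ z * f n z ^ 4 / z.im ^ 2) atTop
      (𝓝 (3 * ∫ z in U, ψ z / z.im ^ 2)) := by
  obtain ⟨N, hN⟩ : ∃ N, N = |M| := ⟨_, rfl⟩
  have N0 : 0 ≤ N := by rw [hN]; exact abs_nonneg _
  have hNM : ∀ z ∈ U, |ψ z| ≤ N := fun z hz => (hM z hz).trans (by rw [hN]; exact le_abs_self _)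
  have b1 : ∀ z ∈ U, |N + ψ z| ≤ 2 * N := fun z hz => by
    have := abs_le.1 (hNM z hz)
    rw [abs_le]; constructor <;> linarith [this.1, this.2]
  have b2 : ∀ z ∈ U, |N - ψ z| ≤ 2 * N := fun z hz => by
    have := abs_le.1 (hNM z hz)
    rw [abs_le]; constructor <;> linarith [this.1, this.2]
  have n1 : ∀ z ∈ U, 0 ≤ N + ψ z := fun z hz => by linarith [(abs_le.1 (hNM z hz)).1]
  have n2 : ∀ z ∈ U, 0 ≤ N - ψ z := fun z hz => by linarith [(abs_le.1 (hNM z hz)).2]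
  have c1 : ContinuousOn (fun z => N + ψ z) U := continuousOn_const.add hψ
  have c2 : ContinuousOn (fun z => N - ψ z) U := continuousOn_const.sub hψ
  have iN : IntegrableOn (fun z : ℂ => N * (1 / z.im ^ 2)) U := X.fin.const_mul N
  have i0 := X.iw hψ hNM
  have a1 : ∫ z in U, (N + ψ z) / z.im ^ 2 =
      N * (∫ z in U, 1 / z.im ^ 2) + ∫ z in U, ψ z / z.im ^ 2 := by
    rw [← integral_const_mul, ← integral_add iN i0]
    congr 1; funext z; ring
  have a2 : ∫ z in U, (N - ψ z) / z.im ^ 2 =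
      N * (∫ z in U, 1 / z.im ^ 2) - ∫ z in U, ψ z / z.im ^ 2 := by
    rw [← integral_const_mul, ← integral_sub iN i0]
    congr 1; funext z; ring
  have a3 : ∀ n, ∫ z in U, (N + ψ z) * f n z ^ 4 / z.im ^ 2 =
      N * (∫ z in U, f n z ^ 4 / z.im ^ 2) + ∫ z in U, ψ z * f n z ^ 4 / z.im ^ 2 := by
    intro n
    have iN' : IntegrableOn (fun z : ℂ => N * (f n z ^ 4 / z.im ^ 2)) U := (X.i4 n).const_mul N
    rw [← integral_const_mul, ← integral_add iN' (X.iw4 n hψ hNM)]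
    congr 1; funext z; ring
  have a4 : ∀ n, ∫ z in U, (N - ψ z) * f n z ^ 4 / z.im ^ 2 =
      N * (∫ z in U, f n z ^ 4 / z.im ^ 2) - ∫ z in U, ψ z * f n z ^ 4 / z.im ^ 2 := by
    intro n
    have iN' : IntegrableOn (fun z : ℂ => N * (f n z ^ 4 / z.im ^ 2)) U := (X.i4 n).const_mul N
    rw [← integral_const_mul, ← integral_sub iN' (X.iw4 n hψ hNM)]
    congr 1; funext z; ring
  rw [Metric.tendsto_atTop']
  intro ε hε
  obtain ⟨δ, hδ⟩ : ∃ δ, δ = ε / (2 * (N + 1)) := ⟨_, rfl⟩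
  have δ0 : 0 < δ := by rw [hδ]; positivity
  have l1 := X.low c1 n1 b1 δ0
  have l2 := X.low c2 n2 b2 δ0
  obtain ⟨n0, hn0⟩ := eventually_atTop.1 (l1.and (l2.and (X.h4 δ δ0)))
  refine ⟨n0, fun n hn => ?_⟩
  obtain ⟨p1, p2, p3⟩ := hn0 n hn.le
  rw [a1, a3] at p1
  rw [a2, a4] at p2
  have p4 := mul_le_mul_of_nonneg_left p3 N0
  have p5 : N * δ + δ < ε := by
    have : (N + 1) * δ = ε / 2 := by rw [hδ]; field_simp
    nlinarith
  rw [Real.dist_eq, abs_lt]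
  constructor <;> nlinarith

lemma TD.onU (X : TD U lam f) (hφ : TF U φ) (g : ℂ → ℝ) :
    ∫ z in U, φ z * g z / z.im ^ 2 = ∫ z, φ z * g z / z.im ^ 2 := by
  refine setIntegral_eq_integral_of_forall_compl_eq_zero fun z hz => ?_
  rw [TF.zero hφ hz]; simp

lemma tf_bd (hφ : TF U φ) : ∃ M : ℝ, 0 < M ∧ ∀ z, |φ z| ≤ M := by
  obtain ⟨M', hM'⟩ := hφ.2.1.exists_bound_of_continuous hφ.1.continuous
  exact ⟨|M'| + 1, by positivity, fun z => (hM' z).trans ((le_abs_self _).trans (by linarith))⟩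

/-- test functions -/
theorem TD.loc (X : TD U lam f) (hφ : TF U φ) :
    Tendsto (fun n => ∫ z, φ z * f n z ^ 4 / z.im ^ 2) atTop (𝓝 (3 * ∫ z, φ z / z.im ^ 2)) := by
  obtain ⟨M, -, hM⟩ := tf_bd hφ
  have h1 := X.weak (ψ := φ) hφ.1.continuous.continuousOn (fun z _ => hM z)
  have e : ∫ z in U, φ z / z.im ^ 2 = ∫ z, φ z / z.im ^ 2 := by
    have := X.onU hφ (fun _ => 1)
    simpa only [mul_one] using this
  rw [e] at h1
  exact h1.congr fun n => X.onU hφ _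

/-- splitting a test function -/
lemma split (hU : IsOpen U) (hφ : TF U φ) : ∃ p q : ℂ → ℝ, TF U p ∧ TF U q ∧ (∀ z, 0 ≤ p z) ∧
    (∀ z, 0 ≤ q z) ∧ ∀ z, φ z = p z - q z := by
  obtain ⟨M, M0, hM⟩ := tf_bd hφ
  obtain ⟨χ, h1, h2, h3, h4⟩ := exists_cut hU hφ.2.1 hφ.2.2
  have tq : TF U (fun z => χ z * M) := TF.mulc hU h1 contDiffOn_const
  refine ⟨fun z => φ z + χ z * M, fun z => χ z * M, ?_, tq, fun z => ?_, fun z => ?_, fun z => ?_⟩
  · refine ⟨hφ.1.add tq.1, hφ.2.1.add tq.2.1, ?_⟩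
    exact (tsupport_add _ _).trans (Set.union_subset hφ.2.2 tq.2.2)
  · show 0 ≤ φ z + χ z * M
    by_cases hz : z ∈ tsupport φ
    · rw [h2 z hz, one_mul]
      linarith [(abs_le.1 (hM z)).1]
    · rw [image_eq_zero_of_notMem_tsupport hz, zero_add]
      exact mul_nonneg (h3 z) M0.le
  · exact mul_nonneg (h3 z) M0.le
  · ring

lemma TD.iFM (X : TD U lam f) (hφ : TF U φ) (a b c d : ℤ) (n : ℕ) :
    Integrable (fun z => ((φ z / z.im ^ 2 : ℝ) : ℂ) * (FW (lam n) (f n) a z * FW (lam n) (f n) b z *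
      FW (lam n) (f n) c z * FW (lam n) (f n) d z)) := by
  obtain ⟨S, -⟩ := hyp_sys X.oU X.sU X.lp X.ll X.sf X.ef X.qe
  have sy : ContDiffOn ℝ ∞ (fun z : ℂ => (z.im ^ 2)⁻¹) U := by
    refine ContDiffOn.inv ((imCLM.contDiff.pow 2).contDiffOn) fun z hz => ?_
    exact pow_ne_zero 2 (X.sU z hz).ne'
  have tφ : TF U (fun z => φ z / z.im ^ 2) := TF.mulc X.oU hφ sy
  have cw : ∀ k, ContinuousOn (FW (lam n) (f n) k) U := fun k => by
    have := (S.bd k).co n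
    refine this.congr fun z _ => ?_
    rw [FW_eq]
  exact TF.cint tφ ((((cw a).mul (cw b)).mul (cw c)).mul (cw d))

/-- **all local fourth moments are Gaussian** -/
theorem TD.fourth (X : TD U lam f) (hφ : TF U φ) (a b c d : ℤ) :
    Tendsto (fun n => FM (lam n) (f n) φ a b c d) atTop
      (𝓝 (GG a b c d * ((∫ z, φ z / z.im ^ 2 : ℝ) : ℂ))) := by
  have pos : ∀ φ : ℂ → ℝ, TF U φ → (∀ z, 0 ≤ φ z) →
      Tendsto (fun n => FM (lam n) (f n) φ a b c d) atTop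
        (𝓝 (GG a b c d * ((∫ z, φ z / z.im ^ 2 : ℝ) : ℂ))) := by
    intro φ hφ hφ0
    have k := (hyp_fourth X.oU X.sU X.lp X.ll X.sf X.ef X.qe hφ).2.2 hφ0 a b c d
    have l := X.loc hφ
    rw [Metric.tendsto_atTop'] at l ⊢
    intro ε hε
    obtain ⟨n1, h1⟩ := l (ε / 2) (by positivity)
    obtain ⟨n2, h2⟩ := eventually_atTop.1 (k (ε / 2) (by positivity))
    refine ⟨max n1 n2, fun n hn => ?_⟩
    have g1 := h1 n ((le_max_left _ _).trans_lt hn)
    have g2 := h2 n ((le_max_right _ _).trans hn.le)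
    rw [Real.dist_eq, abs_lt] at g1
    rw [dist_eq_norm]
    refine g2.trans_lt ?_
    have e : ∫ z, φ z / z.im ^ 2 * f n z ^ 4 = ∫ z, φ z * f n z ^ 4 / z.im ^ 2 := by
      congr 1; funext z; ring
    rw [e]
    linarith [g1.2]
  obtain ⟨p, q, hp, hq, p0, q0, e⟩ := split X.oU hφ
  have l := (pos p hp p0).sub (pos q hq q0)
  have ip : ∀ {p : ℂ → ℝ}, TF U p → Integrable (fun z => p z / z.im ^ 2) := fun {p} hp => by
    have sy : ContDiffOn ℝ ∞ (fun z : ℂ => (z.im ^ 2)⁻¹) U := by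
      refine ContDiffOn.inv ((imCLM.contDiff.pow 2).contDiffOn) fun z hz => ?_
      exact pow_ne_zero 2 (X.sU z hz).ne'
    have tp : TF U (fun z => p z / z.im ^ 2) := TF.mulc X.oU hp sy
    exact tp.1.continuous.integrable_of_hasCompactSupport tp.2.1
  have e2 : GG a b c d * ((∫ z, p z / z.im ^ 2 : ℝ) : ℂ) -
      GG a b c d * ((∫ z, q z / z.im ^ 2 : ℝ) : ℂ) =
      GG a b c d * ((∫ z, φ z / z.im ^ 2 : ℝ) : ℂ) := by
    rw [← mul_sub, ← Complex.ofReal_sub, ← integral_sub (ip hp) (ip hq)]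
    congr 3; funext z; rw [e z]; ring
  rw [e2] at l
  refine l.congr fun n => ?_
  unfold FM
  rw [← integral_sub (X.iFM hp a b c d n) (X.iFM hq a b c d n)]
  congr 1; funext z
  rw [e z]; push_cast; ring

end

end Pool.Agent.Q175.RW.TM
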