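import Pool.Agent.Q175.RW.LL1
import Pool.Agent.Q175.RW.TM
import Pool.Agent.TH294.RG.Fam
import Pool.Agent.TH294.RG.Ms7

/-! Total mass and total fourth moment on surfaces of finite area. -/
set_option autoImplicit false
open MeasureTheory Filter Topology Complex ProbabilityTheory
open scoped ContDiff ENNReal

namespace Pool.Agent.Q175.RW.FT

open Pool.Agent.W745.RW Pool.Agent.TH294.RS
open Pool.Agent.TH294.RG (RawG ea par ea_meas ea_norm GD W1 W1_eq ep2 GG')
open Pool.Agent.Y139.PD (area a_me)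
open Pool.Agent.Q175.RW.LL

noncomputable section

/-- eigenfunctions on a surface of finite area with semiclassical measure `m κ_z`, total mass
asymptotic to the area and total fourth moment asymptotically at most Gaussian -/
structure LE (Ω : Set ℂ) (ρ : ℂ → ℝ) (lam : ℕ → ℝ) (u : ℕ → ℂ → ℝ) (m : ℂ → ℝ)
    (κ : Kernel ℂ ℝ) : Prop where
  oΩ : IsOpen Ω
  ne : Ω.Nonempty
  sρ : ContDiffOn ℝ ∞ ρ Ω
  pρ : ∀ z ∈ Ω, 0 < ρ z
  fin : area Ω ρ Set.univ ≠ ⊤
  lp : ∀ n, 0 < lam n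
  ll : Tendsto lam atTop atTop
  su : ∀ n, ContDiffOn ℝ ∞ (u n) Ω
  eq : ∀ n, ∀ z ∈ Ω, lap (u n) z + lam n * (ρ z * u n z) = 0
  hm : ∀ K : Set ℂ, IsCompact K → K ⊆ Ω → MemLp m 2 (volume.restrict K)
  qe : ∀ φ, TF Ω φ → ∀ k : ℕ, Tendsto (fun n => ∫ z, ((φ z * ρ z : ℝ) : ℂ) *
      ((u n z : ℂ) * (RD ρ (lam n))^[k] (fun w => (u n w : ℂ)) z)) atTop
      (𝓝 (∫ z, ((φ z * ρ z : ℝ) : ℂ) * TH294.RG.MM m ea κ k z))
  pa : ∀ᵐ z ∂(volume.restrict Ω), par ea (κ z) = 0
  i4 : ∀ n, Integrable (fun z => u n z ^ 4) (area Ω ρ)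
  h2 : Tendsto (fun n => ∫ z, u n z ^ 2 ∂(area Ω ρ)) atTop (𝓝 (area Ω ρ Set.univ).toReal)
  h4 : ∀ ε : ℝ, 0 < ε → ∀ᶠ n in atTop,
    ∫ z, u n z ^ 4 ∂(area Ω ρ) ≤ 3 * (area Ω ρ Set.univ).toReal + ε

variable {Ω : Set ℂ} {ρ : ℂ → ℝ} {lam : ℕ → ℝ} {u : ℕ → ℂ → ℝ} {m : ℂ → ℝ} {κ : Kernel ℂ ℝ}

lemma LE.fm (X : LE Ω ρ lam u m κ) : IsFiniteMeasure (area Ω ρ) := ⟨lt_top_iff_ne_top.2 X.fin⟩

lemma LE.int (X : LE Ω ρ lam u m κ) (g : ℂ → ℝ) :
    ∫ z, g z ∂(area Ω ρ) = ∫ z in Ω, ρ z * g z := by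
  unfold area
  rw [integral_withDensity_eq_integral_toReal_smul₀ (a_me X.oΩ X.sρ)
    (ae_of_all _ fun _ => ENNReal.ofReal_lt_top)]
  refine setIntegral_congr_fun X.oΩ.measurableSet fun z hz => ?_
  show (ENNReal.ofReal (ρ z)).toReal • g z = ρ z * g z
  rw [ENNReal.toReal_ofReal (X.pρ z hz).le, smul_eq_mul]

lemma LE.aeΩ (X : LE Ω ρ lam u m κ) : ∀ᵐ z ∂(area Ω ρ), z ∈ Ω :=
  (withDensity_absolutelyContinuous _ _).ae_le (ae_restrict_mem X.oΩ.measurableSet)

lemma LE.ae_iff (X : LE Ω ρ lam u m κ) {p : ℂ → Prop} (h : ∀ᵐ z ∂(area Ω ρ), p z) :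
    ∀ᵐ z ∂(volume.restrict Ω), p z := by
  unfold area at h
  rw [ae_withDensity_iff' (a_me X.oΩ X.sρ)] at h
  filter_upwards [h, ae_restrict_mem X.oΩ.measurableSet] with z h1 h2
  refine h1 ?_
  rw [Ne, ENNReal.ofReal_eq_zero, not_le]
  exact X.pρ z h2

lemma LE.ume (X : LE Ω ρ lam u m κ) (n : ℕ) : AEStronglyMeasurable (u n) (area Ω ρ) :=
  (((X.su n).continuousOn.aemeasurable X.oΩ.measurableSet).mono_ac
    (withDensity_absolutelyContinuous _ _)).aestronglyMeasurable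

lemma LE.test (X : LE Ω ρ lam u m κ) {φ : ℂ → ℝ} (hφ : TF Ω φ) (g : ℂ → ℝ) :
    ∫ z, φ z * ρ z * g z = ∫ z, φ z * g z ∂(area Ω ρ) := by
  rw [X.int]
  have e2 : ∫ z, φ z * ρ z * g z = ∫ z in Ω, φ z * ρ z * g z :=
    (setIntegral_eq_integral_of_forall_compl_eq_zero fun z hz => by
      rw [TF.zero hφ hz, zero_mul, zero_mul]).symm
  rw [e2]
  congr 1; funext z; ring

lemma LE.rawG (X : LE Ω ρ lam u m κ) : RawG Ω (fun z => 1 / √(ρ z)) (fun n => 1 / √(lam n)) u
    (TH294.RG.MM m ea κ) :=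
  TH294.RG.rawG_met X.oΩ X.lp X.ll X.sρ X.pρ X.su X.eq X.qe

lemma LE.iχ (X : LE Ω ρ lam u m κ) {χ : ℂ → ℝ} (hχ : TF Ω χ) : Integrable χ (area Ω ρ) := by
  have := X.fm
  obtain ⟨C, hC⟩ := hχ.2.1.exists_bound_of_continuous hχ.1.continuous
  exact Integrable.mono' (integrable_const C) hχ.1.continuous.aestronglyMeasurable
    (ae_of_all _ hC)

lemma LE.mme (X : LE Ω ρ lam u m κ) : AEStronglyMeasurable m (area Ω ρ) := by
  -- locally
  obtain ⟨S, hS, hSΩ, hSu, -⟩ := exh Ω X.oΩ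
  have h1 : AEStronglyMeasurable m (volume.restrict (⋃ j, S j)) := by
    rw [aestronglyMeasurable_iUnion_iff]
    exact fun j => (X.hm _ (hS j) (hSΩ j)).aestronglyMeasurable
  rw [hSu] at h1
  exact h1.mono_ac (withDensity_absolutelyContinuous _ _)

variable [IsMarkovKernel κ]

/-- **equidistribution** from the total mass and the total fourth moment -/
theorem LE.one (X : LE Ω ρ lam u m κ) : ∀ᵐ z ∂(volume.restrict Ω), m z = 1 := by
  have := X.fm
  obtain ⟨V, hV⟩ : ∃ V : ℝ, V = (area Ω ρ Set.univ).toReal := ⟨_, rfl⟩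
  have V0 : 0 ≤ V := by rw [hV]; exact ENNReal.toReal_nonneg
  have cV : ∫ _z : ℂ, (1 : ℝ) ∂(area Ω ρ) = V := by
    rw [integral_const, smul_eq_mul, mul_one, hV]; rfl
  obtain ⟨χ, h1, h2, h3, h4⟩ := QC.inner_cut X.oΩ
  have ptw : ∀ᵐ z ∂(area Ω ρ), Tendsto (fun j => χ j z) atTop (𝓝 1) := by
    filter_upwards [X.aeΩ] with z hz
    exact tendsto_const_nhds.congr' ((h4 z hz).mono fun j hj => hj.symm)
  have hh4 := X.h4
  have hh2 := X.h2
  rw [← hV] at hh4 hh2
  -- the second moment of `m`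
  have loc2 : ∀ j, ∫ z, χ j z * m z ^ 2 ∂(area Ω ρ) ≤ V := by
    intro j
    refine le_of_forall_pos_le_add fun ε hε => ?_
    have hψ : TF Ω (fun z => χ j z * ρ z) := TF.mulc X.oΩ (h1 j) X.sρ
    have nn : ∀ z, 0 ≤ χ j z * ρ z := by
      intro z
      by_cases hz : z ∈ Ω
      · exact mul_nonneg (h2 j z) (X.pρ z hz).le
      · rw [TF.zero (h1 j) hz, zero_mul]
    have key := RawG.main X.oΩ ea_meas ea_norm X.hm X.rawG hψ nn (ε := ε) hε
    obtain ⟨n, n1, n2⟩ := (key.and (hh4 ε hε)).exists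
    have e1 : ∫ z, χ j z * ρ z * GD m ea κ z = 3 * ∫ z, χ j z * m z ^ 2 ∂(area Ω ρ) := by
      rw [← X.test (h1 j), ← integral_const_mul]
      rw [← setIntegral_eq_integral_of_forall_compl_eq_zero (s := Ω) (fun z hz => by
        rw [TF.zero (h1 j) hz]; ring),
        ← setIntegral_eq_integral_of_forall_compl_eq_zero (s := Ω)
        (f := fun z => 3 * (χ j z * ρ z * m z ^ 2)) (fun z hz => by
        rw [TF.zero (h1 j) hz]; ring)]
      refine integral_congr_ae ?_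
      filter_upwards [X.pa] with z hz
      simp only [TH294.RG.GD, hz]
      ring
    have e2 : ∫ z, χ j z * ρ z * u n z ^ 4 ≤ ∫ z, u n z ^ 4 ∂(area Ω ρ) := by
      rw [X.test (h1 j)]
      exact integral_mono_of_nonneg (ae_of_all _ fun z =>
        mul_nonneg (h2 j z) (by positivity)) (X.i4 n) (ae_of_all _ fun z =>
          mul_le_of_le_one_left (by positivity) (h3 j z))
    rw [e1] at n1
    linarith
  have iloc : ∀ j, Integrable (fun z => χ j z * m z ^ 2) (area Ω ρ) := by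
    intro j
    obtain ⟨S, hS⟩ : ∃ S, S = tsupport (χ j) := ⟨_, rfl⟩
    have cS : IsCompact S := by rw [hS]; exact (h1 j).2.1
    have SΩ : S ⊆ Ω := by rw [hS]; exact (h1 j).2.2
    have i1 : IntegrableOn (fun z => m z ^ 2) S := (X.hm S cS SΩ).integrable_sq
    obtain ⟨c, hc⟩ := cS.exists_bound_of_continuousOn
      (f := fun z => ρ z * χ j z) ((X.sρ.continuousOn.mono SΩ).mul
        (h1 j).1.continuous.continuousOn)
    have i2 : IntegrableOn (fun z => ρ z * χ j z * m z ^ 2) S :=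
      Integrable.bdd_mul (c := c) i1
        (((X.sρ.continuousOn.mono SΩ).mul
          (h1 j).1.continuous.continuousOn).aestronglyMeasurable cS.measurableSet)
        ((ae_restrict_mem cS.measurableSet).mono hc)
    have i3 : IntegrableOn (fun z => ρ z * χ j z * m z ^ 2) Ω := by
      refine IntegrableOn.of_forall_sdiff_eq_zero i2 X.oΩ.measurableSet fun z hz => ?_
      have : χ j z = 0 := image_eq_zero_of_notMem_tsupport (by rw [← hS]; exact hz.2)
      show ρ z * χ j z * m z ^ 2 = 0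
      rw [this]; ring
    unfold area
    rw [integrable_withDensity_iff_integrable_smul₀' (a_me X.oΩ X.sρ)
      (ae_of_all _ fun _ => ENNReal.ofReal_lt_top)]
    refine i3.congr ((ae_restrict_mem X.oΩ.measurableSet).mono fun z hz => ?_)
    show ρ z * χ j z * m z ^ 2 = (ENNReal.ofReal (ρ z)).toReal • (χ j z * m z ^ 2)
    rw [ENNReal.toReal_ofReal (X.pρ z hz).le, smul_eq_mul]; ring
  have fat : ∫⁻ z, ENNReal.ofReal (m z ^ 2) ∂(area Ω ρ) ≤ ENNReal.ofReal V := by
    have e1 : ∫⁻ z, ENNReal.ofReal (m z ^ 2) ∂(area Ω ρ) =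
        ∫⁻ z, liminf (fun j => ENNReal.ofReal (χ j z * m z ^ 2)) atTop ∂(area Ω ρ) := by
      refine lintegral_congr_ae ?_
      filter_upwards [ptw] with z hz
      have t1 : Tendsto (fun j => ENNReal.ofReal (χ j z * m z ^ 2)) atTop
          (𝓝 (ENNReal.ofReal (1 * m z ^ 2))) :=
        (ENNReal.continuous_ofReal.tendsto _).comp (hz.mul_const _)
      rw [one_mul] at t1
      exact t1.liminf_eq.symm
    rw [e1]
    have mes : ∀ j, AEMeasurable (fun z => ENNReal.ofReal (χ j z * m z ^ 2)) (area Ω ρ) :=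
      fun j => (iloc j).aestronglyMeasurable.aemeasurable.ennreal_ofReal
    refine (lintegral_liminf_le' mes).trans ?_
    have e3 : ∀ j, ∫⁻ z, ENNReal.ofReal (χ j z * m z ^ 2) ∂(area Ω ρ) ≤ ENNReal.ofReal V := by
      intro j
      rw [← ofReal_integral_eq_lintegral_ofReal (iloc j)
        (ae_of_all _ fun z => mul_nonneg (h2 j z) (sq_nonneg _))]
      exact ENNReal.ofReal_le_ofReal (loc2 j)
    exact (liminf_le_liminf (Eventually.of_forall e3)).trans (liminf_const _).le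
  have im2 : Integrable (fun z => m z ^ 2) (area Ω ρ) := by
    refine ⟨(continuous_pow 2).comp_aestronglyMeasurable X.mme, ?_⟩
    rw [hasFiniteIntegral_iff_ofReal (ae_of_all _ fun z => sq_nonneg _)]
    exact fat.trans_lt ENNReal.ofReal_lt_top
  have m2 : ∫ z, m z ^ 2 ∂(area Ω ρ) ≤ V := by
    have := ofReal_integral_eq_lintegral_ofReal im2 (ae_of_all _ fun z => sq_nonneg _)
    rw [← this] at fat
    exact (ENNReal.ofReal_le_ofReal_iff V0).1 fat
  have im1 : Integrable m (area Ω ρ) := by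
    refine Integrable.mono' ((integrable_const (1 : ℝ)).add im2) X.mme (ae_of_all _ fun z => ?_)
    show ‖m z‖ ≤ 1 + m z ^ 2
    rw [Real.norm_eq_abs, ← sq_abs (m z)]
    nlinarith [sq_nonneg (|m z| - 1), abs_nonneg (m z)]
  -- the first moment of `m`
  have lim1 : Tendsto (fun j => ∫ z, χ j z * m z ∂(area Ω ρ)) atTop
      (𝓝 (∫ z, m z ∂(area Ω ρ))) := by
    refine tendsto_integral_of_dominated_convergence (fun z => ‖m z‖) (fun j =>
      ((h1 j).1.continuous.aestronglyMeasurable).mul X.mme) im1.norm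
      (fun j => ae_of_all _ fun z => ?_) ?_
    · rw [norm_mul, Real.norm_eq_abs, abs_of_nonneg (h2 j z)]
      exact mul_le_of_le_one_left (norm_nonneg _) (h3 j z)
    · filter_upwards [ptw] with z hz
      have := hz.mul_const (m z)
      rwa [one_mul] at this
  have lim2 : Tendsto (fun j => ∫ z, χ j z ∂(area Ω ρ)) atTop (𝓝 V) := by
    rw [← cV]
    refine tendsto_integral_of_dominated_convergence (fun _ => (1 : ℝ)) (fun j =>
      (h1 j).1.continuous.aestronglyMeasurable) (integrable_const _)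
      (fun j => ae_of_all _ fun z => ?_) ptw
    rw [Real.norm_eq_abs, abs_of_nonneg (h2 j z)]; exact h3 j z
  have m1 : V ≤ ∫ z, m z ∂(area Ω ρ) := by
    refine le_of_forall_pos_le_add fun δ hδ => ?_
    obtain ⟨e, he⟩ : ∃ e : ℝ, e = δ / (4 * (3 * V + 1)) := ⟨_, rfl⟩
    have e0 : 0 < e := by rw [he]; positivity
    have ev1 := lim1.eventually (gt_mem_nhds (show (∫ z, m z ∂(area Ω ρ)) <
      (∫ z, m z ∂(area Ω ρ)) + δ / 4 by linarith))
    have ev2 := lim2.eventually (lt_mem_nhds (show V - e * δ / 4 < V by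
      have : 0 < e * δ / 4 := by positivity
      linarith))
    obtain ⟨j, hj1, hj2⟩ := (ev1.and ev2).exists
    have v := QC.vague X.rawG (TF.mulc X.oΩ (h1 j) X.sρ)
    rw [X.test (h1 j)] at v
    have w : Tendsto (fun n => (∫ z, χ j z * u n z ^ 2 ∂(area Ω ρ)) +
        (e * (3 * V + 1) + e⁻¹ * (V - ∫ z, χ j z ∂(area Ω ρ)))) atTop
        (𝓝 ((∫ z, χ j z * m z ∂(area Ω ρ)) +
        (e * (3 * V + 1) + e⁻¹ * (V - ∫ z, χ j z ∂(area Ω ρ))))) :=
      (v.congr fun n => X.test (h1 j) _).add_const _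
    have fin := le_of_tendsto_of_tendsto hh2 w (by
      filter_upwards [hh4 1 one_pos] with n hn
      have i2 : Integrable (fun z => u n z ^ 2) (area Ω ρ) := by
        refine Integrable.mono' ((integrable_const (1 : ℝ)).add (X.i4 n))
          ((continuous_pow 2).comp_aestronglyMeasurable (X.ume n)) (ae_of_all _ fun z => ?_)
        show ‖u n z ^ 2‖ ≤ 1 + u n z ^ 4
        rw [Real.norm_eq_abs, abs_of_nonneg (sq_nonneg _)]
        nlinarith [sq_nonneg (u n z ^ 2 - 1), sq_nonneg (u n z)]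
      have i3 : Integrable (fun z => χ j z * u n z ^ 2) (area Ω ρ) :=
        Integrable.bdd_mul (c := 1) i2 (h1 j).1.continuous.aestronglyMeasurable
          (ae_of_all _ fun z => by
            rw [Real.norm_eq_abs, abs_of_nonneg (h2 j z)]; exact h3 j z)
      have i5 : Integrable (fun z => 1 - χ j z) (area Ω ρ) :=
        (integrable_const (1 : ℝ)).sub (X.iχ (h1 j))
      have i6 : Integrable (fun z => e * u n z ^ 4 + e⁻¹ * (1 - χ j z)) (area Ω ρ) :=
        ((X.i4 n).const_mul _).add (i5.const_mul _)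
      have b1 : ∫ z, u n z ^ 2 ∂(area Ω ρ) ≤
          ∫ z, (χ j z * u n z ^ 2 + (e * u n z ^ 4 + e⁻¹ * (1 - χ j z))) ∂(area Ω ρ) := by
        refine integral_mono i2 (i3.add i6) fun z => ?_
        show u n z ^ 2 ≤ χ j z * u n z ^ 2 + (e * u n z ^ 4 + e⁻¹ * (1 - χ j z))
        have q0 : 0 ≤ 1 - χ j z := by linarith [h3 j z]
        have q1 : 1 - χ j z ≤ 1 := by linarith [h2 j z]
        have r1 : 0 ≤ e⁻¹ * (e * u n z ^ 2 - 1) ^ 2 := by positivity
        have r2 : e⁻¹ * (e * u n z ^ 2 - 1) ^ 2 = e * u n z ^ 4 - 2 * u n z ^ 2 + e⁻¹ := by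
          field_simp
          ring
        have r3 : u n z ^ 2 ≤ e * u n z ^ 4 + e⁻¹ := by nlinarith [sq_nonneg (u n z)]
        have r4 := mul_le_mul_of_nonneg_left r3 q0
        have r5 : (1 - χ j z) * (e * u n z ^ 4) ≤ e * u n z ^ 4 :=
          mul_le_of_le_one_left (by positivity) q1
        nlinarith
      rw [integral_add i3 i6, integral_add ((X.i4 n).const_mul _) (i5.const_mul _),
        integral_const_mul, integral_const_mul, integral_sub (integrable_const _) (X.iχ (h1 j)),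
        cV] at b1
      have b2 := mul_le_mul_of_nonneg_left hn e0.le
      linarith)
    have a1 : e * (3 * V + 1) = δ / 4 := by rw [he]; field_simp
    have a2 : e⁻¹ * (V - ∫ z, χ j z ∂(area Ω ρ)) ≤ δ / 4 := by
      have : V - ∫ z, χ j z ∂(area Ω ρ) ≤ e * δ / 4 := by linarith
      have r := mul_le_mul_of_nonneg_left this (inv_pos.2 e0).le
      have r2 : e⁻¹ * (e * δ / 4) = δ / 4 := by field_simp
      linarith
    linarith
  -- the variance
  have ii : Integrable (fun z => (m z - 1) ^ 2) (area Ω ρ) := by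
    have : Integrable (fun z => (m z ^ 2 - 2 * m z) + 1) (area Ω ρ) :=
      (im2.sub (im1.const_mul 2)).add (integrable_const _)
    exact this.congr (ae_of_all _ fun z => by ring)
  have var : ∫ z, (m z - 1) ^ 2 ∂(area Ω ρ) ≤ 0 := by
    have e : ∫ z, (m z - 1) ^ 2 ∂(area Ω ρ) = ((∫ z, m z ^ 2 ∂(area Ω ρ)) -
        2 * ∫ z, m z ∂(area Ω ρ)) + V := by
      have h3 : ∀ z, (m z - 1) ^ 2 = (m z ^ 2 - 2 * m z) + 1 := fun z => by ring
      simp only [h3]
      have ia : Integrable (fun z => m z ^ 2 - 2 * m z) (area Ω ρ) := im2.sub (im1.const_mul 2)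
      rw [integral_add ia (integrable_const _), integral_sub im2 (im1.const_mul 2),
        integral_const_mul, cV]
    rw [e]; linarith
  have z0 : ∫ z, (m z - 1) ^ 2 ∂(area Ω ρ) = 0 :=
    le_antisymm var (integral_nonneg fun z => sq_nonneg _)
  have ae1 := (integral_eq_zero_iff_of_nonneg (fun z => sq_nonneg (m z - 1)) ii).1 z0
  refine X.ae_iff ?_
  filter_upwards [ae1] with z hz
  have h5 : (m z - 1) ^ 2 = 0 := hz
  have h6 : m z - 1 = 0 := by simpa using h5
  linarith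

/-- the data with density one -/
theorem LE.LD (X : LE Ω ρ lam u m κ) : LL.LD Ω ρ lam u κ 3 := by
  refine ⟨X.oΩ, X.ne, X.sρ, X.pρ, X.fin, X.lp, X.ll, X.su, X.eq, fun φ hφ k => ?_, X.pa, X.i4,
    X.h4⟩
  have h1 := X.qe φ hφ k
  have e : ∫ z, ((φ z * ρ z : ℝ) : ℂ) * TH294.RG.MM m ea κ k z =
      ∫ z, ((φ z * ρ z : ℝ) : ℂ) * TH294.RG.MM (fun _ => 1) ea κ k z := by
    rw [← setIntegral_eq_integral_of_forall_compl_eq_zero (s := Ω) (fun z hz => by
      rw [TF.zero hφ hz]; simp),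
      ← setIntegral_eq_integral_of_forall_compl_eq_zero (s := Ω)
      (f := fun z => ((φ z * ρ z : ℝ) : ℂ) * TH294.RG.MM (fun _ => 1) ea κ k z) (fun z hz => by
      rw [TF.zero hφ hz]; simp)]
    refine integral_congr_ae ?_
    filter_upwards [X.one] with z hz
    simp only [TH294.RG.MM, hz]
  rw [← e]
  exact h1

end

end Pool.Agent.Q175.RW.FT
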