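import Pool.Agent.Q175.RW.FT

/-! Total fourth moment on surfaces of finite area: consequences. -/
set_option autoImplicit false
open MeasureTheory Filter Topology Complex ProbabilityTheory
open scoped ContDiff ENNReal

namespace Pool.Agent.Q175.RW.FT

open Pool.Agent.W745.RW Pool.Agent.TH294.RS
open Pool.Agent.TH294.RG (RawG ea par ea_meas ea_norm GD W1 W1_eq ep2 GG' dm mean_dm)
open Pool.Agent.Y139.PD (area a_me)
open Pool.Agent.Q175.RW.LL

noncomputable section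

variable {Ω : Set ℂ} {ρ : ℂ → ℝ} {lam : ℕ → ℝ} {u : ℕ → ℂ → ℝ} {κ : Kernel ℂ ℝ} {ψ : ℂ → ℝ}
  {K : ℝ}

lemma mint (X : LL.LD Ω ρ lam u κ K) (g : ℂ → ℝ) :
    ∫ z, g z ∂(area Ω ρ) = ∫ z in Ω, ρ z * g z := by
  have := X.int g MeasurableSet.univ
  rwa [Measure.restrict_univ, Set.univ_inter] at this

lemma iff_int (X : LL.LD Ω ρ lam u κ K) {g : ℂ → ℝ} :
    Integrable g (area Ω ρ) ↔ IntegrableOn (fun z => ρ z * g z) Ω := by
  unfold area
  rw [integrable_withDensity_iff_integrable_smul₀' (a_me X.oΩ X.sρ)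
    (ae_of_all _ fun _ => ENNReal.ofReal_lt_top)]
  refine integrable_congr ?_
  refine (ae_restrict_mem X.oΩ.measurableSet).mono fun z hz => ?_
  show (ENNReal.ofReal (ρ z)).toReal • g z = ρ z * g z
  rw [ENNReal.toReal_ofReal (X.pρ z hz).le, smul_eq_mul]

lemma ibd (X : LL.LD Ω ρ lam u κ K) (cψ : ContinuousOn ψ Ω) {M : ℝ} (hM : ∀ z ∈ Ω, |ψ z| ≤ M)
    {g : ℂ → ℝ} (hg : Integrable g (area Ω ρ)) : Integrable (fun z => ψ z * g z) (area Ω ρ) := by
  refine Integrable.bdd_mul (c := M) hg ?_ ?_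
  · exact (cψ.aestronglyMeasurable X.oΩ.measurableSet).mono_ac
      (withDensity_absolutelyContinuous _ _)
  · filter_upwards [X.aeΩ] with z hz
    exact hM z hz

lemma cW1 (X : LL.LD Ω ρ lam u κ 3) (k : ℤ) (n : ℕ) :
    ContinuousOn (W1 (fun z => 1 / √(ρ z)) (1 / √(lam n)) (u n) k) Ω := by
  have sa : ContDiffOn ℝ ∞ (fun z => 1 / √(ρ z)) Ω := X.rawG.sa
  have h0 : ∀ j : ℕ, ContDiffOn ℝ ∞ ((DP (fun z => 1 / √(ρ z)) (1 / √(lam n)))^[j]
      (fun w => (u n w : ℂ))) Ω := fun j =>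
    DPk_sm X.oΩ sa _ (ofRealCLM.contDiff.comp_contDiffOn (X.su n)) j
  cases k with
  | ofNat j => exact (h0 j).continuousOn
  | negSucc j =>
    exact continuousOn_const.mul (Complex.continuous_conj.comp_continuousOn (h0 (j + 1)).continuousOn)

variable [IsMarkovKernel κ]

/-- lower bound with continuous weights -/
lemma lowc (X : LL.LD Ω ρ lam u κ 3) (cψ : ContinuousOn ψ Ω) (h0 : ∀ z ∈ Ω, 0 ≤ ψ z) {M : ℝ}
    (hM : ∀ z ∈ Ω, |ψ z| ≤ M) {ε : ℝ} (hε : 0 < ε) :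
    ∀ᶠ n in atTop, 3 * (∫ z, ψ z ∂(area Ω ρ)) - ε ≤ ∫ z, ψ z * u n z ^ 4 ∂(area Ω ρ) := by
  have := X.fm
  have op : ∀ V : Set ℂ, IsOpen V → V ⊆ Ω →
      (ENNReal.ofReal 3) * volume V ≤
        liminf (fun n => ∫⁻ z in V, ENNReal.ofReal (u n z ^ 4)) atTop := by
    intro V oV hV
    have k := RawG.fin X.oΩ ea_meas ea_norm (fun K' hK' _ => mem1 K' hK') X.rawG oV hV
      (r := fun _ => 1) contDiffOn_const (fun _ _ => zero_le_one)
    have e1 : ∫⁻ z in V, ENNReal.ofReal ((1 : ℝ) * GD (fun _ => 1) ea κ z) =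
        (ENNReal.ofReal 3) * volume V := by
      rw [← setLIntegral_const]
      refine lintegral_congr_ae ?_
      filter_upwards [ae_restrict_of_ae_restrict_of_subset hV X.pa] with z hz
      simp only [TH294.RG.GD, hz]
      norm_num
    rw [e1] at k
    simpa only [one_mul] using k
  have key := weight_of_open X.oΩ (F := fun n z => u n z ^ 4)
    (fun n => ((X.su n).continuousOn).pow 4) op
    (w := fun z => ρ z * ψ z) (X.sρ.continuousOn.mul cψ)
    (fun z hz => mul_nonneg (X.pρ z hz).le (h0 z hz))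
  have i1 : IntegrableOn (fun z => ρ z * ψ z) Ω := by
    have := ibd X cψ hM (g := fun _ => 1) (integrable_const _)
    simp only [mul_one] at this
    exact (iff_int X).1 this
  have i4 : ∀ n, IntegrableOn (fun z => ρ z * ψ z * u n z ^ 4) Ω := fun n => by
    have h1 := (iff_int X).1 (ibd X cψ hM (X.i4 n))
    refine IntegrableOn.congr_fun h1 (fun z _ => ?_) X.oΩ.measurableSet
    show ρ z * (ψ z * u n z ^ 4) = ρ z * ψ z * u n z ^ 4
    ring
  have nn : ∀ n, 0 ≤ ∫ z, ψ z * u n z ^ 4 ∂(area Ω ρ) := fun n => by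
    refine integral_nonneg_of_ae ?_
    filter_upwards [X.aeΩ] with z hz
    exact mul_nonneg (h0 z hz) (by positivity)
  have e1 : ∫⁻ z in Ω, ENNReal.ofReal (ρ z * ψ z) = ENNReal.ofReal (∫ z, ψ z ∂(area Ω ρ)) := by
    rw [mint X, ofReal_integral_eq_lintegral_ofReal i1
      ((ae_restrict_mem X.oΩ.measurableSet).mono fun z hz =>
        mul_nonneg (X.pρ z hz).le (h0 z hz))]
  have e2 : ∀ n, ∫⁻ z in Ω, ENNReal.ofReal (ρ z * ψ z * u n z ^ 4) =
      ENNReal.ofReal (∫ z, ψ z * u n z ^ 4 ∂(area Ω ρ)) := by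
    intro n
    have e3 : ∫ z, ψ z * u n z ^ 4 ∂(area Ω ρ) = ∫ z in Ω, ρ z * ψ z * u n z ^ 4 := by
      rw [mint X]; congr 1; funext z; ring
    rw [e3, ofReal_integral_eq_lintegral_ofReal (i4 n)
      ((ae_restrict_mem X.oΩ.measurableSet).mono fun z hz =>
        mul_nonneg (mul_nonneg (X.pρ z hz).le (h0 z hz)) (by positivity))]
  rw [e1, ← ENNReal.ofReal_mul (by norm_num)] at key
  rw [show (fun n => ∫⁻ z in Ω, ENNReal.ofReal (ρ z * ψ z * u n z ^ 4)) =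
    fun n => ENNReal.ofReal (∫ z, ψ z * u n z ^ 4 ∂(area Ω ρ)) from funext e2] at key
  by_cases hc : 3 * (∫ z, ψ z ∂(area Ω ρ)) - ε < 0
  · exact Eventually.of_forall fun n => hc.le.trans (nn n)
  · have hc' := not_lt.1 hc
    have h1 : ENNReal.ofReal (3 * (∫ z, ψ z ∂(area Ω ρ)) - ε) <
        ENNReal.ofReal (3 * ∫ z, ψ z ∂(area Ω ρ)) :=
      (ENNReal.ofReal_lt_ofReal_iff (by linarith)).2 (by linarith)
    have h2 := eventually_lt_of_lt_liminf (h1.trans_le key)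
    filter_upwards [h2] with n hn
    exact ((ENNReal.ofReal_lt_ofReal_iff_of_nonneg hc').1 hn).le

/-- `u⁴ dvol → 3 dvol`, tested with bounded continuous functions -/
theorem weak4 (X : LL.LD Ω ρ lam u κ 3) (cψ : ContinuousOn ψ Ω) {M : ℝ}
    (hM : ∀ z ∈ Ω, |ψ z| ≤ M) :
    Tendsto (fun n => ∫ z, ψ z * u n z ^ 4 ∂(area Ω ρ)) atTop
      (𝓝 (3 * ∫ z, ψ z ∂(area Ω ρ))) := by
  have := X.fm
  obtain ⟨V, hV⟩ : ∃ V : ℝ, V = (area Ω ρ Set.univ).toReal := ⟨_, rfl⟩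
  have cV : ∫ _z : ℂ, (1 : ℝ) ∂(area Ω ρ) = V := by
    rw [integral_const, smul_eq_mul, mul_one, hV]; rfl
  have h4 := X.h4
  rw [← hV] at h4
  obtain ⟨N, hN⟩ : ∃ N, N = |M| := ⟨_, rfl⟩
  have N0 : 0 ≤ N := by rw [hN]; exact abs_nonneg _
  have hNM : ∀ z ∈ Ω, |ψ z| ≤ N := fun z hz => (hM z hz).trans (by rw [hN]; exact le_abs_self _)
  have b1 : ∀ z ∈ Ω, |N + ψ z| ≤ 2 * N := fun z hz => by
    have := abs_le.1 (hNM z hz)
    rw [abs_le]; constructor <;> linarith [this.1, this.2]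
  have b2 : ∀ z ∈ Ω, |N - ψ z| ≤ 2 * N := fun z hz => by
    have := abs_le.1 (hNM z hz)
    rw [abs_le]; constructor <;> linarith [this.1, this.2]
  have n1 : ∀ z ∈ Ω, 0 ≤ N + ψ z := fun z hz => by linarith [(abs_le.1 (hNM z hz)).1]
  have n2 : ∀ z ∈ Ω, 0 ≤ N - ψ z := fun z hz => by linarith [(abs_le.1 (hNM z hz)).2]
  have c1 : ContinuousOn (fun z => N + ψ z) Ω := continuousOn_const.add cψ
  have c2 : ContinuousOn (fun z => N - ψ z) Ω := continuousOn_const.sub cψ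
  have i0 : Integrable ψ (area Ω ρ) := by
    have := ibd X cψ hM (g := fun _ => 1) (integrable_const _)
    simpa only [mul_one] using this
  have iψ4 : ∀ n, Integrable (fun z => ψ z * u n z ^ 4) (area Ω ρ) := fun n => ibd X cψ hM (X.i4 n)
  have a1 : ∫ z, (N + ψ z) ∂(area Ω ρ) = N * V + ∫ z, ψ z ∂(area Ω ρ) := by
    rw [integral_add (integrable_const _) i0, ← cV, ← integral_const_mul]
    simp only [mul_one]
  have a2 : ∫ z, (N - ψ z) ∂(area Ω ρ) = N * V - ∫ z, ψ z ∂(area Ω ρ) := by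
    rw [integral_sub (integrable_const _) i0, ← cV, ← integral_const_mul]
    simp only [mul_one]
  have a3 : ∀ n, ∫ z, (N + ψ z) * u n z ^ 4 ∂(area Ω ρ) =
      N * (∫ z, u n z ^ 4 ∂(area Ω ρ)) + ∫ z, ψ z * u n z ^ 4 ∂(area Ω ρ) := by
    intro n
    rw [← integral_const_mul, ← integral_add ((X.i4 n).const_mul N) (iψ4 n)]
    congr 1; funext z; ring
  have a4 : ∀ n, ∫ z, (N - ψ z) * u n z ^ 4 ∂(area Ω ρ) =
      N * (∫ z, u n z ^ 4 ∂(area Ω ρ)) - ∫ z, ψ z * u n z ^ 4 ∂(area Ω ρ) := by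
    intro n
    rw [← integral_const_mul, ← integral_sub ((X.i4 n).const_mul N) (iψ4 n)]
    congr 1; funext z; ring
  rw [Metric.tendsto_atTop']
  intro ε hε
  obtain ⟨δ, hδ⟩ : ∃ δ, δ = ε / (2 * (N + 1)) := ⟨_, rfl⟩
  have δ0 : 0 < δ := by rw [hδ]; positivity
  have l1 := lowc X c1 n1 b1 δ0
  have l2 := lowc X c2 n2 b2 δ0
  obtain ⟨n0, hn0⟩ := eventually_atTop.1 (l1.and (l2.and (h4 δ δ0)))
  refine ⟨n0, fun n hn => ?_⟩
  obtain ⟨p1, p2, p3⟩ := hn0 n hn.le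
  rw [a1, a3] at p1
  rw [a2, a4] at p2
  have p4 := mul_le_mul_of_nonneg_left p3 N0
  have p5 : N * δ + δ < ε := by
    have : (N + 1) * δ = ε / 2 := by rw [hδ]; field_simp
    nlinarith
  rw [Real.dist_eq, abs_lt]
  constructor <;> nlinarith

/-- local fourth moments -/
theorem loc4 (X : LL.LD Ω ρ lam u κ 3) (hψ : TF Ω ψ) :
    Tendsto (fun n => ∫ z, ψ z * ρ z * u n z ^ 4) atTop (𝓝 (3 * ∫ z, ψ z * ρ z)) := by
  obtain ⟨M, -, hM⟩ := TM.tf_bd hψ
  have w := weak4 X (ψ := ψ) hψ.1.continuous.continuousOn (fun z _ => hM z)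
  have e : ∫ z, ψ z ∂(area Ω ρ) = ∫ z, ψ z * ρ z := by
    have := X.test hψ (fun _ => 1)
    simp only [mul_one] at this
    exact this.symm
  rw [e] at w
  exact w.congr fun n => (X.test hψ _).symm

/-- **all local fourth moments** -/
theorem fourth (X : LL.LD Ω ρ lam u κ 3) (hψ : TF Ω ψ) (a b c d : ℤ) :
    Tendsto (fun n => ∫ z, ((ψ z * ρ z : ℝ) : ℂ) *
        (W1 (fun z => 1 / √(ρ z)) (1 / √(lam n)) (u n) a z *
        W1 (fun z => 1 / √(ρ z)) (1 / √(lam n)) (u n) b z *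
        W1 (fun z => 1 / √(ρ z)) (1 / √(lam n)) (u n) c z *
        W1 (fun z => 1 / √(ρ z)) (1 / √(lam n)) (u n) d z)) atTop
      (𝓝 (∫ z, ((ψ z * ρ z : ℝ) : ℂ) *
        GG' (TH294.RG.MM (fun _ => 1) ea κ) a b c d z)) := by
  have pos : ∀ ψ : ℂ → ℝ, TF Ω ψ → (∀ z, 0 ≤ ψ z) →
      Tendsto (fun n => ∫ z, ((ψ z * ρ z : ℝ) : ℂ) *
        (W1 (fun z => 1 / √(ρ z)) (1 / √(lam n)) (u n) a z *
        W1 (fun z => 1 / √(ρ z)) (1 / √(lam n)) (u n) b z *
        W1 (fun z => 1 / √(ρ z)) (1 / √(lam n)) (u n) c z *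
        W1 (fun z => 1 / √(ρ z)) (1 / √(lam n)) (u n) d z)) atTop
      (𝓝 (∫ z, ((ψ z * ρ z : ℝ) : ℂ) *
        GG' (TH294.RG.MM (fun _ => 1) ea κ) a b c d z)) := by
    intro ψ hψ ψ0
    obtain ⟨S, hS, hχS, hSΩ⟩ := exists_compact_between (K := tsupport ψ) hψ.2.1 X.oΩ hψ.2.2
    have hψ' : TF (interior S) ψ := ⟨hψ.1, hψ.2.1, hχS⟩
    have hφρ : TF (interior S) (fun z => ψ z * ρ z) :=
      TF.mulc isOpen_interior hψ' (X.sρ.mono (interior_subset.trans hSΩ))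
    have hφ0 : ∀ z, 0 ≤ ψ z * ρ z := by
      intro z
      by_cases hz : z ∈ Ω
      · exact mul_nonneg (ψ0 z) (X.pρ z hz).le
      · rw [TF.zero hψ hz, zero_mul]
    obtain ⟨C, C0, hC⟩ := X.K4 hS hSΩ
    have l := loc4 X hψ
    have epb : ∀ a b c d : ℤ, ‖ep2 a b c d‖ ≤ 1 := by
      intro a b c d
      unfold ep2
      split_ifs with h
      · unfold eps
        split_ifs
        · simp
        · rw [norm_neg, norm_div]; norm_num
      · simp
    have fr := fun (ε : ℝ) (hε : 0 < ε) => TH294.RG.fam_rel (fun K' hK' _ => mem1 K' hK') X.pa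
      X.rawG hS hSΩ hφρ hφ0 ({()} : Finset Unit) (fun _ => 1) (fun _ => (a, b, c, d)) (C := 1)
      (fun ζ hζ => by
        simp only [Finset.sum_singleton, one_mul]
        rw [norm_mul, norm_zpow, hζ, one_zpow, mul_one]
        exact epb _ _ _ _) hε
    rw [Metric.tendsto_atTop'] at l ⊢
    intro ε hε
    obtain ⟨n1, h1⟩ := l (ε / 2) (by positivity)
    obtain ⟨n2, h2⟩ := eventually_atTop.1 ((fr (ε / (4 * (1 + C))) (by positivity)).and hC)
    refine ⟨max n1 n2, fun n hn => ?_⟩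
    have g1 := h1 n ((le_max_left _ _).trans_lt hn)
    obtain ⟨g2, g3⟩ := h2 n ((le_max_right _ _).trans hn.le)
    simp only [Finset.sum_singleton, one_mul, one_pow, mul_one] at g2
    rw [Real.dist_eq, abs_lt] at g1
    rw [dist_eq_norm]
    refine g2.trans_lt ?_
    have g4 : ε / (4 * (1 + C)) * (1 + ∫ z in S, u n z ^ 4) ≤ ε / 4 := by
      have : ε / (4 * (1 + C)) * (1 + ∫ z in S, u n z ^ 4) ≤ ε / (4 * (1 + C)) * (1 + C) :=
        mul_le_mul_of_nonneg_left (by linarith) (by positivity)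
      refine this.trans (le_of_eq ?_)
      field_simp
    linarith [g1.2]
  obtain ⟨p, q, hp, hq, p0, q0, e⟩ := TM.split X.oΩ hψ
  have l := (pos p hp p0).sub (pos q hq q0)
  have cG : ContinuousOn (fun _ : ℂ => (1 : ℂ)) Ω := continuousOn_const
  have iW : ∀ {p : ℂ → ℝ}, TF Ω p → ∀ n, Integrable (fun z => ((p z * ρ z : ℝ) : ℂ) *
        (W1 (fun z => 1 / √(ρ z)) (1 / √(lam n)) (u n) a z *
        W1 (fun z => 1 / √(ρ z)) (1 / √(lam n)) (u n) b z *
        W1 (fun z => 1 / √(ρ z)) (1 / √(lam n)) (u n) c z *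
        W1 (fun z => 1 / √(ρ z)) (1 / √(lam n)) (u n) d z)) := by
    intro p hp n
    exact TF.cint (TF.mulc X.oΩ hp X.sρ)
      ((((cW1 X a n).mul (cW1 X b n)).mul (cW1 X c n)).mul (cW1 X d n))
  have iG : ∀ {p : ℂ → ℝ}, TF Ω p → Integrable (fun z => ((p z * ρ z : ℝ) : ℂ) *
      GG' (TH294.RG.MM (fun _ => 1) ea κ) a b c d z) := by
    intro p hp
    have tp := TF.mulc X.oΩ hp X.sρ
    have ml := fun k => TH294.RG.MM_ml (ν := κ) (B := Ω) (m := fun _ => 1) ea_meas ea_norm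
      (fun K' hK' _ => mem1 K' hK') k
    have mm := fun (a b c d : ℤ) => (TH294.RG.ML.cc ml a b).mulint (TH294.RG.ML.cc ml c d)
      tp.2.1 tp.2.2
    refine TH294.RG.TF.intK tp ?_
    exact ((mm a b c d).add (mm a c b d)).add (mm a d b c)
  rw [← integral_sub (iG hp) (iG hq)] at l
  have e2 : ∫ z, (((p z * ρ z : ℝ) : ℂ) * GG' (TH294.RG.MM (fun _ => 1) ea κ) a b c d z -
      ((q z * ρ z : ℝ) : ℂ) * GG' (TH294.RG.MM (fun _ => 1) ea κ) a b c d z) =
      ∫ z, ((ψ z * ρ z : ℝ) : ℂ) * GG' (TH294.RG.MM (fun _ => 1) ea κ) a b c d z := by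
    congr 1; funext z
    rw [e z]; push_cast; ring
  rw [e2] at l
  refine l.congr fun n => ?_
  rw [← integral_sub (iW hp n) (iW hq n)]
  congr 1; funext z
  rw [e z]; push_cast; ring

end

end Pool.Agent.Q175.RW.FT
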