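import Pool.Agent.Q175.RW.FT2

/-! Total fourth moment on surfaces of finite area: weak convergence and third moments. -/
set_option autoImplicit false
open MeasureTheory Filter Topology Complex ProbabilityTheory
open scoped ContDiff ENNReal

namespace Pool.Agent.Q175.RW.FT

open Pool.Agent.W745.RW Pool.Agent.TH294.RS
open Pool.Agent.Y139.PD (area a_me)
open Pool.Agent.Q175.RW.LL

noncomputable section

variable {Ω : Set ℂ} {ρ : ℂ → ℝ} {lam : ℕ → ℝ} {u : ℕ → ℂ → ℝ} {κ : Kernel ℂ ℝ} {ψ : ℂ → ℝ}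
  {K : ℝ} [IsMarkovKernel κ]

/-- third moments of the field -/
theorem third (Y : LL.LD Ω ρ lam u κ K) (hψ : TF Ω ψ) (a b c : ℤ) :
    Tendsto (fun n => ∫ z, ((ψ z * ρ z : ℝ) : ℂ) *
      (WW ρ (lam n) (u n) a z * WW ρ (lam n) (u n) b z * WW ρ (lam n) (u n) c z)) atTop
      (𝓝 0) := by
  obtain ⟨S, hS, hχS, hSΩ⟩ := exists_compact_between (K := tsupport ψ) hψ.2.1 Y.oΩ hψ.2.2
  have hψ' : TF (interior S) ψ := ⟨hψ.1, hψ.2.1, hχS⟩
  have hφρ : TF (interior S) (fun z => ψ z * ρ z) :=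
    TF.mulc isOpen_interior hψ' (Y.sρ.mono (interior_subset.trans hSΩ))
  have key := TH294.RG.third_lim (fun K' hK' _ => mem1 K' hK') Y.pa Y.rawG hS hSΩ hφρ a b c
  obtain ⟨B, B0, hB⟩ := Y.K4 hS hSΩ
  have hb : ∀ᶠ n in atTop, ‖((√(1 + ∫ z in S, u n z ^ 4) : ℝ) : ℂ)‖ ≤ √(1 + B) := by
    filter_upwards [hB] with n hn
    rw [Complex.norm_real, Real.norm_eq_abs, abs_of_nonneg (Real.sqrt_nonneg _)]
    exact Real.sqrt_le_sqrt (by linarith)
  have k2 := key.zero_mul_isBoundedUnder_le (g := fun n => ((√(1 + ∫ z in S, u n z ^ 4) : ℝ) : ℂ))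
    (isBoundedUnder_of_eventually_le hb)
  refine k2.congr fun n => ?_
  have s0 : 0 ≤ ∫ z in S, u n z ^ 4 := integral_nonneg fun z => by positivity
  have s1 : ((√(1 + ∫ z in S, u n z ^ 4) : ℝ) : ℂ) ≠ 0 := by
    have : 0 < √(1 + ∫ z in S, u n z ^ 4) := Real.sqrt_pos.2 (by linarith)
    exact_mod_cast this.ne'
  simp only [← WW_eq ρ Y.lp u]
  rw [mul_comm, ← mul_assoc, mul_inv_cancel₀ s1, one_mul]

/-- `u² dvol → dvol`, tested with bounded smooth functions -/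
theorem weak2 (Y : LL.LD Ω ρ lam u κ K) (sψ : ContDiffOn ℝ ∞ ψ Ω) {M : ℝ}
    (hM : ∀ z ∈ Ω, |ψ z| ≤ M) :
    Tendsto (fun n => ∫ z, ψ z * u n z ^ 2 ∂(area Ω ρ)) atTop (𝓝 (∫ z, ψ z ∂(area Ω ρ))) := by
  have := Y.fm
  have h4i := Y.i4
  have hΩ := Y.oΩ
  have hρ := Y.sρ
  have iψ : Integrable ψ (area Ω ρ) := by
    have := ibd Y sψ.continuousOn hM (g := fun _ => 1)
      (integrable_const _)
    simpa only [mul_one] using this
  have i2 : ∀ n, Integrable (fun z => u n z ^ 2) (area Ω ρ) := fun n => by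
    refine Integrable.mono' ((integrable_const (1 : ℝ)).add (h4i n))
      ((continuous_pow 2).comp_aestronglyMeasurable (Y.ume n)) (ae_of_all _ fun z => ?_)
    show ‖u n z ^ 2‖ ≤ 1 + u n z ^ 4
    rw [Real.norm_eq_abs, abs_of_nonneg (sq_nonneg _)]
    nlinarith [sq_nonneg (u n z ^ 2 - 1), sq_nonneg (u n z)]
  have iψ2 : ∀ n, Integrable (fun z => ψ z * u n z ^ 2) (area Ω ρ) := fun n =>
    ibd Y sψ.continuousOn hM (i2 n)
  obtain ⟨ψ', hψ'⟩ : ∃ ψ' : ℂ → ℝ, ψ' = Ω.indicator ψ := ⟨_, rfl⟩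
  have b' : ∀ z, |ψ' z| ≤ |M| := fun z => by
    rw [hψ']
    by_cases hz : z ∈ Ω
    · rw [Set.indicator_of_mem hz]; exact (hM z hz).trans (le_abs_self _)
    · rw [Set.indicator_of_notMem hz, abs_zero]; exact abs_nonneg _
  have e' : ∀ᵐ z ∂(area Ω ρ), ψ' z = ψ z := by
    filter_upwards [Y.aeΩ] with z hz
    rw [hψ', Set.indicator_of_mem hz]
  have k := Y.glob (G := fun n z => ψ' z * (u n z ^ 2 - 1)) (l := 0) (fun n => ?_)
    (fun e he => ⟨|M| * (|M| * e⁻¹ + 1), by positivity, fun n z => ?_⟩) fun χ hχ _ _ => ?_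
  · rw [zero_mul] at k
    have k2 := k.add_const (∫ z, ψ z ∂(area Ω ρ))
    rw [zero_add] at k2
    refine k2.congr fun n => ?_
    have e1 : ∫ z, ψ' z * (u n z ^ 2 - 1) ∂(area Ω ρ) =
        ∫ z, (ψ z * u n z ^ 2 - ψ z) ∂(area Ω ρ) := by
      refine integral_congr_ae ?_
      filter_upwards [e'] with z hz
      rw [hz]; ring
    show (∫ z, ψ' z * (u n z ^ 2 - 1) ∂(area Ω ρ)) + ∫ z, ψ z ∂(area Ω ρ) = _
    rw [e1]
    have e2 := integral_sub (iψ2 n) iψ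
    rw [e2]; ring
  · have h1 : AEStronglyMeasurable (fun z => ψ z * (u n z ^ 2 - 1)) (area Ω ρ) :=
      iψ.aestronglyMeasurable.mul ((i2 n).sub (integrable_const (1 : ℝ))).aestronglyMeasurable
    refine h1.congr ?_
    filter_upwards [e'] with z hz
    rw [hz]
  · show |ψ' z * (u n z ^ 2 - 1)| ≤ e * u n z ^ 4 + |M| * (|M| * e⁻¹ + 1)
    rw [abs_mul]
    have r1 : |ψ' z| * |u n z ^ 2 - 1| ≤ |M| * (u n z ^ 2 + 1) := by
      refine mul_le_mul (b' z) ?_ (abs_nonneg _) (abs_nonneg _)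
      rw [abs_le]; constructor <;> nlinarith [sq_nonneg (u n z)]
    have r2 : 0 ≤ e⁻¹ * (e * u n z ^ 2 - |M|) ^ 2 := by positivity
    have r3 : e⁻¹ * (e * u n z ^ 2 - |M|) ^ 2 = e * u n z ^ 4 - 2 * (|M| * u n z ^ 2) +
        |M| * (|M| * e⁻¹) := by
      field_simp
      ring
    have r4 : 0 ≤ |M| * u n z ^ 2 := by positivity
    linarith
  · rw [zero_mul]
    have tχ : TF Ω (fun z => χ z * ψ z) := Pool.Agent.TH294.RS.TF.mulc hΩ hχ sψ
    have v := Pool.Agent.Q175.RW.QC.vague Y.rawG (Pool.Agent.TH294.RS.TF.mulc hΩ tχ hρ)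
    have t1 := Y.test tχ (fun _ => 1)
    have v2 := v.sub_const (∫ z, χ z * ψ z * ρ z * 1)
    rw [sub_self] at v2
    refine v2.congr fun n => ?_
    rw [t1, Y.test tχ (fun z => u n z ^ 2), ← integral_sub]
    · refine integral_congr_ae ?_
      filter_upwards [e'] with z hz
      rw [hz]; ring
    · have := Y.iχ tχ
      refine ((ibd Y (hχ.1.continuous.continuousOn)
        (M := (Pool.Agent.Q175.RW.TM.tf_bd hχ).choose) (fun z _ =>
          (Pool.Agent.Q175.RW.TM.tf_bd hχ).choose_spec.2 z) (iψ2 n)).congr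
        (ae_of_all _ fun z => ?_))
      show χ z * (ψ z * u n z ^ 2) = χ z * ψ z * u n z ^ 2
      ring
    · have := Y.iχ tχ
      simpa only [mul_one] using this

/-- `∫ ψ u³ dvol → 0` for bounded smooth functions -/
theorem weak3 (Y : LL.LD Ω ρ lam u κ K) (sψ : ContDiffOn ℝ ∞ ψ Ω) {M : ℝ}
    (hM : ∀ z ∈ Ω, |ψ z| ≤ M) :
    Tendsto (fun n => ∫ z, ψ z * u n z ^ 3 ∂(area Ω ρ)) atTop (𝓝 0) := by
  have := Y.fm
  have h4i := Y.i4
  have hΩ := Y.oΩ
  have hρ := Y.sρ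
  obtain ⟨ψ', hψ'⟩ : ∃ ψ' : ℂ → ℝ, ψ' = Ω.indicator ψ := ⟨_, rfl⟩
  have b' : ∀ z, |ψ' z| ≤ |M| := fun z => by
    rw [hψ']
    by_cases hz : z ∈ Ω
    · rw [Set.indicator_of_mem hz]; exact (hM z hz).trans (le_abs_self _)
    · rw [Set.indicator_of_notMem hz, abs_zero]; exact abs_nonneg _
  have e' : ∀ᵐ z ∂(area Ω ρ), ψ' z = ψ z := by
    filter_upwards [Y.aeΩ] with z hz
    rw [hψ', Set.indicator_of_mem hz]
  have iψ : Integrable ψ (area Ω ρ) := by
    have := ibd Y sψ.continuousOn hM (g := fun _ => 1)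
      (integrable_const _)
    simpa only [mul_one] using this
  have k := Y.glob (G := fun n z => ψ' z * u n z ^ 3) (l := 0) (fun n => ?_)
    (fun e he => ⟨|M| * (|M| / e) ^ 3, by positivity, fun n z => ?_⟩) fun χ hχ _ _ => ?_
  · rw [zero_mul] at k
    refine k.congr fun n => integral_congr_ae ?_
    filter_upwards [e'] with z hz
    rw [hz]
  · have h1 : AEStronglyMeasurable (fun z => ψ z * u n z ^ 3) (area Ω ρ) :=
      iψ.aestronglyMeasurable.mul ((continuous_pow 3).comp_aestronglyMeasurable (Y.ume n))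
    refine h1.congr ?_
    filter_upwards [e'] with z hz
    rw [hz]
  · show |ψ' z * u n z ^ 3| ≤ e * u n z ^ 4 + |M| * (|M| / e) ^ 3
    rw [abs_mul, abs_pow]
    obtain ⟨w, hw⟩ : ∃ w, w = |u n z| := ⟨_, rfl⟩
    have w0 : 0 ≤ w := by rw [hw]; exact abs_nonneg _
    have e4 : u n z ^ 4 = w ^ 4 := by rw [hw, ← abs_pow, abs_of_nonneg (by positivity)]
    rw [e4, ← hw]
    have r1 : |ψ' z| * w ^ 3 ≤ |M| * w ^ 3 := mul_le_mul_of_nonneg_right (b' z) (by positivity)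
    refine r1.trans ?_
    rcases le_total |M| (e * w) with h | h
    · have := mul_le_mul_of_nonneg_right h (show 0 ≤ w ^ 3 by positivity)
      have r2 : 0 ≤ |M| * (|M| / e) ^ 3 := by positivity
      nlinarith
    · have h5 : w ≤ |M| / e := by rw [le_div_iff₀ he]; linarith
      have h6 : w ^ 3 ≤ (|M| / e) ^ 3 := pow_le_pow_left₀ w0 h5 3
      have h7 := mul_le_mul_of_nonneg_left h6 (abs_nonneg M)
      have : 0 ≤ e * w ^ 4 := by positivity
      linarith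
  · rw [zero_mul]
    have tχ : TF Ω (fun z => χ z * ψ z) := Pool.Agent.TH294.RS.TF.mulc hΩ hχ sψ
    have t := third Y tχ 0 0 0
    have t2 := (Complex.continuous_re.tendsto _).comp t
    simp only [Function.comp_def, zero_re] at t2
    refine t2.congr fun n => ?_
    have w0 : ∀ z, WW ρ (lam n) (u n) 0 z = (u n z : ℂ) := fun z => rfl
    have e1 : ∫ z, ((χ z * ψ z * ρ z : ℝ) : ℂ) * (WW ρ (lam n) (u n) 0 z *
        WW ρ (lam n) (u n) 0 z * WW ρ (lam n) (u n) 0 z) =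
        ((∫ z, χ z * (ψ' z * u n z ^ 3) ∂(area Ω ρ) : ℝ) : ℂ) := by
      have e2 : ∫ z, χ z * (ψ' z * u n z ^ 3) ∂(area Ω ρ) =
          ∫ z, χ z * ψ z * u n z ^ 3 ∂(area Ω ρ) := by
        refine integral_congr_ae ?_
        filter_upwards [e'] with z hz
        rw [hz]; ring
      have e3 : ∫ z, χ z * ψ z * ρ z * u n z ^ 3 = ∫ z, χ z * ψ z * u n z ^ 3 ∂(area Ω ρ) :=
        Y.test tχ (fun z => u n z ^ 3)
      rw [e2, ← e3, ← integral_complex_ofReal]
      congr 1; funext z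
      rw [w0]; push_cast; ring
    rw [e1, ofReal_re]

end

end Pool.Agent.Q175.RW.FT
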