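import Mathlib

/-!
Regularity of measures on a product: from compact sets and open sets to Borel sets.
-/

set_option autoImplicit false
open MeasureTheory Filter Topology
open scoped ContDiff ENNReal Manifold

namespace Pool.Agent.Q175.RW.JS

lemma bump {E : Type*} [NormedAddCommGroup E] [NormedSpace ℝ E] [FiniteDimensional ℝ E]
    {C V : Set E} (hC : IsCompact C) (hV : IsOpen V) (h : C ⊆ V) :
    ∃ θ : E → ℝ, ContDiff ℝ ∞ θ ∧ HasCompactSupport θ ∧ tsupport θ ⊆ V ∧
      (∀ x ∈ C, θ x = 1) ∧ ∀ x, 0 ≤ θ x ∧ θ x ≤ 1 := by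
  obtain ⟨K, hK, h1, h2⟩ := exists_compact_between hC hV h
  have hd : Disjoint (interior K)ᶜ C := by
    rw [Set.disjoint_left]
    intro x hx hxC
    exact hx (h1 hxC)
  obtain ⟨f, hf0, hf1, hfI⟩ := exists_contMDiffMap_zero_one_of_isClosed (n := (⊤ : ℕ∞)) 𝓘(ℝ, E)
    isOpen_interior.isClosed_compl hC.isClosed hd
  have hs : Function.support f ⊆ K := by
    intro x hx
    by_contra hxK
    exact hx (hf0 (fun hx' => hxK (interior_subset hx')))
  have ht : tsupport f ⊆ K := closure_minimal hs hK.isClosed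
  refine ⟨f, f.contMDiff.contDiff, HasCompactSupport.intro hK fun x hx => ?_, ht.trans h2,
    fun x hx => hf1 hx, fun x => ⟨(hfI x).1, (hfI x).2⟩⟩
  by_contra h3
  exact hx (hs h3)

/-- from compact and open sets to Borel sets -/
lemma borel {E : Type*} [NormedAddCommGroup E] [NormedSpace ℝ E] [FiniteDimensional ℝ E]
    [MeasurableSpace E] [BorelSpace E] {ν : Measure (ℝ × E)} [IsFiniteMeasure ν] {s b K : ℝ}
    (hb : 0 < b) (hK : 1 ≤ K)
    (H : ∀ (CA VA : Set ℝ) (CB VB : Set E), IsCompact CA → IsOpen VA → CA ⊆ VA →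
      VA ⊆ Set.Ioo 0 b → IsCompact CB → IsOpen VB → CB ⊆ VB →
      (b * (volume CA).toReal * (ν ({x | b ≤ s * x} ×ˢ CB)).toReal) ^ 2 ≤
        (K - 1) * (ν ({x | s * x ∈ VA} ×ˢ VB)).toReal)
    {A : Set ℝ} {B : Set E} (hA : MeasurableSet A) (hB : MeasurableSet B)
    (hAb : A ⊆ Set.Ioo 0 b) :
    (b * (volume A).toReal * (ν ({x | b ≤ s * x} ×ˢ B)).toReal) ^ 2 ≤
        (K - 1) * (ν ({x | s * x ∈ A} ×ˢ B)).toReal := by
  have mS : MeasurableSet {x : ℝ | b ≤ s * x} := measurableSet_le measurable_const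
    (measurable_id.const_mul s)
  have fA : volume A ≠ ⊤ := ne_top_of_le_ne_top (by simp) (measure_mono hAb)
  have key : ∀ δ : ℝ, 0 < δ → (b * max ((volume A).toReal - δ) 0 *
      max ((ν ({x | b ≤ s * x} ×ˢ B)).toReal - δ) 0) ^ 2 ≤
        (K - 1) * ((ν ({x | s * x ∈ A} ×ˢ B)).toReal + 2 * δ) := by
    intro δ hδ
    have hδ' : ENNReal.ofReal δ ≠ 0 := by simpa using hδ
    obtain ⟨CA, hCA, cCA, h1⟩ := hA.exists_isCompact_lt_add fA hδ'
    -- the measure on `E` of the part beyond `b`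
    let m1 : Measure E := (ν.restrict ({x | b ≤ s * x} ×ˢ Set.univ)).map Prod.snd
    have e1 : ∀ T : Set E, MeasurableSet T → m1 T = ν ({x | b ≤ s * x} ×ˢ T) := by
      intro T hT
      rw [Measure.map_apply measurable_snd hT, Measure.restrict_apply (measurable_snd hT)]
      congr 1
      ext p
      simp only [Set.mem_inter_iff, Set.mem_preimage, Set.mem_prod, Set.mem_univ, and_true]
      tauto
    obtain ⟨CB, hCB, cCB, h2⟩ := hB.exists_isCompact_lt_add (μ := m1) (measure_ne_top _ _) hδ'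
    rw [e1 _ hB, e1 _ cCB.measurableSet] at h2
    -- the open set around `A`
    let m2 : Measure ℝ := (ν.restrict (Set.univ ×ˢ B)).map (fun p => s * p.1)
    have me : Measurable (fun p : ℝ × E => s * p.1) := measurable_fst.const_mul s
    have e2 : ∀ T : Set ℝ, MeasurableSet T → m2 T = ν ({x | s * x ∈ T} ×ˢ B) := by
      intro T hT
      rw [Measure.map_apply me hT, Measure.restrict_apply (me hT)]
      congr 1
      ext p
      simp only [Set.mem_inter_iff, Set.mem_preimage, Set.mem_prod, Set.mem_univ, true_and,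
        Set.mem_setOf_eq]
    obtain ⟨VA0, hVA0, oVA0, h3⟩ := A.exists_isOpen_lt_add (μ := m2) (measure_ne_top _ _) hδ'
    rw [e2 _ oVA0.measurableSet, e2 _ hA] at h3
    let VA : Set ℝ := VA0 ∩ Set.Ioo 0 b
    have oVA : IsOpen VA := oVA0.inter isOpen_Ioo
    have mVA : MeasurableSet {x : ℝ | s * x ∈ VA} := (measurable_id.const_mul s) oVA.measurableSet
    -- the open set around `B`
    let m3 : Measure E := (ν.restrict ({x | s * x ∈ VA} ×ˢ Set.univ)).map Prod.snd
    have e3 : ∀ T : Set E, MeasurableSet T → m3 T = ν ({x | s * x ∈ VA} ×ˢ T) := by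
      intro T hT
      rw [Measure.map_apply measurable_snd hT, Measure.restrict_apply (measurable_snd hT)]
      congr 1
      ext p
      simp only [Set.mem_inter_iff, Set.mem_preimage, Set.mem_prod, Set.mem_univ, and_true]
      tauto
    obtain ⟨VB, hVB, oVB, h4⟩ := B.exists_isOpen_lt_add (μ := m3) (measure_ne_top _ _) hδ'
    rw [e3 _ oVB.measurableSet, e3 _ hB] at h4
    have k := H CA VA CB VB cCA oVA (fun x hx => ⟨hVA0 (hCA hx), hAb (hCA hx)⟩)
      Set.inter_subset_right cCB oVB (hCB.trans hVB)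
    -- real versions
    have r1 : (volume A).toReal - δ ≤ (volume CA).toReal := by
      have := ENNReal.toReal_mono (ENNReal.add_ne_top.2 ⟨ne_top_of_le_ne_top fA
        (measure_mono hCA), ENNReal.ofReal_ne_top⟩) h1.le
      rw [ENNReal.toReal_add (ne_top_of_le_ne_top fA (measure_mono hCA)) ENNReal.ofReal_ne_top,
        ENNReal.toReal_ofReal hδ.le] at this
      linarith
    have tr : ∀ {S T : Set (ℝ × E)}, ν S < ν T + ENNReal.ofReal δ →
        (ν S).toReal ≤ (ν T).toReal + δ := by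
      intro S T h
      have := ENNReal.toReal_mono (ENNReal.add_ne_top.2 ⟨measure_ne_top _ _,
        ENNReal.ofReal_ne_top⟩) h.le
      rwa [ENNReal.toReal_add (measure_ne_top _ _) ENNReal.ofReal_ne_top,
        ENNReal.toReal_ofReal hδ.le] at this
    have r2 := tr h2
    have r3 := tr h3
    have r4 := tr h4
    have r5 : (ν ({x | s * x ∈ VA} ×ˢ B)).toReal ≤ (ν ({x | s * x ∈ VA0} ×ˢ B)).toReal :=
      ENNReal.toReal_mono (measure_ne_top _ _) (measure_mono (Set.prod_mono
        (fun x hx => hx.1) subset_rfl))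
    have p1 : max ((volume A).toReal - δ) 0 ≤ (volume CA).toReal :=
      max_le r1 ENNReal.toReal_nonneg
    have p2 : max ((ν ({x | b ≤ s * x} ×ˢ B)).toReal - δ) 0 ≤
        (ν ({x | b ≤ s * x} ×ˢ CB)).toReal := max_le (by linarith) ENNReal.toReal_nonneg
    calc (b * max ((volume A).toReal - δ) 0 *
        max ((ν ({x | b ≤ s * x} ×ˢ B)).toReal - δ) 0) ^ 2
        ≤ (b * (volume CA).toReal * (ν ({x | b ≤ s * x} ×ˢ CB)).toReal) ^ 2 := by
          gcongr
      _ ≤ _ := k
      _ ≤ _ := by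
          apply mul_le_mul_of_nonneg_left _ (by linarith)
          linarith
  have c1 : Continuous (fun δ : ℝ => (b * max ((volume A).toReal - δ) 0 *
      max ((ν ({x | b ≤ s * x} ×ˢ B)).toReal - δ) 0) ^ 2) := by fun_prop
  have c2 : Continuous (fun δ : ℝ => (K - 1) * ((ν ({x | s * x ∈ A} ×ˢ B)).toReal + 2 * δ)) := by
    fun_prop
  have l1 := (c1.tendsto 0).mono_left (nhdsWithin_le_nhds (s := Set.Ioi 0))
  have l2 := (c2.tendsto 0).mono_left (nhdsWithin_le_nhds (s := Set.Ioi 0))
  have l3 := le_of_tendsto_of_tendsto l1 l2 (by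
    filter_upwards [self_mem_nhdsWithin] with δ hδ using key δ hδ)
  simpa [ENNReal.toReal_nonneg] using l3

end Pool.Agent.Q175.RW.JS
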