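import Pool.Agent.Q175.RW.JS1

/-!
The square law for the slices of a joint limit law.
-/

set_option autoImplicit false
open MeasureTheory Filter Topology
open scoped ContDiff ENNReal Manifold

namespace Pool.Agent.Q175.RW.JS

lemma core {E : Type*} [NormedAddCommGroup E] [NormedSpace ℝ E] [FiniteDimensional ℝ E]
    [MeasurableSpace E] [BorelSpace E] {ν : Measure (ℝ × E)} [IsProbabilityMeasure ν] {K : ℝ}
    (hK : 1 ≤ K) {P : Measure ℂ} [IsFiniteMeasure P] {v : ℝ} (hv : 0 < v) {f : ℕ → ℂ → ℝ}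
    {g : ℕ → ℂ → E} (fi : ∀ n, Integrable (f n) P) (mg : ∀ n, AEStronglyMeasurable (g n) P)
    {a4 : ℕ → ℝ}
    (hS : ∀ W : ℝ × E → ℝ, ContDiff ℝ 1 W → (∃ M : ℝ, ∀ p, |W p| ≤ M ∧ ‖fderiv ℝ W p‖ ≤ M) →
      ∀ ε : ℝ, 0 < ε → ∀ᶠ n in atTop, ((∫ z, f n z * W (f n z, g n z) ∂P) / v) ^ 2 ≤
        (a4 n - 1) * ((∫ z, (fderiv ℝ W (f n z, g n z) (1, 0)) ^ 2 ∂P) / v) + ε)
    (h4 : ∀ᶠ n in atTop, a4 n ≤ K)
    (hl : ∃ σ : ℕ → ℕ, StrictMono σ ∧ ∀ F : ℝ × E → ℝ, Continuous F → (∃ M, ∀ p, |F p| ≤ M) →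
      Tendsto (fun n => (∫ z, F (f (σ n) z, g (σ n) z) ∂P) / v) atTop (𝓝 (∫ p, F p ∂ν)))
    {s b : ℝ} (hs : s = 1 ∨ s = -1) (hb : 0 < b)
    (CA VA : Set ℝ) (CB VB : Set E) (cCA : IsCompact CA) (oVA : IsOpen VA) (hCA : CA ⊆ VA)
    (hVA : VA ⊆ Set.Ioo 0 b) (cCB : IsCompact CB) (oVB : IsOpen VB) (hCB : CB ⊆ VB) :
    (b * (volume CA).toReal * (ν ({x | b ≤ s * x} ×ˢ CB)).toReal) ^ 2 ≤
      (K - 1) * (ν ({x | s * x ∈ VA} ×ˢ VB)).toReal := by
  have hs2 : s * s = 1 := by rcases hs with rfl | rfl <;> norm_num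
  obtain ⟨h, ch, sh, th, h1, h01⟩ := bump cCA oVA hCA
  obtain ⟨θ, cθ, sθ, tθ, θ1, θ01⟩ := bump cCB oVB hCB
  have hc : Continuous h := ch.continuous
  have h0 : ∀ x, x ∉ VA → h x = 0 := fun x hx => by
    by_contra h3
    exact hx (th (subset_tsupport _ h3))
  have θ0 : ∀ x, x ∉ VB → θ x = 0 := fun x hx => by
    by_contra h3
    exact hx (tθ (subset_tsupport _ h3))
  obtain ⟨Hf, hHf⟩ : ∃ Hf : ℝ → ℝ, Hf = fun x => ∫ u in (0 : ℝ)..x, h u := ⟨_, rfl⟩
  have hd : ∀ x, HasDerivAt Hf (h x) x := by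
    intro x; rw [hHf]; exact (hc.integral_hasStrictDerivAt 0 x).hasDerivAt
  have hdc : Continuous Hf := continuous_iff_continuousAt.2 fun x => (hd x).continuousAt
  have hmono : Monotone Hf := monotone_of_deriv_nonneg (fun x => (hd x).differentiableAt)
    (fun x => by rw [(hd x).deriv]; exact (h01 x).1)
  have hz : ∀ x, x ≤ 0 → Hf x = 0 := by
    intro x hx
    rw [hHf]
    show ∫ u in (0 : ℝ)..x, h u = 0
    rw [intervalIntegral.integral_congr (g := fun _ => 0)]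
    · simp
    · intro u hu
      rw [Set.uIcc_of_ge hx] at hu
      exact h0 u fun h3 => absurd (hVA h3).1 (not_lt.2 hu.2)
  have hB : ∀ x, b ≤ x → Hf x = Hf b := by
    intro x hx
    have : Hf x - Hf b = ∫ u in b..x, h u := by
      rw [hHf]
      exact intervalIntegral.integral_interval_sub_left (hc.intervalIntegrable _ _)
        (hc.intervalIntegrable _ _)
    rw [intervalIntegral.integral_congr (g := fun _ => 0)] at this
    · simp at this; linarith
    · intro u hu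
      rw [Set.uIcc_of_le hx] at hu
      exact h0 u fun h3 => absurd (hVA h3).2 (not_lt.2 hu.1)
  have hnn : ∀ x, 0 ≤ Hf x := by
    intro x
    rcases le_total x 0 with h3 | h3
    · rw [hz x h3]
    · rw [← hz 0 le_rfl]; exact hmono h3
  have hle : ∀ x, Hf x ≤ Hf b := by
    intro x
    rcases le_total x b with h3 | h3
    · exact hmono h3
    · rw [hB x h3]
  have hI : (volume CA).toReal ≤ Hf b := by
    rw [hHf]
    show _ ≤ ∫ u in (0 : ℝ)..b, h u
    rw [intervalIntegral.integral_of_le hb.le]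
    have e1 : (volume CA).toReal = ∫ u in Set.Ioc 0 b, CA.indicator (fun _ => (1 : ℝ)) u := by
      rw [integral_indicator cCA.measurableSet]
      simp only [integral_const, smul_eq_mul, mul_one]
      rw [Measure.real, Measure.restrict_apply_univ, Measure.restrict_apply cCA.measurableSet,
        Set.inter_eq_left.2 (show CA ⊆ Set.Ioc 0 b from
          fun x hx => ⟨(hVA (hCA hx)).1, (hVA (hCA hx)).2.le⟩)]
    rw [e1]
    refine integral_mono ((integrable_const _).indicator cCA.measurableSet)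
      (hc.integrableOn_Ioc) fun u => ?_
    show CA.indicator (fun _ => (1 : ℝ)) u ≤ h u
    by_cases hu : u ∈ CA
    · rw [Set.indicator_of_mem hu, h1 u hu]
    · rw [Set.indicator_of_notMem hu]; exact (h01 u).1
  have hHc : ContDiff ℝ 1 Hf := by
    rw [contDiff_one_iff_deriv]
    refine ⟨fun x => (hd x).differentiableAt, ?_⟩
    have : deriv Hf = h := funext fun x => (hd x).deriv
    rw [this]; exact hc
  -- the test function
  obtain ⟨W, hW⟩ : ∃ W : ℝ × E → ℝ, W = fun p => Hf (s * p.1) * θ p.2 := ⟨_, rfl⟩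
  have cW : ContDiff ℝ 1 W := by
    rw [hW]
    exact (hHc.comp (contDiff_const.mul contDiff_fst)).mul
      ((cθ.of_le (by exact_mod_cast le_top)).comp contDiff_snd)
  have hWd : ∀ p : ℝ × E, HasFDerivAt W (Hf (s * p.1) • ((fderiv ℝ θ p.2).comp
      (ContinuousLinearMap.snd ℝ ℝ E)) + θ p.2 • ((h (s * p.1) * s) •
      ContinuousLinearMap.fst ℝ ℝ E)) p := by
    intro p
    have a1 : HasFDerivAt (fun p : ℝ × E => Hf (s * p.1)) ((h (s * p.1) * s) •
        ContinuousLinearMap.fst ℝ ℝ E) p := by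
      have b1 : HasDerivAt (fun x => Hf (s * x)) (h (s * p.1) * s) p.1 := by
        have c : HasDerivAt (fun x : ℝ => s * x) s p.1 := by
          simpa using (hasDerivAt_id p.1).const_mul s
        exact (hd (s * p.1)).comp p.1 c
      have b2 : HasFDerivAt (fun p : ℝ × E => Hf (s * p.1)) _ p :=
        b1.hasFDerivAt.comp p (hasFDerivAt_fst (𝕜 := ℝ) (p := p))
      refine b2.congr_fderiv ?_
      ext <;> simp
    have a2 : HasFDerivAt (fun p : ℝ × E => θ p.2) ((fderiv ℝ θ p.2).comp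
        (ContinuousLinearMap.snd ℝ ℝ E)) p :=
      ((cθ.differentiable (by simp)) p.2).hasFDerivAt.comp p hasFDerivAt_snd
    rw [hW]
    exact a1.mul a2
  have hW1 : ∀ p, fderiv ℝ W p (1, 0) = θ p.2 * (h (s * p.1) * s) := by
    intro p
    rw [(hWd p).fderiv]
    simp
  obtain ⟨Mθ, hMθ⟩ : ∃ M : ℝ, ∀ y, ‖fderiv ℝ θ y‖ ≤ M :=
    (sθ.fderiv ℝ).exists_bound_of_continuous (cθ.continuous_fderiv (by simp))
  have bW : ∃ M : ℝ, ∀ p, |W p| ≤ M ∧ ‖fderiv ℝ W p‖ ≤ M := by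
    refine ⟨Hf b + Hf b * Mθ + 1, fun p => ⟨?_, ?_⟩⟩
    · rw [hW]
      show |Hf (s * p.1) * θ p.2| ≤ _
      rw [abs_of_nonneg (mul_nonneg (hnn _) (θ01 _).1)]
      have : Hf (s * p.1) * θ p.2 ≤ Hf b * 1 := mul_le_mul (hle _) (θ01 _).2 (θ01 _).1 (hnn _)
      have h5 : 0 ≤ Hf b * Mθ := mul_nonneg (hnn _) ((norm_nonneg _).trans (hMθ 0))
      linarith
    · rw [(hWd p).fderiv]
      refine (norm_add_le _ _).trans ?_
      have n1 : ‖Hf (s * p.1) • ((fderiv ℝ θ p.2).comp (ContinuousLinearMap.snd ℝ ℝ E))‖ ≤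
          Hf b * Mθ := by
        rw [norm_smul, Real.norm_eq_abs, abs_of_nonneg (hnn _)]
        refine mul_le_mul (hle _) ?_ (norm_nonneg _) (hnn _)
        refine (ContinuousLinearMap.opNorm_comp_le _ _).trans ?_
        have := ContinuousLinearMap.norm_snd_le ℝ ℝ E
        calc _ ≤ ‖fderiv ℝ θ p.2‖ * 1 := by gcongr
          _ ≤ Mθ := by rw [mul_one]; exact hMθ _
      have n2 : ‖θ p.2 • ((h (s * p.1) * s) • ContinuousLinearMap.fst ℝ ℝ E)‖ ≤ 1 := by
        rw [norm_smul, norm_smul, Real.norm_eq_abs, Real.norm_eq_abs, abs_mul,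
          abs_of_nonneg (θ01 _).1, abs_of_nonneg (h01 _).1]
        have h6 : |s| = 1 := by rcases hs with rfl | rfl <;> simp
        rw [h6, mul_one]
        have := ContinuousLinearMap.norm_fst_le ℝ ℝ E
        have w1 := mul_le_mul (h01 (s * p.1)).2 this (norm_nonneg _) zero_le_one
        have w2 := mul_le_mul (θ01 p.2).2 w1 (mul_nonneg (h01 _).1 (norm_nonneg _)) zero_le_one
        linarith
      have := hnn b
      linarith
  -- the truncated function
  obtain ⟨T, hT⟩ : ∃ T : ℝ × E → ℝ, T = fun p => max 0 (min (s * p.1) b) * W p := ⟨_, rfl⟩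
  have cWc : Continuous W := cW.continuous
  have cT : Continuous T := by rw [hT]; fun_prop
  have Wnn : ∀ p, 0 ≤ W p := fun p => by rw [hW]; exact mul_nonneg (hnn _) (θ01 _).1
  have Tnn : ∀ p, 0 ≤ T p := fun p => by rw [hT]; exact mul_nonneg (le_max_left _ _) (Wnn p)
  have Tle : ∀ p, T p ≤ s * (p.1 * W p) := by
    intro p
    rw [hT]
    show max 0 (min (s * p.1) b) * W p ≤ _
    rcases le_total (s * p.1) 0 with h3 | h3
    · have : W p = 0 := by rw [hW]; show Hf (s * p.1) * θ p.2 = 0; rw [hz _ h3, zero_mul]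
      rw [this]; simp
    · rw [max_eq_right (le_min h3 hb.le), ← mul_assoc]
      exact mul_le_mul_of_nonneg_right (min_le_left _ _) (Wnn p)
  have bT : ∃ M, ∀ p, |T p| ≤ M := by
    refine ⟨b * (Hf b * 1), fun p => ?_⟩
    rw [abs_of_nonneg (Tnn p), hT, hW]
    show max 0 (min (s * p.1) b) * (Hf (s * p.1) * θ p.2) ≤ _
    exact mul_le_mul (max_le hb.le (min_le_right _ _)) (mul_le_mul (hle _) (θ01 _).2 (θ01 _).1
      (hnn _)) (mul_nonneg (hnn _) (θ01 _).1) hb.le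
  obtain ⟨D, hD⟩ : ∃ D : ℝ × E → ℝ, D = fun p => (fderiv ℝ W p (1, 0)) ^ 2 := ⟨_, rfl⟩
  have hD' : ∀ p, D p = (θ p.2 * (h (s * p.1) * s)) ^ 2 := fun p => by rw [hD, ← hW1 p]
  have cD : Continuous D := by
    have : D = fun p => (θ p.2 * (h (s * p.1) * s)) ^ 2 := funext hD'
    rw [this]
    have := cθ.continuous
    fun_prop
  have D1 : ∀ p, D p ≤ 1 := by
    intro p
    rw [hD' p]
    have : (θ p.2 * (h (s * p.1) * s)) ^ 2 = θ p.2 ^ 2 * h (s * p.1) ^ 2 * (s * s) := by ring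
    rw [this, hs2, mul_one]
    have := θ01 p.2
    have := h01 (s * p.1)
    exact mul_le_one₀ (by nlinarith) (sq_nonneg _) (by nlinarith)
  have D0 : ∀ p, 0 ≤ D p := fun p => by rw [hD]; exact sq_nonneg _
  have bD : ∃ M, ∀ p, |D p| ≤ M := ⟨1, fun p => by rw [abs_of_nonneg (D0 p)]; exact D1 p⟩
  obtain ⟨σ, hσ, hlim⟩ := hl
  have key : (∫ p, T p ∂ν) ^ 2 ≤ (K - 1) * ∫ p, D p ∂ν := by
    refine le_of_forall_pos_le_add fun ε hε => ?_
    refine le_of_tendsto_of_tendsto ((hlim T cT bT).pow 2)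
      (((hlim D cD bD).const_mul (K - 1)).add_const ε) ?_
    filter_upwards [hσ.tendsto_atTop.eventually (hS W cW bW ε hε), hσ.tendsto_atTop.eventually h4]
      with n hn hn4
    obtain ⟨M, hM⟩ := bW
    have i1 : Integrable (fun z => s * (f (σ n) z * W (f (σ n) z, g (σ n) z))) P := by
      refine Integrable.const_mul ?_ s
      refine (fi (σ n)).mul_bdd (c := M) ?_ (Eventually.of_forall fun z => (hM _).1)
      exact cWc.comp_aestronglyMeasurable ((fi (σ n)).1.prodMk (mg (σ n)))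
    have i2 : ∫ z, T (f (σ n) z, g (σ n) z) ∂P ≤
        ∫ z, s * (f (σ n) z * W (f (σ n) z, g (σ n) z)) ∂P :=
      integral_mono_of_nonneg (Eventually.of_forall fun z => Tnn _) i1
        (Eventually.of_forall fun z => Tle (f (σ n) z, g (σ n) z))
    have i3 : 0 ≤ ∫ z, T (f (σ n) z, g (σ n) z) ∂P := integral_nonneg fun z => Tnn _
    rw [integral_const_mul] at i2
    have i4 : ((∫ z, T (f (σ n) z, g (σ n) z) ∂P) / v) ^ 2 ≤
        ((∫ z, f (σ n) z * W (f (σ n) z, g (σ n) z) ∂P) / v) ^ 2 := by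
      rw [div_pow, div_pow]
      refine div_le_div_of_nonneg_right ?_ (by positivity)
      calc _ ≤ (s * ∫ z, f (σ n) z * W (f (σ n) z, g (σ n) z) ∂P) ^ 2 := by gcongr
        _ = (s * s) * (∫ z, f (σ n) z * W (f (σ n) z, g (σ n) z) ∂P) ^ 2 := by ring
        _ = _ := by rw [hs2, one_mul]
    have i5 : 0 ≤ (∫ z, D (f (σ n) z, g (σ n) z) ∂P) / v :=
      div_nonneg (integral_nonneg fun z => D0 _) hv.le
    have i6 : (∫ z, (fderiv ℝ W (f (σ n) z, g (σ n) z) (1, 0)) ^ 2 ∂P) / v =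
        (∫ z, D (f (σ n) z, g (σ n) z) ∂P) / v := by rw [hD]
    rw [i6] at hn
    calc _ ≤ _ := i4
      _ ≤ _ := hn
      _ ≤ _ := by
        have := mul_le_mul_of_nonneg_right (sub_le_sub_right hn4 1) i5
        linarith
  have mS : MeasurableSet ({x : ℝ | b ≤ s * x} ×ˢ CB : Set (ℝ × E)) :=
    (measurableSet_le measurable_const (measurable_id.const_mul s)).prod cCB.measurableSet
  have mV : MeasurableSet ({x : ℝ | s * x ∈ VA} ×ˢ VB : Set (ℝ × E)) :=
    ((measurable_id.const_mul s) oVA.measurableSet).prod oVB.measurableSet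
  have iT : Integrable T ν := by
    obtain ⟨M, hM⟩ := bT
    exact Integrable.of_bound cT.aestronglyMeasurable M (Eventually.of_forall hM)
  have iD : Integrable D ν := by
    obtain ⟨M, hM⟩ := bD
    exact Integrable.of_bound cD.aestronglyMeasurable M (Eventually.of_forall hM)
  have l1 : b * Hf b * (ν ({x | b ≤ s * x} ×ˢ CB)).toReal ≤ ∫ p, T p ∂ν := by
    have e1 : b * Hf b * (ν ({x | b ≤ s * x} ×ˢ CB)).toReal =
        ∫ p, ({x : ℝ | b ≤ s * x} ×ˢ CB : Set (ℝ × E)).indicator (fun _ => b * Hf b) p ∂ν := by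
      rw [integral_indicator_const _ mS, smul_eq_mul, Measure.real]
      ring
    rw [e1]
    refine integral_mono ((integrable_const _).indicator mS) iT fun p => ?_
    show ({x : ℝ | b ≤ s * x} ×ˢ CB : Set (ℝ × E)).indicator (fun _ => b * Hf b) p ≤ T p
    by_cases hp : p ∈ ({x : ℝ | b ≤ s * x} ×ˢ CB : Set (ℝ × E))
    · rw [Set.indicator_of_mem hp, hT, hW]
      have q1 : b ≤ s * p.1 := hp.1
      have q2 : θ p.2 = 1 := θ1 _ hp.2
      show b * Hf b ≤ max 0 (min (s * p.1) b) * (Hf (s * p.1) * θ p.2)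
      rw [q2, hB _ q1, min_eq_right q1, max_eq_right hb.le, mul_one]
    · rw [Set.indicator_of_notMem hp]; exact Tnn p
  have l2 : ∫ p, D p ∂ν ≤ (ν ({x | s * x ∈ VA} ×ˢ VB)).toReal := by
    have e1 : (ν ({x | s * x ∈ VA} ×ˢ VB)).toReal =
        ∫ p, ({x : ℝ | s * x ∈ VA} ×ˢ VB : Set (ℝ × E)).indicator (fun _ => (1 : ℝ)) p ∂ν := by
      rw [integral_indicator_const _ mV, smul_eq_mul, Measure.real, mul_one]
    rw [e1]
    refine integral_mono iD ((integrable_const _).indicator mV) fun p => ?_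
    show D p ≤ ({x : ℝ | s * x ∈ VA} ×ˢ VB : Set (ℝ × E)).indicator (fun _ => (1 : ℝ)) p
    by_cases hp : p ∈ ({x : ℝ | s * x ∈ VA} ×ˢ VB : Set (ℝ × E))
    · rw [Set.indicator_of_mem hp]; exact D1 p
    · rw [Set.indicator_of_notMem hp, hD' p]
      by_cases h7 : s * p.1 ∈ VA
      · have : p.2 ∉ VB := fun h8 => hp ⟨h7, h8⟩
        rw [θ0 _ this]; simp
      · rw [h0 _ h7]; simp
  calc (b * (volume CA).toReal * (ν ({x | b ≤ s * x} ×ˢ CB)).toReal) ^ 2
      ≤ (b * Hf b * (ν ({x | b ≤ s * x} ×ˢ CB)).toReal) ^ 2 := by gcongr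
    _ ≤ (∫ p, T p ∂ν) ^ 2 := by
        refine pow_le_pow_left₀ ?_ l1 2
        have := hnn b
        positivity
    _ ≤ _ := key
    _ ≤ _ := mul_le_mul_of_nonneg_left l2 (by linarith)

end Pool.Agent.Q175.RW.JS
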