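import Pool.Agent.TH294.RG.Ms7
import Pool.Agent.TH294.RG.Pl11
import Pool.Agent.TH294.RG.Fin

/-! Fourth moment criterion for equidistribution. -/
set_option autoImplicit false
open MeasureTheory Filter Topology Complex ProbabilityTheory
open scoped ContDiff ENNReal

namespace Pool.Agent.Q175.RW.QC

open Pool.Agent.W745.RW Pool.Agent.TH294.RS Pool.Agent.TH294.RG

noncomputable section

variable {m : ℂ → ℝ} {ν : Kernel ℂ ℝ} {Ω U : Set ℂ} {a : ℂ → ℝ} {h : ℕ → ℝ}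
  {u : ℕ → ℂ → ℝ} {ρ : ℂ → ℝ} {K : Set ℂ} {φ : ℂ → ℝ}

lemma inner_cut (hU : IsOpen U) : ∃ χ : ℕ → ℂ → ℝ, (∀ j, TF U (χ j)) ∧ (∀ j z, 0 ≤ χ j z) ∧
    (∀ j z, χ j z ≤ 1) ∧ ∀ z ∈ U, ∀ᶠ j in atTop, χ j z = 1 := by
  obtain ⟨K, hK, hKU, hKu, hKm⟩ := exh U hU
  choose χ h1 h2 h3 h4 using fun j => exists_cut hU (hK j) (hKU j)
  refine ⟨χ, h1, h3, h4, fun z hz => ?_⟩
  rw [← hKu] at hz
  obtain ⟨j0, hj0⟩ := Set.mem_iUnion.1 hz
  filter_upwards [eventually_ge_atTop j0] with j hj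
  exact h2 j z (hKm hj hj0)

lemma inner_lim (hU : IsOpen U) {χ : ℕ → ℂ → ℝ} (h1 : ∀ j, TF U (χ j)) (h2 : ∀ j z, 0 ≤ χ j z)
    (h3 : ∀ j z, χ j z ≤ 1) (h4 : ∀ z ∈ U, ∀ᶠ j in atTop, χ j z = 1) {f : ℂ → ℝ}
    (hf : IntegrableOn f U) :
    Tendsto (fun j => ∫ z in U, χ j z * f z) atTop (𝓝 (∫ z in U, f z)) := by
  refine tendsto_integral_of_dominated_convergence (fun z => ‖f z‖) (fun j => ?_) hf.norm
    (fun j => ae_of_all _ fun z => ?_) ?_
  · exact ((h1 j).1.continuous.aestronglyMeasurable).mul hf.aestronglyMeasurable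
  · rw [norm_mul, Real.norm_eq_abs, abs_of_nonneg (h2 j z)]
    exact mul_le_of_le_one_left (norm_nonneg _) (h3 j z)
  · refine (ae_restrict_mem hU.measurableSet).mono fun z hz => ?_
    refine tendsto_const_nhds.congr' ?_
    filter_upwards [h4 z hz] with j hj
    rw [hj, one_mul]

lemma outer_cut (hΩ : IsOpen Ω) (hK : IsCompact K) (hKΩ : K ⊆ Ω) :
    ∃ (K1 : Set ℂ) (χ : ℕ → ℂ → ℝ), IsCompact K1 ∧ K1 ⊆ Ω ∧ (∀ j, TF Ω (χ j)) ∧
      (∀ j z, z ∉ K1 → χ j z = 0) ∧ (∀ j z, 0 ≤ χ j z) ∧ (∀ j z, χ j z ≤ 1) ∧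
      (∀ j, ∀ z ∈ K, χ j z = 1) ∧ ∀ z, z ∉ K → ∀ᶠ j in atTop, χ j z = 0 := by
  obtain ⟨δ, hδ, hδΩ⟩ := hK.exists_cthickening_subset_open hΩ hKΩ
  have hd : ∀ j : ℕ, 0 < δ / ((j : ℝ) + 1) := fun j => by positivity
  have hd1 : ∀ j : ℕ, δ / ((j : ℝ) + 1) ≤ δ := fun j => by
    rw [div_le_iff₀ (by positivity)]
    nlinarith [hδ.le, (Nat.cast_nonneg j : (0 : ℝ) ≤ (j : ℝ))]
  have hV : ∀ j : ℕ, IsOpen (Metric.thickening (δ / ((j : ℝ) + 1)) K) := fun j =>
    Metric.isOpen_thickening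
  have hVs : ∀ j : ℕ, Metric.thickening (δ / ((j : ℝ) + 1)) K ⊆ Metric.cthickening δ K := fun j =>
    (Metric.thickening_subset_cthickening _ _).trans (Metric.cthickening_mono (hd1 j) _)
  choose χ h1 h2 h3 h4 using fun j : ℕ => exists_cut (hV j) hK
    (Metric.self_subset_thickening (hd j) K)
  refine ⟨Metric.cthickening δ K, χ, hK.cthickening, hδΩ, fun j => ?_, fun j z hz => ?_, h3, h4,
    h2, fun z hz => ?_⟩
  · exact ⟨(h1 j).1, (h1 j).2.1, (h1 j).2.2.trans ((hVs j).trans hδΩ)⟩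
  · exact TF.zero (h1 j) fun h => hz (hVs j h)
  · have h5 : 0 < Metric.infDist z K ∨ K = ∅ := by
      by_cases hKe : K = ∅
      · exact Or.inr hKe
      · left
        exact (hK.isClosed.notMem_iff_infDist_pos (Set.nonempty_iff_ne_empty.2 hKe)).1 hz
    rcases h5 with h5 | h5
    · have hl : Tendsto (fun j : ℕ => δ / ((j : ℝ) + 1)) atTop (𝓝 0) :=
        tendsto_const_nhds.div_atTop (tendsto_atTop_add_const_right _ _ tendsto_natCast_atTop_atTop)
      filter_upwards [hl.eventually (gt_mem_nhds h5)] with j hj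
      refine TF.zero (h1 j) fun h => ?_
      have h6 := Metric.mem_thickening_iff.1 h
      obtain ⟨y, hy, hyz⟩ := h6
      have h7 := Metric.infDist_le_dist_of_mem (x := z) hy
      linarith
    · refine Eventually.of_forall fun j => TF.zero (h1 j) fun h => ?_
      obtain ⟨y, hy, -⟩ := Metric.mem_thickening_iff.1 h
      rw [h5] at hy
      exact hy.elim

/-- lower bound for the fourth moments over open sets -/
theorem lower [IsMarkovKernel ν] (hΩ : IsOpen Ω)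
    (hm : ∀ K : Set ℂ, IsCompact K → K ⊆ Ω → MemLp m 2 (volume.restrict K))
    (hp : ∀ᵐ z ∂(volume.restrict Ω), par ea (ν z) = 0) (H : RawG Ω a h u (MM m ea ν))
    (hU : IsOpen U) (hUΩ : U ⊆ Ω) {r : ℂ → ℝ} (hr : ContDiffOn ℝ ∞ r U)
    (hr0 : ∀ z ∈ U, 0 ≤ r z) (i1 : IntegrableOn (fun z => r z * m z ^ 2) U)
    (i2 : ∀ n, IntegrableOn (fun z => r z * u n z ^ 4) U) {ε : ℝ} (hε : 0 < ε) :
    ∀ᶠ n in atTop, 3 * (∫ z in U, r z * m z ^ 2) - ε ≤ ∫ z in U, r z * u n z ^ 4 := by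
  obtain ⟨χ, h1, h2, h3, h4⟩ := inner_cut hU
  have l1 := (inner_lim hU h1 h2 h3 h4 i1).const_mul 3
  obtain ⟨j, hj⟩ := (l1.eventually (lt_mem_nhds (show 3 * (∫ z in U, r z * m z ^ 2) - ε / 2 <
    3 * ∫ z in U, r z * m z ^ 2 by linarith))).exists
  have hψU : TF U (fun z => χ j z * r z) := TF.mulc hU (h1 j) hr
  have hψ : TF Ω (fun z => χ j z * r z) := ⟨hψU.1, hψU.2.1, hψU.2.2.trans hUΩ⟩
  have nn : ∀ z, 0 ≤ χ j z * r z := by
    intro z
    by_cases hz : z ∈ U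
    · exact mul_nonneg (h2 j z) (hr0 z hz)
    · rw [TF.zero (h1 j) hz, zero_mul]
  have key := RawG.main hΩ ea_meas ea_norm hm H hψ nn (half_pos hε)
  refine key.mono fun n hn => ?_
  have e1 : ∫ z, χ j z * r z * GD m ea ν z = 3 * ∫ z in U, χ j z * (r z * m z ^ 2) := by
    rw [← integral_const_mul, ← setIntegral_eq_integral_of_forall_compl_eq_zero (s := U)]
    · refine integral_congr_ae ?_
      filter_upwards [ae_restrict_of_ae_restrict_of_subset hUΩ hp] with z hz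
      rw [GD, hz]; ring
    · intro z hz
      rw [TF.zero (h1 j) hz]; ring
  have e2 : ∫ z, χ j z * r z * u n z ^ 4 = ∫ z in U, χ j z * (r z * u n z ^ 4) := by
    rw [← setIntegral_eq_integral_of_forall_compl_eq_zero (s := U)]
    · congr 1; funext z; ring
    · intro z hz
      rw [TF.zero (h1 j) hz]; ring
  have e3 : ∫ z in U, χ j z * (r z * u n z ^ 4) ≤ ∫ z in U, r z * u n z ^ 4 := by
    refine setIntegral_mono_on ?_ (i2 n) hU.measurableSet fun z hz => ?_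
    · refine Integrable.bdd_mul (c := 1) (i2 n)
        ((h1 j).1.continuous.aestronglyMeasurable) (ae_of_all _ fun z => ?_)
      rw [Real.norm_eq_abs, abs_of_nonneg (h2 j z)]
      exact h3 j z
    · exact mul_le_of_le_one_left (mul_nonneg (hr0 z hz) (by positivity)) (h3 j z)
  rw [e1, e2] at hn
  linarith

/-- vague convergence of the masses -/
lemma vague (H : RawG Ω a h u (MM m ea ν)) [IsMarkovKernel ν] (hφ : TF Ω φ) :
    Tendsto (fun n => ∫ z, φ z * u n z ^ 2) atTop (𝓝 (∫ z, φ z * m z)) := by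
  have h1 := (Complex.continuous_re.tendsto _).comp (H.qe φ hφ 0)
  have e1 : ∫ z, (φ z : ℂ) * MM m ea ν 0 z = ((∫ z, φ z * m z : ℝ) : ℂ) := by
    rw [← integral_complex_ofReal]
    congr 1; funext z
    simp [TH294.RG.MM, cm]
  rw [e1, ofReal_re] at h1
  refine h1.congr fun n => ?_
  have e2 : ∫ z, (φ z : ℂ) * ((u n z : ℂ) * (DP a (h n))^[0] (fun w => (u n w : ℂ)) z) =
      ((∫ z, φ z * u n z ^ 2 : ℝ) : ℂ) := by
    rw [← integral_complex_ofReal]
    congr 1; funext z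
    rw [Function.iterate_zero, id]
    push_cast; ring
  simp only [Function.comp_def]
  rw [e2, ofReal_re]

/-- the set of the data -/
structure Dom (Ω U : Set ℂ) (ρ : ℂ → ℝ) : Prop where
  oΩ : IsOpen Ω
  sρ : ContDiffOn ℝ ∞ ρ Ω
  pρ : ∀ z ∈ Ω, 0 < ρ z
  oU : IsOpen U
  cU : IsCompact (closure U)
  hU : closure U ⊆ Ω
  bU : volume (frontier U) = 0

lemma Dom.sub (D : Dom Ω U ρ) : U ⊆ Ω := subset_closure.trans D.hU

lemma Dom.ae (D : Dom Ω U ρ) : volume.restrict (closure U) = volume.restrict U := by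
  refine Measure.restrict_congr_set ?_
  have h1 : closure U = U ∪ frontier U := by
    rw [frontier_eq_closure_inter_closure]
    ext z
    constructor
    · intro hz
      by_cases h : z ∈ U
      · exact Or.inl h
      · exact Or.inr ⟨hz, subset_closure h⟩
    · rintro (h | h)
      · exact subset_closure h
      · exact h.1
  rw [h1]
  exact union_ae_eq_left_of_ae_eq_empty (ae_eq_empty.2 D.bU)

lemma Dom.int (D : Dom Ω U ρ) {f : ℂ → ℝ} (hf : ContinuousOn f Ω) : IntegrableOn f U :=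
  ((hf.mono D.hU).integrableOn_compact D.cU).mono_set subset_closure

/-- upper bound for the masses -/
theorem upper [IsMarkovKernel ν] (D : Dom Ω U ρ)
    (hm : ∀ K : Set ℂ, IsCompact K → K ⊆ Ω → MemLp m 2 (volume.restrict K))
    (H : RawG Ω a h u (MM m ea ν)) {ε : ℝ} (hε : 0 < ε) :
    ∀ᶠ n in atTop, ∫ z in U, ρ z * u n z ^ 2 ≤ (∫ z in U, ρ z * m z) + ε := by
  obtain ⟨K1, χ, cK1, hK1, h1, h2, h3, h4, h5, h6⟩ := outer_cut D.oΩ D.cU D.hU
  have im : IntegrableOn (fun z => ρ z * m z) K1 := by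
    have m1 : IntegrableOn m K1 := by
      have : IsFiniteMeasure (volume.restrict K1) := ⟨by simpa using cK1.measure_lt_top⟩
      exact (hm K1 cK1 hK1).integrable one_le_two
    obtain ⟨C, hC⟩ := cK1.exists_bound_of_continuousOn (D.sρ.continuousOn.mono hK1)
    exact Integrable.bdd_mul (c := C) m1
      ((D.sρ.continuousOn.mono hK1).aestronglyMeasurable cK1.measurableSet)
      ((ae_restrict_mem cK1.measurableSet).mono hC)
  have lim : Tendsto (fun j => ∫ z in K1, χ j z * (ρ z * m z)) atTop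
      (𝓝 (∫ z in K1, (closure U).indicator (fun z => ρ z * m z) z)) := by
    refine tendsto_integral_of_dominated_convergence (fun z => ‖ρ z * m z‖) (fun j => ?_) im.norm
      (fun j => ae_of_all _ fun z => ?_) (ae_of_all _ fun z => ?_)
    · exact ((h1 j).1.continuous.aestronglyMeasurable).mul im.aestronglyMeasurable
    · rw [norm_mul, Real.norm_eq_abs, abs_of_nonneg (h3 j z)]
      exact mul_le_of_le_one_left (norm_nonneg _) (h4 j z)
    · by_cases hz : z ∈ closure U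
      · rw [Set.indicator_of_mem hz]
        refine tendsto_const_nhds.congr fun j => ?_
        rw [h5 j z hz, one_mul]
      · rw [Set.indicator_of_notMem hz]
        refine tendsto_const_nhds.congr' ?_
        filter_upwards [h6 z hz] with j hj
        rw [hj, zero_mul]
  have e0 : closure U ⊆ K1 := by
    intro z hz
    by_contra hc
    have := h2 0 z hc
    rw [h5 0 z hz] at this
    exact one_ne_zero this
  have e1 : ∫ z in K1, (closure U).indicator (fun z => ρ z * m z) z = ∫ z in U, ρ z * m z := by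
    rw [setIntegral_indicator isClosed_closure.measurableSet, Set.inter_eq_right.2 e0, D.ae]
  rw [e1] at lim
  obtain ⟨j, hj⟩ := (lim.eventually (gt_mem_nhds (show (∫ z in U, ρ z * m z) <
    (∫ z in U, ρ z * m z) + ε / 2 by linarith))).exists
  have hψ : TF Ω (fun z => χ j z * ρ z) := TF.mulc D.oΩ (h1 j) D.sρ
  have v := vague H hψ
  have e2 : ∫ z, χ j z * ρ z * m z = ∫ z in K1, χ j z * (ρ z * m z) := by
    rw [← setIntegral_eq_integral_of_forall_compl_eq_zero (s := K1)]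
    · congr 1; funext z; ring
    · intro z hz
      rw [h2 j z hz]; ring
  rw [e2] at v
  filter_upwards [v.eventually (gt_mem_nhds (show (∫ z in K1, χ j z * (ρ z * m z)) <
    (∫ z in K1, χ j z * (ρ z * m z)) + ε / 2 by linarith))] with n hn
  have e3 : ∫ z in U, ρ z * u n z ^ 2 ≤ ∫ z, χ j z * ρ z * u n z ^ 2 := by
    rw [← integral_indicator D.oU.measurableSet]
    have cu : ContinuousOn (fun z => u n z ^ 2) Ω := ((H.sm n).continuousOn).pow 2
    refine integral_mono ((integrable_indicator_iff D.oU.measurableSet).2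
      (D.int (D.sρ.continuousOn.mul cu))) (Pool.Agent.W311.RW.int_mul D.oΩ hψ cu) fun z => ?_
    by_cases hz : z ∈ U
    · rw [Set.indicator_of_mem hz]
      show ρ z * u n z ^ 2 ≤ χ j z * ρ z * u n z ^ 2
      rw [h5 j z (subset_closure hz), one_mul]
    · rw [Set.indicator_of_notMem hz]
      show 0 ≤ χ j z * ρ z * u n z ^ 2
      by_cases hz' : z ∈ Ω
      · exact mul_nonneg (mul_nonneg (h3 j z) (D.pρ z hz').le) (sq_nonneg _)
      · rw [TF.zero (h1 j) hz']; simp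
  linarith

/-- the data of the criterion -/
structure Dat (Ω U : Set ℂ) (ρ : ℂ → ℝ) (m : ℂ → ℝ) (ν : Kernel ℂ ℝ) (a : ℂ → ℝ) (h : ℕ → ℝ)
    (u : ℕ → ℂ → ℝ) : Prop where
  D : Dom Ω U ρ
  hm : ∀ K : Set ℂ, IsCompact K → K ⊆ Ω → MemLp m 2 (volume.restrict K)
  hp : ∀ᵐ z ∂(volume.restrict Ω), par ea (ν z) = 0
  H : RawG Ω a h u (TH294.RG.MM m ea ν)
  hn : Tendsto (fun n => ∫ z in U, ρ z * u n z ^ 2) atTop (𝓝 (∫ z in U, ρ z))

variable [IsMarkovKernel ν]

lemma Dat.m2 (X : Dat Ω U ρ m ν a h u) : IntegrableOn (fun z => m z ^ 2) U :=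
  IntegrableOn.mono_set (X.hm _ X.D.cU X.D.hU).integrable_sq subset_closure

lemma Dat.m1 (X : Dat Ω U ρ m ν a h u) : IntegrableOn m U := by
  have : IsFiniteMeasure (volume.restrict (closure U)) := ⟨by simpa using X.D.cU.measure_lt_top⟩
  exact IntegrableOn.mono_set ((X.hm _ X.D.cU X.D.hU).integrable one_le_two) subset_closure

/-- weights continuous on `Ω` are bounded on `U` -/
lemma Dat.wt (X : Dat Ω U ρ m ν a h u) {w f : ℂ → ℝ} (hw : ContinuousOn w Ω)
    (hf : IntegrableOn f U) : IntegrableOn (fun z => w z * f z) U := by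
  obtain ⟨C, hC⟩ := X.D.cU.exists_bound_of_continuousOn (hw.mono X.D.hU)
  exact Integrable.bdd_mul (c := C) hf
    ((hw.mono X.D.sub).aestronglyMeasurable X.D.oU.measurableSet)
    ((ae_restrict_mem X.D.oU.measurableSet).mono fun z hz => hC z (subset_closure hz))

lemma Dat.ir (X : Dat Ω U ρ m ν a h u) : IntegrableOn ρ U := X.D.int X.D.sρ.continuousOn

lemma Dat.irm (X : Dat Ω U ρ m ν a h u) : IntegrableOn (fun z => ρ z * m z) U :=
  X.wt X.D.sρ.continuousOn X.m1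

lemma Dat.irm2 (X : Dat Ω U ρ m ν a h u) : IntegrableOn (fun z => ρ z * m z ^ 2) U :=
  X.wt X.D.sρ.continuousOn X.m2

lemma Dat.mass (X : Dat Ω U ρ m ν a h u) : ∫ z in U, ρ z ≤ ∫ z in U, ρ z * m z := by
  refine le_of_forall_pos_le_add fun ε hε => ?_
  have h1 := upper X.D X.hm X.H hε
  exact le_of_tendsto X.hn h1

lemma Dat.four (X : Dat Ω U ρ m ν a h u) {C : ℝ}
    (h4 : ∀ ε : ℝ, 0 < ε → ∀ᶠ n in atTop, ∫ z in U, ρ z * u n z ^ 4 ≤ C * (∫ z in U, ρ z) + ε) :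
    3 * (∫ z in U, ρ z * m z ^ 2) ≤ C * ∫ z in U, ρ z := by
  refine le_of_forall_pos_le_add fun ε hε => ?_
  have h1 := lower X.D.oΩ X.hm X.hp X.H X.D.oU X.D.sub (X.D.sρ.mono X.D.sub)
    (fun z hz => (X.D.pρ z (X.D.sub hz)).le) X.irm2
    (fun n => X.D.int (X.D.sρ.continuousOn.mul ((X.H.sm n).continuousOn.pow 4))) (half_pos hε)
  obtain ⟨n, n1, n2⟩ := (h1.and (h4 _ (half_pos hε))).exists
  linarith

/-- lower bound for the area of the support -/
theorem Dat.supp (X : Dat Ω U ρ m ν a h u) {C : ℝ}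
    (h4 : ∀ ε : ℝ, 0 < ε → ∀ᶠ n in atTop, ∫ z in U, ρ z * u n z ^ 4 ≤ C * (∫ z in U, ρ z) + ε)
    {S : Set ℂ} (hS : MeasurableSet S) (hSU : S ⊆ U)
    (hmS : ∀ᵐ z ∂(volume.restrict U), z ∉ S → m z = 0) :
    3 * (∫ z in U, ρ z) ≤ C * ∫ z in S, ρ z := by
  have k4 := X.four h4
  have km := X.mass
  obtain ⟨A, hA⟩ : ∃ A, A = ∫ z in U, ρ z := ⟨_, rfl⟩
  have A0 : 0 ≤ A := by
    rw [hA]
    exact setIntegral_nonneg X.D.oU.measurableSet fun z hz => (X.D.pρ z (X.D.sub hz)).le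
  have R0 : 0 ≤ ∫ z in S, ρ z :=
    setIntegral_nonneg hS fun z hz => (X.D.pρ z (X.D.sub (hSU hz))).le
  have RA : ∫ z in S, ρ z ≤ ∫ z in U, ρ z := by
    refine setIntegral_mono_set X.ir ?_ hSU.eventuallyLE
    exact (ae_restrict_mem X.D.oU.measurableSet).mono fun z hz => (X.D.pρ z (X.D.sub hz)).le
  have e1 : ∫ z in U, ρ z * m z = ∫ z in S, ρ z * m z := by
    have h1 : ∫ z in U, ρ z * m z = ∫ z in U, S.indicator (fun z => ρ z * m z) z := by
      refine integral_congr_ae ?_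
      filter_upwards [hmS] with z hz
      by_cases h : z ∈ S
      · rw [Set.indicator_of_mem h]
      · rw [Set.indicator_of_notMem h, hz h, mul_zero]
    rw [h1, setIntegral_indicator hS, Set.inter_eq_right.2 hSU]
  have e2 : ∫ z in S, ρ z * m z ^ 2 ≤ ∫ z in U, ρ z * m z ^ 2 := by
    refine setIntegral_mono_set X.irm2 ?_ hSU.eventuallyLE
    exact (ae_restrict_mem X.D.oU.measurableSet).mono fun z hz =>
      mul_nonneg (X.D.pρ z (X.D.sub hz)).le (sq_nonneg _)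
  have iS1 := X.ir.mono_set hSU
  have iS2 := X.irm.mono_set hSU
  have iS3 := X.irm2.mono_set hSU
  have quad : ∀ t : ℝ, 0 ≤ (∫ z in S, ρ z) * (t * t) + (-2 * ∫ z in S, ρ z * m z) * t +
      ∫ z in S, ρ z * m z ^ 2 := by
    intro t
    have h1 : 0 ≤ ∫ z in S, ρ z * (m z - t) ^ 2 :=
      setIntegral_nonneg hS fun z hz => mul_nonneg (X.D.pρ z (X.D.sub (hSU hz))).le (sq_nonneg _)
    have h2 : ∫ z in S, ρ z * (m z - t) ^ 2 = (∫ z in S, ρ z) * (t * t) +
        (-2 * ∫ z in S, ρ z * m z) * t + ∫ z in S, ρ z * m z ^ 2 := by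
      have h3 : ∀ z, ρ z * (m z - t) ^ 2 = (t * t) * ρ z + (-2 * t) * (ρ z * m z) +
          ρ z * m z ^ 2 := fun z => by ring
      simp only [h3]
      have ia : IntegrableOn (fun z => (t * t) * ρ z + (-2 * t) * (ρ z * m z)) S :=
        (iS1.const_mul _).add (iS2.const_mul _)
      rw [integral_add ia iS3,
        integral_add (iS1.const_mul _) (iS2.const_mul _), integral_const_mul, integral_const_mul]
      ring
    rw [← h2]; exact h1
  have dis := discrim_le_zero quad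
  unfold discrim at dis
  rw [← hA] at k4 km RA ⊢
  rw [e1] at km
  obtain ⟨Q, hQ⟩ : ∃ Q, Q = ∫ z in S, ρ z * m z := ⟨_, rfl⟩
  obtain ⟨R, hR⟩ : ∃ R, R = ∫ z in S, ρ z := ⟨_, rfl⟩
  obtain ⟨P, hP⟩ : ∃ P, P = ∫ z in S, ρ z * m z ^ 2 := ⟨_, rfl⟩
  rw [← hQ] at km dis
  rw [← hR] at dis R0 RA ⊢
  rw [← hP] at dis e2
  rcases A0.eq_or_lt with h0 | h0
  · have : R = 0 := le_antisymm (by linarith) R0
    rw [this, ← h0]; simp
  · have h1 : Q ^ 2 ≤ R * P := by nlinarith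
    have h2 : A ^ 2 ≤ Q ^ 2 := by nlinarith
    have h3 : R * P ≤ R * (C * A / 3) := mul_le_mul_of_nonneg_left (by linarith) R0
    have h4 : A * (3 * A) ≤ A * (C * R) := by nlinarith
    exact le_of_mul_le_mul_left h4 h0

/-- **Equidistribution from the fourth moment** -/
theorem Dat.one (X : Dat Ω U ρ m ν a h u)
    (h4 : ∀ ε : ℝ, 0 < ε → ∀ᶠ n in atTop, ∫ z in U, ρ z * u n z ^ 4 ≤ 3 * (∫ z in U, ρ z) + ε) :
    ∀ᵐ z ∂(volume.restrict U), m z = 1 := by
  have k4 := X.four h4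
  have km := X.mass
  have e : ∫ z in U, ρ z * (m z - 1) ^ 2 = (∫ z in U, ρ z * m z ^ 2) -
      2 * (∫ z in U, ρ z * m z) + ∫ z in U, ρ z := by
    have h3 : ∀ z, ρ z * (m z - 1) ^ 2 = (ρ z * m z ^ 2 - 2 * (ρ z * m z)) + ρ z :=
      fun z => by ring
    simp only [h3]
    have ia : IntegrableOn (fun z => ρ z * m z ^ 2 - 2 * (ρ z * m z)) U :=
      X.irm2.sub (X.irm.const_mul _)
    rw [integral_add ia X.ir, integral_sub X.irm2 (X.irm.const_mul _), integral_const_mul]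
  have nn : 0 ≤ᵐ[volume.restrict U] fun z => ρ z * (m z - 1) ^ 2 :=
    (ae_restrict_mem X.D.oU.measurableSet).mono fun z hz =>
      mul_nonneg (X.D.pρ z (X.D.sub hz)).le (sq_nonneg _)
  have ii : IntegrableOn (fun z => ρ z * (m z - 1) ^ 2) U := by
    have h3 : (fun z => ρ z * (m z - 1) ^ 2) = fun z => (ρ z * m z ^ 2 - 2 * (ρ z * m z)) + ρ z :=
      by funext z; ring
    rw [h3]
    exact (X.irm2.sub (X.irm.const_mul _)).add X.ir
  have z0 : ∫ z in U, ρ z * (m z - 1) ^ 2 = 0 :=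
    le_antisymm (by rw [e]; linarith) (integral_nonneg_of_ae nn)
  have h1 := (integral_eq_zero_iff_of_nonneg_ae nn ii).1 z0
  filter_upwards [h1, ae_restrict_mem X.D.oU.measurableSet] with z hz hzU
  have h2 : ρ z * (m z - 1) ^ 2 = 0 := hz
  have h3 := (X.D.pρ z (X.D.sub hzU)).ne'
  have h4 : (m z - 1) ^ 2 = 0 := by
    rcases mul_eq_zero.1 h2 with h | h
    · exact absurd h h3
    · exact h
  have h5 : m z - 1 = 0 := by simpa using h4
  linarith

/-- all local fourth moments are Gaussian -/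
theorem Dat.loc4 (X : Dat Ω U ρ m ν a h u)
    (h4 : ∀ ε : ℝ, 0 < ε → ∀ᶠ n in atTop, ∫ z in U, ρ z * u n z ^ 4 ≤ 3 * (∫ z in U, ρ z) + ε)
    (hφ : TF U φ) (hφ0 : ∀ z, 0 ≤ φ z) :
    Tendsto (fun n => ∫ z, φ z * ρ z * u n z ^ 4) atTop (𝓝 (3 * ∫ z, φ z * ρ z)) := by
  have m1 := X.one h4
  have sρU := X.D.sρ.mono X.D.sub
  obtain ⟨M', hM'⟩ := hφ.2.1.exists_bound_of_continuous hφ.1.continuous
  obtain ⟨M, hM⟩ : ∃ M, M = |M'| := ⟨_, rfl⟩
  have hφM : ∀ z, φ z ≤ M := fun z =>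
    (le_abs_self _).trans ((hM' z).trans (by rw [hM]; exact le_abs_self _))
  have M0 : 0 ≤ M := by rw [hM]; exact abs_nonneg _
  have cu : ∀ n, ContinuousOn (fun z => u n z ^ 4) Ω := fun n => (X.H.sm n).continuousOn.pow 4
  have cφ : ContinuousOn φ Ω := hφ.1.continuous.continuousOn
  have onU : ∀ f : ℂ → ℝ, ∫ z, φ z * f z = ∫ z in U, φ z * f z := fun f => by
    rw [setIntegral_eq_integral_of_forall_compl_eq_zero]
    intro z hz
    rw [TF.zero hφ hz, zero_mul]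
  have rm : ∀ r : ℂ → ℝ, ∫ z in U, r z * m z ^ 2 = ∫ z in U, r z := fun r => by
    refine integral_congr_ae ?_
    filter_upwards [m1] with z hz
    rw [hz]; ring
  have low : ∀ ε : ℝ, 0 < ε → ∀ᶠ n in atTop, 3 * (∫ z, φ z * ρ z) - ε ≤
      ∫ z, φ z * ρ z * u n z ^ 4 := by
    intro ε hε
    have h1 := lower X.D.oΩ X.hm X.hp X.H X.D.oU X.D.sub (r := fun z => φ z * ρ z)
      (hφ.1.contDiffOn.mul sρU) (fun z hz => mul_nonneg (hφ0 z) (X.D.pρ z (X.D.sub hz)).le)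
      (X.wt (cφ.mul X.D.sρ.continuousOn) X.m2)
      (fun n => X.D.int ((cφ.mul X.D.sρ.continuousOn).mul (cu n))) hε
    refine h1.mono fun n hn => ?_
    rw [rm] at hn
    rw [onU]
    simp only [mul_assoc]
    rw [onU]
    simp only [mul_assoc] at hn
    exact hn
  have upp : ∀ ε : ℝ, 0 < ε → ∀ᶠ n in atTop, ∫ z, φ z * ρ z * u n z ^ 4 ≤
      3 * (∫ z, φ z * ρ z) + ε := by
    intro ε hε
    have cM : ContinuousOn (fun z => (M - φ z) * ρ z) Ω :=
      (continuousOn_const.sub cφ).mul X.D.sρ.continuousOn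
    have h1 := lower X.D.oΩ X.hm X.hp X.H X.D.oU X.D.sub (r := fun z => (M - φ z) * ρ z)
      ((contDiffOn_const.sub hφ.1.contDiffOn).mul sρU)
      (fun z hz => mul_nonneg (by linarith [hφM z]) (X.D.pρ z (X.D.sub hz)).le)
      (X.wt cM X.m2) (fun n => X.D.int (cM.mul (cu n))) (half_pos hε)
    have h2 := h4 (ε / (2 * (M + 1))) (by positivity)
    filter_upwards [h1, h2] with n n1 n2
    rw [rm] at n1
    have i1 : IntegrableOn (fun z => φ z * ρ z) U := X.D.int (cφ.mul X.D.sρ.continuousOn)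
    have i2 : IntegrableOn (fun z => ρ z * u n z ^ 4) U :=
      X.D.int (X.D.sρ.continuousOn.mul (cu n))
    have i3 : IntegrableOn (fun z => φ z * (ρ z * u n z ^ 4)) U :=
      X.D.int (cφ.mul (X.D.sρ.continuousOn.mul (cu n)))
    have e1 : ∫ z in U, (M - φ z) * ρ z = M * (∫ z in U, ρ z) - ∫ z in U, φ z * ρ z := by
      rw [← integral_const_mul, ← integral_sub (X.ir.const_mul _) i1]
      congr 1; funext z; ring
    have e2 : ∫ z in U, (M - φ z) * ρ z * u n z ^ 4 = M * (∫ z in U, ρ z * u n z ^ 4) -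
        ∫ z in U, φ z * (ρ z * u n z ^ 4) := by
      rw [← integral_const_mul, ← integral_sub (i2.const_mul _) i3]
      congr 1; funext z; ring
    rw [e1, e2] at n1
    have e3 : ∫ z, φ z * ρ z * u n z ^ 4 = ∫ z in U, φ z * (ρ z * u n z ^ 4) := by
      simp only [mul_assoc]
      rw [onU]
    rw [e3, onU]
    have n3 := mul_le_mul_of_nonneg_left n2 M0
    have n4 : M * (ε / (2 * (M + 1))) ≤ ε / 2 := by
      rw [mul_div_assoc', div_le_div_iff₀ (by positivity) (by norm_num)]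
      nlinarith
    nlinarith
  rw [Metric.tendsto_atTop']
  intro ε hε
  obtain ⟨N, hN⟩ := eventually_atTop.1 ((low _ (half_pos hε)).and (upp _ (half_pos hε)))
  refine ⟨N, fun n hn => ?_⟩
  obtain ⟨n1, n2⟩ := hN n hn.le
  rw [Real.dist_eq, abs_lt]
  constructor <;> linarith

/-- equidistribution, tested with smooth functions -/
theorem Dat.equi (X : Dat Ω U ρ m ν a h u)
    (h4 : ∀ ε : ℝ, 0 < ε → ∀ᶠ n in atTop, ∫ z in U, ρ z * u n z ^ 4 ≤ 3 * (∫ z in U, ρ z) + ε)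
    {F : ℂ → ℝ} (hF : ContDiff ℝ ∞ F) :
    Tendsto (fun n => ∫ z in U, F z * ρ z * u n z ^ 2) atTop (𝓝 (∫ z in U, F z * ρ z)) := by
  have m1 := X.one h4
  obtain ⟨B', hB'⟩ := X.D.cU.exists_bound_of_continuousOn (hF.continuous.continuousOn)
  obtain ⟨B, hB⟩ : ∃ B, B = |B'| := ⟨_, rfl⟩
  have hFB : ∀ z ∈ U, |F z| ≤ B := fun z hz =>
    (hB' z (subset_closure hz)).trans (by rw [hB]; exact le_abs_self _)
  have B0 : 0 ≤ B := by rw [hB]; exact abs_nonneg _
  have cu : ∀ n, ContinuousOn (fun z => u n z ^ 2) Ω := fun n => (X.H.sm n).continuousOn.pow 2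
  have cρ : ContinuousOn ρ Ω := X.D.sρ.continuousOn
  have cF : ContinuousOn F Ω := hF.continuous.continuousOn
  obtain ⟨χ, h1, h2, h3, h5⟩ := inner_cut X.D.oU
  have l1 := inner_lim X.D.oU h1 h2 h3 h5 X.ir
  rw [Metric.tendsto_atTop']
  intro ε hε
  obtain ⟨δ, hδ⟩ : ∃ δ, δ = ε / (8 * (B + 1)) := ⟨_, rfl⟩
  have δ0 : 0 < δ := by rw [hδ]; positivity
  obtain ⟨j, hj⟩ := (l1.eventually (lt_mem_nhds (show (∫ z in U, ρ z) - δ < ∫ z in U, ρ z by
    linarith))).exists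
  have cχ : ContinuousOn (χ j) Ω := (h1 j).1.continuous.continuousOn
  -- the two limits
  have t1 : TF Ω (fun z => χ j z * ρ z) := by
    have := TF.mulc X.D.oU (h1 j) (X.D.sρ.mono X.D.sub)
    exact ⟨this.1, this.2.1, this.2.2.trans X.D.sub⟩
  have t2 : TF Ω (fun z => χ j z * (F z * ρ z)) := by
    have := TF.mulc X.D.oU (h1 j) (hF.contDiffOn.mul (X.D.sρ.mono X.D.sub))
    exact ⟨this.1, this.2.1, this.2.2.trans X.D.sub⟩
  have v1 := vague X.H t1
  have v2 := vague X.H t2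
  have onU : ∀ f : ℂ → ℝ, ∫ z, χ j z * f z = ∫ z in U, χ j z * f z := fun f => by
    rw [setIntegral_eq_integral_of_forall_compl_eq_zero]
    intro z hz
    rw [TF.zero (h1 j) hz, zero_mul]
  have onm : ∀ f : ℂ → ℝ, ∫ z, χ j z * f z * m z = ∫ z in U, χ j z * f z := fun f => by
    simp only [mul_assoc]
    rw [onU]
    refine integral_congr_ae ?_
    filter_upwards [m1] with z hz
    rw [hz, mul_one]
  rw [onm] at v1 v2
  rw [Metric.tendsto_atTop'] at v1 v2
  obtain ⟨N1, hN1⟩ := v1 δ δ0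
  obtain ⟨N2, hN2⟩ := v2 (ε / 4) (by positivity)
  have v3 := X.hn
  rw [Metric.tendsto_atTop'] at v3
  obtain ⟨N3, hN3⟩ := v3 δ δ0
  refine ⟨max N1 (max N2 N3), fun n hn => ?_⟩
  have g1 := hN1 n (lt_of_le_of_lt (le_max_left _ _) hn)
  have g2 := hN2 n (lt_of_le_of_lt ((le_max_left _ _).trans (le_max_right _ _)) hn)
  have g3 := hN3 n (lt_of_le_of_lt ((le_max_right _ _).trans (le_max_right _ _)) hn)
  rw [Real.dist_eq, abs_lt] at g1 g2 g3
  -- the decomposition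
  have i1 : IntegrableOn (fun z => χ j z * (F z * ρ z) * u n z ^ 2) U :=
    X.D.int ((cχ.mul (cF.mul cρ)).mul (cu n))
  have i2 : IntegrableOn (fun z => F z * ρ z * u n z ^ 2) U := X.D.int ((cF.mul cρ).mul (cu n))
  have i3 : IntegrableOn (fun z => χ j z * ρ z * u n z ^ 2) U := X.D.int ((cχ.mul cρ).mul (cu n))
  have i4 : IntegrableOn (fun z => ρ z * u n z ^ 2) U := X.D.int (cρ.mul (cu n))
  have i5 : IntegrableOn (fun z => χ j z * (F z * ρ z)) U := X.D.int (cχ.mul (cF.mul cρ))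
  have i6 : IntegrableOn (fun z => F z * ρ z) U := X.D.int (cF.mul cρ)
  have i7 : IntegrableOn (fun z => χ j z * ρ z) U := X.D.int (cχ.mul cρ)
  have onU2 : ∀ f g : ℂ → ℝ, ∫ z, χ j z * f z * g z = ∫ z in U, χ j z * f z * g z := fun f g => by
    simp only [mul_assoc]
    rw [onU]
  rw [onU2] at g1 g2
  have b1 : |(∫ z in U, F z * ρ z * u n z ^ 2) - ∫ z in U, χ j z * (F z * ρ z) * u n z ^ 2| ≤
      B * ((∫ z in U, ρ z * u n z ^ 2) - ∫ z in U, χ j z * ρ z * u n z ^ 2) := by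
    rw [← integral_sub i2 i1, ← integral_sub i4 i3, ← integral_const_mul]
    refine (abs_integral_le_integral_abs).trans ?_
    refine setIntegral_mono_on (i2.sub i1).abs ((i4.sub i3).const_mul _) X.D.oU.measurableSet
      fun z hz => ?_
    have e : F z * ρ z * u n z ^ 2 - χ j z * (F z * ρ z) * u n z ^ 2 =
        F z * ((1 - χ j z) * (ρ z * u n z ^ 2)) := by ring
    have p0 : 0 ≤ (1 - χ j z) * (ρ z * u n z ^ 2) :=
      mul_nonneg (by linarith [h3 j z]) (mul_nonneg (X.D.pρ z (X.D.sub hz)).le (sq_nonneg _))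
    rw [e, abs_mul, abs_of_nonneg p0]
    have := mul_le_mul_of_nonneg_right (hFB z hz) p0
    have e2 : B * (ρ z * u n z ^ 2 - χ j z * ρ z * u n z ^ 2) =
        B * ((1 - χ j z) * (ρ z * u n z ^ 2)) := by ring
    rw [e2]; exact this
  have b2 : |(∫ z in U, F z * ρ z) - ∫ z in U, χ j z * (F z * ρ z)| ≤
      B * ((∫ z in U, ρ z) - ∫ z in U, χ j z * ρ z) := by
    rw [← integral_sub i6 i5, ← integral_sub X.ir i7, ← integral_const_mul]
    refine (abs_integral_le_integral_abs).trans ?_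
    refine setIntegral_mono_on (i6.sub i5).abs ((X.ir.sub i7).const_mul _) X.D.oU.measurableSet
      fun z hz => ?_
    have e : F z * ρ z - χ j z * (F z * ρ z) = F z * ((1 - χ j z) * ρ z) := by ring
    have p0 : 0 ≤ (1 - χ j z) * ρ z :=
      mul_nonneg (by linarith [h3 j z]) (X.D.pρ z (X.D.sub hz)).le
    rw [e, abs_mul, abs_of_nonneg p0]
    have := mul_le_mul_of_nonneg_right (hFB z hz) p0
    have e2 : B * (ρ z - χ j z * ρ z) = B * ((1 - χ j z) * ρ z) := by ring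
    rw [e2]; exact this
  have c1 : B * ((∫ z in U, ρ z * u n z ^ 2) - ∫ z in U, χ j z * ρ z * u n z ^ 2) ≤
      B * (3 * δ) := by
    refine mul_le_mul_of_nonneg_left ?_ B0
    linarith [g1.1, g3.2]
  have c2 : B * ((∫ z in U, ρ z) - ∫ z in U, χ j z * ρ z) ≤ B * δ := by
    refine mul_le_mul_of_nonneg_left ?_ B0
    linarith
  have c3 : B * (4 * δ) ≤ ε / 2 := by
    rw [hδ, mul_div_assoc', mul_div_assoc', div_le_div_iff₀ (by positivity) (by norm_num)]
    nlinarith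
  rw [abs_le] at b1 b2
  rw [Real.dist_eq, abs_lt]
  constructor
  · linarith [b1.1, b2.2, g2.1]
  · linarith [b1.2, b2.1, g2.2]

/-- equidistribution at all scales above the wavelength -/
theorem Dat.meso (X : Dat Ω U ρ m ν a h u)
    (h4 : ∀ ε : ℝ, 0 < ε → ∀ᶠ n in atTop, ∫ z in U, ρ z * u n z ^ 4 ≤ 3 * (∫ z in U, ρ z) + ε)
    (hφ : TF U φ) (hφ0 : ∀ z, 0 ≤ φ z) {r : ℕ → ℝ} (hr0 : Tendsto r atTop (𝓝 0))
    (hr1 : Tendsto (fun n => r n / h n) atTop atTop) :
    Tendsto (fun n => ∫ z, φ z * ρ z * ((∫ w, u n (z + r n • w) ^ 2 ∂dm) - 1) ^ 2) atTop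
      (𝓝 0) := by
  have m1 := X.one h4
  obtain ⟨K, hK, hφK, hKU⟩ := exists_compact_between (K := tsupport φ) hφ.2.1 X.D.oU hφ.2.2
  have hφ' : TF (interior K) φ := ⟨hφ.1, hφ.2.1, hφK⟩
  have hKi : interior K ⊆ U := interior_subset.trans hKU
  have hφρ : TF (interior K) (fun z => φ z * ρ z) :=
    TF.mulc isOpen_interior hφ' (X.D.sρ.mono (hKi.trans X.D.sub))
  have hφρ0 : ∀ z, 0 ≤ φ z * ρ z := by
    intro z
    by_cases hz : z ∈ U
    · exact mul_nonneg (hφ0 z) (X.D.pρ z (X.D.sub hz)).le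
    · rw [TF.zero hφ hz, zero_mul]
  have H1 : RawG U a h u (TH294.RG.MM (fun _ => 1) ea ν) := by
    refine ⟨X.H.hpos, X.H.hlim, X.H.sa.mono X.D.sub, fun z hz => X.H.pa z (X.D.sub hz),
      fun n => (X.H.sm n).mono X.D.sub, fun n z hz => X.H.eq n z (X.D.sub hz), fun ψ hψ k => ?_⟩
    have h1 := X.H.qe ψ ⟨hψ.1, hψ.2.1, hψ.2.2.trans X.D.sub⟩ k
    have e : ∫ z, (ψ z : ℂ) * TH294.RG.MM m ea ν k z =
        ∫ z, (ψ z : ℂ) * TH294.RG.MM (fun _ => 1) ea ν k z := by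
      rw [← setIntegral_eq_integral_of_forall_compl_eq_zero (s := U) (fun z hz => by
        rw [TF.zero hψ hz]; simp),
        ← setIntegral_eq_integral_of_forall_compl_eq_zero (s := U)
        (f := fun z => (ψ z : ℂ) * TH294.RG.MM (fun _ => 1) ea ν k z) (fun z hz => by
        rw [TF.zero hψ hz]; simp)]
      refine integral_congr_ae ?_
      filter_upwards [m1] with z hz
      simp only [TH294.RG.MM, hz]
    rw [← e]
    exact h1
  have hm1 : ∀ K' : Set ℂ, IsCompact K' → K' ⊆ U → MemLp (fun _ : ℂ => (1 : ℝ)) 2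
      (volume.restrict K') := by
    intro K' hK' _
    have : IsFiniteMeasure (volume.restrict K') := ⟨by simpa using hK'.measure_lt_top⟩
    exact memLp_const 1
  have hp1 : ∀ᵐ z ∂(volume.restrict U), par ea (ν z) = 0 :=
    ae_restrict_of_ae_restrict_of_subset X.D.sub X.hp
  -- the fourth moments on `K`
  obtain ⟨C, hC0, hC⟩ : ∃ C : ℝ, 0 < C ∧ ∀ᶠ n in atTop, ∫ z in K, u n z ^ 4 ≤ C := by
    have ci : ContinuousOn (fun z => (ρ z)⁻¹) K :=
      (X.D.sρ.continuousOn.mono (hKU.trans X.D.sub)).inv₀ fun z hz =>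
        (X.D.pρ z (X.D.sub (hKU hz))).ne'
    obtain ⟨c', hc'⟩ := hK.exists_bound_of_continuousOn ci
    have A0 : 0 ≤ ∫ z in U, ρ z :=
      setIntegral_nonneg X.D.oU.measurableSet fun z hz => (X.D.pρ z (X.D.sub hz)).le
    refine ⟨|c'| * (3 * (∫ z in U, ρ z) + 1) + 1, by positivity, ?_⟩
    filter_upwards [h4 1 one_pos] with n hn
    have cu : ContinuousOn (fun z => u n z ^ 4) Ω := (X.H.sm n).continuousOn.pow 4
    have i1 : IntegrableOn (fun z => ρ z * u n z ^ 4) U := X.D.int (X.D.sρ.continuousOn.mul cu)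
    have i2 : IntegrableOn (fun z => |c'| * (ρ z * u n z ^ 4)) K :=
      (i1.mono_set hKU).const_mul _
    have i3 : IntegrableOn (fun z => u n z ^ 4) K :=
      (cu.mono (hKU.trans X.D.sub)).integrableOn_compact hK
    have s1 : ∫ z in K, u n z ^ 4 ≤ ∫ z in K, |c'| * (ρ z * u n z ^ 4) := by
      refine setIntegral_mono_on i3 i2 hK.measurableSet fun z hz => ?_
      have p := X.D.pρ z (X.D.sub (hKU hz))
      have h1 := hc' z hz
      rw [norm_inv, Real.norm_eq_abs, abs_of_pos p] at h1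
      have h2 : (ρ z)⁻¹ ≤ |c'| := h1.trans (le_abs_self _)
      have h3 : (1 : ℝ) ≤ |c'| * ρ z := by
        have := mul_le_mul_of_nonneg_right h2 p.le
        rwa [inv_mul_cancel₀ p.ne'] at this
      have h4 : (0 : ℝ) ≤ u n z ^ 4 := by positivity
      nlinarith
    have s2 : ∫ z in K, ρ z * u n z ^ 4 ≤ ∫ z in U, ρ z * u n z ^ 4 := by
      refine setIntegral_mono_set i1 ?_ hKU.eventuallyLE
      exact (ae_restrict_mem X.D.oU.measurableSet).mono fun z hz =>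
        mul_nonneg (X.D.pρ z (X.D.sub hz)).le (by positivity)
    rw [integral_const_mul] at s1
    have s3 := mul_le_mul_of_nonneg_left (s2.trans hn) (abs_nonneg c')
    linarith
  have l4 := X.loc4 h4 hφ hφ0
  rw [Metric.tendsto_atTop']
  intro ε hε
  obtain ⟨R₀, r₀, hR, hr, key⟩ := meso_unif hm1 contDiffOn_const hp1 H1 hK hKU hφρ hφρ0
    (ε := ε / (4 * (1 + C))) (by positivity)
  have v4 := l4.eventually (gt_mem_nhds (show 3 * (∫ z, φ z * ρ z) <
    3 * (∫ z, φ z * ρ z) + ε / 2 by linarith))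
  have v1 := hr1.eventually (eventually_ge_atTop R₀)
  have v0 := hr0.eventually (gt_mem_nhds hr)
  obtain ⟨N, hN⟩ := eventually_atTop.1 (key.and (v4.and (v1.and (v0.and hC))))
  refine ⟨N, fun n hn => ?_⟩
  obtain ⟨n1, n2, n3, n4, n5⟩ := hN n hn.le
  have hp := X.H.hpos n
  have n3' : R₀ * h n ≤ r n := by
    rwa [le_div_iff₀ hp] at n3
  have n6 := n1 (r n) n3' n4.le
  have nn : 0 ≤ ∫ z, φ z * ρ z * ((∫ w, u n (z + r n • w) ^ 2 ∂dm) - 1) ^ 2 :=
    integral_nonneg fun z => mul_nonneg (hφρ0 z) (sq_nonneg _)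
  rw [Real.dist_eq, sub_zero, abs_of_nonneg nn]
  have n7 : ε / (4 * (1 + C)) * (1 + ∫ z in K, u n z ^ 4) ≤ ε / 4 := by
    have : ε / (4 * (1 + C)) * (1 + ∫ z in K, u n z ^ 4) ≤ ε / (4 * (1 + C)) * (1 + C) :=
      mul_le_mul_of_nonneg_left (by linarith) (by positivity)
    refine this.trans (le_of_eq ?_)
    field_simp
  simp only [one_pow, mul_one] at n6
  linarith

end

end Pool.Agent.Q175.RW.QC
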