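import Pool.Agent.Q175.RW.TM
import Pool.Agent.Q175.RW.QC
import Pool.Agent.TH294.RG.SpecH
import Pool.Agent.TH421.AZ.Main

/-! From the total fourth moment: small values and power spectrum. -/
set_option autoImplicit false
open MeasureTheory Filter Topology Complex
open scoped ContDiff ENNReal

namespace Pool.Agent.Q175.RW.TM

open Pool.Agent.W745.RW Pool.Agent.TH294.RS Pool.Agent.Y265.HY
open Pool.Agent.TH294.RG (RawG ea par unif ea_meas ea_norm opP sR)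

noncomputable section

variable {U : Set ℂ} {lam : ℕ → ℝ} {f : ℕ → ℂ → ℝ} {ψ φ : ℂ → ℝ}

lemma TD.rawG (X : TD U lam f) : RawG U (fun z => z.im) (fun n => 1 / √(lam n)) f
    (TH294.RG.MM (fun _ => 1) ea unif) := by
  have R := X.raw
  refine ⟨R.hpos, R.hlim, R.sa, R.pa, R.sm, R.eq, fun φ hφ k => ?_⟩
  have h1 := R.qe φ hφ k
  have e : (∫ z, (φ z : ℂ) * TH294.RG.MM (fun _ => 1) ea unif k z) =
      if k = 0 then ((∫ z, φ z : ℝ) : ℂ) else 0 := by
    simp only [TH294.RG.MM_unif]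
    by_cases hk : k = 0
    · simp only [hk, if_true, mul_one]
      rw [← integral_complex_ofReal]
    · simp [hk]
  rw [e]
  exact h1

lemma par_mu0 : par ea TH294.RG.mu0 = 0 := by
  unfold par
  rw [measureReal_def, Measure.measure_prod_null (TH294.RG.PS_meas ea_meas) |>.2]
  · rfl
  · refine ae_of_all _ fun x => ?_
    rw [TH294.RG.ea_par]
    have hc : (Prod.mk x ⁻¹' {p : ℝ × ℝ | Real.sin (p.1 - p.2) = 0}).Countable := by
      refine (Set.countable_range (fun k : ℤ => x - k * Real.pi)).mono ?_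
      intro y hy
      have h1 : Real.sin (x - y) = 0 := hy
      obtain ⟨k, hk⟩ := Real.sin_eq_zero_iff.1 h1
      exact ⟨k, by simp only; linarith⟩
    show TH294.RG.mu0 _ = 0
    unfold TH294.RG.mu0
    rw [Measure.smul_apply, hc.measure_zero, smul_zero]

lemma par_unif : ∀ᵐ z ∂(volume.restrict U), par ea (unif z) = 0 :=
  ae_of_all _ fun z => by
    simp only [unif, ProbabilityTheory.Kernel.const_apply]
    exact par_mu0

lemma TD.K4 (X : TD U lam f) {K : Set ℂ} (hK : IsCompact K) (hKU : K ⊆ U) :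
    ∃ C : ℝ, 0 < C ∧ ∀ᶠ n in atTop, ∫ z in K, f n z ^ 4 ≤ C := by
  obtain ⟨c, hc⟩ := hK.exists_bound_of_continuousOn
    ((continuous_im.pow 2).continuousOn (s := K))
  have A0 : 0 ≤ ∫ z in U, 1 / z.im ^ 2 :=
    setIntegral_nonneg X.oU.measurableSet fun z _ => div_nonneg zero_le_one (sq_nonneg _)
  refine ⟨|c| * (3 * (∫ z in U, 1 / z.im ^ 2) + 1) + 1, by positivity, ?_⟩
  filter_upwards [X.h4 1 one_pos] with n hn
  have i1 := X.i4 n
  have i2 : IntegrableOn (fun z => |c| * (f n z ^ 4 / z.im ^ 2)) K :=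
    (IntegrableOn.mono_set i1 hKU).const_mul _
  have i3 : IntegrableOn (fun z => f n z ^ 4) K :=
    (((X.sf n).continuousOn.pow 4).mono hKU).integrableOn_compact hK
  have s1 : ∫ z in K, f n z ^ 4 ≤ ∫ z in K, |c| * (f n z ^ 4 / z.im ^ 2) := by
    refine setIntegral_mono_on i3 i2 hK.measurableSet fun z hz => ?_
    have p := X.sU z (hKU hz)
    have h1 := hc z hz
    rw [Real.norm_eq_abs, abs_of_nonneg (sq_nonneg _)] at h1
    have h2 : z.im ^ 2 ≤ |c| := h1.trans (le_abs_self _)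
    have h4 : (0 : ℝ) ≤ f n z ^ 4 := by positivity
    rw [mul_div_assoc', le_div_iff₀ (by positivity), mul_comm]
    exact mul_le_mul_of_nonneg_right h2 h4
  have s2 : ∫ z in K, f n z ^ 4 / z.im ^ 2 ≤ ∫ z in U, f n z ^ 4 / z.im ^ 2 := by
    refine setIntegral_mono_set i1 ?_ hKU.eventuallyLE
    exact (ae_restrict_mem X.oU.measurableSet).mono fun z _ =>
      div_nonneg (by positivity) (sq_nonneg _)
  rw [integral_const_mul] at s1
  have s3 := mul_le_mul_of_nonneg_left (s2.trans hn) (abs_nonneg c)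
  linarith

lemma meas_le (X : TD U lam f) (n : ℕ) (s : ℝ) : MeasurableSet {z | z ∈ U ∧ |f n z| ≤ s} ∧
    MeasurableSet {z | z ∈ U ∧ s < |f n z|} := by
  have c : ContinuousOn (fun z => |f n z|) U := (X.sf n).continuousOn.abs
  have o : IsOpen {z | z ∈ U ∧ s < |f n z|} := c.isOpen_inter_preimage X.oU isOpen_Ioi
  refine ⟨?_, o.measurableSet⟩
  have e : {z | z ∈ U ∧ |f n z| ≤ s} = U \ {z | z ∈ U ∧ s < |f n z|} := by
    ext z
    constructor
    · rintro ⟨h1, h2⟩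
      exact ⟨h1, fun h => absurd h.2 (not_lt.2 h2)⟩
    · rintro ⟨h1, h2⟩
      exact ⟨h1, not_lt.1 fun h => h2 ⟨h1, h⟩⟩
  rw [e]
  exact X.oU.measurableSet.diff o.measurableSet

/-- **small values** -/
theorem TD.small (X : TD U lam f) {ε : ℝ} (hε : 0 < ε) :
    ∃ s : ℝ, 0 < s ∧ ∀ᶠ n in atTop, ∫ z in {z | z ∈ U ∧ |f n z| ≤ s}, 1 / z.im ^ 2 ≤ ε := by
  obtain ⟨χ, h1, h2, h3, h4⟩ := QC.inner_cut X.oU
  have l1 := QC.inner_lim X.oU h1 h2 h3 h4 X.fin
  obtain ⟨j, hj⟩ := (l1.eventually (lt_mem_nhds (show (∫ z in U, 1 / z.im ^ 2) - ε / 4 <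
    ∫ z in U, 1 / z.im ^ 2 by linarith))).exists
  have tχ := h1 j
  obtain ⟨K, hK, hφK, hKU⟩ := exists_compact_between (K := tsupport (χ j)) tχ.2.1 X.oU tχ.2.2
  have hφ' : TF (interior K) (χ j) := ⟨tχ.1, tχ.2.1, hφK⟩
  have hKi : interior K ⊆ U := interior_subset.trans hKU
  have sy : ContDiffOn ℝ ∞ (fun z : ℂ => (z.im ^ 2)⁻¹) (interior K) := by
    refine ContDiffOn.inv ((imCLM.contDiff.pow 2).contDiffOn) fun z hz => ?_
    exact pow_ne_zero 2 (X.sU z (hKi hz)).ne'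
  have hφρ : TF (interior K) (fun z => χ j z / z.im ^ 2) := TF.mulc isOpen_interior hφ' sy
  have hφρ0 : ∀ z, 0 ≤ χ j z / z.im ^ 2 := fun z => div_nonneg (h2 j z) (sq_nonneg _)
  obtain ⟨J, hJ⟩ : ∃ J : ℝ, J = ∫ z, χ j z / z.im ^ 2 := ⟨_, rfl⟩
  have J0 : 0 ≤ J := by rw [hJ]; exact integral_nonneg hφρ0
  have iχ : Integrable (fun z => χ j z / z.im ^ 2) :=
    hφρ.1.continuous.integrable_of_hasCompactSupport hφρ.2.1
  have eJ : ∫ z in U, χ j z * (1 / z.im ^ 2) = J := by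
    rw [hJ]
    have : ∫ z in U, χ j z * (1 / z.im ^ 2) = ∫ z in U, χ j z / z.im ^ 2 := by
      congr 1; funext z; ring
    rw [this]
    refine setIntegral_eq_integral_of_forall_compl_eq_zero fun z hz => ?_
    rw [TF.zero tχ hz]; simp
  rw [eJ] at hj
  obtain ⟨C, C0, hC⟩ := X.K4 hK hKU
  have loc := X.loc tχ
  rw [← hJ] at loc
  -- the main estimate
  have main : ∃ s : ℝ, 0 < s ∧ ∀ᶠ n in atTop,
      J - (∫ z in {z | z ∈ U ∧ s < |f n z|}, χ j z / z.im ^ 2) ≤ ε / 2 := by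
    rcases J0.eq_or_lt with hz | hpos
    · refine ⟨1, one_pos, Eventually.of_forall fun n => ?_⟩
      have : 0 ≤ ∫ z in {z | z ∈ U ∧ 1 < |f n z|}, χ j z / z.im ^ 2 :=
        integral_nonneg fun z => hφρ0 z
      rw [← hz]; linarith
    · obtain ⟨e', he'⟩ : ∃ e' : ℝ, e' = ε * J / (8 * (1 + C)) := ⟨_, rfl⟩
      have e'0 : 0 < e' := by rw [he']; positivity
      have hm1 : ∀ K' : Set ℂ, IsCompact K' → K' ⊆ U → MemLp (fun _ : ℂ => (1 : ℝ)) 2
          (volume.restrict K') := by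
        intro K' hK' _
        have : IsFiniteMeasure (volume.restrict K') := ⟨by simpa using hK'.measure_lt_top⟩
        exact memLp_const 1
      have key := Pool.Agent.TH421.AC.small_rel X.oU hm1 par_unif X.rawG hK hKU hφρ hφρ0 e'0
      obtain ⟨s, hs, hs0⟩ := (key.and self_mem_nhdsWithin).exists
      refine ⟨s, hs0, ?_⟩
      have l4 := loc.eventually (gt_mem_nhds (show 3 * J < 3 * J + ε / 8 by linarith))
      filter_upwards [hs, hC, l4] with n n1 n2 n3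
      simp only [mul_one, one_pow] at n1
      rw [← hJ] at n1
      obtain ⟨V, hV⟩ : ∃ V, V = ∫ z in {z | z ∈ U ∧ s < |f n z|}, χ j z / z.im ^ 2 := ⟨_, rfl⟩
      have V0 : 0 ≤ V := by rw [hV]; exact integral_nonneg fun z => hφρ0 z
      have VJ : V ≤ J := by
        rw [hV, hJ]
        exact setIntegral_le_integral iχ (ae_of_all _ hφρ0)
      rw [← hV] at n1 ⊢
      have ex : ∫ z, χ j z / z.im ^ 2 * f n z ^ 4 = ∫ z, χ j z * f n z ^ 4 / z.im ^ 2 := by
        congr 1; funext z; ring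
      rw [ex] at n1
      have n4 : V * ((∫ z, χ j z * f n z ^ 4 / z.im ^ 2) - 2 * J) ≤ V * (J + ε / 8) :=
        mul_le_mul_of_nonneg_left (by linarith) V0
      have n5 : e' * (1 + ∫ z in K, f n z ^ 4) ≤ e' * (1 + C) :=
        mul_le_mul_of_nonneg_left (by linarith) e'0.le
      have n6 : e' * (1 + C) = ε * J / 8 := by rw [he']; field_simp
      have n7 : V * (ε / 8) ≤ J * (ε / 8) := mul_le_mul_of_nonneg_right VJ (by positivity)
      have n8 : (J - V) * J ≤ (ε / 4) * J := by nlinarith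
      have n9 := le_of_mul_le_mul_right n8 hpos
      linarith
  obtain ⟨s, hs0, hs⟩ := main
  refine ⟨s, hs0, hs.mono fun n hn => ?_⟩
  obtain ⟨m1, m2⟩ := meas_le X n s
  have iU : IntegrableOn (fun z => χ j z / z.im ^ 2) U := iχ.integrableOn
  have sub1 : {z | z ∈ U ∧ |f n z| ≤ s} ⊆ U := fun z hz => hz.1
  have sub2 : {z | z ∈ U ∧ s < |f n z|} ⊆ U := fun z hz => hz.1
  have dj : Disjoint {z | z ∈ U ∧ |f n z| ≤ s} {z | z ∈ U ∧ s < |f n z|} := by
    rw [Set.disjoint_left]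
    rintro z ⟨-, h5⟩ ⟨-, h6⟩
    exact absurd h6 (not_lt.2 h5)
  have un : {z | z ∈ U ∧ |f n z| ≤ s} ∪ {z | z ∈ U ∧ s < |f n z|} = U := by
    ext z
    constructor
    · rintro (h | h)
      · exact h.1
      · exact h.1
    · intro h
      rcases le_or_gt |f n z| s with h5 | h5
      · exact Or.inl ⟨h, h5⟩
      · exact Or.inr ⟨h, h5⟩
  have a1 : ∫ z in U, χ j z / z.im ^ 2 = (∫ z in {z | z ∈ U ∧ |f n z| ≤ s}, χ j z / z.im ^ 2) +
      ∫ z in {z | z ∈ U ∧ s < |f n z|}, χ j z / z.im ^ 2 := by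
    rw [← setIntegral_union dj m2 (iU.mono_set sub1) (iU.mono_set sub2), un]
  have a2 : ∫ z in U, χ j z / z.im ^ 2 = J := by
    rw [← eJ]; congr 1; funext z; ring
  have a3 : ∫ z in {z | z ∈ U ∧ |f n z| ≤ s}, (1 - χ j z) / z.im ^ 2 ≤
      ∫ z in U, (1 - χ j z) / z.im ^ 2 := by
    refine setIntegral_mono_set ?_ ?_ sub1.eventuallyLE
    · have : IntegrableOn (fun z : ℂ => 1 / z.im ^ 2 - χ j z / z.im ^ 2) U := X.fin.sub iU
      refine this.congr (Eventually.of_forall fun z => ?_)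
      show 1 / z.im ^ 2 - χ j z / z.im ^ 2 = _
      ring
    · exact ae_of_all _ fun z => div_nonneg (by
        show (0 : ℝ) ≤ 1 - χ j z
        linarith [h3 j z]) (sq_nonneg _)
  have a4 : ∫ z in U, (1 - χ j z) / z.im ^ 2 = (∫ z in U, 1 / z.im ^ 2) - J := by
    rw [← a2, ← integral_sub X.fin iU]
    congr 1; funext z; ring
  have a5 : ∫ z in {z | z ∈ U ∧ |f n z| ≤ s}, 1 / z.im ^ 2 =
      (∫ z in {z | z ∈ U ∧ |f n z| ≤ s}, (1 - χ j z) / z.im ^ 2) +
      ∫ z in {z | z ∈ U ∧ |f n z| ≤ s}, χ j z / z.im ^ 2 := by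
    have i5 : IntegrableOn (fun z => (1 - χ j z) / z.im ^ 2) {z | z ∈ U ∧ |f n z| ≤ s} := by
      have : IntegrableOn (fun z : ℂ => 1 / z.im ^ 2 - χ j z / z.im ^ 2)
          {z | z ∈ U ∧ |f n z| ≤ s} := (X.fin.mono_set sub1).sub (iU.mono_set sub1)
      refine this.congr (Eventually.of_forall fun z => ?_)
      show 1 / z.im ^ 2 - χ j z / z.im ^ 2 = _
      ring
    rw [← integral_add i5 (iU.mono_set sub1)]
    congr 1; funext z; ring
  linarith

/-- **power spectrum** -/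
theorem TD.power (X : TD U lam f) (hφ : TF U φ) (F : Polynomial ℝ) :
    Tendsto (fun n => ∫ z, ((φ z / z.im ^ 2 : ℝ) : ℂ) *
      (opP Complex.im (1 / √(lam n)) F (fun w => (f n w : ℂ) * (f n w : ℂ)) z *
       opP Complex.im (1 / √(lam n)) F (fun w => (f n w : ℂ) * (f n w : ℂ)) z)) atTop
      (𝓝 (((F.eval 0 ^ 2 + 1 / Real.pi *
      ∫ θ in (0 : ℝ)..(2 * Real.pi), F.eval (2 - 2 * Real.cos θ) ^ 2 : ℝ) : ℂ) *
      ((∫ z, φ z / z.im ^ 2 : ℝ) : ℂ))) := by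
  obtain ⟨S, E⟩ := hyp_sys X.oU X.sU X.lp X.ll X.sf X.ef X.qe
  have sy : ContDiffOn ℝ ∞ (fun z : ℂ => (z.im ^ 2)⁻¹) U := by
    refine ContDiffOn.inv ((imCLM.contDiff.pow 2).contDiffOn) fun z hz => ?_
    exact pow_ne_zero 2 (X.sU z hz).ne'
  have tφ : TF U (fun z => φ z / z.im ^ 2) := TF.mulc X.oU hφ sy
  have key := Pool.Agent.Y265.HY.PS.spec_c S X.sU E tφ F
  have w0 : ∀ n z, Pool.Agent.TH294.RS.ww Complex.im (fun n => 1 / √(lam n))
      (fun n z => (f n z : ℂ)) 0 n z = (f n z : ℂ) := fun n z => rfl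
  have v0 : ∀ n, Pool.Agent.TH294.RG.vv (Pool.Agent.TH294.RS.ww Complex.im
      (fun n => 1 / √(lam n)) (fun n z => (f n z : ℂ))) 0 n =
      fun w => (f n w : ℂ) * (f n w : ℂ) := by
    intro n
    funext z
    simp only [Pool.Agent.TH294.RG.vv, neg_zero, Int.natAbs_zero, pow_zero, one_mul, w0]
  have a2 : ∀ n, ∫ z, ((φ z / z.im ^ 2 : ℝ) : ℂ) * Pool.Agent.TH294.RS.F4
      (Pool.Agent.TH294.RS.ww Complex.im
      (fun n => 1 / √(lam n)) (fun n z => (f n z : ℂ))) 0 0 0 0 n z =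
      ((∫ z, φ z * f n z ^ 4 / z.im ^ 2 : ℝ) : ℂ) := by
    intro n
    rw [← integral_complex_ofReal]
    congr 1; funext z
    simp only [Pool.Agent.TH294.RS.F4, w0]
    push_cast; ring
  simp only [v0, a2] at key
  have l := X.loc hφ
  have l2 : Tendsto (fun n => (((2 * F.eval 0 ^ 2 + F.eval 4 ^ 2) / 3 : ℝ) : ℂ) *
      (((∫ z, φ z * f n z ^ 4 / z.im ^ 2 : ℝ) : ℂ) - 3 * ((∫ z, φ z / z.im ^ 2 : ℝ) : ℂ))) atTop
      (𝓝 0) := by
    have l3 : Tendsto (fun n => ((∫ z, φ z * f n z ^ 4 / z.im ^ 2 : ℝ) : ℂ)) atTop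
        (𝓝 ((3 * ∫ z, φ z / z.im ^ 2 : ℝ) : ℂ)) := (continuous_ofReal.tendsto _).comp l
    have l4 := (l3.sub_const (3 * ((∫ z, φ z / z.im ^ 2 : ℝ) : ℂ))).const_mul
      (((2 * F.eval 0 ^ 2 + F.eval 4 ^ 2) / 3 : ℝ) : ℂ)
    have e : (((2 * F.eval 0 ^ 2 + F.eval 4 ^ 2) / 3 : ℝ) : ℂ) *
      (((3 * ∫ z, φ z / z.im ^ 2 : ℝ) : ℂ) - 3 * ((∫ z, φ z / z.im ^ 2 : ℝ) : ℂ)) = 0 := by
      push_cast; ring
    rw [e] at l4
    exact l4
  have l5 := key.add l2
  rw [add_zero] at l5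
  refine l5.congr fun n => ?_
  ring

end

end Pool.Agent.Q175.RW.TM
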