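import Pool.Agent.Q175.RW.LL3
import Pool.Agent.Q175.RW.FT3
import Pool.Agent.Q175.RW.TM2

/-! Limit laws under a fourth moment bound: the hyperbolic plane. -/
set_option autoImplicit false
open MeasureTheory Filter Topology Complex ProbabilityTheory
open scoped ContDiff ENNReal

namespace Pool.Agent.Q175.RW.LH

open Pool.Agent.W745.RW Pool.Agent.TH294.RS Pool.Agent.Y265.HY
open Pool.Agent.TH294.RG (ea par unif)
open Pool.Agent.Y139.PD (area)

noncomputable section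

variable {U : Set ℂ}

lemma rd_fd (hU : IsOpen U) (hUH : ∀ z ∈ U, 0 < z.im) {lam : ℝ} (hl : 0 < lam) (F : ℂ → ℂ)
    (k : ℕ) : ∀ z ∈ U, (RD (fun z : ℂ => 1 / z.im ^ 2) lam)^[k] F z = (FD lam)^[k] F z := by
  induction k with
  | zero => intro z _; rfl
  | succ k ih =>
    intro z hz
    rw [Function.iterate_succ', Function.iterate_succ', Function.comp, Function.comp]
    have e1 : RD (fun z : ℂ => 1 / z.im ^ 2) lam
        ((RD (fun z : ℂ => 1 / z.im ^ 2) lam)^[k] F) z =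
        ((1 / √(lam * (1 / z.im ^ 2)) : ℝ) : ℂ) *
          (dx ((RD (fun z : ℂ => 1 / z.im ^ 2) lam)^[k] F) z -
          I * dy ((RD (fun z : ℂ => 1 / z.im ^ 2) lam)^[k] F) z) := rfl
    have ev : ((RD (fun z : ℂ => 1 / z.im ^ 2) lam)^[k] F) =ᶠ[𝓝 z] ((FD lam)^[k] F) := by
      filter_upwards [hU.mem_nhds hz] with w hw
      exact ih w hw
    have e2 : dx ((RD (fun z : ℂ => 1 / z.im ^ 2) lam)^[k] F) z = dx ((FD lam)^[k] F) z := by
      unfold dx; rw [ev.fderiv_eq]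
    have e3 : dy ((RD (fun z : ℂ => 1 / z.im ^ 2) lam)^[k] F) z = dy ((FD lam)^[k] F) z := by
      unfold dy; rw [ev.fderiv_eq]
    have p := hUH z hz
    have e4 : 1 / √(lam * (1 / z.im ^ 2)) = z.im / √lam := by
      rw [mul_one_div, Real.sqrt_div hl.le, Real.sqrt_sq p.le, one_div_div]
    rw [e1, e2, e3, e4]
    rfl

/-- the data for the hyperbolic metric -/
theorem ld (hU : IsOpen U) (hne : U.Nonempty) (hUH : ∀ z ∈ U, 0 < z.im)
    (hfin : area U (fun z => 1 / z.im ^ 2) Set.univ ≠ ⊤) {lam : ℕ → ℝ} (hpos : ∀ n, 0 < lam n)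
    (hlam : Tendsto lam atTop atTop) {f : ℕ → ℂ → ℝ} (hf : ∀ n, ContDiffOn ℝ ∞ (f n) U)
    (heq : ∀ n, ∀ z ∈ U, z.im ^ 2 * lap (f n) z + lam n * f n z = 0)
    (hqe : ∀ φ, TF U φ → ∀ k : ℕ, Tendsto (fun n => ∫ z, ((φ z / z.im ^ 2 : ℝ) : ℂ) *
      ((f n z : ℂ) * (FD (lam n))^[k] (fun w => (f n w : ℂ)) z)) atTop
      (𝓝 (if k = 0 then ((∫ z, φ z / z.im ^ 2 : ℝ) : ℂ) else 0)))
    {K : ℝ} (h4i : ∀ n, Integrable (fun z => f n z ^ 4) (area U (fun z => 1 / z.im ^ 2)))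
    (h4 : ∀ ε : ℝ, 0 < ε → ∀ᶠ n in atTop,
      ∫ z, f n z ^ 4 ∂(area U (fun z => 1 / z.im ^ 2)) ≤
        K * (area U (fun z => 1 / z.im ^ 2) Set.univ).toReal + ε) :
    LL.LD U (fun z => 1 / z.im ^ 2) lam f unif K := by
  have him : ContDiff ℝ ∞ (fun z : ℂ => z.im) := imCLM.contDiff
  refine ⟨hU, hne, ?_, fun z hz => ?_, hfin, hpos, hlam, hf, fun n z hz => ?_, fun φ hφ k => ?_,
    TM.par_unif, h4i, h4⟩
  · exact contDiffOn_const.div (him.pow 2).contDiffOn fun z hz => by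
      have := hUH z hz
      positivity
  · have := hUH z hz
    positivity
  · have h1 := heq n z hz
    have h2 := hUH z hz
    have h4 : z.im ^ 2 ≠ 0 := by positivity
    field_simp
    linarith
  · have h1 := hqe φ hφ k
    have e : (∫ z, ((φ z * (1 / z.im ^ 2) : ℝ) : ℂ) * TH294.RG.MM (fun _ => 1) ea unif k z) =
        if k = 0 then ((∫ z, φ z / z.im ^ 2 : ℝ) : ℂ) else 0 := by
      simp only [TH294.RG.MM_unif]
      by_cases hk : k = 0
      · simp only [hk, if_true, mul_one, mul_one_div]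
        rw [← integral_complex_ofReal]
      · simp [hk]
    rw [e]
    refine h1.congr fun n => ?_
    congr 1; funext z
    by_cases hz : z ∈ U
    · rw [rd_fd hU hUH (hpos n) _ k z hz, mul_one_div]
    · rw [TF.zero hφ hz]; simp

end

end Pool.Agent.Q175.RW.LH
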