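import Pool.Agent.Y139.PD.P
import Pool.Agent.Q175.RW.QC
import Pool.Agent.TH421.AZ.Main
import Pool.Agent.TH294.RG.Th3

/-! Limit laws under a fourth moment bound: global moments. -/
set_option autoImplicit false
open MeasureTheory Filter Topology Complex ProbabilityTheory
open scoped ContDiff ENNReal

namespace Pool.Agent.Q175.RW.LL

open Pool.Agent.W745.RW Pool.Agent.TH294.RS
open Pool.Agent.TH294.RG (RawG ea par ea_meas ea_norm)
open Pool.Agent.Y139.PD (area WLim wfrac Bey cut cut_co cut_0 cut_1 cut_e cut_s a_me)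

noncomputable section

/-- eigenfunctions on a surface of finite area, equidistributed, with semiclassical measure
without atomic directions and fourth moment at most `K` -/
structure LD (Ω : Set ℂ) (ρ : ℂ → ℝ) (lam : ℕ → ℝ) (u : ℕ → ℂ → ℝ) (κ : Kernel ℂ ℝ) (K : ℝ) :
    Prop where
  oΩ : IsOpen Ω
  ne : Ω.Nonempty
  sρ : ContDiffOn ℝ ∞ ρ Ω
  pρ : ∀ z ∈ Ω, 0 < ρ z
  fin : area Ω ρ Set.univ ≠ ⊤
  lp : ∀ n, 0 < lam n
  ll : Tendsto lam atTop atTop
  su : ∀ n, ContDiffOn ℝ ∞ (u n) Ω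
  eq : ∀ n, ∀ z ∈ Ω, lap (u n) z + lam n * (ρ z * u n z) = 0
  qe : ∀ φ, TF Ω φ → ∀ k : ℕ, Tendsto (fun n => ∫ z, ((φ z * ρ z : ℝ) : ℂ) *
      ((u n z : ℂ) * (RD ρ (lam n))^[k] (fun w => (u n w : ℂ)) z)) atTop
      (𝓝 (∫ z, ((φ z * ρ z : ℝ) : ℂ) * TH294.RG.MM (fun _ => 1) ea κ k z))
  pa : ∀ᵐ z ∂(volume.restrict Ω), par ea (κ z) = 0
  i4 : ∀ n, Integrable (fun z => u n z ^ 4) (area Ω ρ)
  h4 : ∀ ε : ℝ, 0 < ε → ∀ᶠ n in atTop,
    ∫ z, u n z ^ 4 ∂(area Ω ρ) ≤ K * (area Ω ρ Set.univ).toReal + ε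

variable {Ω : Set ℂ} {ρ : ℂ → ℝ} {lam : ℕ → ℝ} {u : ℕ → ℂ → ℝ} {κ : Kernel ℂ ℝ} {K : ℝ}

lemma LD.fm (X : LD Ω ρ lam u κ K) : IsFiniteMeasure (area Ω ρ) := ⟨lt_top_iff_ne_top.2 X.fin⟩

lemma LD.int (X : LD Ω ρ lam u κ K) (g : ℂ → ℝ) {s : Set ℂ} (hs : MeasurableSet s) :
    ∫ z in s, g z ∂(area Ω ρ) = ∫ z in s ∩ Ω, ρ z * g z := by
  unfold area
  rw [← Measure.restrict_restrict hs, setIntegral_withDensity_eq_setIntegral_toReal_smul₀
    ((a_me X.oΩ X.sρ).restrict) (ae_of_all _ fun _ => ENNReal.ofReal_lt_top) _ hs]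
  rw [Measure.restrict_restrict hs]
  refine setIntegral_congr_fun (hs.inter X.oΩ.measurableSet) fun z hz => ?_
  show (ENNReal.ofReal (ρ z)).toReal • g z = ρ z * g z
  rw [ENNReal.toReal_ofReal (X.pρ z hz.2).le, smul_eq_mul]

lemma LD.compl (X : LD Ω ρ lam u κ K) : area Ω ρ Ωᶜ = 0 := by
  unfold area
  rw [withDensity_apply _ X.oΩ.measurableSet.compl,
    Measure.restrict_restrict X.oΩ.measurableSet.compl]
  simp

lemma LD.aeΩ (X : LD Ω ρ lam u κ K) : ∀ᵐ z ∂(area Ω ρ), z ∈ Ω := by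
  rw [ae_iff]
  exact X.compl

lemma LD.pos (X : LD Ω ρ lam u κ K) : 0 < (area Ω ρ Set.univ).toReal := by
  refine ENNReal.toReal_pos (fun h => ?_) X.fin
  unfold area at h
  rw [withDensity_apply _ MeasurableSet.univ, Measure.restrict_univ,
    lintegral_eq_zero_iff' (a_me X.oΩ X.sρ)] at h
  have h1 : ∀ᵐ z ∂(volume.restrict Ω), False := by
    filter_upwards [h, ae_restrict_mem X.oΩ.measurableSet] with z h1 h2
    have : ENNReal.ofReal (ρ z) = 0 := h1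
    rw [ENNReal.ofReal_eq_zero] at this
    exact absurd (X.pρ z h2) (not_lt.2 this)
  rw [ae_iff] at h1
  simp only [not_false_eq_true] at h1
  have h2 : (volume.restrict Ω) Set.univ = 0 := h1
  rw [Measure.restrict_apply_univ] at h2
  exact (X.oΩ.measure_pos volume X.ne).ne' h2

lemma LD.ume (X : LD Ω ρ lam u κ K) (n : ℕ) : AEStronglyMeasurable (u n) (area Ω ρ) :=
  (((X.su n).continuousOn.aemeasurable X.oΩ.measurableSet).mono_ac
    (withDensity_absolutelyContinuous _ _)).aestronglyMeasurable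

/-- integrals against test functions -/
lemma LD.test (X : LD Ω ρ lam u κ K) {φ : ℂ → ℝ} (hφ : TF Ω φ) (g : ℂ → ℝ) :
    ∫ z, φ z * ρ z * g z = ∫ z, φ z * g z ∂(area Ω ρ) := by
  have e1 := X.int (fun z => φ z * g z) MeasurableSet.univ
  rw [Measure.restrict_univ, Set.univ_inter] at e1
  rw [e1]
  have e2 : ∫ z, φ z * ρ z * g z = ∫ z in Ω, φ z * ρ z * g z :=
    (setIntegral_eq_integral_of_forall_compl_eq_zero fun z hz => by
      rw [TF.zero hφ hz, zero_mul, zero_mul]).symm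
  rw [e2]
  congr 1; funext z; ring

/-- cut-off functions -/
lemma LD.cuts (X : LD Ω ρ lam u κ K) : ∃ χ : ℕ → ℂ → ℝ, (∀ j, TF Ω (χ j)) ∧
    (∀ j z, 0 ≤ χ j z) ∧ (∀ j z, χ j z ≤ 1) ∧
    Tendsto (fun j => ∫ z, χ j z ∂(area Ω ρ)) atTop (𝓝 (area Ω ρ Set.univ).toReal) := by
  have := X.fm
  obtain ⟨χ, h1, h2, h3, h4⟩ := QC.inner_cut X.oΩ
  refine ⟨χ, h1, h2, h3, ?_⟩
  have e : (area Ω ρ Set.univ).toReal = ∫ _z : ℂ, (1 : ℝ) ∂(area Ω ρ) := by
    rw [integral_const, smul_eq_mul, mul_one]; rfl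
  rw [e]
  refine tendsto_integral_of_dominated_convergence (fun _ => (1 : ℝ)) (fun j => ?_)
    (integrable_const _) (fun j => ae_of_all _ fun z => ?_) ?_
  · exact (h1 j).1.continuous.aestronglyMeasurable
  · rw [Real.norm_eq_abs, abs_of_nonneg (h2 j z)]; exact h3 j z
  · filter_upwards [X.aeΩ] with z hz
    exact tendsto_const_nhds.congr' ((h4 z hz).mono fun j hj => hj.symm)

lemma LD.iχ (X : LD Ω ρ lam u κ K) {χ : ℂ → ℝ} (hχ : TF Ω χ) : Integrable χ (area Ω ρ) := by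
  have := X.fm
  obtain ⟨C, hC⟩ := hχ.2.1.exists_bound_of_continuous hχ.1.continuous
  exact Integrable.mono' (integrable_const C) hχ.1.continuous.aestronglyMeasurable
    (ae_of_all _ hC)

/-- from local to global moments -/
theorem LD.glob (X : LD Ω ρ lam u κ K) {G : ℕ → ℂ → ℝ}
    (mG : ∀ n, AEStronglyMeasurable (G n) (area Ω ρ))
    (hG : ∀ e : ℝ, 0 < e → ∃ c : ℝ, 0 ≤ c ∧ ∀ n z, |G n z| ≤ e * u n z ^ 4 + c) {l : ℝ}
    (loc : ∀ χ, TF Ω χ → (∀ z, 0 ≤ χ z) → (∀ z, χ z ≤ 1) →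
      Tendsto (fun n => ∫ z, χ z * G n z ∂(area Ω ρ)) atTop
        (𝓝 (l * ∫ z, χ z ∂(area Ω ρ)))) :
    Tendsto (fun n => ∫ z, G n z ∂(area Ω ρ)) atTop
      (𝓝 (l * (area Ω ρ Set.univ).toReal)) := by
  have := X.fm
  obtain ⟨V, hV⟩ : ∃ V : ℝ, V = (area Ω ρ Set.univ).toReal := ⟨_, rfl⟩
  obtain ⟨χ, h1, h2, h3, h4⟩ := X.cuts
  rw [← hV] at h4 ⊢
  obtain ⟨B, hB⟩ : ∃ B, B = |K * V| + 1 := ⟨_, rfl⟩
  have B0 : 0 < B := by rw [hB]; positivity
  have iG : ∀ n, Integrable (G n) (area Ω ρ) := fun n => by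
    obtain ⟨c, c0, hc⟩ := hG 1 one_pos
    refine Integrable.mono' (((X.i4 n).const_mul 1).add (integrable_const c)) (mG n)
      (ae_of_all _ fun z => hc n z)
  rw [Metric.tendsto_atTop']
  intro ε hε
  obtain ⟨c, c0, hc⟩ := hG (ε / (8 * B)) (by positivity)
  obtain ⟨η, hη⟩ : ∃ η, η = ε / (8 * (c + |l| + 1)) := ⟨_, rfl⟩
  have d0 : 0 < c + |l| + 1 := by positivity
  have η0 : 0 < η := by rw [hη]; positivity
  obtain ⟨j, hj⟩ := (h4.eventually (lt_mem_nhds (show V - η < V by linarith))).exists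
  have L := loc (χ j) (h1 j) (h2 j) (h3 j)
  rw [Metric.tendsto_atTop'] at L
  obtain ⟨n1, hn1⟩ := L (ε / 4) (by positivity)
  obtain ⟨n2, hn2⟩ := eventually_atTop.1 (X.h4 1 one_pos)
  refine ⟨max n1 n2, fun n hn => ?_⟩
  have g1 := hn1 n ((le_max_left _ _).trans_lt hn)
  have g2 := hn2 n ((le_max_right _ _).trans hn.le)
  rw [Real.dist_eq, abs_lt] at g1
  rw [← hV] at g2
  have i1 : Integrable (fun z => χ j z * G n z) (area Ω ρ) :=
    Integrable.bdd_mul (c := 1) (iG n) (h1 j).1.continuous.aestronglyMeasurable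
      (ae_of_all _ fun z => by
        rw [Real.norm_eq_abs, abs_of_nonneg (h2 j z)]; exact h3 j z)
  have ij := X.iχ (h1 j)
  have i3 : Integrable (fun z => 1 - χ j z) (area Ω ρ) := (integrable_const (1 : ℝ)).sub ij
  have i2 : Integrable (fun z => ε / (8 * B) * u n z ^ 4 + c * (1 - χ j z)) (area Ω ρ) :=
    ((X.i4 n).const_mul _).add (i3.const_mul c)
  have b1 : |(∫ z, G n z ∂(area Ω ρ)) - ∫ z, χ j z * G n z ∂(area Ω ρ)| ≤
      ∫ z, (ε / (8 * B) * u n z ^ 4 + c * (1 - χ j z)) ∂(area Ω ρ) := by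
    rw [← integral_sub (iG n) i1]
    refine (abs_integral_le_integral_abs).trans ?_
    refine integral_mono ((iG n).sub i1).abs i2 fun z => ?_
    have q0 : 0 ≤ 1 - χ j z := by linarith [h3 j z]
    have q1 : 1 - χ j z ≤ 1 := by linarith [h2 j z]
    have e : G n z - χ j z * G n z = (1 - χ j z) * G n z := by ring
    show |G n z - χ j z * G n z| ≤ ε / (8 * B) * u n z ^ 4 + c * (1 - χ j z)
    rw [e, abs_mul, abs_of_nonneg q0]
    have r1 := mul_le_mul_of_nonneg_left (hc n z) q0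
    have r2 : (1 - χ j z) * (ε / (8 * B) * u n z ^ 4) ≤ ε / (8 * B) * u n z ^ 4 :=
      mul_le_of_le_one_left (by positivity) q1
    linarith
  have b2 : ∫ z, (ε / (8 * B) * u n z ^ 4 + c * (1 - χ j z)) ∂(area Ω ρ) =
      ε / (8 * B) * (∫ z, u n z ^ 4 ∂(area Ω ρ)) + c * (V - ∫ z, χ j z ∂(area Ω ρ)) := by
    rw [integral_add ((X.i4 n).const_mul _) (i3.const_mul c),
      integral_const_mul, integral_const_mul, integral_sub (integrable_const _) ij,
      integral_const, smul_eq_mul, mul_one, hV]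
    rfl
  rw [b2] at b1
  have b3 : ε / (8 * B) * (∫ z, u n z ^ 4 ∂(area Ω ρ)) ≤ ε / 8 := by
    have r1 : ∫ z, u n z ^ 4 ∂(area Ω ρ) ≤ B := g2.trans (by
      rw [hB]; linarith [le_abs_self (K * V)])
    calc ε / (8 * B) * (∫ z, u n z ^ 4 ∂(area Ω ρ)) ≤ ε / (8 * B) * B :=
        mul_le_mul_of_nonneg_left r1 (by positivity)
      _ = ε / 8 := by field_simp
  have b4 : (c + |l| + 1) * η = ε / 8 := by rw [hη]; field_simp
  have b5 : c * (V - ∫ z, χ j z ∂(area Ω ρ)) ≤ c * η :=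
    mul_le_mul_of_nonneg_left (by linarith) c0
  have b5' : c * η ≤ ε / 8 := by
    have : 0 ≤ (|l| + 1) * η := by positivity
    linarith
  have cV : ∫ z, χ j z ∂(area Ω ρ) ≤ V := by
    have : ∫ z, χ j z ∂(area Ω ρ) ≤ ∫ _z : ℂ, (1 : ℝ) ∂(area Ω ρ) :=
      integral_mono ij (integrable_const _) (h3 j)
    rw [integral_const, smul_eq_mul, mul_one] at this
    rw [hV]; exact this
  have b6 : |l * (∫ z, χ j z ∂(area Ω ρ)) - l * V| ≤ ε / 8 := by
    rw [← mul_sub, abs_mul]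
    have r1 : |(∫ z, χ j z ∂(area Ω ρ)) - V| ≤ η := by
      rw [abs_le]; constructor <;> linarith
    have r2 := mul_le_mul_of_nonneg_left r1 (abs_nonneg l)
    have r3 : 0 ≤ (c + 1) * η := by positivity
    nlinarith
  rw [abs_le] at b1 b6
  rw [Real.dist_eq, abs_lt]
  constructor
  · linarith [b1.1, b6.1, g1.1]
  · linarith [b1.2, b6.2, g1.2]

lemma LD.rawG (X : LD Ω ρ lam u κ K) : RawG Ω (fun z => 1 / √(ρ z)) (fun n => 1 / √(lam n)) u
    (TH294.RG.MM (fun _ => 1) ea κ) :=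
  TH294.RG.rawG_met X.oΩ X.lp X.ll X.sρ X.pρ X.su X.eq X.qe

lemma mem1 (K' : Set ℂ) (hK' : IsCompact K') : MemLp (fun _ : ℂ => (1 : ℝ)) 2
    (volume.restrict K') := by
  have : IsFiniteMeasure (volume.restrict K') := ⟨by simpa using hK'.measure_lt_top⟩
  exact memLp_const 1

lemma LD.K4 (X : LD Ω ρ lam u κ K) {S : Set ℂ} (hS : IsCompact S) (hSΩ : S ⊆ Ω) :
    ∃ C : ℝ, 0 < C ∧ ∀ᶠ n in atTop, ∫ z in S, u n z ^ 4 ≤ C := by
  have := X.fm
  obtain ⟨c, hc⟩ := hS.exists_bound_of_continuousOn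
    ((X.sρ.continuousOn.mono hSΩ).inv₀ fun z hz => (X.pρ z (hSΩ hz)).ne')
  obtain ⟨V, hV⟩ : ∃ V : ℝ, V = (area Ω ρ Set.univ).toReal := ⟨_, rfl⟩
  refine ⟨|c| * (|K * V| + 1) + 1, by positivity, ?_⟩
  filter_upwards [X.h4 1 one_pos] with n hn
  rw [← hV] at hn
  have cu : ContinuousOn (fun z => u n z ^ 4) S := ((X.su n).continuousOn.mono hSΩ).pow 4
  have cρ : ContinuousOn ρ S := X.sρ.continuousOn.mono hSΩ
  have e := X.int (fun z => u n z ^ 4) hS.measurableSet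
  rw [Set.inter_eq_left.2 hSΩ] at e
  have s1 : ∫ z in S, u n z ^ 4 ≤ ∫ z in S, |c| * (ρ z * u n z ^ 4) := by
    refine setIntegral_mono_on (cu.integrableOn_compact hS)
      ((continuousOn_const.mul (cρ.mul cu)).integrableOn_compact hS) hS.measurableSet
      fun z hz => ?_
    have p := X.pρ z (hSΩ hz)
    have h1 : ‖(ρ z)⁻¹‖ ≤ |c| := (hc z hz).trans (le_abs_self _)
    rw [Real.norm_eq_abs, abs_of_pos (inv_pos.2 p), inv_le_iff_one_le_mul₀ p] at h1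
    have h4 : (0 : ℝ) ≤ u n z ^ 4 := by positivity
    have := mul_le_mul_of_nonneg_right h1 h4
    nlinarith
  rw [integral_const_mul, ← e] at s1
  have s2 : ∫ z in S, u n z ^ 4 ∂(area Ω ρ) ≤ ∫ z, u n z ^ 4 ∂(area Ω ρ) :=
    setIntegral_le_integral (X.i4 n) (ae_of_all _ fun z => by positivity)
  have s3 : ∫ z, u n z ^ 4 ∂(area Ω ρ) ≤ |K * V| + 1 := hn.trans (by
    linarith [le_abs_self (K * V)])
  have s4 := mul_le_mul_of_nonneg_left (s2.trans s3) (abs_nonneg c)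
  linarith

variable [IsMarkovKernel κ]

/-- the total second moment -/
theorem LD.two (X : LD Ω ρ lam u κ K) : Tendsto (fun n => ∫ z, u n z ^ 2 ∂(area Ω ρ)) atTop
    (𝓝 (area Ω ρ Set.univ).toReal) := by
  have mG : ∀ n, AEStronglyMeasurable (fun z => u n z ^ 2) (area Ω ρ) := fun n =>
    (continuous_pow 2).comp_aestronglyMeasurable (X.ume n)
  have k := X.glob (G := fun n z => u n z ^ 2) (l := 1) mG
    (fun e he => ⟨e⁻¹, (inv_pos.2 he).le, fun n z => ?_⟩) fun χ hχ _ _ => ?_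
  · rw [one_mul] at k
    exact k
  · rw [abs_of_nonneg (sq_nonneg _)]
    have h1 : 0 ≤ e⁻¹ * (e * u n z ^ 2 - 1) ^ 2 := by positivity
    have h2 : e⁻¹ * (e * u n z ^ 2 - 1) ^ 2 = e * u n z ^ 4 - 2 * u n z ^ 2 + e⁻¹ := by
      field_simp
      ring
    have h3 : 0 ≤ u n z ^ 2 := sq_nonneg _
    linarith
  · have v := QC.vague X.rawG (TF.mulc X.oΩ hχ X.sρ)
    have e1 : ∫ z, χ z * ρ z * 1 = 1 * ∫ z, χ z ∂(area Ω ρ) := by
      rw [X.test hχ, one_mul]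
      simp only [mul_one]
    rw [e1] at v
    exact v.congr fun n => X.test hχ _

/-- the total third moment -/
theorem LD.three (X : LD Ω ρ lam u κ K) : Tendsto (fun n => ∫ z, u n z ^ 3 ∂(area Ω ρ)) atTop
    (𝓝 0) := by
  have mG : ∀ n, AEStronglyMeasurable (fun z => u n z ^ 3) (area Ω ρ) := fun n =>
    (continuous_pow 3).comp_aestronglyMeasurable (X.ume n)
  have k := X.glob (G := fun n z => u n z ^ 3) (l := 0) mG
    (fun e he => ⟨(e ^ 3)⁻¹, by positivity, fun n z => ?_⟩) fun χ hχ _ _ => ?_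
  · rw [zero_mul] at k
    exact k
  · rw [abs_pow]
    obtain ⟨t, ht⟩ : ∃ t, t = |u n z| := ⟨_, rfl⟩
    have t0 : 0 ≤ t := by rw [ht]; exact abs_nonneg _
    have e4 : u n z ^ 4 = t ^ 4 := by rw [ht, ← abs_pow, abs_of_nonneg (by positivity)]
    rw [e4, ← ht]
    rcases le_total (e * t) 1 with h | h
    · have h1 : (e * t) ^ 3 ≤ 1 := pow_le_one₀ (by positivity) h
      have h2 : t ^ 3 ≤ (e ^ 3)⁻¹ := by
        rw [← one_div, le_div_iff₀ (by positivity)]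
        nlinarith
      have : 0 ≤ e * t ^ 4 := by positivity
      linarith
    · have h1 : t ^ 3 * 1 ≤ t ^ 3 * (e * t) := mul_le_mul_of_nonneg_left h (by positivity)
      have : 0 ≤ (e ^ 3)⁻¹ := by positivity
      nlinarith
  · rw [zero_mul]
    obtain ⟨S, hS, hχS, hSΩ⟩ := exists_compact_between (K := tsupport χ) hχ.2.1 X.oΩ hχ.2.2
    have hχ' : TF (interior S) χ := ⟨hχ.1, hχ.2.1, hχS⟩
    have hφρ : TF (interior S) (fun z => χ z * ρ z) :=
      TF.mulc isOpen_interior hχ' (X.sρ.mono (interior_subset.trans hSΩ))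
    have key := TH294.RG.third_lim (fun K' hK' _ => mem1 K' hK') X.pa X.rawG hS hSΩ hφρ 0 0 0
    obtain ⟨C, C0, hC⟩ := X.K4 hS hSΩ
    have e1 : ∀ n, ((√(1 + ∫ z in S, u n z ^ 4) : ℝ) : ℂ)⁻¹ * ∫ z, ((χ z * ρ z : ℝ) : ℂ) *
        (ww (fun z => 1 / √(ρ z)) (fun n => 1 / √(lam n)) (fun n z => (u n z : ℂ)) 0 n z *
        ww (fun z => 1 / √(ρ z)) (fun n => 1 / √(lam n)) (fun n z => (u n z : ℂ)) 0 n z *
        ww (fun z => 1 / √(ρ z)) (fun n => 1 / √(lam n)) (fun n z => (u n z : ℂ)) 0 n z) =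
        (((√(1 + ∫ z in S, u n z ^ 4))⁻¹ * ∫ z, χ z * u n z ^ 3 ∂(area Ω ρ) : ℝ) : ℂ) := by
      intro n
      have w0 : ∀ z, ww (fun z => 1 / √(ρ z)) (fun n => 1 / √(lam n)) (fun n z => (u n z : ℂ))
        0 n z = (u n z : ℂ) := fun z => rfl
      rw [← X.test hχ, ofReal_mul, ofReal_inv, ← integral_complex_ofReal]
      congr 2
      funext z
      rw [w0]
      push_cast; ring
    simp only [e1] at key
    have k2 := (Complex.continuous_re.tendsto _).comp key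
    simp only [Function.comp_def, ofReal_re, zero_re] at k2
    rw [Metric.tendsto_atTop'] at k2 ⊢
    intro ε hε
    obtain ⟨n1, hn1⟩ := k2 (ε / √(1 + C)) (by positivity)
    obtain ⟨n2, hn2⟩ := eventually_atTop.1 hC
    refine ⟨max n1 n2, fun n hn => ?_⟩
    have g1 := hn1 n ((le_max_left _ _).trans_lt hn)
    have g2 := hn2 n ((le_max_right _ _).trans hn.le)
    have s0 : 0 ≤ ∫ z in S, u n z ^ 4 := integral_nonneg fun z => by positivity
    have s1 : 0 < √(1 + ∫ z in S, u n z ^ 4) := Real.sqrt_pos.2 (by linarith)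
    have s2 : √(1 + ∫ z in S, u n z ^ 4) ≤ √(1 + C) := Real.sqrt_le_sqrt (by linarith)
    rw [dist_zero_right, Real.norm_eq_abs, abs_mul, abs_of_pos (inv_pos.2 s1),
      inv_mul_lt_iff₀ s1] at g1
    rw [dist_zero_right, Real.norm_eq_abs]
    refine g1.trans_le ?_
    have s3 : 0 < √(1 + C) := Real.sqrt_pos.2 (by linarith)
    calc √(1 + ∫ z in S, u n z ^ 4) * (ε / √(1 + C)) ≤ √(1 + C) * (ε / √(1 + C)) :=
        mul_le_mul_of_nonneg_right s2 (by positivity)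
      _ = ε := by field_simp

end

end Pool.Agent.Q175.RW.LL
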