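import Pool.Agent.Q175.RW.LL1

/-! Limit laws under a fourth moment bound: moments and atoms of the limit law. -/
set_option autoImplicit false
open MeasureTheory Filter Topology Complex ProbabilityTheory
open scoped ContDiff ENNReal

namespace Pool.Agent.Q175.RW.LL

open Pool.Agent.W745.RW Pool.Agent.TH294.RS
open Pool.Agent.TH294.RG (RawG ea par ea_meas ea_norm)
open Pool.Agent.Y139.PD (area WLim wfrac Bey Bey_pos Bey_neg cut cut_co cut_0 cut_1 cut_e cut_s a_me)

noncomputable section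

variable {Ω : Set ℂ} {ρ : ℂ → ℝ} {lam : ℕ → ℝ} {u : ℕ → ℂ → ℝ} {κ : Kernel ℂ ℝ} {K : ℝ}
  {ν : Measure ℝ} {σ : ℕ → ℕ}

/-- weak convergence along a subsequence -/
def WL (Ω : Set ℂ) (ρ : ℂ → ℝ) (u : ℕ → ℂ → ℝ) (ν : Measure ℝ) (σ : ℕ → ℕ) : Prop :=
  ∀ g : ℝ → ℝ, Continuous g → (∃ M, ∀ x, |g x| ≤ M) →
    Tendsto (fun n => (∫ z, g (u (σ n) z) ∂(area Ω ρ)) / (area Ω ρ Set.univ).toReal) atTop
      (𝓝 (∫ x, g x ∂ν))

lemma WL.cs (h : WL Ω ρ u ν σ) {g : ℝ → ℝ} (cg : Continuous g) (sg : HasCompactSupport g) :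
    Tendsto (fun n => (∫ z, g (u (σ n) z) ∂(area Ω ρ)) / (area Ω ρ Set.univ).toReal) atTop
      (𝓝 (∫ x, g x ∂ν)) := by
  obtain ⟨C, hC⟩ := sg.exists_bound_of_continuous cg
  exact h g cg ⟨C, hC⟩

lemma cut_lim (x : ℝ) : ∀ᶠ N : ℕ in atTop, cut N x = 1 := by
  obtain ⟨N, hN⟩ := exists_nat_ge |x|
  filter_upwards [eventually_ge_atTop N] with M hM
  exact cut_e (hN.trans (by exact_mod_cast hM))

/-- the fourth moment of the limit law -/
theorem LD.fat (X : LD Ω ρ lam u κ K) [IsProbabilityMeasure ν] (hσ : StrictMono σ)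
    (h : WL Ω ρ u ν σ) : Integrable (fun x : ℝ => x ^ 4) ν ∧ ∫ x, x ^ 4 ∂ν ≤ K := by
  have := X.fm
  have V0 := X.pos
  obtain ⟨V, hV⟩ : ∃ V : ℝ, V = (area Ω ρ Set.univ).toReal := ⟨_, rfl⟩
  have c4 : ∀ N : ℕ, Continuous (fun x : ℝ => x ^ 4 * cut N x) := fun N =>
    (continuous_pow 4).mul (cut_co N)
  have s4 : ∀ N : ℕ, HasCompactSupport (fun x : ℝ => x ^ 4 * cut N x) := fun N =>
    (cut_s N).mul_left
  have b4 : ∀ N : ℕ, ∫ x, x ^ 4 * cut N x ∂ν ≤ K := by
    intro N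
    refine le_of_forall_pos_le_add fun ε hε => ?_
    refine le_of_tendsto (h.cs (c4 N) (s4 N)) ?_
    filter_upwards [hσ.tendsto_atTop.eventually (X.h4 (ε * V) (by rw [hV]; positivity))] with n hn
    rw [← hV] at hn V0 ⊢
    rw [div_le_iff₀ V0]
    refine le_trans ?_ (hn.trans (by ring_nf; rfl))
    obtain ⟨C, hC⟩ := (s4 N).exists_bound_of_continuous (c4 N)
    refine integral_mono ?_ (X.i4 (σ n)) fun z => ?_
    · exact Integrable.mono' (integrable_const C)
        ((c4 N).comp_aestronglyMeasurable (X.ume (σ n))) (ae_of_all _ fun z => hC _)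
    · exact mul_le_of_le_one_right (by positivity) (cut_1 N _)
  have fat : ∫⁻ x, ENNReal.ofReal (x ^ 4) ∂ν ≤ ENNReal.ofReal K := by
    have e1 : ∀ x : ℝ, ENNReal.ofReal (x ^ 4) =
        liminf (fun N : ℕ => ENNReal.ofReal (x ^ 4 * cut N x)) atTop := fun x => by
      have : Tendsto (fun N : ℕ => ENNReal.ofReal (x ^ 4 * cut N x)) atTop
          (𝓝 (ENNReal.ofReal (x ^ 4))) :=
        tendsto_const_nhds.congr' ((cut_lim x).mono fun N hN => by
          show ENNReal.ofReal (x ^ 4) = ENNReal.ofReal (x ^ 4 * cut N x)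
          rw [hN, mul_one])
      exact this.liminf_eq.symm
    rw [lintegral_congr e1]
    refine (lintegral_liminf_le fun N => (c4 N).measurable.ennreal_ofReal).trans ?_
    have e3 : ∀ N : ℕ, ∫⁻ x, ENNReal.ofReal (x ^ 4 * cut N x) ∂ν ≤ ENNReal.ofReal K := by
      intro N
      rw [← ofReal_integral_eq_lintegral_ofReal ((c4 N).integrable_of_hasCompactSupport (s4 N))
        (ae_of_all _ fun x => mul_nonneg (by positivity) (cut_0 N x))]
      exact ENNReal.ofReal_le_ofReal (b4 N)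
    exact (liminf_le_liminf (Eventually.of_forall e3)).trans (liminf_const _).le
  have i4ν : Integrable (fun x : ℝ => x ^ 4) ν := by
    refine ⟨(continuous_pow 4).aestronglyMeasurable, ?_⟩
    rw [hasFiniteIntegral_iff_ofReal (ae_of_all _ fun x => by positivity)]
    exact fat.trans_lt ENNReal.ofReal_lt_top
  refine ⟨i4ν, ?_⟩
  have l : Tendsto (fun N : ℕ => ∫ x, x ^ 4 * cut N x ∂ν) atTop (𝓝 (∫ x, x ^ 4 ∂ν)) := by
    refine tendsto_integral_of_dominated_convergence (fun x => x ^ 4)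
      (fun N => (c4 N).aestronglyMeasurable) i4ν (fun N => ae_of_all _ fun x => ?_)
      (ae_of_all _ fun x => tendsto_const_nhds.congr' ((cut_lim x).mono fun N hN => ?_))
    · rw [Real.norm_eq_abs, abs_of_nonneg (mul_nonneg (by positivity) (cut_0 N x))]
      exact mul_le_of_le_one_right (by positivity) (cut_1 N _)
    · show x ^ 4 = x ^ 4 * cut N x
      rw [hN, mul_one]
  exact le_of_tendsto' l b4

/-- the moments below the fourth converge -/
theorem LD.mom (X : LD Ω ρ lam u κ K) [IsProbabilityMeasure ν] (hσ : StrictMono σ)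
    (h : WL Ω ρ u ν σ) {p : ℝ → ℝ} (cp : Continuous p) {c : ℝ} (c0 : 0 ≤ c)
    (hp : ∀ x, 1 ≤ |x| → |p x| ≤ c * |x| ^ 3) :
    Integrable p ν ∧
    Tendsto (fun n => (∫ z, p (u (σ n) z) ∂(area Ω ρ)) / (area Ω ρ Set.univ).toReal) atTop
      (𝓝 (∫ x, p x ∂ν)) := by
  have := X.fm
  have V0 := X.pos
  obtain ⟨V, hV⟩ : ∃ V : ℝ, V = (area Ω ρ Set.univ).toReal := ⟨_, rfl⟩
  obtain ⟨i4ν, m4ν⟩ := X.fat hσ h
  rw [← hV] at V0 ⊢
  obtain ⟨C, hC⟩ := (isCompact_Icc (a := (-1 : ℝ)) (b := 1)).exists_bound_of_continuousOn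
    cp.continuousOn
  have pb : ∀ x, |p x| ≤ |C| + c * x ^ 4 := by
    intro x
    rcases le_total 1 |x| with hx | hx
    · have h1 := hp x hx
      have h2 : |x| ^ 3 ≤ x ^ 4 := by
        have : x ^ 4 = |x| ^ 4 := by rw [← abs_pow, abs_of_nonneg (by positivity)]
        rw [this]
        exact pow_le_pow_right₀ hx (by norm_num)
      have h3 := mul_le_mul_of_nonneg_left h2 c0
      linarith [abs_nonneg C]
    · have h1 : |p x| ≤ C := hC x (abs_le.1 hx)
      have : 0 ≤ c * x ^ 4 := by positivity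
      linarith [le_abs_self C]
  have ipν : Integrable p ν :=
    Integrable.mono' ((integrable_const |C|).add (i4ν.const_mul c)) cp.aestronglyMeasurable
      (ae_of_all _ pb)
  have ipu : ∀ n, Integrable (fun z => p (u n z)) (area Ω ρ) := fun n =>
    Integrable.mono' ((integrable_const |C|).add ((X.i4 n).const_mul c))
      (cp.comp_aestronglyMeasurable (X.ume n)) (ae_of_all _ fun z => pb _)
  refine ⟨ipν, ?_⟩
  -- the tail
  have tl : ∀ N : ℕ, 1 ≤ N → ∀ x, |p x - p x * cut N x| ≤ c / N * x ^ 4 := by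
    intro N hN x
    have hN' : (1 : ℝ) ≤ N := by exact_mod_cast hN
    rcases le_total |x| N with hx | hx
    · rw [cut_e hx, mul_one, sub_self, abs_zero]; positivity
    · have h1 := hp x (hN'.trans hx)
      have h0 := cut_0 N x
      have h0' := cut_1 N x
      have e1 : p x - p x * cut N x = p x * (1 - cut N x) := by ring
      rw [e1, abs_mul, abs_of_nonneg (by linarith : 0 ≤ 1 - cut N x)]
      have h2 : |p x| * (1 - cut N x) ≤ |p x| :=
        mul_le_of_le_one_right (abs_nonneg _) (by linarith)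
      have h3 : |x| ^ 3 ≤ x ^ 4 / N := by
        rw [le_div_iff₀ (by positivity)]
        have : x ^ 4 = |x| ^ 3 * |x| := by
          have : x ^ 4 = |x| ^ 4 := by rw [← abs_pow, abs_of_nonneg (by positivity)]
          rw [this]; ring
        rw [this]
        exact mul_le_mul_of_nonneg_left hx (by positivity)
      have h4 := mul_le_mul_of_nonneg_left h3 c0
      calc |p x| * (1 - cut N x) ≤ c * |x| ^ 3 := h2.trans h1
        _ ≤ c * (x ^ 4 / N) := h4
        _ = c / N * x ^ 4 := by ring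
  have cN : ∀ N : ℕ, Continuous (fun x : ℝ => p x * cut N x) := fun N => cp.mul (cut_co N)
  have sN : ∀ N : ℕ, HasCompactSupport (fun x : ℝ => p x * cut N x) := fun N =>
    (cut_s N).mul_left
  rw [Metric.tendsto_atTop']
  intro ε hε
  obtain ⟨N0, hN0⟩ := exists_nat_gt (4 * c * (|K| + 1) / ε)
  obtain ⟨N, hN⟩ : ∃ N, N = N0 + 1 := ⟨_, rfl⟩
  have N1 : 1 ≤ N := by omega
  have Np : (0 : ℝ) < N := by exact_mod_cast N1
  have hN' : 4 * c * (|K| + 1) / ε < N := hN0.trans (by rw [hN]; push_cast; linarith)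
  have small : c / N * (|K| + 1) < ε / 4 := by
    rw [div_lt_iff₀ hε] at hN'
    rw [div_mul_eq_mul_div, div_lt_iff₀ Np]
    linarith
  have L := h.cs (cN N) (sN N)
  rw [← hV, Metric.tendsto_atTop'] at L
  obtain ⟨n1, hn1⟩ := L (ε / 4) (by positivity)
  obtain ⟨n2, hn2⟩ := eventually_atTop.1 (hσ.tendsto_atTop.eventually (X.h4 V V0))
  refine ⟨max n1 n2, fun n hn => ?_⟩
  have g1 := hn1 n ((le_max_left _ _).trans_lt hn)
  have g2 := hn2 n ((le_max_right _ _).trans hn.le)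
  rw [← hV] at g2
  have j1 : Integrable (fun z => p (u (σ n) z) * cut N (u (σ n) z)) (area Ω ρ) := by
    obtain ⟨B, hB⟩ := (sN N).exists_bound_of_continuous (cN N)
    exact Integrable.mono' (integrable_const B)
      ((cN N).comp_aestronglyMeasurable (X.ume (σ n))) (ae_of_all _ fun z => hB _)
  have j2 : Integrable (fun x => p x * cut N x) ν := (cN N).integrable_of_hasCompactSupport (sN N)
  have a1 : |(∫ z, p (u (σ n) z) ∂(area Ω ρ)) -
      ∫ z, p (u (σ n) z) * cut N (u (σ n) z) ∂(area Ω ρ)| ≤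
      c / N * ∫ z, u (σ n) z ^ 4 ∂(area Ω ρ) := by
    rw [← integral_sub (ipu _) j1, ← integral_const_mul]
    exact (abs_integral_le_integral_abs).trans (integral_mono ((ipu _).sub j1).abs
      ((X.i4 _).const_mul _) fun z => tl N N1 _)
  have a2 : |(∫ x, p x ∂ν) - ∫ x, p x * cut N x ∂ν| ≤ c / N * ∫ x, x ^ 4 ∂ν := by
    rw [← integral_sub ipν j2, ← integral_const_mul]
    exact (abs_integral_le_integral_abs).trans (integral_mono (ipν.sub j2).abs
      (i4ν.const_mul _) fun z => tl N N1 _)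
  have a3 : c / N * ∫ x, x ^ 4 ∂ν < ε / 4 := by
    refine lt_of_le_of_lt (mul_le_mul_of_nonneg_left ?_ (by positivity)) small
    linarith [le_abs_self K]
  have a4 : c / N * (∫ z, u (σ n) z ^ 4 ∂(area Ω ρ)) < ε / 4 * V := by
    have r1 : ∫ z, u (σ n) z ^ 4 ∂(area Ω ρ) ≤ (|K| + 1) * V := by
      have : K * V ≤ |K| * V := mul_le_mul_of_nonneg_right (le_abs_self K) V0.le
      linarith
    have r2 := mul_le_mul_of_nonneg_left r1 (show 0 ≤ c / N by positivity)
    have r3 := mul_lt_mul_of_pos_right small V0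
    linarith
  have a5 : |(∫ z, p (u (σ n) z) ∂(area Ω ρ)) / V -
      (∫ z, p (u (σ n) z) * cut N (u (σ n) z) ∂(area Ω ρ)) / V| < ε / 4 := by
    rw [← sub_div, abs_div, abs_of_pos V0, div_lt_iff₀ V0]
    exact a1.trans_lt a4
  rw [Real.dist_eq] at g1 ⊢
  rw [abs_lt] at g1 a5 ⊢
  have a6 := a2.trans a3.le
  rw [abs_le] at a6
  constructor
  · linarith [g1.1, a5.1, a6.2]
  · linarith [g1.2, a5.2, a6.1]

variable [IsMarkovKernel κ]

theorem LD.m2 (X : LD Ω ρ lam u κ K) [IsProbabilityMeasure ν] (hσ : StrictMono σ)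
    (h : WL Ω ρ u ν σ) : Integrable (fun x : ℝ => x ^ 2) ν ∧ ∫ x, x ^ 2 ∂ν = 1 := by
  obtain ⟨i, l⟩ := X.mom hσ h (p := fun x => x ^ 2) (continuous_pow 2) (c := 1) zero_le_one
    fun x hx => by
      rw [abs_pow, one_mul]
      exact pow_le_pow_right₀ hx (by norm_num)
  refine ⟨i, tendsto_nhds_unique l ?_⟩
  have k := (X.two.comp hσ.tendsto_atTop).div_const (area Ω ρ Set.univ).toReal
  rw [div_self X.pos.ne'] at k
  exact k

theorem LD.m3 (X : LD Ω ρ lam u κ K) [IsProbabilityMeasure ν] (hσ : StrictMono σ)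
    (h : WL Ω ρ u ν σ) : ∫ x, x ^ 3 ∂ν = 0 := by
  obtain ⟨i, l⟩ := X.mom hσ h (p := fun x => x ^ 3) (continuous_pow 3) (c := 1) zero_le_one
    fun x hx => by
      rw [abs_pow, one_mul]
  refine tendsto_nhds_unique l ?_
  have k := (X.three.comp hσ.tendsto_atTop).div_const (area Ω ρ Set.univ).toReal
  rw [zero_div] at k
  exact k

/-- the atom at zero -/
theorem LD.atom (X : LD Ω ρ lam u κ K) [IsProbabilityMeasure ν] (hσ : StrictMono σ)
    (h : WL Ω ρ u ν σ) : (K - 2) * (ν {0}).toReal ≤ K - 3 := by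
  have := X.fm
  obtain ⟨V, hV⟩ : ∃ V : ℝ, V = (area Ω ρ Set.univ).toReal := ⟨_, rfl⟩
  have V0 : 0 < V := by rw [hV]; exact X.pos
  obtain ⟨a, ha⟩ : ∃ a : ℝ, a = (ν {0}).toReal := ⟨_, rfl⟩
  rw [← ha]
  obtain ⟨χ, h1, h2, h3, h4⟩ := X.cuts
  rw [← hV] at h4
  -- the inequality with an error
  have key : ∀ e : ℝ, 0 < e → e < 1 → (1 - e) ^ 2 - e ≤ (1 - a + e) * (K - 2 + 3 * e) ∨
      (1 - e) ^ 2 - e ≤ 0 := by
    intro e e0 e1
    obtain ⟨j, hj⟩ := (h4.eventually (lt_mem_nhds (show V - e * V < V by nlinarith))).exists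
    obtain ⟨S, hS, hχS, hSΩ⟩ := exists_compact_between (K := tsupport (χ j)) (h1 j).2.1 X.oΩ
      (h1 j).2.2
    have hχ' : TF (interior S) (χ j) := ⟨(h1 j).1, (h1 j).2.1, hχS⟩
    have hφρ : TF (interior S) (fun z => χ j z * ρ z) :=
      TF.mulc isOpen_interior hχ' (X.sρ.mono (interior_subset.trans hSΩ))
    have hφ0 : ∀ z, 0 ≤ χ j z * ρ z := by
      intro z
      by_cases hz : z ∈ Ω
      · exact mul_nonneg (h2 j z) (X.pρ z hz).le
      · rw [TF.zero (h1 j) hz, zero_mul]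
    obtain ⟨C, C0, hC⟩ := X.K4 hS hSΩ
    have sr := Pool.Agent.TH421.AC.small_rel X.oΩ (fun K' hK' _ => mem1 K' hK') X.pa X.rawG hS
      hSΩ hφρ hφ0 (ε := e * V ^ 2 / (1 + C)) (by positivity)
    obtain ⟨s, hs, hs0⟩ := (sr.and self_mem_nhdsWithin).exists
    have s0 : 0 < s := hs0
    -- a continuous function near zero
    obtain ⟨g, hg⟩ : ∃ g : ℝ → ℝ, g = fun x => max 0 (1 - |x| / s) := ⟨_, rfl⟩
    have cg : Continuous g := by
      rw [hg]; exact continuous_const.max (continuous_const.sub (continuous_abs.div_const s))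
    have g0 : ∀ x, 0 ≤ g x := fun x => by rw [hg]; exact le_max_left _ _
    have g1 : ∀ x, g x ≤ 1 := fun x => by
      rw [hg]
      exact max_le zero_le_one (by
        have : 0 ≤ |x| / s := by positivity
        linarith)
    have gs : ∀ x, s < |x| → g x = 0 := fun x hx => by
      rw [hg]
      refine max_eq_left ?_
      have : 1 ≤ |x| / s := by rw [le_div_iff₀ s0]; linarith
      linarith
    have gz : g 0 = 1 := by rw [hg]; simp
    have ig : Integrable g ν := Integrable.mono' (integrable_const (1 : ℝ)) cg.aestronglyMeasurable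
      (ae_of_all _ fun x => by rw [Real.norm_eq_abs, abs_of_nonneg (g0 x)]; exact g1 x)
    have ga : a ≤ ∫ x, g x ∂ν := by
      have e2 : a = ∫ x in ({0} : Set ℝ), g x ∂ν := by
        rw [ha, integral_singleton, gz]
        simp [measureReal_def]
      rw [e2]
      exact setIntegral_le_integral ig (ae_of_all _ g0)
    have lg := h g cg ⟨1, fun x => by rw [abs_of_nonneg (g0 x)]; exact g1 x⟩
    rw [← hV] at lg
    have ev1 := lg.eventually (lt_mem_nhds (show (∫ x, g x ∂ν) - e < ∫ x, g x ∂ν by linarith))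
    have ev2 := hσ.tendsto_atTop.eventually (hs.and (hC.and (X.h4 (e * V) (by positivity))))
    obtain ⟨n, n1, n2, n3, n4⟩ := (ev1.and ev2).exists
    rw [← hV] at n4
    -- the area of the large values
    obtain ⟨E, hE⟩ : ∃ E : Set ℂ, E = {z | z ∈ Ω ∧ s < |u (σ n) z|} := ⟨_, rfl⟩
    have mE : MeasurableSet E := by
      rw [hE]
      exact ((X.su (σ n)).continuousOn.abs.isOpen_inter_preimage X.oΩ isOpen_Ioi).measurableSet
    have EΩ : E ⊆ Ω := by rw [hE]; exact fun z hz => hz.1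
    obtain ⟨A1, hA1⟩ : ∃ A1 : ℝ, A1 = ∫ z in E, χ j z * ρ z := ⟨_, rfl⟩
    have A10 : 0 ≤ A1 := by rw [hA1]; exact integral_nonneg hφ0
    have igu : Integrable (fun z => g (u (σ n) z)) (area Ω ρ) :=
      Integrable.mono' (integrable_const (1 : ℝ)) (cg.comp_aestronglyMeasurable (X.ume _))
        (ae_of_all _ fun z => by rw [Real.norm_eq_abs, abs_of_nonneg (g0 _)]; exact g1 _)
    have q1 : A1 ≤ V - ∫ z, g (u (σ n) z) ∂(area Ω ρ) := by
      have e3 : A1 = ∫ z in E, χ j z ∂(area Ω ρ) := by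
        rw [X.int (fun z => χ j z) mE, Set.inter_eq_left.2 EΩ, hA1]
        congr 1; funext z; ring
      have e4 : ∫ z in E, χ j z ∂(area Ω ρ) ≤ ∫ z in E, (1 - g (u (σ n) z)) ∂(area Ω ρ) := by
        refine setIntegral_mono_on (X.iχ (h1 j)).integrableOn
          ((integrable_const (1 : ℝ)).sub igu).integrableOn mE fun z hz => ?_
        rw [hE] at hz
        rw [gs _ hz.2, sub_zero]
        exact h3 j z
      have e5 : ∫ z in E, (1 - g (u (σ n) z)) ∂(area Ω ρ) ≤
          ∫ z, (1 - g (u (σ n) z)) ∂(area Ω ρ) :=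
        setIntegral_le_integral ((integrable_const (1 : ℝ)).sub igu)
          (ae_of_all _ fun z => by
            show (0 : ℝ) ≤ 1 - g (u (σ n) z)
            linarith [g1 (u (σ n) z)])
      have e6 : ∫ z, (1 - g (u (σ n) z)) ∂(area Ω ρ) = V - ∫ z, g (u (σ n) z) ∂(area Ω ρ) := by
        rw [integral_sub (integrable_const _) igu, integral_const, smul_eq_mul, mul_one, hV]
        rfl
      rw [e3]; linarith
    have q2 : (a - e) * V < ∫ z, g (u (σ n) z) ∂(area Ω ρ) := by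
      have := (lt_div_iff₀ V0).1 n1
      nlinarith
    have q3 : A1 ≤ (1 - a + e) * V := by linarith
    -- the inequality
    have e7 : ∫ z, χ j z * ρ z * 1 = ∫ z, χ j z ∂(area Ω ρ) := by
      rw [X.test (h1 j)]; simp only [mul_one]
    have e8 : ∫ z, χ j z * ρ z * (1 : ℝ) ^ 2 = ∫ z, χ j z ∂(area Ω ρ) := by
      simp only [one_pow]; exact e7
    have e9 : ∫ z, χ j z * ρ z * u (σ n) z ^ 4 = ∫ z, χ j z * u (σ n) z ^ 4 ∂(area Ω ρ) :=
      X.test (h1 j) _
    rw [← hE, e7, e8, e9, ← hA1] at n2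
    obtain ⟨J, hJ⟩ : ∃ J : ℝ, J = ∫ z, χ j z ∂(area Ω ρ) := ⟨_, rfl⟩
    rw [← hJ] at n2 hj
    obtain ⟨T, hT⟩ : ∃ T : ℝ, T = (∫ z, χ j z * u (σ n) z ^ 4 ∂(area Ω ρ)) - 2 * J := ⟨_, rfl⟩
    rw [← hT] at n2
    have q4 : ∫ z, χ j z * u (σ n) z ^ 4 ∂(area Ω ρ) ≤ K * V + e * V := by
      refine le_trans (integral_mono_of_nonneg (ae_of_all _ fun z =>
        mul_nonneg (h2 j z) (by positivity)) (X.i4 (σ n)) (ae_of_all _ fun z => ?_)) n4
      exact mul_le_of_le_one_left (by positivity) (h3 j z)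
    have q5 : T ≤ (K - 2 + 3 * e) * V := by rw [hT]; nlinarith
    have q6 : e * V ^ 2 / (1 + C) * (1 + ∫ z in S, u (σ n) z ^ 4) ≤ e * V ^ 2 := by
      have : e * V ^ 2 / (1 + C) * (1 + ∫ z in S, u (σ n) z ^ 4) ≤
          e * V ^ 2 / (1 + C) * (1 + C) := mul_le_mul_of_nonneg_left (by linarith) (by positivity)
      refine this.trans (le_of_eq ?_)
      field_simp
    have q7 : ((1 - e) * V) ^ 2 ≤ J ^ 2 := by
      have : 0 ≤ (1 - e) * V := mul_nonneg (by linarith) V0.le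
      exact pow_le_pow_left₀ this (by linarith) 2
    have q8 : ((1 - e) ^ 2 - e) * V ^ 2 ≤ A1 * T := by nlinarith
    rcases le_or_gt T 0 with hT0 | hT0
    · right
      have : A1 * T ≤ 0 := mul_nonpos_of_nonneg_of_nonpos A10 hT0
      have V2 : 0 < V ^ 2 := by positivity
      by_contra hc
      have := mul_pos (not_le.1 hc) V2
      linarith
    · left
      have r1 : A1 * T ≤ ((1 - a + e) * V) * T := mul_le_mul_of_nonneg_right q3 hT0.le
      have r2 : 0 ≤ (1 - a + e) * V := A10.trans q3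
      have r3 : ((1 - a + e) * V) * T ≤ ((1 - a + e) * V) * ((K - 2 + 3 * e) * V) :=
        mul_le_mul_of_nonneg_left q5 r2
      have r4 : ((1 - e) ^ 2 - e) * V ^ 2 ≤ ((1 - a + e) * (K - 2 + 3 * e)) * V ^ 2 := by
        nlinarith
      exact le_of_mul_le_mul_right r4 (by positivity)
  have lim : ∀ᶠ e : ℝ in 𝓝[>] 0, (1 - e) ^ 2 - e ≤ (1 - a + e) * (K - 2 + 3 * e) := by
    filter_upwards [Ioo_mem_nhdsGT (show (0 : ℝ) < 1 / 10 by norm_num)] with e he
    rcases key e he.1 (by linarith [he.2]) with h5 | h5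
    · exact h5
    · exfalso
      nlinarith [he.1, he.2]
  have c1 : Tendsto (fun e : ℝ => (1 - e) ^ 2 - e) (𝓝[>] 0) (𝓝 ((1 - 0) ^ 2 - 0)) :=
    ((by fun_prop : Continuous fun e : ℝ => (1 - e) ^ 2 - e).tendsto 0).mono_left
      nhdsWithin_le_nhds
  have c2 : Tendsto (fun e : ℝ => (1 - a + e) * (K - 2 + 3 * e)) (𝓝[>] 0)
      (𝓝 ((1 - a + 0) * (K - 2 + 3 * 0))) :=
    ((by fun_prop : Continuous fun e : ℝ => (1 - a + e) * (K - 2 + 3 * e)).tendsto 0).mono_left
      nhdsWithin_le_nhds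
  have fin := le_of_tendsto_of_tendsto c1 c2 lim
  nlinarith

end

end Pool.Agent.Q175.RW.LL
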