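import Pool.Agent.Q175.RW.LL2

/-! Limit laws under a fourth moment bound: density near zero. -/
set_option autoImplicit false
open MeasureTheory Filter Topology Complex ProbabilityTheory
open scoped ContDiff ENNReal

namespace Pool.Agent.Q175.RW.LL

open Pool.Agent.W745.RW Pool.Agent.TH294.RS
open Pool.Agent.TH294.RG (RawG ea par ea_meas ea_norm)
open Pool.Agent.Y139.PD (area WLim wfrac Bey Bey_pos Bey_neg cut cut_co cut_0 cut_1 cut_e cut_s a_me
  wmainM)

noncomputable section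

variable {Ω : Set ℂ} {ρ : ℂ → ℝ} {lam : ℕ → ℝ} {u : ℕ → ℂ → ℝ} {κ : Kernel ℂ ℝ} {K : ℝ}
  {ν : Measure ℝ} {σ : ℕ → ℕ}

/-- laws with mean zero, variance one and bounded fourth moment have mass away from zero on both
sides -/
theorem tail_mass (ν : Measure ℝ) [IsProbabilityMeasure ν] {s : ℝ} (s0 : 0 < s)
    (i2 : Integrable (fun x : ℝ => x ^ 2) ν) (i4 : Integrable (fun x : ℝ => x ^ 4) ν)
    (m1 : ∫ x, x ∂ν = 0) (m2 : ∫ x, x ^ 2 ∂ν = 1) (m4 : ∫ x, x ^ 4 ∂ν ≤ s ^ 2) :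
    1 / (16 * s ^ 2) ≤ (ν (Set.Ici (1 / (4 * s)))).toReal := by
  have i1 : Integrable (fun x : ℝ => x) ν := by
    refine Integrable.mono' ((integrable_const (1 : ℝ)).add i2)
      continuous_id.aestronglyMeasurable (ae_of_all _ fun x => ?_)
    show ‖x‖ ≤ 1 + x ^ 2
    rw [Real.norm_eq_abs, ← sq_abs x]
    nlinarith [sq_nonneg (|x| - 1), abs_nonneg x]
  have ia : Integrable (fun x : ℝ => |x|) ν := i1.abs
  have p1 : ∀ x : ℝ, x ^ 2 ≤ 2 / 3 * s * |x| + 1 / (3 * s ^ 2) * x ^ 4 := by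
    intro x
    obtain ⟨t, ht⟩ : ∃ t, t = |x| := ⟨_, rfl⟩
    have t0 : 0 ≤ t := by rw [ht]; exact abs_nonneg _
    have e2 : x ^ 2 = t ^ 2 := by rw [ht, sq_abs]
    have e4 : x ^ 4 = t ^ 4 := by rw [ht, ← abs_pow, abs_of_nonneg (by positivity)]
    rw [e2, e4, ← ht]
    have h1 : 0 ≤ t * ((t - s) ^ 2 * (t + 2 * s)) / (3 * s ^ 2) := by positivity
    have h2 : t * ((t - s) ^ 2 * (t + 2 * s)) / (3 * s ^ 2) =
        2 / 3 * s * t + 1 / (3 * s ^ 2) * t ^ 4 - t ^ 2 := by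
      field_simp; ring
    linarith
  have q1 : 1 / s ≤ ∫ x, |x| ∂ν := by
    have h1 : ∫ x, x ^ 2 ∂ν ≤ ∫ x, (2 / 3 * s * |x| + 1 / (3 * s ^ 2) * x ^ 4) ∂ν :=
      integral_mono i2 ((ia.const_mul _).add (i4.const_mul _)) p1
    rw [integral_add (ia.const_mul _) (i4.const_mul _), integral_const_mul, integral_const_mul,
      m2] at h1
    have h2 : 1 / (3 * s ^ 2) * ∫ x, x ^ 4 ∂ν ≤ 1 / 3 := by
      have := mul_le_mul_of_nonneg_left m4 (show 0 ≤ 1 / (3 * s ^ 2) by positivity)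
      refine this.trans (le_of_eq ?_)
      field_simp
    rw [div_le_iff₀ s0]
    nlinarith
  have mI : MeasurableSet (Set.Ici (1 / (4 * s))) := measurableSet_Ici
  have p2 : ∀ x : ℝ, (|x| + x) / 2 ≤ 1 / (4 * s) + 1 / (8 * s) * x ^ 2 +
      2 * s * (Set.Ici (1 / (4 * s))).indicator (fun _ => (1 : ℝ)) x := by
    intro x
    rcases le_or_gt (1 / (4 * s)) x with h | h
    · rw [Set.indicator_of_mem (show x ∈ Set.Ici (1 / (4 * s)) from h)]
      have x0 : 0 ≤ x := le_trans (by positivity) h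
      rw [abs_of_nonneg x0]
      have h1 : 0 ≤ 1 / (8 * s) * (x - 4 * s) ^ 2 := by positivity
      have h2 : 1 / (8 * s) * (x - 4 * s) ^ 2 = 1 / (8 * s) * x ^ 2 - x + 2 * s := by
        field_simp; ring
      have h3 : 0 ≤ 1 / (4 * s) := by positivity
      linarith
    · rw [Set.indicator_of_notMem (show x ∉ Set.Ici (1 / (4 * s)) from not_le.2 h)]
      have h3 : 0 ≤ 1 / (4 * s) := by positivity
      have h4 : 0 ≤ 1 / (8 * s) * x ^ 2 := by positivity
      rcases le_total 0 x with hx | hx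
      · rw [abs_of_nonneg hx]; linarith
      · rw [abs_of_nonpos hx]; linarith
  have iI : Integrable ((Set.Ici (1 / (4 * s))).indicator (fun _ => (1 : ℝ))) ν :=
    (integrable_const (1 : ℝ)).indicator mI
  have q2 : ∫ x, (|x| + x) / 2 ∂ν ≤ 1 / (4 * s) + 1 / (8 * s) +
      2 * s * (ν (Set.Ici (1 / (4 * s)))).toReal := by
    have j1 : Integrable (fun x : ℝ => 1 / (4 * s) + 1 / (8 * s) * x ^ 2) ν :=
      (integrable_const _).add (i2.const_mul _)
    have h1 : ∫ x, (|x| + x) / 2 ∂ν ≤ ∫ x, (1 / (4 * s) + 1 / (8 * s) * x ^ 2 +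
        2 * s * (Set.Ici (1 / (4 * s))).indicator (fun _ => (1 : ℝ)) x) ∂ν :=
      integral_mono ((ia.add i1).div_const 2) (j1.add (iI.const_mul _)) p2
    rw [integral_add j1 (iI.const_mul _), integral_add (integrable_const _) (i2.const_mul _),
      integral_const_mul, integral_const_mul, m2, integral_const, integral_indicator mI,
      setIntegral_const] at h1
    simp only [probReal_univ, smul_eq_mul, one_mul, mul_one] at h1
    exact h1
  have q3 : ∫ x, (|x| + x) / 2 ∂ν = (∫ x, |x| ∂ν) / 2 := by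
    rw [integral_div, integral_add ia i1, m1, add_zero]
  rw [q3] at q2
  have q4 : 1 / s / 2 ≤ 1 / (4 * s) + 1 / (8 * s) +
      2 * s * (ν (Set.Ici (1 / (4 * s)))).toReal := by linarith
  obtain ⟨w, hw⟩ : ∃ w, w = (ν (Set.Ici (1 / (4 * s)))).toReal := ⟨_, rfl⟩
  rw [← hw] at q4 ⊢
  rw [div_le_iff₀ (by positivity)]
  have e1 : 1 / s / 2 - 1 / (4 * s) - 1 / (8 * s) = 1 / (8 * s) := by field_simp; norm_num
  have e2 : 1 / (8 * s) ≤ 2 * s * w := by linarith
  rw [div_le_iff₀ (by positivity)] at e2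
  nlinarith

/-- the reflected law -/
lemma tail_mass' (ν : Measure ℝ) [IsProbabilityMeasure ν] {s : ℝ} (s0 : 0 < s)
    (i2 : Integrable (fun x : ℝ => x ^ 2) ν) (i4 : Integrable (fun x : ℝ => x ^ 4) ν)
    (m1 : ∫ x, x ∂ν = 0) (m2 : ∫ x, x ^ 2 ∂ν = 1) (m4 : ∫ x, x ^ 4 ∂ν ≤ s ^ 2) :
    1 / (16 * s ^ 2) ≤ (ν (Set.Iic (-(1 / (4 * s))))).toReal := by
  have mn : Measurable (fun x : ℝ => -x) := measurable_neg
  obtain ⟨μ, hμ⟩ : ∃ μ : Measure ℝ, μ = ν.map (fun x => -x) := ⟨_, rfl⟩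
  have pμ : IsProbabilityMeasure μ := by
    rw [hμ]; exact Measure.isProbabilityMeasure_map mn.aemeasurable
  have a2 : Integrable (fun x : ℝ => x ^ 2) μ := by
    rw [hμ, integrable_map_measure (continuous_pow 2).aestronglyMeasurable mn.aemeasurable]
    refine i2.congr (ae_of_all _ fun x => ?_)
    show x ^ 2 = (-x) ^ 2
    ring
  have a4 : Integrable (fun x : ℝ => x ^ 4) μ := by
    rw [hμ, integrable_map_measure (continuous_pow 4).aestronglyMeasurable mn.aemeasurable]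
    refine i4.congr (ae_of_all _ fun x => ?_)
    show x ^ 4 = (-x) ^ 4
    ring
  have b1 : ∫ x, x ∂μ = 0 := by
    rw [hμ, integral_map mn.aemeasurable continuous_id'.aestronglyMeasurable, integral_neg, m1,
      neg_zero]
  have b2 : ∫ x, x ^ 2 ∂μ = 1 := by
    rw [hμ, integral_map mn.aemeasurable (continuous_pow 2).aestronglyMeasurable, ← m2]
    congr 1; funext x; ring
  have b4 : ∫ x, x ^ 4 ∂μ ≤ s ^ 2 := by
    rw [hμ, integral_map mn.aemeasurable (continuous_pow 4).aestronglyMeasurable]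
    refine le_trans (le_of_eq ?_) m4
    congr 1; funext x; ring
  have k := tail_mass μ s0 a2 a4 b1 b2 b4
  have e : μ (Set.Ici (1 / (4 * s))) = ν (Set.Iic (-(1 / (4 * s)))) := by
    rw [hμ, Measure.map_apply mn measurableSet_Ici]
    congr 1
    ext x
    show 1 / (4 * s) ≤ -x ↔ x ≤ -(1 / (4 * s))
    constructor <;> intro h <;> linarith
  rw [e] at k
  exact k

/-- **Limit laws under a fourth moment bound** -/
theorem main : ∃ c : ℝ, 0 < c ∧ ∀ (Ω : Set ℂ) (ρ : ℂ → ℝ) (lam : ℕ → ℝ) (u : ℕ → ℂ → ℝ)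
    (κ : Kernel ℂ ℝ) (K : ℝ), IsMarkovKernel κ → LD Ω ρ lam u κ K →
    ∀ (ν : Measure ℝ) (σ : ℕ → ℕ), IsProbabilityMeasure ν → StrictMono σ → WL Ω ρ u ν σ →
      (∫ x, x ∂ν = 0 ∧ ∫ x, x ^ 2 ∂ν = 1 ∧ ∫ x, x ^ 3 ∂ν = 0 ∧
        Integrable (fun x : ℝ => x ^ 4) ν ∧ ∫ x, x ^ 4 ∂ν ≤ K) ∧
      (K - 2) * (ν {0}).toReal ≤ K - 3 ∧
      (∀ A : Set ℝ, MeasurableSet A → A ⊆ Set.Ioo (-(1 / (4 * √K))) (1 / (4 * √K)) →
        c * (volume A).toReal ≤ √K ^ 9 * (ν A).toReal) ∧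
      ∃ J : Set ℝ, IsOpen J ∧ J.OrdConnected ∧ Set.Ioo (-(1 / (4 * √K))) (1 / (4 * √K)) ⊆ J ∧
        ν.restrict {0}ᶜ ≪ volume.restrict J ∧ volume.restrict J ≪ ν.restrict {0}ᶜ := by
  obtain ⟨C, hC⟩ := wmainM
  obtain ⟨D, hD⟩ : ∃ D : ℝ, D = |C| + 1 := ⟨_, rfl⟩
  have D0 : 0 < D := by rw [hD]; positivity
  have CD : C ≤ D := by rw [hD]; linarith [le_abs_self C]
  refine ⟨1 / (2 ^ 20 * D), by positivity, ?_⟩
  intro Ω ρ lam u κ K hκ X ν σ hν hσ h
  have := X.fm
  have V0 := X.pos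
  obtain ⟨i4, m4⟩ := X.fat hσ h
  obtain ⟨i2, m2⟩ := X.m2 hσ h
  have m3 := X.m3 hσ h
  have at0 := X.atom hσ h
  -- the second moments are eventually at most twice the area
  have hev : ∀ᶠ n in atTop, Integrable (fun z => u n z ^ 2) (area Ω ρ) ∧
      ∫ z, u n z ^ 2 ∂(area Ω ρ) ≤ 2 * (area Ω ρ Set.univ).toReal := by
    filter_upwards [X.two.eventually (gt_mem_nhds (show (area Ω ρ Set.univ).toReal <
      2 * (area Ω ρ Set.univ).toReal by linarith))] with n hn
    refine ⟨?_, hn.le⟩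
    refine Integrable.mono' ((integrable_const (1 : ℝ)).add (X.i4 n))
      ((continuous_pow 2).comp_aestronglyMeasurable (X.ume n)) (ae_of_all _ fun z => ?_)
    show ‖u n z ^ 2‖ ≤ 1 + u n z ^ 4
    rw [Real.norm_eq_abs, abs_of_nonneg (sq_nonneg _)]
    nlinarith [sq_nonneg (u n z ^ 2 - 1), sq_nonneg (u n z)]
  obtain ⟨-, w2⟩ := hC 2 Ω ρ lam u two_pos X.oΩ X.ne X.sρ X.pρ X.fin X.ll X.su X.eq hev
  obtain ⟨⟨-, -, m1⟩, dens, shp⟩ := w2 ν hν ⟨σ, hσ, h⟩
  -- K ≥ 1
  have K1 : 1 ≤ K := by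
    have h1 : ∫ x, (2 * x ^ 2) ∂ν ≤ ∫ x, (1 + x ^ 4) ∂ν := by
      refine integral_mono (i2.const_mul 2) ((integrable_const (1 : ℝ)).add i4) fun x => ?_
      show 2 * x ^ 2 ≤ 1 + x ^ 4
      nlinarith [sq_nonneg (x ^ 2 - 1)]
    rw [integral_const_mul, m2, integral_add (integrable_const _) i4, integral_const] at h1
    simp only [probReal_univ, smul_eq_mul, mul_one] at h1
    linarith
  obtain ⟨s, hs⟩ : ∃ s, s = √K := ⟨_, rfl⟩
  have s0 : 0 < s := by rw [hs]; exact Real.sqrt_pos.2 (by linarith)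
  have s2 : s ^ 2 = K := by rw [hs]; exact Real.sq_sqrt (by linarith)
  rw [← hs]
  have t1 := tail_mass ν s0 i2 i4 m1 m2 (by rw [s2]; exact m4)
  have t2 := tail_mass' ν s0 i2 i4 m1 m2 (by rw [s2]; exact m4)
  obtain ⟨b, hb⟩ : ∃ b, b = 1 / (4 * s) := ⟨_, rfl⟩
  have b0 : 0 < b := by rw [hb]; positivity
  rw [← hb] at t1 t2 ⊢
  have low : ∀ (b' : ℝ), |b'| = b → 1 / (16 * s ^ 2) ≤ (ν (Bey b')).toReal →
      ∀ A : Set ℝ, MeasurableSet A → A ⊆ Set.uIoo 0 b' →
      (volume A).toReal ≤ 2 ^ 20 * D * s ^ 9 * (ν A).toReal := by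
    intro b' hb' hm A mA hA
    have d := dens b' A mA hA
    rw [hb'] at d
    have r1 : (b * (1 / (16 * s ^ 2))) ^ 3 ≤ (b * (ν (Bey b')).toReal) ^ 3 :=
      pow_le_pow_left₀ (by positivity) (mul_le_mul_of_nonneg_left hm b0.le) 3
    have r2 : (b * (1 / (16 * s ^ 2))) ^ 3 = 1 / (2 ^ 18 * s ^ 9) := by
      rw [hb]; field_simp; norm_num
    rw [r2] at r1
    have r3 := mul_le_mul_of_nonneg_left r1 (ENNReal.toReal_nonneg (a := volume A))
    have r4 : C * 2 ^ 2 * (ν A).toReal ≤ D * 2 ^ 2 * (ν A).toReal :=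
      mul_le_mul_of_nonneg_right (by linarith) ENNReal.toReal_nonneg
    have r5 : (volume A).toReal * (1 / (2 ^ 18 * s ^ 9)) ≤ D * 2 ^ 2 * (ν A).toReal :=
      r3.trans (d.trans r4)
    rw [mul_one_div, div_le_iff₀ (by positivity)] at r5
    linarith
  have lp : ∀ A : Set ℝ, MeasurableSet A → A ⊆ Set.Ioo 0 b →
      (volume A).toReal ≤ 2 ^ 20 * D * s ^ 9 * (ν A).toReal := fun A mA hA =>
    low b (abs_of_pos b0) (by rw [Bey_pos b0]; exact t1) A mA (by rwa [Set.uIoo_of_lt b0])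
  have ln : ∀ A : Set ℝ, MeasurableSet A → A ⊆ Set.Ioo (-b) 0 →
      (volume A).toReal ≤ 2 ^ 20 * D * s ^ 9 * (ν A).toReal := fun A mA hA =>
    low (-b) (by rw [abs_neg, abs_of_pos b0]) (by rw [Bey_neg (by linarith)]; exact t2) A mA
      (by rwa [Set.uIoo_of_gt (by linarith)])
  have two : ∀ A : Set ℝ, MeasurableSet A → A ⊆ Set.Ioo (-b) b →
      1 / (2 ^ 20 * D) * (volume A).toReal ≤ s ^ 9 * (ν A).toReal := by
    intro A mA hA
    obtain ⟨P, hP⟩ : ∃ P, P = A ∩ Set.Ioo 0 b := ⟨_, rfl⟩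
    obtain ⟨N, hN⟩ : ∃ N, N = A ∩ Set.Ioo (-b) 0 := ⟨_, rfl⟩
    have mP : MeasurableSet P := by rw [hP]; exact mA.inter measurableSet_Ioo
    have mN : MeasurableSet N := by rw [hN]; exact mA.inter measurableSet_Ioo
    have dj : Disjoint P N := by
      rw [Set.disjoint_left]
      intro x hx hx'
      rw [hP] at hx
      rw [hN] at hx'
      exact absurd (hx.2.1.trans hx'.2.2) (lt_irrefl _)
    have sub1 : A ⊆ (P ∪ N) ∪ {0} := by
      intro x hx
      rcases lt_trichotomy x 0 with hx0 | hx0 | hx0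
      · left; right; rw [hN]; exact ⟨hx, (hA hx).1, hx0⟩
      · right; exact hx0
      · left; left; rw [hP]; exact ⟨hx, hx0, (hA hx).2⟩
    have sub2 : P ∪ N ⊆ A := by
      rw [hP, hN]
      exact Set.union_subset Set.inter_subset_left Set.inter_subset_left
    have fA : volume A ≠ ⊤ := ne_top_of_le_ne_top (by simp)
      (measure_mono hA : volume A ≤ volume (Set.Ioo (-b) b))
    have fP : volume P ≠ ⊤ := ne_top_of_le_ne_top fA (measure_mono (Set.subset_union_left.trans sub2))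
    have fN : volume N ≠ ⊤ := ne_top_of_le_ne_top fA (measure_mono (Set.subset_union_right.trans sub2))
    have v1 : (volume A).toReal ≤ (volume P).toReal + (volume N).toReal := by
      rw [← ENNReal.toReal_add fP fN]
      refine ENNReal.toReal_mono (ENNReal.add_ne_top.2 ⟨fP, fN⟩) ?_
      calc volume A ≤ volume ((P ∪ N) ∪ {0}) := measure_mono sub1
        _ ≤ volume (P ∪ N) + volume ({0} : Set ℝ) := measure_union_le _ _
        _ = volume (P ∪ N) := by rw [Real.volume_singleton, add_zero]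
        _ ≤ volume P + volume N := measure_union_le _ _
    have v2 : (ν P).toReal + (ν N).toReal ≤ (ν A).toReal := by
      rw [← ENNReal.toReal_add (measure_ne_top _ _) (measure_ne_top _ _),
        ← measure_union dj mN]
      exact ENNReal.toReal_mono (measure_ne_top _ _) (measure_mono sub2)
    have l1 := lp P mP (by rw [hP]; exact Set.inter_subset_right)
    have l2 := ln N mN (by rw [hN]; exact Set.inter_subset_right)
    rw [one_div_mul_eq_div, div_le_iff₀ (by positivity)]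
    have l3 : 2 ^ 20 * D * s ^ 9 * ((ν P).toReal + (ν N).toReal) ≤
        2 ^ 20 * D * s ^ 9 * (ν A).toReal := mul_le_mul_of_nonneg_left v2 (by positivity)
    nlinarith
  refine ⟨⟨m1, m2, m3, i4, m4⟩, at0, two, ?_⟩
  rcases shp with h0 | ⟨J, oJ, cJ, z0, a1, a2⟩
  · exfalso
    have e1 : ∀ᵐ x ∂ν, x = 0 := by
      have := prob_compl_eq_zero_iff (μ := ν) (measurableSet_singleton (0 : ℝ))
      have h2 := this.2 h0
      rw [ae_iff]
      exact h2
    have e2 : ∫ x, x ^ 2 ∂ν = 0 := by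
      rw [integral_eq_zero_of_ae]
      filter_upwards [e1] with x hx
      rw [hx]; simp
    rw [e2] at m2
    exact zero_ne_one m2
  · refine ⟨J, oJ, cJ, fun y hy => ?_, a1, a2⟩
    by_contra hyJ
    -- an interval next to `y` without mass
    have gap : ∀ A : Set ℝ, MeasurableSet A → A ⊆ Set.Ioo (-b) b → (0 : ℝ) ∉ A → A ∩ J = ∅ →
        (volume A).toReal = 0 := by
      intro A mA hA hA0 hAJ
      have g1 : volume.restrict J A = 0 := by
        rw [Measure.restrict_apply mA, hAJ, measure_empty]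
      have g2 := a1 g1
      rw [Measure.restrict_apply mA] at g2
      have g3 : A ∩ {0}ᶜ = A := Set.inter_eq_left.2 fun x hx hx0 => hA0 (by
        rw [Set.mem_singleton_iff] at hx0
        rwa [← hx0])
      rw [g3] at g2
      have g4 := two A mA hA
      rw [g2, ENNReal.toReal_zero, mul_zero] at g4
      have g5 : 0 < 1 / (2 ^ 20 * D) := by positivity
      have g6 : 0 ≤ (volume A).toReal := ENNReal.toReal_nonneg
      nlinarith
    rcases lt_trichotomy y 0 with hy0 | hy0 | hy0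
    · have g := gap (Set.Ioo (-b) y) measurableSet_Ioo
        (fun x hx => ⟨hx.1, hx.2.trans hy.2⟩) (fun hx => absurd hx.2 (not_lt.2 hy0.le)) (by
          rw [Set.eq_empty_iff_forall_notMem]
          rintro x ⟨hx, hxJ⟩
          exact hyJ (cJ.out hxJ z0 ⟨hx.2.le, hy0.le⟩))
      rw [Real.volume_Ioo, ENNReal.toReal_ofReal (by linarith [hy.1])] at g
      linarith [hy.1]
    · exact hyJ (by rw [hy0]; exact z0)
    · have g := gap (Set.Ioo y b) measurableSet_Ioo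
        (fun x hx => ⟨hy.1.trans hx.1, hx.2⟩) (fun hx => absurd hx.1 (not_lt.2 hy0.le)) (by
          rw [Set.eq_empty_iff_forall_notMem]
          rintro x ⟨hx, hxJ⟩
          exact hyJ (cJ.out z0 hxJ ⟨hy0.le, hx.1.le⟩))
      rw [Real.volume_Ioo, ENNReal.toReal_ofReal (by linarith [hy.2])] at g
      linarith [hy.2]

end

end Pool.Agent.Q175.RW.LL
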