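import Pool.Agent.Y265.FL.B
import Pool.Agent.Y265.HY.PS2

/-! The power spectrum of `u²` for planar quantum ergodic sequences, with error `o(1)`. -/
set_option autoImplicit false
open MeasureTheory Filter Topology Complex Set
open scoped ContDiff Real Manifold

namespace Pool.Agent.Q175.RW.PS

open Pool.Agent.W745.RW Pool.Agent.TH294.RS Pool.Agent.Y265.HY Pool.Agent.Y265.FL
open Pool.Agent.Y265.RW (WW famW Fam)
open Pool.Agent.TH294.RG (vv vv_neg sL sL1 opP sL_it lap_cg lap_lin ejk fin_id ea unif ang_sum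
  ang_unif ea_meas ea_norm mu0)
open Pool.Agent.Y265.HY.PS (pj vv4)

noncomputable section

variable {B : Set ℂ} {h : ℕ → ℝ} {u : ℕ → ℂ → ℝ}

/-- the trivial conformal factor -/
abbrev o1 : ℂ → ℝ := fun _ => 1

/-- the ladder -/
abbrev LW (h : ℕ → ℝ) (u : ℕ → ℂ → ℝ) : ℤ → ℕ → ℂ → ℂ := fun k n => WW h u n k

/-- `-h² Δ` of a product of two elements of the ladder -/
lemma sL_prod (hB : IsOpen B) (hF : Fam B h (WW h u)) (i j : ℤ) (n : ℕ) {z : ℂ} (hz : z ∈ B) :
    sL o1 h (fun n z => WW h u n i z * WW h u n j z) n z =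
      2 * (WW h u n i z * WW h u n j z) + WW h u n (i + 1) z * WW h u n (j - 1) z +
        WW h u n (i - 1) z * WW h u n (j + 1) z := by
  have si := hF.smooth n i
  have sj := hF.smooth n j
  have e1 : lap (fun z => WW h u n i z * WW h u n j z) z =
      dd (db (fun z => WW h u n i z * WW h u n j z)) z := (dd_db hB (si.mul sj) hz).symm
  have e2 : ∀ w ∈ B, (h n : ℂ) * db (fun z => WW h u n i z * WW h u n j z) w =
      -1 * (WW h u n (i - 1) w * WW h u n j w) + -1 * (WW h u n i w * WW h u n (j - 1) w) := by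
    intro w hw
    have c1 := hF.dm n i w hw
    have c2 := hF.dm n j w hw
    simp only [Dm] at c1 c2
    rw [db_mul (da hB si hw) (da hB sj hw)]
    simp only [db]
    linear_combination (WW h u n j w) * c1 + (WW h u n i w) * c2
  have sdb : ContDiffOn ℝ ∞ (db (fun z => WW h u n i z * WW h u n j z)) B := by
    have h1 : ∀ v : ℂ, ContDiffOn ℝ ∞ (fun z => fderiv ℝ (fun z => WW h u n i z * WW h u n j z) z v)
        B := fun v => ((si.mul sj).fderiv_of_isOpen hB le_rfl).clm_apply contDiffOn_const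
    exact (h1 1).add (contDiffOn_const.mul (h1 I))
  have m1 := da hB ((hF.smooth n (i - 1)).mul sj) hz
  have m2 := da hB (si.mul (hF.smooth n (j - 1))) hz
  have e3 : (h n : ℂ) * dd (db (fun z => WW h u n i z * WW h u n j z)) z =
      -1 * dd (fun w => WW h u n (i - 1) w * WW h u n j w) z +
        -1 * dd (fun w => WW h u n i w * WW h u n (j - 1) w) z := by
    rw [← dd_cm (da hB sdb hz), dd_cg hB e2 hz, Pool.Agent.Y265.HY.dd_add (m1.const_mul _)
      (m2.const_mul _), dd_cm m1, dd_cm m2]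
  have c1 := hF.dp n (i - 1) z hz
  have c2 := hF.dp n j z hz
  have c3 := hF.dp n i z hz
  have c4 := hF.dp n (j - 1) z hz
  rw [sub_add_cancel] at c1 c4
  simp only [Dp] at c1 c2 c3 c4
  rw [dd_mul (da hB (hF.smooth n (i - 1)) hz) (da hB sj hz),
    dd_mul (da hB si hz) (da hB (hF.smooth n (j - 1)) hz)] at e3
  simp only [sL, o1, Complex.ofReal_one]
  rw [e1]
  simp only [dd] at e3 ⊢
  linear_combination (-(h n : ℂ)) * e3 + (WW h u n j z) * c1 + (WW h u n (i - 1) z) * c2 +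
    (WW h u n (j - 1) z) * c3 + (WW h u n i z) * c4

/-- the recursion for the functions `vv` -/
lemma sL_vv (hB : IsOpen B) (hF : Fam B h (WW h u)) (m : ℤ) (n : ℕ) {z : ℂ} (hz : z ∈ B) :
    sL o1 h (vv (LW h u) m) n z =
      2 * vv (LW h u) m n z - vv (LW h u) (m + 1) n z - vv (LW h u) (m - 1) n z := by
  have sm : ContDiffOn ℝ ∞ (fun z => WW h u n m z * WW h u n (-m) z) B :=
    (hF.smooth n m).mul (hF.smooth n (-m))
  have e1 : sL o1 h (vv (LW h u) m) n z =
      (-1) ^ m.natAbs * sL o1 h (fun n z => WW h u n m z * WW h u n (-m) z) n z := by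
    have e2 : lap (vv (LW h u) m n) z =
        lap (fun z => (-1) ^ m.natAbs * (WW h u n m z * WW h u n (-m) z) +
        0 * (WW h u n m z * WW h u n (-m) z)) z := by
      congr 1; funext z; simp only [vv]; ring
    simp only [sL]
    rw [e2, lap_lin hB sm sm _ _ hz]
    ring
  have e3 := sgn_succ m
  have e4 := sgn_succ (m - 1)
  rw [sub_add_cancel] at e4
  rw [e1, sL_prod hB hF m (-m) n hz]
  simp only [vv]
  rw [e3, show -(m + 1) = -m - 1 by ring, show -(m - 1) = -m + 1 by ring]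
  have e5 : (-1 : ℂ) ^ (m - 1).natAbs = - (-1) ^ m.natAbs := by rw [e4]; ring
  rw [e5]
  ring

/-- `E` is the combination of the `vv m` with symbol `s` -/
def Good (B : Set ℂ) (w : ℤ → ℕ → ℂ → ℂ) (E : ℕ → ℂ → ℂ) (s : ℝ → ℝ) : Prop :=
  ∃ c : ℕ →₀ ℝ, (∀ α, (c.sum fun m x => x * Real.cos (m * α)) = s α) ∧
    ∀ n, ∀ z ∈ B, E n z = c.sum fun m x => (x : ℂ) * vv w m n z

variable {w : ℤ → ℕ → ℂ → ℂ}

lemma Good.cg {E E' : ℕ → ℂ → ℂ} {s s' : ℝ → ℝ} (H : Good B w E s)
    (e : ∀ n, ∀ z ∈ B, E' n z = E n z) (e' : ∀ α, s' α = s α) : Good B w E' s' := by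
  obtain ⟨c, hc, hQ⟩ := H
  exact ⟨c, fun α => by rw [hc, e'], fun n z hz => by rw [e n z hz, hQ n z hz]⟩

lemma Good.add {E E' : ℕ → ℂ → ℂ} {s s' : ℝ → ℝ} (H : Good B w E s) (H' : Good B w E' s') :
    Good B w (fun n z => E n z + E' n z) (fun α => s α + s' α) := by
  obtain ⟨c, hc, hQ⟩ := H
  obtain ⟨d, hd, hR⟩ := H'
  refine ⟨c + d, fun α => ?_, fun n z hz => ?_⟩
  · rw [Finsupp.sum_add_index' (fun _ => by ring) (fun _ _ _ => by ring), hc, hd]
  · rw [Finsupp.sum_add_index' (fun _ => by simp) (fun _ _ _ => by push_cast; ring)]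
    beta_reduce
    rw [hQ n z hz, hR n z hz]

lemma Good.cmul {E : ℕ → ℂ → ℂ} {s : ℝ → ℝ} (H : Good B w E s) (r : ℝ) :
    Good B w (fun n z => (r : ℂ) * E n z) (fun α => r * s α) := by
  obtain ⟨c, hc, hQ⟩ := H
  refine ⟨r • c, fun α => ?_, fun n z hz => ?_⟩
  · rw [Finsupp.sum_smul_index' (fun _ => by simp)]
    beta_reduce
    rw [← hc α, Finsupp.mul_sum]
    refine Finsupp.sum_congr fun m _ => ?_
    simp only [smul_eq_mul]; ring
  · rw [Finsupp.sum_smul_index' (fun _ => by simp)]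
    beta_reduce
    rw [hQ n z hz, Finsupp.mul_sum]
    refine Finsupp.sum_congr fun m _ => ?_
    simp only [smul_eq_mul]; push_cast; ring

lemma good_zero : Good B w (fun _ _ => 0) (fun _ => 0) :=
  ⟨0, fun α => by simp, fun n z _ => by simp⟩

lemma good_v (m : ℕ) : Good B w (vv w m) (fun α => Real.cos (m * α)) := by
  refine ⟨Finsupp.single m 1, fun α => ?_, fun n z _ => ?_⟩
  · rw [Finsupp.sum_single_index (by ring)]; ring
  · rw [Finsupp.sum_single_index (by simp)]; push_cast; ring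

lemma good_sLv (hB : IsOpen B) (hF : Fam B h (WW h u)) (m : ℕ) :
    Good B (LW h u) (sL o1 h (vv (LW h u) m))
      (fun α => (2 - 2 * Real.cos α) * Real.cos (m * α)) := by
  have hQ' := fun n z (hz : z ∈ B) => sL_vv hB hF (m : ℤ) n hz
  have g0 := (good_v (B := B) (w := LW h u) m).cmul 2
  have g1 := (good_v (B := B) (w := LW h u) (m + 1)).cmul (-1)
  have c1 : ∀ α : ℝ, Real.cos (((m + 1 : ℕ) : ℝ) * α) =
      Real.cos (m * α) * Real.cos α - Real.sin (m * α) * Real.sin α := by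
    intro α
    rw [← Real.cos_add]; congr 1; push_cast; ring
  cases m with
  | zero =>
    refine ((g0.add g1).add g1).cg (fun n z hz => ?_) fun α => ?_
    · rw [hQ' n z hz]
      have e1 : ((0 : ℕ) : ℤ) + 1 = ((0 + 1 : ℕ) : ℤ) := by simp
      have e2 : ((0 : ℕ) : ℤ) - 1 = -((0 + 1 : ℕ) : ℤ) := by simp
      rw [e1, e2, vv_neg]
      push_cast; ring
    · have := c1 α
      simp only [this]
      simp; ring
  | succ m =>
    have g2 := (good_v (B := B) (w := LW h u) m).cmul (-1)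
    refine ((g0.add g1).add g2).cg (fun n z hz => ?_) fun α => ?_
    · rw [hQ' n z hz]
      have e1 : (((m + 1 : ℕ) : ℤ)) + 1 = ((m + 1 + 1 : ℕ) : ℤ) := by push_cast; ring
      have e2 : (((m + 1 : ℕ) : ℤ)) - 1 = (m : ℤ) := by push_cast; ring
      rw [e1, e2]
      push_cast; ring
    · have e3 : Real.cos ((m : ℝ) * α) = Real.cos (((m + 1 : ℕ) : ℝ) * α) * Real.cos α +
          Real.sin (((m + 1 : ℕ) : ℝ) * α) * Real.sin α := by
        rw [← Real.cos_sub]; congr 1; push_cast; ring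
      have := c1 α
      simp only [this, e3]
      ring

lemma vv_sm (hF : Fam B h (WW h u)) (m : ℤ) (n : ℕ) : ContDiffOn ℝ ∞ (vv (LW h u) m n) B :=
  contDiffOn_const.mul ((hF.smooth n m).mul (hF.smooth n (-m)))

lemma sum_sm (hF : Fam B h (WW h u)) (c : ℕ →₀ ℝ) (n : ℕ) :
    ContDiffOn ℝ ∞ (fun z => c.sum fun m x => (x : ℂ) * vv (LW h u) m n z) B := by
  simp only [Finsupp.sum]
  exact ContDiffOn.sum fun m _ => contDiffOn_const.mul (vv_sm hF m n)

lemma good_sLsum (hB : IsOpen B) (hF : Fam B h (WW h u)) (c : ℕ →₀ ℝ) :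
    Good B (LW h u) (sL o1 h (fun n z => c.sum fun m x => (x : ℂ) * vv (LW h u) m n z))
      (fun α => (2 - 2 * Real.cos α) * c.sum fun m x => x * Real.cos (m * α)) := by
  induction c using Finsupp.induction_linear with
  | zero =>
    refine good_zero.cg (fun n z hz => ?_) fun α => by simp
    have e : (fun (n : ℕ) (z : ℂ) => (0 : ℕ →₀ ℝ).sum fun m x => (x : ℂ) * vv (LW h u) m n z) =
        fun _ _ => 0 := by funext n z; simp
    rw [e]
    have e2 : lap (fun _ : ℂ => (0 : ℂ)) z = 0 := by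
      have e0 : lap (fun _ : ℂ => (0 : ℂ)) z =
        fderiv ℝ (fun w => fderiv ℝ (fun _ : ℂ => (0 : ℂ)) w 1) z 1 +
        fderiv ℝ (fun w => fderiv ℝ (fun _ : ℂ => (0 : ℂ)) w I) z I := rfl
      rw [e0]; simp
    simp only [sL, e2]; ring
  | add c d ih1 ih2 =>
    refine (ih1.add ih2).cg (fun n z hz => ?_) fun α => ?_
    · have e : (fun z => (c + d).sum fun m x => (x : ℂ) * vv (LW h u) m n z) =
          fun z => 1 * (c.sum fun m x => (x : ℂ) * vv (LW h u) m n z) +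
            1 * (d.sum fun m x => (x : ℂ) * vv (LW h u) m n z) := by
        funext z
        rw [Finsupp.sum_add_index' (fun _ => by simp) (fun _ _ _ => by push_cast; ring)]
        ring
      simp only [sL]
      rw [e, lap_lin hB (sum_sm hF c n) (sum_sm hF d n) 1 1 hz]
      ring
    · rw [Finsupp.sum_add_index' (fun _ => by ring) (fun _ _ _ => by ring)]; ring
  | single m x =>
    refine ((good_sLv hB hF m).cmul x).cg (fun n z hz => ?_) fun α => ?_
    · have e : (fun z => (Finsupp.single m x).sum fun m x => (x : ℂ) * vv (LW h u) m n z) =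
          fun z => (x : ℂ) * vv (LW h u) m n z + 0 * vv (LW h u) m n z := by
        funext z
        rw [Finsupp.sum_single_index (by simp)]; ring
      simp only [sL]
      rw [e, lap_lin hB (vv_sm hF m n) (vv_sm hF m n) _ _ hz]
      ring
    · rw [Finsupp.sum_single_index (by ring)]; ring

lemma Good.sL (hB : IsOpen B) (hF : Fam B h (WW h u)) {E : ℕ → ℂ → ℂ} {s : ℝ → ℝ}
    (H : Good B (LW h u) E s) :
    Good B (LW h u) (TH294.RG.sL o1 h E) (fun α => (2 - 2 * Real.cos α) * s α) := by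
  obtain ⟨c, hc, hQ⟩ := H
  refine (good_sLsum hB hF c).cg (fun n z hz => ?_) fun α => by rw [hc]
  simp only [TH294.RG.sL]
  rw [lap_cg hB (fun z hz => hQ n z hz) hz]

lemma good_it (hB : IsOpen B) (hF : Fam B h (WW h u)) {E : ℕ → ℂ → ℂ} {s : ℝ → ℝ}
    (H : Good B (LW h u) E s) (i : ℕ) :
    Good B (LW h u) ((TH294.RG.sL o1 h)^[i] E) (fun α => (2 - 2 * Real.cos α) ^ i * s α) := by
  induction i with
  | zero => exact H.cg (fun _ _ _ => rfl) fun α => by ring
  | succ i ih =>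
    rw [Function.iterate_succ_apply']
    exact (Good.sL hB hF ih).cg (fun _ _ _ => rfl) fun α => by ring

lemma good_sum {ι : Type*} (t : Finset ι) {E : ι → ℕ → ℂ → ℂ} {s : ι → ℝ → ℝ}
    (H : ∀ i, Good B w (E i) (s i)) :
    Good B w (fun n z => ∑ i ∈ t, E i n z) (fun α => ∑ i ∈ t, s i α) := by
  classical
  induction t using Finset.induction_on with
  | empty => exact good_zero.cg (fun n z _ => by simp) fun α => by simp
  | insert i t hi ih =>
    refine ((H i).add ih).cg (fun n z _ => ?_) fun α => ?_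
    · rw [Finset.sum_insert hi]
    · rw [Finset.sum_insert hi]

theorem good_poly (hB : IsOpen B) (hF : Fam B h (WW h u)) (F : Polynomial ℝ) :
    Good B (LW h u) (fun n z => opP o1 (h n) F (vv (LW h u) 0 n) z)
      (fun α => F.eval (2 - 2 * Real.cos α)) := by
  have g0 : Good B (LW h u) (vv (LW h u) 0) (fun _ => 1) :=
    (good_v 0).cg (fun _ _ _ => rfl) fun α => by simp
  refine (good_sum F.support fun i =>
    ((good_it hB hF g0 i).cmul (F.coeff i))).cg (fun n z hz => ?_) fun α => ?_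
  · simp only [opP, Polynomial.sum_def]
    refine Finset.sum_congr rfl fun i _ => ?_
    rw [sL_it]
  · rw [Polynomial.eval_eq_sum, Polynomial.sum_def]
    refine Finset.sum_congr rfl fun i _ => ?_
    ring

/-- **Second moments of quadratic expressions** -/
theorem pow4 {φ : ℂ → ℝ} (hφ : TF B φ) (DDr : DD (D4 w φ))
    (cvv : ∀ (j : ℕ) n, ContinuousOn (vv w j n) B) {E : ℕ → ℂ → ℂ} {s : ℝ → ℝ}
    (G : Good B w E s) :
    ∃ c : ℕ →₀ ℝ, (∀ α, (c.sum fun m x => x * Real.cos (m * α)) = s α) ∧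
    Tendsto (fun n => (∫ z, (φ z : ℂ) * (E n z * E n z)) -
      (((2 * s 0 ^ 2 + s Real.pi ^ 2) / 3 : ℝ) : ℂ) *
      ((∫ z, (φ z : ℂ) * F4 w 0 0 0 0 n z) - 3 * ((∫ z, φ z : ℝ) : ℂ))) atTop
      (𝓝 (((∑ j ∈ c.support, ∑ k ∈ c.support, c j * c k * pj j k : ℝ) : ℂ) *
        ((∫ z, φ z : ℝ) : ℂ))) := by
  obtain ⟨c, hc, hQ'⟩ := G
  refine ⟨c, hc, ?_⟩
  set J : ℂ := ((∫ z, φ z : ℝ) : ℂ) with hJ
  obtain ⟨S, hS⟩ : ∃ S : ℕ → ℂ → ℂ, S = fun n z => ∑ j ∈ c.support, (c j : ℂ) * vv w j n z :=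
    ⟨_, rfl⟩
  have SQ : ∀ n, ∀ z ∈ B, E n z = S n z := by
    intro n z hz
    rw [hQ' n z hz, hS]; rfl
  -- the main term
  have eS : Tendsto (fun n => ∑ j ∈ c.support, ∑ k ∈ c.support, ((c j : ℂ) * (c k : ℂ)) *
      ((∫ z, (φ z : ℂ) * (vv w j n z * vv w k n z)) -
      ((pj j k : ℝ) : ℂ) * J - ((ejk j k : ℝ) : ℂ) *
      ((∫ z, (φ z : ℂ) * F4 w 0 0 0 0 n z) - 3 * J))) atTop (𝓝 0) := by
    have := tendsto_finsetSum c.support fun j _ => tendsto_finsetSum c.support fun k _ =>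
      (vv4 DDr j k).const_mul ((c j : ℂ) * (c k : ℂ))
    simpa using this
  have t3 := eS.add_const
    (((∑ j ∈ c.support, ∑ k ∈ c.support, c j * c k * pj j k : ℝ) : ℂ) * J)
  rw [zero_add] at t3
  refine t3.congr fun n => ?_
  -- rewrite
  have a1 : ∫ z, (φ z : ℂ) * (S n z * S n z) = ∑ j ∈ c.support, ∑ k ∈ c.support,
      ((c j : ℂ) * (c k : ℂ)) * ∫ z, (φ z : ℂ) * (vv w j n z * vv w k n z) := by
    have b1 : ∀ z, (φ z : ℂ) * (S n z * S n z) = ∑ j ∈ c.support, ∑ k ∈ c.support,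
        ((c j : ℂ) * (c k : ℂ)) * ((φ z : ℂ) * (vv w j n z * vv w k n z)) := by
      intro z
      rw [hS]
      beta_reduce
      rw [Finset.sum_mul_sum, Finset.mul_sum]
      refine Finset.sum_congr rfl fun j _ => ?_
      rw [Finset.mul_sum]
      refine Finset.sum_congr rfl fun k _ => ?_
      ring
    have ii : ∀ j k : ℕ, Integrable (fun z => ((c j : ℂ) * (c k : ℂ)) * ((φ z : ℂ) *
        (vv w j n z * vv w k n z))) := fun j k =>
      (TF.cint hφ ((cvv j n).mul (cvv k n))).const_mul _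
    simp only [b1]
    rw [integral_finsetSum _ fun j _ => integrable_finsetSum _ fun k _ => ii j k]
    refine Finset.sum_congr rfl fun j _ => ?_
    rw [integral_finsetSum _ fun k _ => ii j k]
    refine Finset.sum_congr rfl fun k _ => ?_
    rw [integral_const_mul]
  have a2 : ∫ z, (φ z : ℂ) * (E n z * E n z) = ∫ z, (φ z : ℂ) * (S n z * S n z) := by
    congr 1; funext z
    by_cases hz : z ∈ B
    · rw [SQ n z hz]
    · rw [TF.zero hφ hz]; simp
  have a3 : ((∑ j ∈ c.support, ∑ k ∈ c.support, c j * c k * pj j k : ℝ) : ℂ) * J =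
      ∑ j ∈ c.support, ∑ k ∈ c.support, ((c j : ℂ) * (c k : ℂ)) * (((pj j k : ℝ) : ℂ) * J) := by
    push_cast
    rw [Finset.sum_mul]
    refine Finset.sum_congr rfl fun j _ => ?_
    rw [Finset.sum_mul]
    refine Finset.sum_congr rfl fun k _ => ?_
    ring
  have a4 : (((2 * s 0 ^ 2 + s Real.pi ^ 2) / 3 : ℝ) : ℂ) = ∑ j ∈ c.support, ∑ k ∈ c.support,
      ((c j : ℂ) * (c k : ℂ)) * ((ejk j k : ℝ) : ℂ) := by
    have b0 : s 0 = ∑ j ∈ c.support, c j := by
      rw [← hc 0]; simp [Finsupp.sum]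
    have b1 : s Real.pi = ∑ j ∈ c.support, c j * (-1) ^ j := by
      rw [← hc Real.pi]; simp [Finsupp.sum, Real.cos_nat_mul_pi]
    have b2 : (2 * s 0 ^ 2 + s Real.pi ^ 2) / 3 = ∑ j ∈ c.support, ∑ k ∈ c.support,
        (c j * c k) * ejk j k := by
      rw [b0, b1, sq, sq, Finset.sum_mul_sum, Finset.sum_mul_sum]
      simp only [Finset.mul_sum, ejk]
      rw [← Finset.sum_add_distrib, Finset.sum_div]
      refine Finset.sum_congr rfl fun j _ => ?_
      rw [← Finset.sum_add_distrib, Finset.sum_div]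
      refine Finset.sum_congr rfl fun k _ => ?_
      ring
    rw [b2]; push_cast; rfl
  have id4 := fin_id c.support (fun j => (c j : ℂ))
    (fun j k => ∫ z, (φ z : ℂ) * (vv w j n z * vv w k n z)) (fun j k => ((pj j k : ℝ) : ℂ) * J)
    (fun j k => ((ejk j k : ℝ) : ℂ)) ((∫ z, (φ z : ℂ) * F4 w 0 0 0 0 n z) - 3 * J) 0
  rw [a2, a1, a3, a4]
  rw [add_zero, add_zero] at id4
  exact id4

/-- **The power spectrum**, complex form -/
theorem spec_c (hB : IsOpen B) (hS : Sys B h u) {φ : ℂ → ℝ} (hφ : TF B φ) (F : Polynomial ℝ) :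
    Tendsto (fun n => (∫ z, (φ z : ℂ) * (opP o1 (h n) F (vv (LW h u) 0 n) z *
      opP o1 (h n) F (vv (LW h u) 0 n) z)) -
      (((2 * F.eval 0 ^ 2 + F.eval 4 ^ 2) / 3 : ℝ) : ℂ) *
      ((∫ z, (φ z : ℂ) * F4 (LW h u) 0 0 0 0 n z) - 3 * ((∫ z, φ z : ℝ) : ℂ))) atTop
      (𝓝 (((F.eval 0 ^ 2 + 1 / Real.pi *
        ∫ θ in (0 : ℝ)..(2 * Real.pi), F.eval (2 - 2 * Real.cos θ) ^ 2 : ℝ) : ℂ) *
        ((∫ z, φ z : ℝ) : ℂ))) := by
  have hF := famW hB hS
  have DDr : DD (D4 (LW h u) φ) := (frW hB hS).dd φ hφ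
  obtain ⟨c, hc, lim⟩ := pow4 hφ DDr (fun j n => (vv_sm hF j n).continuousOn)
    (good_poly hB hF F)
  have e3 : (2 * F.eval (2 - 2 * Real.cos 0) ^ 2 + F.eval (2 - 2 * Real.cos Real.pi) ^ 2) / 3 =
      (2 * F.eval 0 ^ 2 + F.eval 4 ^ 2) / 3 := by
    rw [Real.cos_zero, Real.cos_pi]; norm_num
  simp only [e3] at lim
  have a := ang_sum (m := fun _ => (1 : ℝ)) (ν := unif) ea_meas ea_norm hc 0
  have e4 : ∑ j ∈ c.support, ∑ k ∈ c.support, c j * c k * pj j k =
      F.eval 0 ^ 2 + 1 / Real.pi *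
        ∫ θ in (0 : ℝ)..(2 * Real.pi), F.eval (2 - 2 * Real.cos θ) ^ 2 := by
    have : ∀ z : ℂ, unif z = mu0 := fun z => by
      simp only [unif, ProbabilityTheory.Kernel.const_apply]
    rw [this, ang_unif, one_pow, one_mul] at a
    exact a
  rw [e4] at lim
  exact lim

end

end Pool.Agent.Q175.RW.PS
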