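import Pool.Agent.Q175.RW.SX3
import Pool.Agent.Q175.RW.LH

/-! The flux inequality: joint form with slow functions. -/
set_option autoImplicit false
open MeasureTheory Filter Topology Complex ProbabilityTheory
open scoped ContDiff ENNReal

namespace Pool.Agent.Q175.RW.SJ

open Pool.Agent.W745.RW Pool.Agent.TH294.RS Pool.Agent.Q175.RW.SX
open Pool.Agent.TH294.RG (RawG ea par unif ea_meas ea_norm opP sR AG)
open Pool.Agent.TH421.AC (rint out_int rsd rdA)

noncomputable section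

variable {B : Set ℂ} {E : Type*} [NormedAddCommGroup E] [NormedSpace ℝ E]

/-- integration by parts with a differentiable factor -/
theorem fluxU (hB : IsOpen B) {q u U : ℂ → ℝ} {U' : ℂ → ℂ →L[ℝ] ℝ} (hq : TF B q)
    (su : ContDiffOn ℝ ∞ u B) (dU : ∀ z ∈ B, HasFDerivAt U (U' z) z) (v : ℂ)
    (cU' : ContinuousOn (fun z => U' z v) B) :
    ∫ z, q z * (U' z v * fderiv ℝ u z v) =
      - (∫ z, q z * (U z * fderiv ℝ (fun z => fderiv ℝ u z v) z v)) -
        ∫ z, fderiv ℝ q z v * (U z * fderiv ℝ u z v) := by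
  obtain ⟨S, hS⟩ : ∃ S : Set ℂ, S = tsupport q := ⟨_, rfl⟩
  have hSc : IsCompact S := by rw [hS]; exact hq.2.1
  have hSB : S ⊆ B := by rw [hS]; exact hq.2.2
  have z0 : ∀ z, z ∉ S → q z = 0 := fun z hz => image_eq_zero_of_notMem_tsupport (by rwa [hS] at hz)
  have z1 : ∀ z, z ∉ S → fderiv ℝ q z v = 0 := fun z hz => by
    rw [fderiv_of_notMem_tsupport ℝ (by rwa [hS] at hz)]; rfl
  have cq : Continuous q := hq.1.continuous
  have cq' : Continuous (fun z => fderiv ℝ q z v) :=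
    ((hq.1.fderiv_right (m := ∞) le_rfl).clm_apply contDiff_const).continuous
  have s1 : ContDiffOn ℝ ∞ (fun z => fderiv ℝ u z v) B := rsd hB su v
  have s2 : ContDiffOn ℝ ∞ (fun z => fderiv ℝ (fun z => fderiv ℝ u z v) z v) B := rsd hB s1 v
  have cU : ContinuousOn U S := fun z hz => (dU z (hSB hz)).continuousAt.continuousWithinAt
  have cV : ContinuousOn (fun z => U' z v) S := cU'.mono hSB
  have c1 : ContinuousOn (fun z => fderiv ℝ u z v) S := s1.continuousOn.mono hSB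
  have c2 : ContinuousOn (fun z => fderiv ℝ (fun z => fderiv ℝ u z v) z v) S :=
    s2.continuousOn.mono hSB
  have nh : ∀ z, z ∉ S → (fun z => q z * U z) =ᶠ[𝓝 z] fun _ => 0 := by
    intro z hz
    filter_upwards [hSc.isClosed.isOpen_compl.mem_nhds (hz : z ∈ Sᶜ)] with x hx
    rw [z0 x hx, zero_mul]
  have hF : ∀ z ∈ B, HasFDerivAt (fun z => q z * U z) (q z • U' z + U z • fderiv ℝ q z) z := by
    intro z hz
    have d1 : HasFDerivAt q (fderiv ℝ q z) z := (hq.1.differentiable (by simp) z).hasFDerivAt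
    exact d1.mul (dU z hz)
  have e1 : ∀ z ∈ B, fderiv ℝ (fun z => q z * U z) z v =
      q z * U' z v + U z * fderiv ℝ q z v := by
    intro z hz
    rw [(hF z hz).fderiv]
    simp only [add_apply, smul_apply, smul_eq_mul]
  have e1' : ∀ z, fderiv ℝ (fun z => q z * U z) z v * fderiv ℝ u z v =
      q z * (U' z v * fderiv ℝ u z v) + fderiv ℝ q z v * (U z * fderiv ℝ u z v) := by
    intro z
    by_cases hz : z ∈ B
    · rw [e1 z hz]; ring
    · have hzS : z ∉ S := fun h => hz (hSB h)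
      rw [z0 z hzS, z1 z hzS, (nh z hzS).fderiv_eq]; simp
  have i1 : Integrable (fun z => q z * (U' z v * fderiv ℝ u z v)) :=
    rint hSc (cq.continuousOn.mul (cV.mul c1)) fun z hz => by rw [z0 z hz, zero_mul]
  have i2 : Integrable (fun z => fderiv ℝ q z v * (U z * fderiv ℝ u z v)) :=
    rint hSc (cq'.continuousOn.mul (cU.mul c1)) fun z hz => by rw [z1 z hz, zero_mul]
  have i3 : Integrable (fun z => (q z * U z) *
      fderiv ℝ (fun z => fderiv ℝ u z v) z v) :=
    rint hSc ((cq.continuousOn.mul cU).mul c2) fun z hz => by rw [z0 z hz]; simp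
  have i4 : Integrable (fun z => (q z * U z) * fderiv ℝ u z v) :=
    rint hSc ((cq.continuousOn.mul cU).mul c1) fun z hz => by rw [z0 z hz]; simp
  have i5 : Integrable (fun z => fderiv ℝ (fun z => q z * U z) z v * fderiv ℝ u z v) := by
    simp only [e1']
    exact i1.add i2
  have sup : tsupport (fun z => q z * U z) ⊆ B := by
    refine Set.Subset.trans ?_ hSB
    rw [hS]
    exact tsupport_mul_subset_left
  have key := integral_mul_fderiv_eq_neg_fderiv_mul_of_integrable (μ := (volume : Measure ℂ))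
    (f := fun z => q z * U z) (g := fun z => fderiv ℝ u z v) (v := v) i5 i3 i4
    (fun z _ => by
      by_cases hz : z ∈ B
      · exact (hF z hz).differentiableAt
      · exact (nh z fun h => hz (hSB h)).differentiableAt_iff.2 (differentiableAt_const _))
    (fun z hz => rdA hB s1 (sup hz))
  simp only [e1'] at key
  rw [integral_add i1 i2] at key
  have e2 : ∫ z, q z * U z * fderiv ℝ (fun z => fderiv ℝ u z v) z v =
      ∫ z, q z * (U z * fderiv ℝ (fun z => fderiv ℝ u z v) z v) := by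
    congr 1; funext z; ring
  rw [e2] at key
  linarith

/-- slow functions -/
def Slow (B : Set ℂ) (h : ℕ → ℝ) (g : ℕ → ℂ → E) : Prop :=
  (∀ n, ContDiffOn ℝ ∞ (g n) B) ∧ ∀ K : Set ℂ, IsCompact K → K ⊆ B →
    Tendsto (fun n => ∫ z in K, h n ^ 2 * (‖fderiv ℝ (g n) z 1‖ ^ 2 +
      ‖fderiv ℝ (g n) z I‖ ^ 2)) atTop (𝓝 0)

lemma dE (hB : IsOpen B) {g : ℂ → E} (hg : ContDiffOn ℝ ∞ g B) {z : ℂ} (hz : z ∈ B) :
    HasFDerivAt g (fderiv ℝ g z) z :=
  ((hg.contDiffAt (hB.mem_nhds hz)).differentiableAt (by simp)).hasFDerivAt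

lemma cE (hB : IsOpen B) {g : ℂ → E} (hg : ContDiffOn ℝ ∞ g B) (v : ℂ) :
    ContinuousOn (fun z => fderiv ℝ g z v) B :=
  ((hg.fderiv_of_isOpen (m := ∞) hB (by simp)).clm_apply contDiffOn_const).continuousOn

variable {a : ℂ → ℝ} {h : ℕ → ℝ} {u : ℕ → ℂ → ℝ} {g : ℕ → ℂ → E}

theorem joint_lim {M' : ℕ → ℂ → ℂ} (hB : IsOpen B) (H : RawG B a h u M')
    (hG : Bd B fun n z => G a (h n) (u n) z) (hg : Slow B h g) {W : ℝ × E → ℝ}
    (hW : ContDiff ℝ 1 W) {M : ℝ} (hM : ∀ p, |W p| ≤ M) (hM' : ∀ p, ‖fderiv ℝ W p‖ ≤ M)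
    {φ : ℂ → ℝ} (hφ : TF B φ) :
    Tendsto (fun n => (∫ z, φ z * (fderiv ℝ W (u n z, g n z) (1, 0) * G a (h n) (u n) z)) -
      ∫ z, φ z * (u n z * W (u n z, g n z))) atTop (𝓝 0) := by
  have M0 : 0 ≤ M := (abs_nonneg _).trans (hM 0)
  obtain ⟨q, hq⟩ : ∃ q : ℂ → ℝ, q = fun z => φ z * a z ^ 2 := ⟨_, rfl⟩
  have tq : TF B q := by rw [hq]; exact TF.mulc hB hφ (H.sa.pow 2)
  obtain ⟨S, hS⟩ : ∃ S : Set ℂ, S = tsupport φ := ⟨_, rfl⟩
  have hSc : IsCompact S := by rw [hS]; exact hφ.2.1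
  have hSB : S ⊆ B := by rw [hS]; exact hφ.2.2
  have z0 : ∀ z, z ∉ S → φ z = 0 := fun z hz => image_eq_zero_of_notMem_tsupport (by rwa [hS] at hz)
  have zq : ∀ z, z ∉ S → q z = 0 := fun z hz => by rw [hq]; show φ z * _ = 0; rw [z0 z hz, zero_mul]
  have nq : ∀ z, z ∉ S → q =ᶠ[𝓝 z] fun _ => 0 := by
    intro z hz
    filter_upwards [hSc.isClosed.isOpen_compl.mem_nhds (hz : z ∈ Sᶜ)] with x hx
    exact zq x hx
  have z1 : ∀ v z, z ∉ S → fderiv ℝ q z v = 0 := fun v z hz => by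
    rw [(nq z hz).fderiv_eq]; simp
  have cq : Continuous q := tq.1.continuous
  have cq' : ∀ v, Continuous (fun z => fderiv ℝ q z v) := fun v =>
    ((tq.1.fderiv_right (m := ∞) le_rfl).clm_apply contDiff_const).continuous
  have ca : ContinuousOn a S := H.sa.continuousOn.mono hSB
  have cai : ContinuousOn (fun z => (a z ^ 2)⁻¹) S :=
    (ca.pow 2).inv₀ fun z hz => (pow_pos (H.pa z (hSB hz)) 2).ne'
  obtain ⟨A, hA⟩ := hSc.exists_bound_of_continuousOn cai
  obtain ⟨Q0, hQ0⟩ := hSc.exists_bound_of_continuousOn (cq.continuousOn (s := S))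
  obtain ⟨C, hC⟩ := hG S hSc hSB
  have V0 : 0 ≤ ∫ z in S, (1 : ℝ) := integral_nonneg fun z => zero_le_one
  -- continuity
  have cW' : Continuous (fun p => fderiv ℝ W p) := hW.continuous_fderiv (by norm_num)
  have cu : ∀ n, ContinuousOn (u n) B := fun n => (H.sm n).continuousOn
  have cg : ∀ n, ContinuousOn (g n) B := fun n => (hg.1 n).continuousOn
  have cp : ∀ n, ContinuousOn (fun z => (u n z, g n z)) B := fun n => (cu n).prodMk (cg n)
  have cU : ∀ n, ContinuousOn (fun z => W (u n z, g n z)) B := fun n =>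
    hW.continuous.comp_continuousOn (cp n)
  have cWp : ∀ n, ContinuousOn (fun z => fderiv ℝ W (u n z, g n z)) B := fun n =>
    cW'.comp_continuousOn (cp n)
  have cv : ∀ n v, ContinuousOn (fun z => fderiv ℝ (u n) z v) B := fun n v =>
    (rsd hB (H.sm n) v).continuousOn
  have cgv : ∀ n v, ContinuousOn (fun z => fderiv ℝ (g n) z v) B := fun n v =>
    cE hB (hg.1 n) v
  have cWx : ∀ n, ContinuousOn (fun z => fderiv ℝ W (u n z, g n z) (1, 0)) B := fun n =>
    (cWp n).clm_apply continuousOn_const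
  have cL : ∀ n v, ContinuousOn (fun z => fderiv ℝ W (u n z, g n z) (0, fderiv ℝ (g n) z v)) B :=
    fun n v => (cWp n).clm_apply (continuousOn_const.prodMk (cgv n v))
  -- the derivative of the composition
  obtain ⟨U', hU'⟩ : ∃ U' : ℕ → ℂ → ℂ →L[ℝ] ℝ, U' = fun n z =>
    (fderiv ℝ W (u n z, g n z)).comp ((fderiv ℝ (u n) z).prod (fderiv ℝ (g n) z)) := ⟨_, rfl⟩
  have dU : ∀ n, ∀ z ∈ B, HasFDerivAt (fun z => W (u n z, g n z)) (U' n z) z := by
    intro n z hz
    rw [hU']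
    have d1 : HasFDerivAt (u n) (fderiv ℝ (u n) z) z := (rdA hB (H.sm n) hz).hasFDerivAt
    have d2 := dE hB (hg.1 n) hz
    have d3 : HasFDerivAt W (fderiv ℝ W (u n z, g n z)) (u n z, g n z) :=
      (hW.differentiable (by norm_num) _).hasFDerivAt
    exact d3.comp z (d1.prodMk d2)
  have eU : ∀ n z v, U' n z v = fderiv ℝ W (u n z, g n z) (1, 0) * fderiv ℝ (u n) z v +
      fderiv ℝ W (u n z, g n z) (0, fderiv ℝ (g n) z v) := by
    intro n z v
    have e : ((fderiv ℝ (u n) z v, fderiv ℝ (g n) z v) : ℝ × E) =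
        fderiv ℝ (u n) z v • ((1, 0) : ℝ × E) + (0, fderiv ℝ (g n) z v) := by
      simp
    rw [hU']
    show fderiv ℝ W (u n z, g n z) (fderiv ℝ (u n) z v, fderiv ℝ (g n) z v) = _
    rw [e, map_add, map_smul, smul_eq_mul]
    ring
  have cU' : ∀ n v, ContinuousOn (fun z => U' n z v) B := by
    intro n v
    simp only [eU]
    exact ((cWx n).mul (cv n v)).add (cL n v)
  -- the exact identity
  have id : ∀ n, (∫ z, φ z * (fderiv ℝ W (u n z, g n z) (1, 0) * G a (h n) (u n) z)) -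
      (∫ z, φ z * (u n z * W (u n z, g n z))) =
      - (h n ^ 2 * ∫ z, fderiv ℝ q z 1 * (W (u n z, g n z) * fderiv ℝ (u n) z 1)) -
      (h n ^ 2 * ∫ z, fderiv ℝ q z I * (W (u n z, g n z) * fderiv ℝ (u n) z I)) -
      (h n ^ 2 * ∫ z, q z * (fderiv ℝ W (u n z, g n z) (0, fderiv ℝ (g n) z 1) *
        fderiv ℝ (u n) z 1)) -
      (h n ^ 2 * ∫ z, q z * (fderiv ℝ W (u n z, g n z) (0, fderiv ℝ (g n) z I) *
        fderiv ℝ (u n) z I)) := by
    intro n
    have su := H.sm n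
    have f1 := fluxU hB tq su (dU n) 1 (cU' n 1)
    have f2 := fluxU hB tq su (dU n) I (cU' n I)
    have cvv : ∀ v, ContinuousOn (fun z => fderiv ℝ (fun z => fderiv ℝ (u n) z v) z v) S := fun v =>
      (rsd hB (rsd hB su v) v).continuousOn.mono hSB
    have i1 : ∀ v, Integrable (fun z => q z * (fderiv ℝ W (u n z, g n z) (1, 0) *
        fderiv ℝ (u n) z v ^ 2)) := fun v =>
      rint hSc (cq.continuousOn.mul (((cWx n).mono hSB).mul (((cv n v).mono hSB).pow 2)))
        fun z hz => by rw [zq z hz, zero_mul]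
    have i2 : ∀ v, Integrable (fun z => q z * (W (u n z, g n z) *
        fderiv ℝ (fun z => fderiv ℝ (u n) z v) z v)) := fun v =>
      rint hSc (cq.continuousOn.mul (((cU n).mono hSB).mul (cvv v)))
        fun z hz => by rw [zq z hz, zero_mul]
    have i3 : ∀ v, Integrable (fun z => q z * (fderiv ℝ W (u n z, g n z)
        (0, fderiv ℝ (g n) z v) * fderiv ℝ (u n) z v)) := fun v =>
      rint hSc (cq.continuousOn.mul (((cL n v).mono hSB).mul ((cv n v).mono hSB)))
        fun z hz => by rw [zq z hz, zero_mul]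
    have e0 : ∀ v, ∫ z, q z * (U' n z v * fderiv ℝ (u n) z v) =
        (∫ z, q z * (fderiv ℝ W (u n z, g n z) (1, 0) * fderiv ℝ (u n) z v ^ 2)) +
        ∫ z, q z * (fderiv ℝ W (u n z, g n z) (0, fderiv ℝ (g n) z v) *
          fderiv ℝ (u n) z v) := by
      intro v
      rw [← integral_add (i1 v) (i3 v)]
      congr 1; funext z
      rw [eU]; ring
    rw [e0] at f1 f2
    have e1 : ∫ z, φ z * (fderiv ℝ W (u n z, g n z) (1, 0) * G a (h n) (u n) z) =
        h n ^ 2 * ((∫ z, q z * (fderiv ℝ W (u n z, g n z) (1, 0) * fderiv ℝ (u n) z 1 ^ 2)) +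
          ∫ z, q z * (fderiv ℝ W (u n z, g n z) (1, 0) * fderiv ℝ (u n) z I ^ 2)) := by
      rw [← integral_add (i1 1) (i1 I), ← integral_const_mul]
      congr 1; funext z
      rw [hq]; unfold G; ring
    have e2 : ∫ z, φ z * (u n z * W (u n z, g n z)) =
        - (h n ^ 2 * ((∫ z, q z * (W (u n z, g n z) *
          fderiv ℝ (fun z => fderiv ℝ (u n) z 1) z 1)) +
          ∫ z, q z * (W (u n z, g n z) * fderiv ℝ (fun z => fderiv ℝ (u n) z I) z I))) := by
      rw [← integral_add (i2 1) (i2 I), ← integral_const_mul, ← integral_neg]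
      congr 1; funext z
      by_cases hz : z ∈ B
      · have h1 := H.eq n z hz
        have h2 : lap (u n) z = fderiv ℝ (fun z => fderiv ℝ (u n) z 1) z 1 +
          fderiv ℝ (fun z => fderiv ℝ (u n) z I) z I := rfl
        rw [h2] at h1
        rw [hq]
        linear_combination (φ z * W (u n z, g n z)) * h1
      · have hzS : z ∉ S := fun h => hz (hSB h)
        rw [z0 z hzS, zq z hzS]; simp
    rw [e1, e2]
    linear_combination (h n ^ 2) * f1 + (h n ^ 2) * f2
  -- pointwise bound for the derivative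
  have g1 : ∀ n v z, (v = 1 ∨ v = I) → z ∈ S →
      h n ^ 2 * fderiv ℝ (u n) z v ^ 2 ≤ |A| * G a (h n) (u n) z := by
    intro n v z hv hz
    have b3 := hA z hz
    rw [Real.norm_eq_abs] at b3
    have pa := H.pa z (hSB hz)
    have p2 : 0 < a z ^ 2 := by positivity
    have g2 : h n ^ 2 * fderiv ℝ (u n) z v ^ 2 ≤ (a z ^ 2)⁻¹ * G a (h n) (u n) z := by
      rw [inv_mul_eq_div, le_div_iff₀ p2]
      unfold G
      rcases hv with rfl | rfl
      · nlinarith [mul_nonneg (mul_nonneg (sq_nonneg (h n)) p2.le)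
          (sq_nonneg (fderiv ℝ (u n) z I))]
      · nlinarith [mul_nonneg (mul_nonneg (sq_nonneg (h n)) p2.le)
          (sq_nonneg (fderiv ℝ (u n) z 1))]
    refine g2.trans (mul_le_mul_of_nonneg_right ?_ (G_nn _ _ _ _))
    exact (le_abs_self _).trans (b3.trans (le_abs_self A))
  -- first error
  have bv : ∀ (v : ℂ) (Q : ℝ), (v = 1 ∨ v = I) → (∀ z ∈ S, ‖fderiv ℝ q z v‖ ≤ Q) → ∀ᶠ n in atTop,
      |h n ^ 2 * ∫ z, fderiv ℝ q z v * (W (u n z, g n z) * fderiv ℝ (u n) z v)| ≤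
        h n * (|Q| * M * ((∫ z in S, (1 : ℝ)) + |A| * |C|)) := by
    intro v Q hv hQ
    filter_upwards [hC] with n hn
    have cP : ContinuousOn (fun z => W (u n z, g n z)) S := (cU n).mono hSB
    have cv' : ContinuousOn (fun z => fderiv ℝ (u n) z v) S := (cv n v).mono hSB
    have cG : ContinuousOn (fun z => G a (h n) (u n) z) S :=
      (G_co hB H.sa (H.sm n) (h n)).mono hSB
    have hp := H.hpos n
    have e1 : h n ^ 2 * ∫ z, fderiv ℝ q z v * (W (u n z, g n z) * fderiv ℝ (u n) z v) =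
        ∫ z in S, h n ^ 2 * (fderiv ℝ q z v * (W (u n z, g n z) * fderiv ℝ (u n) z v)) := by
      rw [integral_const_mul, ← out_int (S := S)]
      intro z hz
      rw [z1 v z hz, zero_mul]
    rw [e1]
    refine (abs_integral_le_integral_abs).trans ?_
    have cc : ContinuousOn (fun z => |h n ^ 2 * (fderiv ℝ q z v *
        (W (u n z, g n z) * fderiv ℝ (u n) z v))|) S :=
      (continuousOn_const.mul ((cq' v).continuousOn.mul (cP.mul cv'))).abs
    have k1 : ∫ z in S, |A| * G a (h n) (u n) z ≤ |A| * |C| := by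
      rw [integral_const_mul]
      exact mul_le_mul_of_nonneg_left (hn.trans (le_abs_self C)) (abs_nonneg A)
    refine (intK_lin hSc (c := h n * (|Q| * M)) (G1 := fun _ => 1)
      (G2 := fun z => |A| * G a (h n) (u n) z) (by positivity) cc continuousOn_const
      (continuousOn_const.mul cG) (fun z hz => ?_) le_rfl k1).trans (le_of_eq (by ring))
    have b1 := hQ z hz
    rw [Real.norm_eq_abs] at b1
    have b2 := hM (u n z, g n z)
    have g2 := g1 n v z hv hz
    have g3 : |h n * fderiv ℝ (u n) z v| ≤ 1 + |A| * G a (h n) (u n) z := by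
      have : |h n * fderiv ℝ (u n) z v| ≤ 1 + (h n * fderiv ℝ (u n) z v) ^ 2 := by
        rw [← sq_abs (h n * fderiv ℝ (u n) z v)]
        nlinarith [sq_nonneg (|h n * fderiv ℝ (u n) z v| - 1)]
      refine this.trans ?_
      rw [mul_pow]; linarith
    have e2 : |h n ^ 2 * (fderiv ℝ q z v * (W (u n z, g n z) * fderiv ℝ (u n) z v))| =
        h n * (|fderiv ℝ q z v| * |W (u n z, g n z)| * |h n * fderiv ℝ (u n) z v|) := by
      rw [abs_mul, abs_mul, abs_mul, abs_mul, abs_of_pos hp, abs_of_pos (pow_pos hp 2)]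
      ring
    show |h n ^ 2 * (fderiv ℝ q z v * (W (u n z, g n z) * fderiv ℝ (u n) z v))| ≤ _
    rw [e2]
    have b4 : |fderiv ℝ q z v| * |W (u n z, g n z)| ≤ |Q| * M :=
      mul_le_mul (b1.trans (le_abs_self Q)) b2 (abs_nonneg _) (abs_nonneg _)
    have b5 := mul_le_mul b4 g3 (abs_nonneg _) (mul_nonneg (abs_nonneg Q) M0)
    have b6 := mul_le_mul_of_nonneg_left b5 hp.le
    linarith
  -- second error
  have bw : ∀ (v : ℂ), (v = 1 ∨ v = I) → Tendsto (fun n => h n ^ 2 * ∫ z, q z *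
      (fderiv ℝ W (u n z, g n z) (0, fderiv ℝ (g n) z v) * fderiv ℝ (u n) z v)) atTop (𝓝 0) := by
    intro v hv
    obtain ⟨R, hR⟩ : ∃ R : ℕ → ℝ, R = fun n => ∫ z in S, h n ^ 2 * (‖fderiv ℝ (g n) z 1‖ ^ 2 +
      ‖fderiv ℝ (g n) z I‖ ^ 2) := ⟨_, rfl⟩
    have lR : Tendsto R atTop (𝓝 0) := by rw [hR]; exact hg.2 S hSc hSB
    rw [Metric.tendsto_atTop]
    intro ε hε
    obtain ⟨D, hD⟩ : ∃ D : ℝ, D = |Q0| * M * (|A| * |C|) + 1 := ⟨_, rfl⟩
    have D0 : 0 < D := by rw [hD]; positivity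
    obtain ⟨δ, hδ⟩ : ∃ δ : ℝ, δ = ε / (4 * D) := ⟨_, rfl⟩
    have δ0 : 0 < δ := by rw [hδ]; positivity
    have ev := hC.and (lR.eventually (gt_mem_nhds (show 0 < ε / (4 * (|Q0| * M * (1 / δ) + 1))
      by positivity)))
    obtain ⟨N, hN⟩ := eventually_atTop.1 ev
    refine ⟨N, fun n hn => ?_⟩
    obtain ⟨n1, n2⟩ := hN n hn
    have cG : ContinuousOn (fun z => G a (h n) (u n) z) S :=
      (G_co hB H.sa (H.sm n) (h n)).mono hSB
    have cR : ContinuousOn (fun z => h n ^ 2 * (‖fderiv ℝ (g n) z 1‖ ^ 2 +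
      ‖fderiv ℝ (g n) z I‖ ^ 2)) S :=
      continuousOn_const.mul ((((cgv n 1).mono hSB).norm.pow 2).add
        (((cgv n I).mono hSB).norm.pow 2))
    have cc : ContinuousOn (fun z => |h n ^ 2 * (q z *
        (fderiv ℝ W (u n z, g n z) (0, fderiv ℝ (g n) z v) * fderiv ℝ (u n) z v))|) S :=
      (continuousOn_const.mul (cq.continuousOn.mul
        (((cL n v).mono hSB).mul ((cv n v).mono hSB)))).abs
    have e1 : h n ^ 2 * ∫ z, q z *
        (fderiv ℝ W (u n z, g n z) (0, fderiv ℝ (g n) z v) * fderiv ℝ (u n) z v) =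
        ∫ z in S, h n ^ 2 * (q z *
        (fderiv ℝ W (u n z, g n z) (0, fderiv ℝ (g n) z v) * fderiv ℝ (u n) z v)) := by
      rw [integral_const_mul, ← out_int (S := S)]
      intro z hz
      rw [zq z hz, zero_mul]
    rw [Real.dist_eq, sub_zero, e1]
    have k1 : ∫ z in S, δ * (|A| * G a (h n) (u n) z) ≤ δ * (|A| * |C|) := by
      rw [integral_const_mul, integral_const_mul]
      exact mul_le_mul_of_nonneg_left (mul_le_mul_of_nonneg_left (n1.trans (le_abs_self C))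
        (abs_nonneg A)) δ0.le
    have k2 : ∫ z in S, 1 / δ * (h n ^ 2 * (‖fderiv ℝ (g n) z 1‖ ^ 2 +
        ‖fderiv ℝ (g n) z I‖ ^ 2)) ≤ 1 / δ * R n := by
      rw [integral_const_mul, hR]
    refine lt_of_le_of_lt ((abs_integral_le_integral_abs).trans
      (intK_lin hSc (c := |Q0| * M) (G1 := fun z => δ * (|A| * G a (h n) (u n) z))
      (G2 := fun z => 1 / δ * (h n ^ 2 * (‖fderiv ℝ (g n) z 1‖ ^ 2 +
        ‖fderiv ℝ (g n) z I‖ ^ 2))) (by positivity) cc
      (continuousOn_const.mul (continuousOn_const.mul cG))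
      (continuousOn_const.mul cR) (fun z hz => ?_) k1 k2)) ?_
    · -- pointwise
      have b1 := hQ0 z hz
      rw [Real.norm_eq_abs] at b1
      have b2 : |fderiv ℝ W (u n z, g n z) (0, fderiv ℝ (g n) z v)| ≤
          M * ‖fderiv ℝ (g n) z v‖ := by
        have r1 := (fderiv ℝ W (u n z, g n z)).le_opNorm (0, fderiv ℝ (g n) z v)
        rw [Real.norm_eq_abs] at r1
        have r2 : ‖((0, fderiv ℝ (g n) z v) : ℝ × E)‖ = ‖fderiv ℝ (g n) z v‖ := by
          rw [Prod.norm_def]; simp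
        rw [r2] at r1
        exact r1.trans (mul_le_mul_of_nonneg_right (hM' _) (norm_nonneg _))
      have b3 := g1 n v z hv hz
      have b4 : ‖fderiv ℝ (g n) z v‖ ^ 2 ≤ ‖fderiv ℝ (g n) z 1‖ ^ 2 +
          ‖fderiv ℝ (g n) z I‖ ^ 2 := by
        rcases hv with rfl | rfl
        · linarith [sq_nonneg ‖fderiv ℝ (g n) z I‖]
        · linarith [sq_nonneg ‖fderiv ℝ (g n) z 1‖]
      have hp := H.hpos n
      obtain ⟨x, hx⟩ : ∃ x, x = |fderiv ℝ (u n) z v| := ⟨_, rfl⟩
      obtain ⟨y, hy⟩ : ∃ y, y = ‖fderiv ℝ (g n) z v‖ := ⟨_, rfl⟩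
      have x0 : 0 ≤ x := by rw [hx]; exact abs_nonneg _
      have y0 : 0 ≤ y := by rw [hy]; exact norm_nonneg _
      have ex : fderiv ℝ (u n) z v ^ 2 = x ^ 2 := by rw [hx, sq_abs]
      rw [ex] at b3
      rw [← hy] at b2 b4
      have e2 : |h n ^ 2 * (q z * (fderiv ℝ W (u n z, g n z) (0, fderiv ℝ (g n) z v) *
          fderiv ℝ (u n) z v))| = |q z| *
          |fderiv ℝ W (u n z, g n z) (0, fderiv ℝ (g n) z v)| * (h n ^ 2 * x) := by
        rw [abs_mul, abs_mul, abs_mul, abs_of_pos (pow_pos hp 2), hx]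
        ring
      show |h n ^ 2 * (q z * (fderiv ℝ W (u n z, g n z) (0, fderiv ℝ (g n) z v) *
          fderiv ℝ (u n) z v))| ≤ _
      rw [e2]
      have b5 : |q z| * |fderiv ℝ W (u n z, g n z) (0, fderiv ℝ (g n) z v)| ≤ |Q0| * (M * y) :=
        mul_le_mul (b1.trans (le_abs_self Q0)) b2 (abs_nonneg _) (abs_nonneg _)
      have b6 := mul_le_mul_of_nonneg_right b5 (show 0 ≤ h n ^ 2 * x by positivity)
      have b7 : h n ^ 2 * (x * y) ≤ δ * (h n ^ 2 * x ^ 2) + 1 / δ * (h n ^ 2 * y ^ 2) := by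
        have s1 : x * y ≤ δ * x ^ 2 + 1 / δ * y ^ 2 := by
          have s2 : 0 ≤ (δ * x - y) ^ 2 / δ := by positivity
          have s3 : (δ * x - y) ^ 2 / δ = δ * x ^ 2 - 2 * (x * y) + 1 / δ * y ^ 2 := by
            field_simp
            ring
          have s4 : 0 ≤ x * y := by positivity
          linarith
        have := mul_le_mul_of_nonneg_left s1 (show 0 ≤ h n ^ 2 by positivity)
        linarith
      have b8 : δ * (h n ^ 2 * x ^ 2) ≤ δ * (|A| * G a (h n) (u n) z) :=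
        mul_le_mul_of_nonneg_left b3 δ0.le
      have b9 : 1 / δ * (h n ^ 2 * y ^ 2) ≤ 1 / δ * (h n ^ 2 * (‖fderiv ℝ (g n) z 1‖ ^ 2 +
          ‖fderiv ℝ (g n) z I‖ ^ 2)) := by
        have := mul_le_mul_of_nonneg_left b4 (show 0 ≤ h n ^ 2 by positivity)
        exact mul_le_mul_of_nonneg_left this (by positivity)
      have b10 := mul_le_mul_of_nonneg_left (b7.trans (add_le_add b8 b9))
        (show 0 ≤ |Q0| * M by positivity)
      show _ ≤ |Q0| * M * (δ * (|A| * G a (h n) (u n) z) + 1 / δ * (h n ^ 2 *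
        (‖fderiv ℝ (g n) z 1‖ ^ 2 + ‖fderiv ℝ (g n) z I‖ ^ 2)))
      linarith
    · have R0 : 0 ≤ R n := by
        rw [hR]; exact integral_nonneg fun z => by positivity
      obtain ⟨T, hT⟩ : ∃ T, T = |Q0| * M * (1 / δ) + 1 := ⟨_, rfl⟩
      have T0 : 0 < T := by rw [hT]; positivity
      rw [← hT] at n2
      have c1 : |Q0| * M * (δ * (|A| * |C|)) ≤ ε / 4 := by
        have : |Q0| * M * (δ * (|A| * |C|)) = δ * (D - 1) := by rw [hD]; ring
        rw [this]
        have : δ * D = ε / 4 := by rw [hδ]; field_simp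
        linarith
      have c2 : |Q0| * M * (1 / δ * R n) ≤ ε / 4 := by
        have e3 : |Q0| * M * (1 / δ * R n) = (T - 1) * R n := by rw [hT]; ring
        rw [e3]
        have e4 : T * R n ≤ T * (ε / (4 * T)) := mul_le_mul_of_nonneg_left n2.le T0.le
        have e5 : T * (ε / (4 * T)) = ε / 4 := by field_simp
        linarith
      have : |Q0| * M * (δ * (|A| * |C|) + 1 / δ * R n) =
        |Q0| * M * (δ * (|A| * |C|)) + |Q0| * M * (1 / δ * R n) := by ring
      rw [this]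
      linarith
  obtain ⟨Q1, hQ1⟩ := hSc.exists_bound_of_continuousOn ((cq' 1).continuousOn (s := S))
  obtain ⟨QI, hQI⟩ := hSc.exists_bound_of_continuousOn ((cq' I).continuousOn (s := S))
  have t1 : ∀ (v : ℂ) (Q : ℝ), (v = 1 ∨ v = I) → (∀ z ∈ S, ‖fderiv ℝ q z v‖ ≤ Q) →
      Tendsto (fun n => h n ^ 2 * ∫ z, fderiv ℝ q z v *
        (W (u n z, g n z) * fderiv ℝ (u n) z v)) atTop (𝓝 0) := by
    intro v Q hv hQ
    refine (tendsto_zero_iff_abs_tendsto_zero _).2 ?_
    have lim := H.hlim.mul_const (|Q| * M * ((∫ z in S, (1 : ℝ)) + |A| * |C|))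
    rw [zero_mul] at lim
    exact squeeze_zero' (Eventually.of_forall fun n => abs_nonneg _) (bv v Q hv hQ) lim
  have fin := (((t1 1 Q1 (Or.inl rfl) hQ1).neg.sub (t1 I QI (Or.inr rfl) hQI)).sub
    (bw 1 (Or.inl rfl))).sub (bw I (Or.inr rfl))
  rw [neg_zero, sub_zero, sub_zero, sub_zero] at fin
  exact fin.congr fun n => (id n).symm

end

end Pool.Agent.Q175.RW.SJ
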