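import Pool.Agent.Q175.RW.SJ

/-! The joint flux inequality, global form. -/
set_option autoImplicit false
open MeasureTheory Filter Topology Complex ProbabilityTheory
open scoped ContDiff ENNReal

namespace Pool.Agent.Q175.RW.SJ

open Pool.Agent.W745.RW Pool.Agent.TH294.RS Pool.Agent.Q175.RW.SX Pool.Agent.Q175.RW.LL
open Pool.Agent.TH294.RG (RawG ea par unif ea_meas ea_norm opP sR AG)
open Pool.Agent.TH421.AC (rint out_int rsd rdA)
open Pool.Agent.Y139.PD (area)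

noncomputable section

variable {B : Set ℂ} {E : Type*} [NormedAddCommGroup E] [NormedSpace ℝ E]
variable {a : ℂ → ℝ} {h : ℕ → ℝ} {u : ℕ → ℂ → ℝ} {g : ℕ → ℂ → E}

/-- **the joint flux inequality**, local form -/
theorem joint_ineq (hB : IsOpen B) (H : RawG B a h u M1) (hb : Bd B fun n z => u n z ^ 4)
    (hg : Slow B h g) {W : ℝ × E → ℝ}
    (hW : ContDiff ℝ 1 W) {M : ℝ} (hM : ∀ p, |W p| ≤ M) (hM' : ∀ p, ‖fderiv ℝ W p‖ ≤ M)
    {φ : ℂ → ℝ} (hφ : TF B φ) (hφ0 : ∀ z, 0 ≤ φ z) {ε : ℝ} (hε : 0 < ε) :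
    ∀ᶠ n in atTop, ∫ z, φ z * (2 * (u n z * W (u n z, g n z)) -
      (fderiv ℝ W (u n z, g n z) (1, 0)) ^ 2) ≤
      (∫ z, φ z * u n z ^ 4) - (∫ z, φ z) + ε := by
  have g2 := G_bd hB H hb
  have g1 : Bd B fun n z => G a (h n) (u n) z :=
    Bd1 (fun n => G_co hB H.sa (H.sm n) (h n)) g2
  have f := joint_lim hB H g1 hg hW hM hM' hφ
  have q := grad4 hB H hb hφ
  have hSc : IsCompact (tsupport φ) := hφ.2.1
  have hSB : tsupport φ ⊆ B := hφ.2.2
  have z0 : ∀ z, z ∉ tsupport φ → φ z = 0 := fun z hz => image_eq_zero_of_notMem_tsupport hz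
  have cφ : Continuous φ := hφ.1.continuous
  filter_upwards [f.eventually (lt_mem_nhds (show -(ε / 4) < 0 by linarith)),
    q.eventually (gt_mem_nhds (show 0 < ε / 4 by linarith))] with n n1 n2
  have su := H.sm n
  have cu : ContinuousOn (u n) (tsupport φ) := su.continuousOn.mono hSB
  have cp : ContinuousOn (fun z => (u n z, g n z)) (tsupport φ) :=
    cu.prodMk ((hg.1 n).continuousOn.mono hSB)
  have cW : ContinuousOn (fun z => W (u n z, g n z)) (tsupport φ) :=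
    hW.continuous.comp_continuousOn cp
  have cwu : ContinuousOn (fun z => fderiv ℝ W (u n z, g n z) (1, 0)) (tsupport φ) :=
    ((hW.continuous_fderiv (by norm_num)).comp_continuousOn cp).clm_apply continuousOn_const
  have cG : ContinuousOn (fun z => G a (h n) (u n) z) (tsupport φ) :=
    (G_co hB H.sa su (h n)).mono hSB
  have i1 : Integrable (fun z => φ z * (u n z * W (u n z, g n z))) :=
    rint hSc (cφ.continuousOn.mul (cu.mul cW)) fun z hz => by rw [z0 z hz, zero_mul]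
  have i2 : Integrable (fun z => φ z * (fderiv ℝ W (u n z, g n z) (1, 0)) ^ 2) :=
    rint hSc (cφ.continuousOn.mul (cwu.pow 2)) fun z hz => by rw [z0 z hz, zero_mul]
  have i3 : Integrable (fun z => φ z * (fderiv ℝ W (u n z, g n z) (1, 0) *
      G a (h n) (u n) z)) :=
    rint hSc (cφ.continuousOn.mul (cwu.mul cG)) fun z hz => by rw [z0 z hz, zero_mul]
  have i4 : Integrable (fun z => φ z * G a (h n) (u n) z ^ 2) :=
    rint hSc (cφ.continuousOn.mul (cG.pow 2)) fun z hz => by rw [z0 z hz, zero_mul]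
  have e1 : ∫ z, φ z * (2 * (u n z * W (u n z, g n z)) -
      (fderiv ℝ W (u n z, g n z) (1, 0)) ^ 2) =
      2 * (∫ z, φ z * (u n z * W (u n z, g n z))) -
        ∫ z, φ z * (fderiv ℝ W (u n z, g n z) (1, 0)) ^ 2 := by
    rw [← integral_const_mul, ← integral_sub (i1.const_mul 2) i2]
    congr 1; funext z; ring
  have e2 : 2 * (∫ z, φ z * (fderiv ℝ W (u n z, g n z) (1, 0) * G a (h n) (u n) z)) -
      (∫ z, φ z * (fderiv ℝ W (u n z, g n z) (1, 0)) ^ 2) ≤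
      ∫ z, φ z * G a (h n) (u n) z ^ 2 := by
    rw [← integral_const_mul, ← integral_sub (i3.const_mul 2) i2]
    refine integral_mono ((i3.const_mul 2).sub i2) i4 fun z => ?_
    show 2 * (φ z * (fderiv ℝ W (u n z, g n z) (1, 0) * G a (h n) (u n) z)) -
      φ z * (fderiv ℝ W (u n z, g n z) (1, 0)) ^ 2 ≤ φ z * G a (h n) (u n) z ^ 2
    nlinarith [mul_nonneg (hφ0 z) (sq_nonneg (fderiv ℝ W (u n z, g n z) (1, 0) -
      G a (h n) (u n) z))]
  rw [e1]
  linarith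

variable {Ω : Set ℂ} {ρ : ℂ → ℝ} {lam : ℕ → ℝ} {K : ℝ}

/-- **the joint flux inequality**, global form -/
theorem joint_glob (X : LD Ω ρ lam u unif K) (hg : Slow Ω (fun n => 1 / √(lam n)) g)
    (mg : ∀ n, AEStronglyMeasurable (g n) (area Ω ρ)) {W : ℝ × E → ℝ}
    (hW : ContDiff ℝ 1 W) {M : ℝ} (hM : ∀ p, |W p| ≤ M) (hM' : ∀ p, ‖fderiv ℝ W p‖ ≤ M)
    {ε : ℝ} (hε : 0 < ε) :
    ∀ᶠ n in atTop, 2 * (∫ z, u n z * W (u n z, g n z) ∂(area Ω ρ)) -
      (∫ z, (fderiv ℝ W (u n z, g n z) (1, 0)) ^ 2 ∂(area Ω ρ)) ≤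
      (∫ z, u n z ^ 4 ∂(area Ω ρ)) - (area Ω ρ Set.univ).toReal + ε := by
  have := X.fm
  have M0 : 0 ≤ M := (abs_nonneg _).trans (hM 0)
  obtain ⟨V, hV⟩ : ∃ V : ℝ, V = (area Ω ρ Set.univ).toReal := ⟨_, rfl⟩
  have V0 : 0 < V := by rw [hV]; exact X.pos
  have cW' : Continuous (fun p => fderiv ℝ W p) := hW.continuous_fderiv (by norm_num)
  have mp : ∀ n, AEStronglyMeasurable (fun z => (u n z, g n z)) (area Ω ρ) := fun n =>
    (X.ume n).prodMk (mg n)
  have mW : ∀ n, AEStronglyMeasurable (fun z => W (u n z, g n z)) (area Ω ρ) := fun n =>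
    hW.continuous.comp_aestronglyMeasurable (mp n)
  have mWx : ∀ n, AEStronglyMeasurable (fun z => fderiv ℝ W (u n z, g n z) (1, 0))
      (area Ω ρ) := fun n =>
    (cW'.clm_apply continuous_const).comp_aestronglyMeasurable (mp n)
  obtain ⟨F, hF⟩ : ∃ F : ℕ → ℂ → ℝ, F = fun n z => 2 * (u n z * W (u n z, g n z)) -
      (fderiv ℝ W (u n z, g n z) (1, 0)) ^ 2 := ⟨_, rfl⟩
  have wx : ∀ p, (fderiv ℝ W p (1, 0)) ^ 2 ≤ M ^ 2 := by
    intro p
    have r1 := (fderiv ℝ W p).le_opNorm ((1, 0) : ℝ × E)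
    have r2 : ‖((1, 0) : ℝ × E)‖ = 1 := by rw [Prod.norm_def]; simp
    rw [r2, mul_one, Real.norm_eq_abs] at r1
    rw [← sq_abs]
    exact pow_le_pow_left₀ (abs_nonneg _) (r1.trans (hM' p)) 2
  have Fb : ∀ n z, |F n z| ≤ 2 * M * |u n z| + M ^ 2 := by
    intro n z
    rw [hF]
    show |2 * (u n z * W (u n z, g n z)) - (fderiv ℝ W (u n z, g n z) (1, 0)) ^ 2| ≤ _
    refine (abs_sub _ _).trans ?_
    have h1 : |2 * (u n z * W (u n z, g n z))| ≤ 2 * M * |u n z| := by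
      rw [abs_mul, abs_mul, abs_two]
      have := mul_le_mul_of_nonneg_left (hM (u n z, g n z)) (abs_nonneg (u n z))
      linarith
    have h2 : |(fderiv ℝ W (u n z, g n z) (1, 0)) ^ 2| ≤ M ^ 2 := by
      rw [abs_of_nonneg (sq_nonneg _)]; exact wx _
    exact add_le_add h1 h2
  have gr : ∀ e : ℝ, 0 < e → ∃ c : ℝ, 0 ≤ c ∧ ∀ n z, |F n z| ≤ e * u n z ^ 4 + c := by
    intro e he
    refine ⟨(2 * M) ^ 2 / e + e + M ^ 2 + 2 * M, by positivity, fun n z => ?_⟩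
    refine (Fb n z).trans ?_
    obtain ⟨x, hx⟩ : ∃ x, x = u n z := ⟨_, rfl⟩
    rw [← hx]
    obtain ⟨t, ht⟩ : ∃ t, t = |x| := ⟨_, rfl⟩
    have t0 : 0 ≤ t := by rw [ht]; exact abs_nonneg _
    have e4 : x ^ 4 = t ^ 4 := by rw [ht, ← abs_pow, abs_of_nonneg (by positivity)]
    rw [← ht, e4]
    have a1 : 2 * M * t ≤ (2 * M) ^ 2 / e + e * t ^ 2 := by
      have h1 : 0 ≤ (2 * M - e * t) ^ 2 / e := by positivity
      have h2 : (2 * M - e * t) ^ 2 / e = (2 * M) ^ 2 / e - 2 * (2 * M) * t + e * t ^ 2 := by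
        field_simp
        ring
      have h3 : 0 ≤ 2 * M * t := by positivity
      linarith
    have a2 : t ^ 2 ≤ t ^ 4 + 1 := by nlinarith [sq_nonneg (t ^ 2 - 1), sq_nonneg t]
    have a3 := mul_le_mul_of_nonneg_left a2 he.le
    linarith
  obtain ⟨Q, hQ⟩ : ∃ Q, Q = |K * V| + 1 := ⟨_, rfl⟩
  have Q0 : 0 < Q := by rw [hQ]; positivity
  obtain ⟨c, c0, hc⟩ := gr (ε / (8 * Q)) (by positivity)
  obtain ⟨χ, h1, h2, h3, h4⟩ := X.cuts
  rw [← hV] at h4
  obtain ⟨η, hη⟩ : ∃ η, η = ε / (8 * (c + 3)) := ⟨_, rfl⟩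
  have η0 : 0 < η := by rw [hη]; positivity
  obtain ⟨j, hj⟩ := (h4.eventually (lt_mem_nhds (show V - η < V by linarith))).exists
  have ij := X.iχ (h1 j)
  have cV : ∫ z, χ j z ∂(area Ω ρ) ≤ V := by
    have : ∫ z, χ j z ∂(area Ω ρ) ≤ ∫ _z : ℂ, (1 : ℝ) ∂(area Ω ρ) :=
      integral_mono ij (integrable_const _) (h3 j)
    rw [integral_const, smul_eq_mul, mul_one] at this
    rw [hV]; exact this
  have tφ : TF Ω (fun z => χ j z * ρ z) := TF.mulc X.oΩ (h1 j) X.sρ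
  have tφ0 : ∀ z, 0 ≤ χ j z * ρ z := fun z => by
    by_cases hz : z ∈ Ω
    · exact mul_nonneg (h2 j z) (X.pρ z hz).le
    · rw [TF.zero (h1 j) hz, zero_mul]
  have hb4 : Bd Ω fun n z => u n z ^ 4 := fun S hS hSΩ => by
    obtain ⟨C, -, hC⟩ := X.K4 hS hSΩ
    exact ⟨C, hC⟩
  have loc := joint_ineq X.oΩ X.rawG hb4 hg hW hM hM' tφ tφ0 (show 0 < ε / 8 by positivity)
  filter_upwards [loc, X.h4 1 one_pos] with n n1 n3
  rw [← hV] at n3 ⊢
  have e1 : ∫ z, χ j z * ρ z * (2 * (u n z * W (u n z, g n z)) -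
      (fderiv ℝ W (u n z, g n z) (1, 0)) ^ 2) =
      ∫ z, χ j z * F n z ∂(area Ω ρ) := by rw [X.test (h1 j), hF]
  have e2 : ∫ z, χ j z * ρ z * u n z ^ 4 = ∫ z, χ j z * u n z ^ 4 ∂(area Ω ρ) :=
    X.test (h1 j) _
  have e3 : ∫ z, χ j z * ρ z = ∫ z, χ j z ∂(area Ω ρ) := by
    have := X.test (h1 j) (fun _ => 1)
    simpa using this
  rw [e1, e2, e3] at n1
  have i3 : Integrable (fun z => 1 - χ j z) (area Ω ρ) := (integrable_const (1 : ℝ)).sub ij
  have b2 : ∫ z, χ j z * u n z ^ 4 ∂(area Ω ρ) ≤ ∫ z, u n z ^ 4 ∂(area Ω ρ) := by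
    refine integral_mono_of_nonneg (ae_of_all _ fun z => mul_nonneg (h2 j z) (by positivity))
      (X.i4 _) (ae_of_all _ fun z => mul_le_of_le_one_left (by positivity) (h3 j z))
  have dom : Integrable (fun z => ε / (8 * Q) * u n z ^ 4 + c) (area Ω ρ) :=
    ((X.i4 n).const_mul _).add (integrable_const c)
  have iu : Integrable (fun z => u n z) (area Ω ρ) := by
    refine Integrable.mono' ((integrable_const 1).add (X.i4 n)) (X.ume n)
      (ae_of_all _ fun z => ?_)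
    show ‖u n z‖ ≤ 1 + u n z ^ 4
    rw [Real.norm_eq_abs, abs_le]
    constructor <;>
      nlinarith [sq_nonneg (u n z ^ 2 - 1), sq_nonneg (u n z - 1), sq_nonneg (u n z + 1)]
  have iuW : Integrable (fun z => u n z * W (u n z, g n z)) (area Ω ρ) :=
    iu.mul_bdd (c := M) (mW n) (ae_of_all _ fun z => hM _)
  have iWx : Integrable (fun z => (fderiv ℝ W (u n z, g n z) (1, 0)) ^ 2) (area Ω ρ) :=
    Integrable.mono' (integrable_const (M ^ 2)) ((mWx n).pow 2) (ae_of_all _ fun z => by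
      rw [Real.norm_eq_abs, abs_of_nonneg (sq_nonneg _)]; exact wx _)
  have iF : Integrable (F n) (area Ω ρ) := by
    rw [hF]; exact (iuW.const_mul 2).sub iWx
  have eF : ∫ z, F n z ∂(area Ω ρ) = 2 * (∫ z, u n z * W (u n z, g n z) ∂(area Ω ρ)) -
      (∫ z, (fderiv ℝ W (u n z, g n z) (1, 0)) ^ 2 ∂(area Ω ρ)) := by
    rw [← integral_const_mul, ← integral_sub (iuW.const_mul 2) iWx, hF]
  rw [← eF]
  have i5 : Integrable (fun z => χ j z * F n z) (area Ω ρ) :=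
    Integrable.bdd_mul (c := 1) iF (h1 j).1.continuous.aestronglyMeasurable
      (ae_of_all _ fun z => by rw [Real.norm_eq_abs, abs_of_nonneg (h2 j z)]; exact h3 j z)
  have b3 : (∫ z, F n z ∂(area Ω ρ)) - ∫ z, χ j z * F n z ∂(area Ω ρ) ≤
      ε / (8 * Q) * (∫ z, u n z ^ 4 ∂(area Ω ρ)) + c * η := by
    have s1 : (∫ z, F n z ∂(area Ω ρ)) - ∫ z, χ j z * F n z ∂(area Ω ρ) ≤
        ∫ z, (ε / (8 * Q) * u n z ^ 4 + c * (1 - χ j z)) ∂(area Ω ρ) := by
      rw [← integral_sub iF i5]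
      refine integral_mono (iF.sub i5) (((X.i4 _).const_mul _).add (i3.const_mul c))
        fun z => ?_
      have q0 : 0 ≤ 1 - χ j z := by linarith [h3 j z]
      have q1 : 1 - χ j z ≤ 1 := by linarith [h2 j z]
      show F n z - χ j z * F n z ≤ ε / (8 * Q) * u n z ^ 4 + c * (1 - χ j z)
      have r0 := (le_abs_self _).trans (hc n z)
      have r1 := mul_le_mul_of_nonneg_left r0 q0
      have r2 : (1 - χ j z) * (ε / (8 * Q) * u n z ^ 4) ≤
          ε / (8 * Q) * u n z ^ 4 := mul_le_of_le_one_left (by positivity) q1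
      nlinarith
    rw [integral_add ((X.i4 _).const_mul _) (i3.const_mul c), integral_const_mul,
      integral_const_mul, integral_sub (integrable_const _) ij, integral_const, smul_eq_mul,
      mul_one] at s1
    have eV : (area Ω ρ).real Set.univ = V := by rw [hV]; rfl
    rw [eV] at s1
    have s2 : c * (V - ∫ z, χ j z ∂(area Ω ρ)) ≤ c * η :=
      mul_le_mul_of_nonneg_left (by linarith) c0
    linarith
  have b4 : ε / (8 * Q) * (∫ z, u n z ^ 4 ∂(area Ω ρ)) ≤ ε / 8 := by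
    have r1 : ∫ z, u n z ^ 4 ∂(area Ω ρ) ≤ Q := n3.trans (by
      rw [hQ]; linarith [le_abs_self (K * V)])
    calc ε / (8 * Q) * (∫ z, u n z ^ 4 ∂(area Ω ρ)) ≤ ε / (8 * Q) * Q :=
        mul_le_mul_of_nonneg_left r1 (by positivity)
      _ = ε / 8 := by field_simp
  have b5 : (c + 3) * η = ε / 8 := by rw [hη]; field_simp
  nlinarith

/-- from the family of linear inequalities to the quadratic one -/
lemma quad_lim {I J A : ℕ → ℝ} {C : ℝ} (hI : ∀ᶠ n in atTop, |I n| ≤ C)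
    (hJ : ∀ᶠ n in atTop, |J n| ≤ C) (hA : ∀ᶠ n in atTop, |A n| ≤ C) (hJ0 : ∀ n, 0 ≤ J n)
    (key : ∀ s ε : ℝ, 0 < ε → ∀ᶠ n in atTop, 2 * s * I n - s ^ 2 * J n ≤ A n + ε) {ε : ℝ}
    (hε : 0 < ε) : ∀ᶠ n in atTop, I n ^ 2 ≤ A n * J n + ε := by
  by_contra hn
  have hf : ∃ᶠ n in atTop, (A n * J n + ε < I n ^ 2 ∧ |I n| ≤ C ∧ |J n| ≤ C ∧ |A n| ≤ C) := by
    have h1 : ∃ᶠ n in atTop, A n * J n + ε < I n ^ 2 := by
      rw [Filter.not_eventually] at hn
      exact hn.mono fun n h => not_le.1 h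
    exact h1.and_eventually (hI.and (hJ.and hA))
  obtain ⟨τ, hτ, hτ'⟩ := Filter.extraction_of_frequently_atTop hf
  have hb : Bornology.IsBounded (Set.Icc (-C) C ×ˢ (Set.Icc (-C) C ×ˢ Set.Icc (-C) C)) :=
    (Metric.isBounded_Icc (-C) C).prod
      ((Metric.isBounded_Icc (-C) C).prod (Metric.isBounded_Icc (-C) C))
  obtain ⟨⟨i, j, b⟩, -, ψ, hψ, hlim⟩ := tendsto_subseq_of_bounded hb
    (x := fun n => (I (τ n), (J (τ n), A (τ n)))) (fun n => by
      obtain ⟨-, h1, h2, h3⟩ := hτ' n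
      exact ⟨abs_le.1 h1, abs_le.1 h2, abs_le.1 h3⟩)
  have l1 : Tendsto (fun n => I (τ (ψ n))) atTop (𝓝 i) := (continuous_fst.tendsto _).comp hlim
  have l2 : Tendsto (fun n => J (τ (ψ n))) atTop (𝓝 j) :=
    ((continuous_fst.comp continuous_snd).tendsto _).comp hlim
  have l3 : Tendsto (fun n => A (τ (ψ n))) atTop (𝓝 b) :=
    ((continuous_snd.comp continuous_snd).tendsto _).comp hlim
  have j0 : 0 ≤ j := ge_of_tendsto l2 (Eventually.of_forall fun n => hJ0 _)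
  have sub : Tendsto (fun n => τ (ψ n)) atTop atTop :=
    hτ.tendsto_atTop.comp hψ.tendsto_atTop
  have q : ∀ s : ℝ, 2 * s * i - s ^ 2 * j ≤ b := by
    intro s
    refine le_of_forall_pos_le_add fun e he => ?_
    have l4 : Tendsto (fun n => 2 * s * I (τ (ψ n)) - s ^ 2 * J (τ (ψ n))) atTop
        (𝓝 (2 * s * i - s ^ 2 * j)) := (l1.const_mul _).sub (l2.const_mul _)
    exact le_of_tendsto_of_tendsto l4 (l3.add_const e) (sub.eventually (key s e he))
  have bad : b * j + ε ≤ i ^ 2 := by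
    have l5 : Tendsto (fun n => A (τ (ψ n)) * J (τ (ψ n)) + ε) atTop (𝓝 (b * j + ε)) :=
      (l3.mul l2).add_const ε
    exact le_of_tendsto_of_tendsto' l5 (l1.pow 2) fun n => (hτ' (ψ n)).1.le
  rcases j0.eq_or_lt with h0 | h0
  · rw [← h0] at q bad
    have hi : i = 0 := by
      by_contra hne
      have := q ((b + 1) / (2 * i))
      have e : 2 * ((b + 1) / (2 * i)) * i = b + 1 := by field_simp
      rw [e] at this
      linarith
    rw [hi] at bad
    linarith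
  · have := q (i / j)
    have e : 2 * (i / j) * i - (i / j) ^ 2 * j = i ^ 2 / j := by field_simp; ring
    rw [e, div_le_iff₀ h0] at this
    linarith

/-- **the joint Stein inequality** -/
theorem joint_stein (X : LD Ω ρ lam u unif K) (hg : Slow Ω (fun n => 1 / √(lam n)) g)
    (mg : ∀ n, AEStronglyMeasurable (g n) (area Ω ρ)) {W : ℝ × E → ℝ}
    (hW : ContDiff ℝ 1 W) {M : ℝ} (hM : ∀ p, |W p| ≤ M) (hM' : ∀ p, ‖fderiv ℝ W p‖ ≤ M)
    {ε : ℝ} (hε : 0 < ε) :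
    ∀ᶠ n in atTop, (∫ z, u n z * W (u n z, g n z) ∂(area Ω ρ)) ^ 2 ≤
      ((∫ z, u n z ^ 4 ∂(area Ω ρ)) - (area Ω ρ Set.univ).toReal) *
      (∫ z, (fderiv ℝ W (u n z, g n z) (1, 0)) ^ 2 ∂(area Ω ρ)) + ε := by
  have := X.fm
  have M0 : 0 ≤ M := (abs_nonneg _).trans (hM 0)
  obtain ⟨V, hV⟩ : ∃ V : ℝ, V = (area Ω ρ Set.univ).toReal := ⟨_, rfl⟩
  have V0 : 0 < V := by rw [hV]; exact X.pos
  have eV : (area Ω ρ).real Set.univ = V := by rw [hV]; rfl
  have wx : ∀ p, (fderiv ℝ W p (1, 0)) ^ 2 ≤ M ^ 2 := by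
    intro p
    have r1 := (fderiv ℝ W p).le_opNorm ((1, 0) : ℝ × E)
    have r2 : ‖((1, 0) : ℝ × E)‖ = 1 := by rw [Prod.norm_def]; simp
    rw [r2, mul_one, Real.norm_eq_abs] at r1
    rw [← sq_abs]
    exact pow_le_pow_left₀ (abs_nonneg _) (r1.trans (hM' p)) 2
  have cW' : Continuous (fun p => fderiv ℝ W p) := hW.continuous_fderiv (by norm_num)
  have mp : ∀ n, AEStronglyMeasurable (fun z => (u n z, g n z)) (area Ω ρ) := fun n =>
    (X.ume n).prodMk (mg n)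
  have mWx : ∀ n, AEStronglyMeasurable (fun z => fderiv ℝ W (u n z, g n z) (1, 0))
      (area Ω ρ) := fun n =>
    (cW'.clm_apply continuous_const).comp_aestronglyMeasurable (mp n)
  have iWx : ∀ n, Integrable (fun z => (fderiv ℝ W (u n z, g n z) (1, 0)) ^ 2) (area Ω ρ) :=
    fun n => Integrable.mono' (integrable_const (M ^ 2)) ((mWx n).pow 2) (ae_of_all _ fun z => by
      rw [Real.norm_eq_abs, abs_of_nonneg (sq_nonneg _)]; exact wx _)
  obtain ⟨Q, hQ⟩ : ∃ Q, Q = |K * V| + 1 := ⟨_, rfl⟩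
  have Q0 : 0 < Q := by rw [hQ]; positivity
  have u4 : ∀ᶠ n in atTop, ∫ z, u n z ^ 4 ∂(area Ω ρ) ≤ Q := by
    filter_upwards [X.h4 1 one_pos] with n hn
    rw [← hV] at hn
    exact hn.trans (by rw [hQ]; linarith [le_abs_self (K * V)])
  have u0 : ∀ n, 0 ≤ ∫ z, u n z ^ 4 ∂(area Ω ρ) := fun n =>
    integral_nonneg fun z => by positivity
  obtain ⟨C, hC⟩ : ∃ C : ℝ, C = M * (V + Q) + M ^ 2 * V + Q + V := ⟨_, rfl⟩
  have a1 : 0 ≤ M * (V + Q) := by positivity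
  have a2 : 0 ≤ M ^ 2 * V := by positivity
  refine (quad_lim (C := C) (I := fun n => ∫ z, u n z * W (u n z, g n z) ∂(area Ω ρ))
    (J := fun n => ∫ z, (fderiv ℝ W (u n z, g n z) (1, 0)) ^ 2 ∂(area Ω ρ))
    (A := fun n => (∫ z, u n z ^ 4 ∂(area Ω ρ)) - (area Ω ρ Set.univ).toReal) ?_ ?_ ?_
    (fun n => integral_nonneg fun z => sq_nonneg _) ?_ hε)
  · filter_upwards [u4] with n hn
    have s1 : |∫ z, u n z * W (u n z, g n z) ∂(area Ω ρ)| ≤
        ∫ z, M * (1 + u n z ^ 4) ∂(area Ω ρ) := by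
      refine (abs_integral_le_integral_abs).trans ?_
      refine integral_mono_of_nonneg (ae_of_all _ fun z => abs_nonneg _)
        (((integrable_const 1).add (X.i4 n)).const_mul M) (ae_of_all _ fun z => ?_)
      show |u n z * W (u n z, g n z)| ≤ M * (1 + u n z ^ 4)
      rw [abs_mul, mul_comm]
      refine mul_le_mul (hM _) ?_ (abs_nonneg _) M0
      rw [abs_le]
      constructor <;>
        nlinarith [sq_nonneg (u n z ^ 2 - 1), sq_nonneg (u n z - 1), sq_nonneg (u n z + 1)]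
    rw [integral_const_mul, integral_add (integrable_const _) (X.i4 n), integral_const,
      smul_eq_mul, mul_one, eV] at s1
    have s2 := mul_le_mul_of_nonneg_left (add_le_add_right hn V) M0
    rw [hC]; linarith
  · refine Eventually.of_forall fun n => ?_
    have s1 : ∫ z, (fderiv ℝ W (u n z, g n z) (1, 0)) ^ 2 ∂(area Ω ρ) ≤
        ∫ _z : ℂ, M ^ 2 ∂(area Ω ρ) := integral_mono (iWx n) (integrable_const _) fun z => wx _
    rw [integral_const, smul_eq_mul, eV] at s1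
    have s2 : 0 ≤ ∫ z, (fderiv ℝ W (u n z, g n z) (1, 0)) ^ 2 ∂(area Ω ρ) :=
      integral_nonneg fun z => sq_nonneg _
    show |∫ z, (fderiv ℝ W (u n z, g n z) (1, 0)) ^ 2 ∂(area Ω ρ)| ≤ C
    rw [abs_of_nonneg s2, hC]; linarith
  · filter_upwards [u4] with n hn
    have := u0 n
    show |(∫ z, u n z ^ 4 ∂(area Ω ρ)) - (area Ω ρ Set.univ).toReal| ≤ C
    rw [← hV, hC, abs_le]
    constructor <;> linarith
  · intro s e he
    have dW : ∀ p, fderiv ℝ (fun p => s * W p) p = s • fderiv ℝ W p := fun p =>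
      fderiv_const_mul (hW.differentiable (by norm_num) p) s
    have k := joint_glob X hg mg (W := fun p => s * W p) (contDiff_const.mul hW)
      (M := |s| * M) (fun p => by
        rw [abs_mul]; exact mul_le_mul_of_nonneg_left (hM p) (abs_nonneg s))
      (fun p => by
        rw [dW, norm_smul, Real.norm_eq_abs]
        exact mul_le_mul_of_nonneg_left (hM' p) (abs_nonneg s)) he
    filter_upwards [k] with n hn
    have e1 : ∫ z, u n z * (s * W (u n z, g n z)) ∂(area Ω ρ) =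
        s * ∫ z, u n z * W (u n z, g n z) ∂(area Ω ρ) := by
      rw [← integral_const_mul]; congr 1; funext z; ring
    have e2 : ∫ z, (fderiv ℝ (fun p => s * W p) (u n z, g n z) (1, 0)) ^ 2 ∂(area Ω ρ) =
        s ^ 2 * ∫ z, (fderiv ℝ W (u n z, g n z) (1, 0)) ^ 2 ∂(area Ω ρ) := by
      rw [← integral_const_mul]; congr 1; funext z
      rw [dW]
      show (s * fderiv ℝ W (u n z, g n z) (1, 0)) ^ 2 = _
      ring
    rw [e1, e2] at hn
    show 2 * s * (∫ z, u n z * W (u n z, g n z) ∂(area Ω ρ)) - s ^ 2 *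
      (∫ z, (fderiv ℝ W (u n z, g n z) (1, 0)) ^ 2 ∂(area Ω ρ)) ≤ _
    linarith

end

end Pool.Agent.Q175.RW.SJ
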