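import Pool.Agent.Q175.RW.SJ2

/-! Eigenfunctions of lower frequency are slow. -/
set_option autoImplicit false
open MeasureTheory Filter Topology Complex ProbabilityTheory
open scoped ContDiff ENNReal

namespace Pool.Agent.Q175.RW.SJ

open Pool.Agent.W745.RW Pool.Agent.TH294.RS Pool.Agent.Q175.RW.SX Pool.Agent.Q175.RW.LL
open Pool.Agent.W366.RW (dxs dys)
open Pool.Agent.TH421.AC (rint out_int rsd rdA)

noncomputable section

variable {B : Set ℂ}

/-- eigenfunctions of lower frequency are slow -/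
theorem slow_one (hB : IsOpen B) {ρ : ℂ → ℝ} (sρ : ContDiffOn ℝ ∞ ρ B) {lam mu : ℕ → ℝ}
    (lp : ∀ n, 0 < lam n) {c : ℝ} (c0 : 0 < c) (cm : ∀ n, c ≤ mu n)
    (hr : Tendsto (fun n => mu n / lam n) atTop (𝓝 0)) {g : ℕ → ℂ → ℝ}
    (sg : ∀ n, ContDiffOn ℝ ∞ (g n) B)
    (eg : ∀ n, ∀ z ∈ B, lap (g n) z + mu n * (ρ z * g n z) = 0)
    (bg : ∀ K : Set ℂ, IsCompact K → K ⊆ B → ∃ C : ℝ, ∀ᶠ n in atTop, ∫ z in K, g n z ^ 2 ≤ C) :
    Slow B (fun n => 1 / √(lam n)) g := by
  refine ⟨sg, fun K hK hKB => ?_⟩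
  obtain ⟨K', hK', hKK', hKB'⟩ := exists_compact_between hK hB hKB
  obtain ⟨ζ, hζ, hζ1, hζ0, hζ2⟩ := exists_cut hB hK' hKB'
  obtain ⟨S, hS⟩ : ∃ S : Set ℂ, S = tsupport ζ := ⟨_, rfl⟩
  have hSc : IsCompact S := by rw [hS]; exact hζ.2.1
  have hSB : S ⊆ B := by rw [hS]; exact hζ.2.2
  obtain ⟨D, hD⟩ : ∃ D : ℝ, ∀ z, dx ζ z ^ 2 + dy ζ z ^ 2 ≤ D := by
    have c1 : Continuous (fun z => dx ζ z ^ 2 + dy ζ z ^ 2) :=
      ((dxs ζ hζ.1).continuous.pow 2).add ((dys ζ hζ.1).continuous.pow 2)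
    obtain ⟨D, hD⟩ := hSc.exists_bound_of_continuousOn (c1.continuousOn (s := S))
    refine ⟨|D|, fun z => ?_⟩
    by_cases hz : z ∈ S
    · exact (le_abs_self _).trans ((hD z hz).trans (le_abs_self D))
    · have e1 : dx ζ z = 0 := (z_out (by rwa [hS] at hz) 1).2
      have e2 : dy ζ z = 0 := (z_out (by rwa [hS] at hz) I).2
      rw [e1, e2]; simp
  have D0 : 0 ≤ D := le_trans (by positivity) (hD 0)
  obtain ⟨R, hR⟩ := hSc.exists_bound_of_continuousOn (sρ.continuousOn.mono hSB)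
  obtain ⟨C, hC⟩ := bg S hSc hSB
  obtain ⟨T, hT⟩ : ∃ T : ℝ, T = (1 / c * D + 1 + |R| ^ 2) * |C| := ⟨_, rfl⟩
  have T0 : 0 ≤ T := by rw [hT]; positivity
  have key : ∀ᶠ n in atTop, ∫ z in K, (1 / √(lam n)) ^ 2 * (‖fderiv ℝ (g n) z 1‖ ^ 2 +
      ‖fderiv ℝ (g n) z I‖ ^ 2) ≤ mu n / lam n * T := by
    filter_upwards [hC] with n hn
    have m0 : 0 < mu n := c0.trans_le (cm n)
    have l0 := lp n
    obtain ⟨t, ht⟩ : ∃ t : ℝ, t = 1 / √(mu n) := ⟨_, rfl⟩
    have t2 : t ^ 2 = 1 / mu n := by rw [ht, div_pow, one_pow, Real.sq_sqrt m0.le]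
    have tc : t ^ 2 ≤ 1 / c := by rw [t2]; exact one_div_le_one_div_of_le c0 (cm n)
    have cgS : ContinuousOn (g n) S := (sg n).continuousOn.mono hSB
    have iS : IntegrableOn (fun z => g n z ^ 2) S := (cgS.pow 2).integrableOn_compact hSc
    have el : ∀ z ∈ S, (t ^ 2 * lap (g n) z) ^ 2 = ρ z ^ 2 * g n z ^ 2 := by
      intro z hz
      have h1 := eg n z (hSB hz)
      have h2 : lap (g n) z = -(mu n * (ρ z * g n z)) := by linarith
      rw [h2, t2]
      field_simp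
    have cρ : ContinuousOn ρ S := sρ.continuousOn.mono hSB
    have iR : IntegrableOn (fun z => ρ z ^ 2 * g n z ^ 2) S :=
      ((cρ.pow 2).mul (cgS.pow 2)).integrableOn_compact hSc
    have iL : IntegrableOn (fun z => (t ^ 2 * lap (g n) z) ^ 2) S :=
      iR.congr_fun (fun z hz => (el z hz).symm) hSc.measurableSet
    have e1 := en1 hB (h := t) (sg n) hζ (S := S) (by rw [hS]) (M := 1 / c * D + 1)
      (fun z => by
        have b1 := mul_le_mul tc (hD z) (by positivity) (by positivity)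
        have b2 : ζ z ^ 2 ≤ 1 := by
          have := hζ0 z; have := hζ2 z
          nlinarith
        linarith)
      (fun z => by
        have := hζ0 z; have := hζ2 z
        nlinarith) iS iL
    have e2 : ∫ z in S, (t ^ 2 * lap (g n) z) ^ 2 ≤ |R| ^ 2 * ∫ z in S, g n z ^ 2 := by
      rw [← integral_const_mul]
      refine setIntegral_mono_on iL (iS.const_mul _) hSc.measurableSet fun z hz => ?_
      rw [el z hz]
      have b1 := hR z hz
      rw [Real.norm_eq_abs] at b1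
      have b2 : ρ z ^ 2 ≤ |R| ^ 2 := by
        rw [← sq_abs (ρ z)]
        exact pow_le_pow_left₀ (abs_nonneg _) (b1.trans (le_abs_self R)) 2
      exact mul_le_mul_of_nonneg_right b2 (sq_nonneg _)
    have e3 : t ^ 2 * ∫ z, (dx (fun w => ζ w * g n w) z ^ 2 + dy (fun w => ζ w * g n w) z ^ 2) ≤
        T := by
      have b1 : ∫ z in S, g n z ^ 2 ≤ |C| := hn.trans (le_abs_self C)
      have b2 := mul_le_mul_of_nonneg_left b1 (show 0 ≤ 1 / c * D + 1 + |R| ^ 2 by positivity)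
      rw [hT]
      linarith
    -- on the smaller set
    have ev : ∀ z ∈ K, (fun w => ζ w * g n w) =ᶠ[𝓝 z] g n := by
      intro z hz
      filter_upwards [isOpen_interior.mem_nhds (hKK' hz)] with w hw
      rw [hζ1 w (interior_subset hw), one_mul]
    have e4 : ∀ z ∈ K, ‖fderiv ℝ (g n) z 1‖ ^ 2 + ‖fderiv ℝ (g n) z I‖ ^ 2 =
        dx (fun w => ζ w * g n w) z ^ 2 + dy (fun w => ζ w * g n w) z ^ 2 := by
      intro z hz
      have : fderiv ℝ (fun w => ζ w * g n w) z = fderiv ℝ (g n) z := (ev z hz).fderiv_eq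
      show _ = fderiv ℝ (fun w => ζ w * g n w) z 1 ^ 2 + fderiv ℝ (fun w => ζ w * g n w) z I ^ 2
      rw [this, Real.norm_eq_abs, Real.norm_eq_abs, sq_abs, sq_abs]
    have sP : ContDiff ℝ ∞ (fun w => ζ w * g n w) := Pool.Agent.W249.RW.prod_cd hB hζ (sg n)
    have cP : Continuous (fun z => dx (fun w => ζ w * g n w) z ^ 2 +
        dy (fun w => ζ w * g n w) z ^ 2) :=
      ((dxs _ sP).continuous.pow 2).add ((dys _ sP).continuous.pow 2)
    have cs : HasCompactSupport (fun z => dx (fun w => ζ w * g n w) z ^ 2 +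
        dy (fun w => ζ w * g n w) z ^ 2) := by
      have hc : HasCompactSupport (fun w => ζ w * g n w) := hζ.2.1.mul_right
      refine HasCompactSupport.intro hc fun z hz => ?_
      have a1 : dx (fun w => ζ w * g n w) z = 0 := (z_out hz 1).2
      have a2 : dy (fun w => ζ w * g n w) z = 0 := (z_out hz I).2
      rw [a1, a2]; simp
    have e5 : ∫ z in K, (‖fderiv ℝ (g n) z 1‖ ^ 2 + ‖fderiv ℝ (g n) z I‖ ^ 2) ≤
        ∫ z, (dx (fun w => ζ w * g n w) z ^ 2 + dy (fun w => ζ w * g n w) z ^ 2) := by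
      rw [setIntegral_congr_fun hK.measurableSet e4]
      exact setIntegral_le_integral (cP.integrable_of_hasCompactSupport cs)
        (ae_of_all _ fun z => by positivity)
    rw [integral_const_mul]
    have e6 : (1 / √(lam n)) ^ 2 = mu n / lam n * t ^ 2 := by
      rw [t2, div_pow, one_pow, Real.sq_sqrt l0.le]; field_simp
    rw [e6, mul_assoc]
    refine mul_le_mul_of_nonneg_left ?_ (by positivity)
    exact (mul_le_mul_of_nonneg_left e5 (sq_nonneg t)).trans e3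
  have lim : Tendsto (fun n => mu n / lam n * T) atTop (𝓝 0) := by
    simpa using hr.mul_const T
  exact squeeze_zero' (Eventually.of_forall fun n => integral_nonneg fun z => by positivity)
    key lim

/-- tuples of slow functions are slow -/
theorem slow_pi {k : ℕ} (hB : IsOpen B) {h : ℕ → ℝ} {g : Fin k → ℕ → ℂ → ℝ}
    (hg : ∀ i, Slow B h (g i)) : Slow B h (fun n z i => g i n z) := by
  refine ⟨fun n => contDiffOn_pi.2 fun i => (hg i).1 n, fun K hK hKB => ?_⟩
  have lim : Tendsto (fun n => ∑ i, ∫ z in K, h n ^ 2 * (‖fderiv ℝ (g i n) z 1‖ ^ 2 +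
      ‖fderiv ℝ (g i n) z I‖ ^ 2)) atTop (𝓝 0) := by
    have := tendsto_finsetSum (Finset.univ : Finset (Fin k)) fun i _ => (hg i).2 K hK hKB
    simpa using this
  refine squeeze_zero (fun n => integral_nonneg fun z => by positivity) (fun n => ?_) lim
  have cg : ∀ i v, ContinuousOn (fun z => fderiv ℝ (g i n) z v) K := fun i v =>
    (rsd hB ((hg i).1 n) v).continuousOn.mono hKB
  have ii : ∀ i, IntegrableOn (fun z => h n ^ 2 * (‖fderiv ℝ (g i n) z 1‖ ^ 2 +
      ‖fderiv ℝ (g i n) z I‖ ^ 2)) K := fun i =>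
    (continuousOn_const.mul (((cg i 1).norm.pow 2).add ((cg i I).norm.pow 2))).integrableOn_compact
      hK
  rw [← integral_finsetSum _ fun i _ => ii i]
  have sG : ContDiffOn ℝ ∞ (fun z i => g i n z) B := contDiffOn_pi.2 fun i => (hg i).1 n
  have cG : ∀ v, ContinuousOn (fun z => fderiv ℝ (fun z i => g i n z) z v) K := fun v =>
    (cE hB sG v).mono hKB
  have pt : ∀ z ∈ K, ∀ v, ‖fderiv ℝ (fun z i => g i n z) z v‖ ^ 2 ≤
      ∑ i, ‖fderiv ℝ (g i n) z v‖ ^ 2 := by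
    intro z hz v
    have d : ∀ i, DifferentiableAt ℝ (g i n) z := fun i => rdA hB ((hg i).1 n) (hKB hz)
    have e : fderiv ℝ (fun z i => g i n z) z v = fun i => fderiv ℝ (g i n) z v := by
      rw [fderiv_pi d]; rfl
    rw [e]
    have s0 : 0 ≤ ∑ i, ‖fderiv ℝ (g i n) z v‖ ^ 2 := Finset.sum_nonneg fun i _ => by positivity
    have : ‖fun i => fderiv ℝ (g i n) z v‖ ≤ √(∑ i, ‖fderiv ℝ (g i n) z v‖ ^ 2) := by
      refine (pi_norm_le_iff_of_nonneg (Real.sqrt_nonneg _)).2 fun i => ?_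
      refine Real.le_sqrt_of_sq_le ?_
      exact Finset.single_le_sum (f := fun i => ‖fderiv ℝ (g i n) z v‖ ^ 2)
        (fun i _ => by positivity) (Finset.mem_univ i)
    calc ‖fun i => fderiv ℝ (g i n) z v‖ ^ 2 ≤ √(∑ i, ‖fderiv ℝ (g i n) z v‖ ^ 2) ^ 2 :=
          pow_le_pow_left₀ (norm_nonneg _) this 2
      _ = _ := Real.sq_sqrt s0
  refine setIntegral_mono_on ?_ ?_ hK.measurableSet fun z hz => ?_
  · exact (continuousOn_const.mul (((cG 1).norm.pow 2).add
      ((cG I).norm.pow 2))).integrableOn_compact hK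
  · exact integrable_finsetSum _ fun i _ => ii i
  · rw [← Finset.mul_sum, Finset.sum_add_distrib]
    exact mul_le_mul_of_nonneg_left (add_le_add (pt z hz 1) (pt z hz I)) (sq_nonneg _)

end

end Pool.Agent.Q175.RW.SJ
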