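import Pool.Agent.Q175.RW.TM2

/-! The flux inequality: values and gradient of eigenfunctions. -/
set_option autoImplicit false
open MeasureTheory Filter Topology Complex ProbabilityTheory
open scoped ContDiff ENNReal

namespace Pool.Agent.Q175.RW.SX

open Pool.Agent.W745.RW Pool.Agent.TH294.RS
open Pool.Agent.TH294.RG (RawG ea par unif ea_meas ea_norm opP sR AG)
open Pool.Agent.TH421.AC (rint out_int rsd rdA)

noncomputable section

/-- the primitive -/
def P (w : ℝ → ℝ) (x : ℝ) : ℝ := ∫ t in (0 : ℝ)..x, w t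

lemma P_d {w : ℝ → ℝ} (hw : Continuous w) (x : ℝ) : HasDerivAt (P w) (w x) x :=
  intervalIntegral.integral_hasDerivAt_right (hw.intervalIntegrable _ _)
    (hw.stronglyMeasurableAtFilter _ _) hw.continuousAt

lemma P_c {w : ℝ → ℝ} (hw : Continuous w) : Continuous (P w) :=
  continuous_iff_continuousAt.2 fun x => (P_d hw x).continuousAt

variable {B : Set ℂ}

/-- integration by parts at one function -/
theorem flux (hB : IsOpen B) {q u : ℂ → ℝ} (hq : TF B q) (su : ContDiffOn ℝ ∞ u B) {w : ℝ → ℝ}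
    (cw : Continuous w) (v : ℂ) :
    ∫ z, q z * (w (u z) * fderiv ℝ u z v ^ 2) =
      - (∫ z, q z * (P w (u z) * fderiv ℝ (fun z => fderiv ℝ u z v) z v)) -
        ∫ z, fderiv ℝ q z v * (P w (u z) * fderiv ℝ u z v) := by
  obtain ⟨S, hS⟩ : ∃ S : Set ℂ, S = tsupport q := ⟨_, rfl⟩
  have hSc : IsCompact S := by rw [hS]; exact hq.2.1
  have hSB : S ⊆ B := by rw [hS]; exact hq.2.2
  have z0 : ∀ z, z ∉ S → q z = 0 := fun z hz => image_eq_zero_of_notMem_tsupport (by rwa [hS] at hz)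
  have z1 : ∀ z, z ∉ S → fderiv ℝ q z v = 0 := fun z hz => by
    rw [fderiv_of_notMem_tsupport ℝ (by rwa [hS] at hz)]; rfl
  have cq : Continuous q := hq.1.continuous
  have cq' : Continuous (fun z => fderiv ℝ q z v) :=
    ((hq.1.fderiv_right (m := ∞) le_rfl).clm_apply contDiff_const).continuous
  have s1 : ContDiffOn ℝ ∞ (fun z => fderiv ℝ u z v) B := rsd hB su v
  have s2 : ContDiffOn ℝ ∞ (fun z => fderiv ℝ (fun z => fderiv ℝ u z v) z v) B := rsd hB s1 v
  have cP : ContinuousOn (fun z => P w (u z)) S :=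
    (P_c cw).comp_continuousOn (su.continuousOn.mono hSB)
  have cwu : ContinuousOn (fun z => w (u z)) S := cw.comp_continuousOn (su.continuousOn.mono hSB)
  have c1 : ContinuousOn (fun z => fderiv ℝ u z v) S := s1.continuousOn.mono hSB
  have c2 : ContinuousOn (fun z => fderiv ℝ (fun z => fderiv ℝ u z v) z v) S :=
    s2.continuousOn.mono hSB
  have nh : ∀ z, z ∉ S → (fun z => q z * P w (u z)) =ᶠ[𝓝 z] fun _ => 0 := by
    intro z hz
    filter_upwards [hSc.isClosed.isOpen_compl.mem_nhds (hz : z ∈ Sᶜ)] with x hx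
    rw [z0 x hx, zero_mul]
  have hF : ∀ z ∈ B, HasFDerivAt (fun z => q z * P w (u z))
      (q z • (w (u z) • fderiv ℝ u z) + P w (u z) • fderiv ℝ q z) z := by
    intro z hz
    have d1 : HasFDerivAt q (fderiv ℝ q z) z := (hq.1.differentiable (by simp) z).hasFDerivAt
    have d2 : HasFDerivAt u (fderiv ℝ u z) z := (rdA hB su hz).hasFDerivAt
    have d3 : HasFDerivAt (fun x => P w (u x)) (w (u z) • fderiv ℝ u z) z :=
      (P_d cw (u z)).comp_hasFDerivAt z d2
    exact d1.mul d3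
  have e1 : ∀ z ∈ B, fderiv ℝ (fun z => q z * P w (u z)) z v =
      q z * (w (u z) * fderiv ℝ u z v) + P w (u z) * fderiv ℝ q z v := by
    intro z hz
    rw [(hF z hz).fderiv]
    simp only [add_apply, smul_apply, smul_eq_mul]
  have e1' : ∀ z, fderiv ℝ (fun z => q z * P w (u z)) z v * fderiv ℝ u z v =
      q z * (w (u z) * fderiv ℝ u z v ^ 2) + fderiv ℝ q z v * (P w (u z) * fderiv ℝ u z v) := by
    intro z
    by_cases hz : z ∈ B
    · rw [e1 z hz]; ring
    · have hzS : z ∉ S := fun h => hz (hSB h)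
      rw [z0 z hzS, z1 z hzS, (nh z hzS).fderiv_eq]; simp
  have i1 : Integrable (fun z => q z * (w (u z) * fderiv ℝ u z v ^ 2)) :=
    rint hSc (cq.continuousOn.mul (cwu.mul (c1.pow 2))) fun z hz => by rw [z0 z hz, zero_mul]
  have i2 : Integrable (fun z => fderiv ℝ q z v * (P w (u z) * fderiv ℝ u z v)) :=
    rint hSc (cq'.continuousOn.mul (cP.mul c1)) fun z hz => by rw [z1 z hz, zero_mul]
  have i3 : Integrable (fun z => (q z * P w (u z)) *
      fderiv ℝ (fun z => fderiv ℝ u z v) z v) :=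
    rint hSc ((cq.continuousOn.mul cP).mul c2) fun z hz => by rw [z0 z hz]; simp
  have i4 : Integrable (fun z => (q z * P w (u z)) * fderiv ℝ u z v) :=
    rint hSc ((cq.continuousOn.mul cP).mul c1) fun z hz => by rw [z0 z hz]; simp
  have i5 : Integrable (fun z => fderiv ℝ (fun z => q z * P w (u z)) z v * fderiv ℝ u z v) := by
    simp only [e1']
    exact i1.add i2
  have sup : tsupport (fun z => q z * P w (u z)) ⊆ B := by
    refine Set.Subset.trans ?_ hSB
    rw [hS]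
    exact tsupport_mul_subset_left
  have key := integral_mul_fderiv_eq_neg_fderiv_mul_of_integrable (μ := (volume : Measure ℂ))
    (f := fun z => q z * P w (u z)) (g := fun z => fderiv ℝ u z v) (v := v) i5 i3 i4
    (fun z _ => by
      by_cases hz : z ∈ B
      · exact (hF z hz).differentiableAt
      · exact (nh z fun h => hz (hSB h)).differentiableAt_iff.2 (differentiableAt_const _))
    (fun z hz => rdA hB s1 (sup hz))
  simp only [e1'] at key
  rw [integral_add i1 i2] at key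
  have e2 : ∫ z, q z * P w (u z) * fderiv ℝ (fun z => fderiv ℝ u z v) z v =
      ∫ z, q z * (P w (u z) * fderiv ℝ (fun z => fderiv ℝ u z v) z v) := by
    congr 1; funext z; ring
  rw [e2] at key
  linarith

/-- the square of the semiclassical gradient -/
def G (a : ℂ → ℝ) (t : ℝ) (f : ℂ → ℝ) (z : ℂ) : ℝ :=
  t ^ 2 * (a z ^ 2 * (fderiv ℝ f z 1 ^ 2 + fderiv ℝ f z I ^ 2))

lemma G_nn (a : ℂ → ℝ) (t : ℝ) (f : ℂ → ℝ) (z : ℂ) : 0 ≤ G a t f z := by
  unfold G; positivity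

lemma G_co (hB : IsOpen B) {a f : ℂ → ℝ} (ha : ContDiffOn ℝ ∞ a B) (hf : ContDiffOn ℝ ∞ f B)
    (t : ℝ) : ContinuousOn (G a t f) B :=
  continuousOn_const.mul ((ha.continuousOn.pow 2).mul
    (((rsd hB hf 1).continuousOn.pow 2).add ((rsd hB hf I).continuousOn.pow 2)))

lemma G_norm (hB : IsOpen B) {a f : ℂ → ℝ} (hf : ContDiffOn ℝ ∞ f B) (t : ℝ) {z : ℂ} (hz : z ∈ B) :
    ‖DP a t (fun w => (f w : ℂ)) z‖ ^ 2 = G a t f z := by
  have d := rdA hB hf hz
  have e : ∀ v, fderiv ℝ (fun w => (f w : ℂ)) z v = ((fderiv ℝ f z v : ℝ) : ℂ) := fun v =>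
    Pool.Agent.TH294.RS.fd_re d v
  have e2 : DP a t (fun w => (f w : ℂ)) z = (t : ℂ) * ((a z : ℂ) *
      (((fderiv ℝ f z 1 : ℝ) : ℂ) - I * ((fderiv ℝ f z I : ℝ) : ℂ))) := by
    show (t : ℂ) * ((a z : ℂ) * (fderiv ℝ (fun w => (f w : ℂ)) z 1 -
      I * fderiv ℝ (fun w => (f w : ℂ)) z I)) = _
    rw [e, e]
  have e3 : (((fderiv ℝ f z 1 : ℝ) : ℂ) - I * ((fderiv ℝ f z I : ℝ) : ℂ)).re = fderiv ℝ f z 1 := by
    simp
  have e4 : (((fderiv ℝ f z 1 : ℝ) : ℂ) - I * ((fderiv ℝ f z I : ℝ) : ℂ)).im =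
      -fderiv ℝ f z I := by
    simp
  rw [e2, norm_mul, norm_mul, Complex.norm_real, Complex.norm_real, mul_pow, mul_pow,
    Complex.sq_norm, Complex.normSq_apply, e3, e4, Real.norm_eq_abs, Real.norm_eq_abs, sq_abs,
    sq_abs]
  unfold G
  ring

variable {a : ℂ → ℝ} {h : ℕ → ℝ} {u : ℕ → ℂ → ℝ}

/-- the constant density and the uniform directions -/
abbrev M1 : ℕ → ℂ → ℂ := TH294.RG.MM (fun _ => 1) ea unif

lemma mem1 (K : Set ℂ) (hK : IsCompact K) : MemLp (fun _ : ℂ => (1 : ℝ)) 2 (volume.restrict K) := by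
  have : IsFiniteMeasure (volume.restrict K) := ⟨by
    rw [Measure.restrict_apply_univ]; exact hK.measure_lt_top⟩
  exact memLp_const 1

/-- local bounds -/
def Bd (B : Set ℂ) (F : ℕ → ℂ → ℝ) : Prop :=
  ∀ K : Set ℂ, IsCompact K → K ⊆ B → ∃ C : ℝ, ∀ᶠ n in atTop, ∫ z in K, F n z ≤ C

theorem G_bd {κ : Kernel ℂ ℝ} [IsMarkovKernel κ] (hB : IsOpen B)
    (H : RawG B a h u (TH294.RG.MM (fun _ => 1) ea κ)) (hb : Bd B fun n z => u n z ^ 4) :
    Bd B fun n z => G a (h n) (u n) z ^ 2 := by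
  have S := H.as hB (fun k => TH294.RG.MM_ml ea_meas ea_norm (fun K hK _ => mem1 K hK) k)
    (fun z => by rw [TH294.RG.MM_0, conj_ofReal]) hb
  intro K hK hKB
  obtain ⟨C, hC⟩ := (S.bd 1).bd K hK hKB
  refine ⟨C, hC.mono fun n hn => le_trans (le_of_eq ?_) hn⟩
  refine setIntegral_congr_fun hK.measurableSet fun z hz => ?_
  have e : Pool.Agent.TH294.RS.ww a h (fun n z => (u n z : ℂ)) 1 n z =
      DP a (h n) (fun w => (u n w : ℂ)) z := rfl
  show G a (h n) (u n) z ^ 2 = ‖_‖ ^ 4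
  rw [e, ← G_norm hB (H.sm n) (h n) (hKB hz)]
  ring

lemma Bd1 {F : ℕ → ℂ → ℝ} (hF : ∀ n, ContinuousOn (F n) B) (hb : Bd B fun n z => F n z ^ 2) :
    Bd B F := by
  intro K hK hKB
  obtain ⟨C, hC⟩ := hb K hK hKB
  refine ⟨1 * ((∫ z in K, (1 : ℝ)) + C), hC.mono fun n hn => ?_⟩
  refine intK_lin hK zero_le_one ((hF n).mono hKB) continuousOn_const
    (((hF n).mono hKB).pow 2) (fun z _ => ?_) le_rfl hn
  show F n z ≤ 1 * (1 + F n z ^ 2)
  nlinarith [sq_nonneg (F n z - 1)]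

theorem flux_lim {M' : ℕ → ℂ → ℂ} (hB : IsOpen B) (H : RawG B a h u M') (hG : Bd B fun n z => G a (h n) (u n) z)
    {w : ℝ → ℝ} (cw : Continuous w) {M : ℝ} (hM : ∀ x, |P w x| ≤ M) {φ : ℂ → ℝ} (hφ : TF B φ) :
    Tendsto (fun n => (∫ z, φ z * (w (u n z) * G a (h n) (u n) z)) -
      ∫ z, φ z * (u n z * P w (u n z))) atTop (𝓝 0) := by
  have M0 : 0 ≤ M := (abs_nonneg _).trans (hM 0)
  obtain ⟨q, hq⟩ : ∃ q : ℂ → ℝ, q = fun z => φ z * a z ^ 2 := ⟨_, rfl⟩
  have tq : TF B q := by rw [hq]; exact TF.mulc hB hφ (H.sa.pow 2)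
  obtain ⟨S, hS⟩ : ∃ S : Set ℂ, S = tsupport φ := ⟨_, rfl⟩
  have hSc : IsCompact S := by rw [hS]; exact hφ.2.1
  have hSB : S ⊆ B := by rw [hS]; exact hφ.2.2
  have z0 : ∀ z, z ∉ S → φ z = 0 := fun z hz => image_eq_zero_of_notMem_tsupport (by rwa [hS] at hz)
  have zq : ∀ z, z ∉ S → q z = 0 := fun z hz => by rw [hq]; show φ z * _ = 0; rw [z0 z hz, zero_mul]
  have nq : ∀ z, z ∉ S → q =ᶠ[𝓝 z] fun _ => 0 := by
    intro z hz
    filter_upwards [hSc.isClosed.isOpen_compl.mem_nhds (hz : z ∈ Sᶜ)] with x hx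
    exact zq x hx
  have z1 : ∀ v z, z ∉ S → fderiv ℝ q z v = 0 := fun v z hz => by
    rw [(nq z hz).fderiv_eq]; simp
  have cq' : ∀ v, Continuous (fun z => fderiv ℝ q z v) := fun v =>
    ((tq.1.fderiv_right (m := ∞) le_rfl).clm_apply contDiff_const).continuous
  have ca : ContinuousOn a S := H.sa.continuousOn.mono hSB
  have cai : ContinuousOn (fun z => (a z ^ 2)⁻¹) S :=
    (ca.pow 2).inv₀ fun z hz => (pow_pos (H.pa z (hSB hz)) 2).ne'
  obtain ⟨A, hA⟩ := hSc.exists_bound_of_continuousOn cai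
  obtain ⟨Q1, hQ1⟩ := hSc.exists_bound_of_continuousOn ((cq' 1).continuousOn (s := S))
  obtain ⟨QI, hQI⟩ := hSc.exists_bound_of_continuousOn ((cq' I).continuousOn (s := S))
  obtain ⟨C, hC⟩ := hG S hSc hSB
  obtain ⟨D, hD⟩ : ∃ D : ℝ, D = (|Q1| + |QI|) * M * ((∫ z in S, (1 : ℝ)) + |A| * |C|) := ⟨_, rfl⟩
  have V0 : 0 ≤ ∫ z in S, (1 : ℝ) := integral_nonneg fun z => zero_le_one
  -- the exact identity
  have id : ∀ n, (∫ z, φ z * (w (u n z) * G a (h n) (u n) z)) -
      (∫ z, φ z * (u n z * P w (u n z))) =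
      - (h n ^ 2 * ∫ z, fderiv ℝ q z 1 * (P w (u n z) * fderiv ℝ (u n) z 1)) -
      (h n ^ 2 * ∫ z, fderiv ℝ q z I * (P w (u n z) * fderiv ℝ (u n) z I)) := by
    intro n
    have su := H.sm n
    have f1 := flux hB tq su cw 1
    have f2 := flux hB tq su cw I
    have cu : ContinuousOn (u n) S := su.continuousOn.mono hSB
    have cwu : ContinuousOn (fun z => w (u n z)) S := cw.comp_continuousOn cu
    have cP : ContinuousOn (fun z => P w (u n z)) S := (P_c cw).comp_continuousOn cu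
    have cq : Continuous q := tq.1.continuous
    have cv : ∀ v, ContinuousOn (fun z => fderiv ℝ (u n) z v) S := fun v =>
      (rsd hB su v).continuousOn.mono hSB
    have cvv : ∀ v, ContinuousOn (fun z => fderiv ℝ (fun z => fderiv ℝ (u n) z v) z v) S := fun v =>
      (rsd hB (rsd hB su v) v).continuousOn.mono hSB
    have i1 : ∀ v, Integrable (fun z => q z * (w (u n z) * fderiv ℝ (u n) z v ^ 2)) := fun v =>
      rint hSc (cq.continuousOn.mul (cwu.mul ((cv v).pow 2))) fun z hz => by rw [zq z hz, zero_mul]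
    have i2 : ∀ v, Integrable (fun z => q z * (P w (u n z) *
        fderiv ℝ (fun z => fderiv ℝ (u n) z v) z v)) := fun v =>
      rint hSc (cq.continuousOn.mul (cP.mul (cvv v))) fun z hz => by rw [zq z hz, zero_mul]
    have e1 : ∫ z, φ z * (w (u n z) * G a (h n) (u n) z) =
        h n ^ 2 * ((∫ z, q z * (w (u n z) * fderiv ℝ (u n) z 1 ^ 2)) +
          ∫ z, q z * (w (u n z) * fderiv ℝ (u n) z I ^ 2)) := by
      rw [← integral_add (i1 1) (i1 I), ← integral_const_mul]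
      congr 1; funext z
      rw [hq]; unfold G; ring
    have e2 : ∫ z, φ z * (u n z * P w (u n z)) =
        - (h n ^ 2 * ((∫ z, q z * (P w (u n z) * fderiv ℝ (fun z => fderiv ℝ (u n) z 1) z 1)) +
          ∫ z, q z * (P w (u n z) * fderiv ℝ (fun z => fderiv ℝ (u n) z I) z I))) := by
      rw [← integral_add (i2 1) (i2 I), ← integral_const_mul, ← integral_neg]
      congr 1; funext z
      by_cases hz : z ∈ B
      · have h1 := H.eq n z hz
        have h2 : lap (u n) z = fderiv ℝ (fun z => fderiv ℝ (u n) z 1) z 1 +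
          fderiv ℝ (fun z => fderiv ℝ (u n) z I) z I := rfl
        rw [h2] at h1
        rw [hq]
        linear_combination (φ z * P w (u n z)) * h1
      · have hzS : z ∉ S := fun h => hz (hSB h)
        rw [z0 z hzS, zq z hzS]; simp
    rw [e1, e2, f1, f2]
    ring
  have bv : ∀ (v : ℂ) (Q : ℝ), (v = 1 ∨ v = I) → (∀ z ∈ S, ‖fderiv ℝ q z v‖ ≤ Q) → ∀ᶠ n in atTop,
      |h n ^ 2 * ∫ z, fderiv ℝ q z v * (P w (u n z) * fderiv ℝ (u n) z v)| ≤
        h n * (|Q| * M * ((∫ z in S, (1 : ℝ)) + |A| * |C|)) := by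
    intro v Q hv hQ
    filter_upwards [hC] with n hn
    have su := H.sm n
    have cu : ContinuousOn (u n) S := su.continuousOn.mono hSB
    have cP : ContinuousOn (fun z => P w (u n z)) S := (P_c cw).comp_continuousOn cu
    have cv : ContinuousOn (fun z => fderiv ℝ (u n) z v) S := (rsd hB su v).continuousOn.mono hSB
    have cG : ContinuousOn (fun z => G a (h n) (u n) z) S := (G_co hB H.sa su (h n)).mono hSB
    have hp := H.hpos n
    have e1 : h n ^ 2 * ∫ z, fderiv ℝ q z v * (P w (u n z) * fderiv ℝ (u n) z v) =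
        ∫ z in S, h n ^ 2 * (fderiv ℝ q z v * (P w (u n z) * fderiv ℝ (u n) z v)) := by
      rw [integral_const_mul, ← out_int (S := S)]
      intro z hz
      rw [z1 v z hz, zero_mul]
    rw [e1]
    refine (abs_integral_le_integral_abs).trans ?_
    have cc : ContinuousOn (fun z => |h n ^ 2 * (fderiv ℝ q z v *
        (P w (u n z) * fderiv ℝ (u n) z v))|) S :=
      (continuousOn_const.mul ((cq' v).continuousOn.mul (cP.mul cv))).abs
    have k1 : ∫ z in S, |A| * G a (h n) (u n) z ≤ |A| * |C| := by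
      rw [integral_const_mul]
      exact mul_le_mul_of_nonneg_left (hn.trans (le_abs_self C)) (abs_nonneg A)
    refine (intK_lin hSc (c := h n * (|Q| * M)) (G1 := fun _ => 1)
      (G2 := fun z => |A| * G a (h n) (u n) z) (by positivity) cc continuousOn_const
      (continuousOn_const.mul cG) (fun z hz => ?_) le_rfl k1).trans (le_of_eq (by ring))
    have b1 := hQ z hz
    rw [Real.norm_eq_abs] at b1
    have b2 := hM (u n z)
    have b3 := hA z hz
    rw [Real.norm_eq_abs] at b3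
    have pa := H.pa z (hSB hz)
    have p2 : 0 < a z ^ 2 := by positivity
    have g1 : h n ^ 2 * fderiv ℝ (u n) z v ^ 2 ≤ |A| * G a (h n) (u n) z := by
      have g2 : h n ^ 2 * fderiv ℝ (u n) z v ^ 2 ≤ (a z ^ 2)⁻¹ * G a (h n) (u n) z := by
        rw [inv_mul_eq_div, le_div_iff₀ p2]
        unfold G
        rcases hv with rfl | rfl
        · nlinarith [mul_nonneg (mul_nonneg (sq_nonneg (h n)) p2.le)
            (sq_nonneg (fderiv ℝ (u n) z I))]
        · nlinarith [mul_nonneg (mul_nonneg (sq_nonneg (h n)) p2.le)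
            (sq_nonneg (fderiv ℝ (u n) z 1))]
      refine g2.trans (mul_le_mul_of_nonneg_right ?_ (G_nn _ _ _ _))
      exact (le_abs_self _).trans (b3.trans (le_abs_self A))
    have g3 : |h n * fderiv ℝ (u n) z v| ≤ 1 + |A| * G a (h n) (u n) z := by
      have : |h n * fderiv ℝ (u n) z v| ≤ 1 + (h n * fderiv ℝ (u n) z v) ^ 2 := by
        rw [← sq_abs (h n * fderiv ℝ (u n) z v)]
        nlinarith [sq_nonneg (|h n * fderiv ℝ (u n) z v| - 1)]
      refine this.trans ?_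
      rw [mul_pow]; linarith
    have e2 : |h n ^ 2 * (fderiv ℝ q z v * (P w (u n z) * fderiv ℝ (u n) z v))| =
        h n * (|fderiv ℝ q z v| * |P w (u n z)| * |h n * fderiv ℝ (u n) z v|) := by
      rw [abs_mul, abs_mul, abs_mul, abs_mul, abs_of_pos hp, abs_of_pos (pow_pos hp 2)]
      ring
    show |h n ^ 2 * (fderiv ℝ q z v * (P w (u n z) * fderiv ℝ (u n) z v))| ≤ _
    rw [e2]
    have b4 : |fderiv ℝ q z v| * |P w (u n z)| ≤ |Q| * M :=
      mul_le_mul (b1.trans (le_abs_self Q)) b2 (abs_nonneg _) (abs_nonneg _)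
    have b5 := mul_le_mul b4 g3 (abs_nonneg _) (mul_nonneg (abs_nonneg Q) M0)
    have b6 := mul_le_mul_of_nonneg_left b5 hp.le
    linarith
  refine (tendsto_zero_iff_abs_tendsto_zero _).2 ?_
  have lim : Tendsto (fun n => h n * (|Q1| * M * ((∫ z in S, (1 : ℝ)) + |A| * |C|)) +
      h n * (|QI| * M * ((∫ z in S, (1 : ℝ)) + |A| * |C|))) atTop (𝓝 0) := by
    have := (H.hlim.mul_const (|Q1| * M * ((∫ z in S, (1 : ℝ)) + |A| * |C|))).add
      (H.hlim.mul_const (|QI| * M * ((∫ z in S, (1 : ℝ)) + |A| * |C|)))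
    simpa using this
  refine squeeze_zero' (Eventually.of_forall fun n => abs_nonneg _) ?_ lim
  filter_upwards [bv 1 Q1 (Or.inl rfl) hQ1, bv I QI (Or.inr rfl) hQI] with n n1 n2
  show |(∫ z, φ z * (w (u n z) * G a (h n) (u n) z)) - ∫ z, φ z * (u n z * P w (u n z))| ≤ _
  rw [id n]
  refine (abs_sub _ _).trans ?_
  rw [abs_neg]
  exact add_le_add n1 n2

lemma fd_sq (hB : IsOpen B) {f : ℂ → ℝ} (hf : ContDiffOn ℝ ∞ f B) (v : ℂ) {z : ℂ} (hz : z ∈ B) :
    fderiv ℝ (fun w => f w ^ 2) z v = 2 * (f z * fderiv ℝ f z v) := by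
  have d := (rdA hB hf hz).hasFDerivAt
  have e : (fun w => f w ^ 2) = fun w => f w * f w := by funext w; ring
  have d2 : HasFDerivAt (fun w => f w * f w) (f z • fderiv ℝ f z + f z • fderiv ℝ f z) z := d.mul d
  rw [e, d2.fderiv]
  simp only [add_apply, smul_apply, smul_eq_mul]
  ring

lemma fd_sq2 (hB : IsOpen B) {f : ℂ → ℝ} (hf : ContDiffOn ℝ ∞ f B) (v : ℂ) {z : ℂ} (hz : z ∈ B) :
    fderiv ℝ (fun w => fderiv ℝ (fun w => f w ^ 2) w v) z v =
      2 * (f z * fderiv ℝ (fun w => fderiv ℝ f w v) z v) + 2 * fderiv ℝ f z v ^ 2 := by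
  have ev : (fun w => fderiv ℝ (fun w => f w ^ 2) w v) =ᶠ[𝓝 z]
      fun w => 2 * (f w * fderiv ℝ f w v) := by
    filter_upwards [hB.mem_nhds hz] with w hw
    exact fd_sq hB hf v hw
  have d1 := (rdA hB hf hz).hasFDerivAt
  have d2 := (rdA hB (rsd hB hf v) hz).hasFDerivAt
  have d3 : HasFDerivAt (fun w => 2 * (f w * fderiv ℝ f w v))
      ((2 : ℝ) • (f z • fderiv ℝ (fun w => fderiv ℝ f w v) z + fderiv ℝ f z v • fderiv ℝ f z)) z :=
    (d1.mul d2).const_mul 2
  rw [ev.fderiv_eq, d3.fderiv]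
  simp only [add_apply, smul_apply, smul_eq_mul]
  ring

lemma lap_sq (hB : IsOpen B) {f : ℂ → ℝ} (hf : ContDiffOn ℝ ∞ f B) {z : ℂ} (hz : z ∈ B) :
    lap (fun w => f w ^ 2) z = 2 * (f z * lap f z) +
      2 * (fderiv ℝ f z 1 ^ 2 + fderiv ℝ f z I ^ 2) := by
  show fderiv ℝ (fun w => fderiv ℝ (fun w => f w ^ 2) w 1) z 1 +
    fderiv ℝ (fun w => fderiv ℝ (fun w => f w ^ 2) w I) z I =
    2 * (f z * (fderiv ℝ (fun w => fderiv ℝ f w 1) z 1 +
      fderiv ℝ (fun w => fderiv ℝ f w I) z I)) + _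
  rw [fd_sq2 hB hf 1 hz, fd_sq2 hB hf I hz]
  ring

/-- the polynomial `1 - X / 2` -/
def F1 : Polynomial ℝ := Polynomial.C 1 + Polynomial.C (-1 / 2) * Polynomial.X

lemma F1_eval (x : ℝ) : F1.eval x = 1 - x / 2 := by
  unfold F1
  simp only [Polynomial.eval_add, Polynomial.eval_mul, Polynomial.eval_C, Polynomial.eval_X]
  ring

lemma F1_sum (T : (ℂ → ℝ) → ℂ → ℝ) (g : ℂ → ℝ) (z : ℂ) :
    (F1.sum fun i c => c * T^[i] g z) = g z - T g z / 2 := by
  have hd : F1.natDegree < 2 := by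
    have : F1.natDegree ≤ 1 := by
      unfold F1
      refine (Polynomial.natDegree_add_le _ _).trans ?_
      refine max_le (by simp) ?_
      exact (Polynomial.natDegree_C_mul_le _ _).trans Polynomial.natDegree_X_le
    omega
  rw [Polynomial.sum_over_range' F1 (fun i => by simp) 2 hd, Finset.sum_range_succ,
    Finset.sum_range_one]
  have c0 : F1.coeff 0 = 1 := by unfold F1; simp
  have c1 : F1.coeff 1 = -1 / 2 := by
    unfold F1
    rw [Polynomial.coeff_add, Polynomial.coeff_C_mul, Polynomial.coeff_X_one, Polynomial.coeff_C]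
    simp
  rw [c0, c1]
  simp only [Function.iterate_zero, id_eq, Function.iterate_one]
  ring

lemma ang1 (z : ℂ) : TH294.RG.ang F1 ea (unif z) = 1 := by
  have : unif z = TH294.RG.mu0 := by simp only [unif, ProbabilityTheory.Kernel.const_apply]
  rw [this, TH294.RG.ang_unif]
  have e : ∀ θ : ℝ, F1.eval (2 - 2 * Real.cos θ) ^ 2 = Real.cos θ ^ 2 := fun θ => by
    rw [F1_eval]; ring
  simp only [e]
  rw [integral_cos_sq]
  have hpi := Real.pi_ne_zero
  simp only [Real.sin_two_pi, mul_zero, Real.sin_zero, sub_zero]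
  field_simp
  ring

/-- twice the mean of `cos²` of the angle between two independent directions -/
def ang2 (κ : Kernel ℂ ℝ) (z : ℂ) : ℝ := ∫ p, 2 * Real.cos (p.1 - p.2) ^ 2 ∂((κ z).prod (κ z))

lemma ang2_eq (κ : Kernel ℂ ℝ) (z : ℂ) : TH294.RG.ang F1 ea (κ z) = ang2 κ z := by
  rw [TH294.RG.ang_ea]
  unfold ang2
  congr 1; funext p
  rw [F1_eval, F1_eval]; ring

lemma ang2_unif (z : ℂ) : ang2 unif z = 1 := by rw [← ang2_eq, ang1]

/-- **the fourth moment of the gradient** -/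
theorem grad4' {κ : Kernel ℂ ℝ} [IsMarkovKernel κ] (hB : IsOpen B)
    (H : RawG B a h u (TH294.RG.MM (fun _ => 1) ea κ)) (hb : Bd B fun n z => u n z ^ 4)
    {φ : ℂ → ℝ} (hφ : TF B φ) (hi : Integrable (fun z => φ z * ang2 κ z)) :
    Tendsto (fun n => (∫ z, φ z * G a (h n) (u n) z ^ 2) - (∫ z, φ z * u n z ^ 4) +
      ∫ z, φ z * (2 - ang2 κ z)) atTop (𝓝 0) := by
  obtain ⟨K, hK, hφK, hKB⟩ := exists_compact_between (K := tsupport φ) hφ.2.1 hB hφ.2.2
  have hφ' : TF (interior K) φ := ⟨hφ.1, hφ.2.1, hφK⟩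
  have iφ : Integrable φ := hφ.1.continuous.integrable_of_hasCompactSupport hφ.2.1
  have key := TH294.RG.spec_real (m := fun _ => 1) (ν := κ) ea_meas ea_norm
    (fun K hK _ => mem1 K hK) H hK hKB hφ' F1 (T := fun n => TH294.RG.sR a (h n))
    (fun n g z _ => rfl)
  obtain ⟨C, hC⟩ := hb K hK hKB
  have e : ∀ n, (∫ z, φ z * (F1.sum fun i c => c * (TH294.RG.sR a (h n))^[i]
      (fun w => u n w ^ 2) z) ^ 2) - (2 * F1.eval 0 ^ 2 + F1.eval 4 ^ 2) / 3 *
      ((∫ z, φ z * u n z ^ 4) - ∫ z, φ z * (3 * (1 : ℝ) ^ 2))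
    - (∫ z, φ z * ((1 : ℝ) ^ 2 * (F1.eval 0 ^ 2 + TH294.RG.ang F1 ea (κ z)))) =
    (∫ z, φ z * G a (h n) (u n) z ^ 2) - (∫ z, φ z * u n z ^ 4) +
      ∫ z, φ z * (2 - ang2 κ z) := by
    intro n
    have e1 : ∫ z, φ z * (F1.sum fun i c => c * (TH294.RG.sR a (h n))^[i]
        (fun w => u n w ^ 2) z) ^ 2 = ∫ z, φ z * G a (h n) (u n) z ^ 2 := by
      congr 1; funext z
      by_cases hz : z ∈ B
      · rw [F1_sum]
        congr 2
        show u n z ^ 2 - -(h n ^ 2 * (a z ^ 2 * lap (fun w => u n w ^ 2) z)) / 2 = _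
        rw [lap_sq hB (H.sm n) hz]
        have h1 := H.eq n z hz
        unfold G
        linear_combination (u n z) * h1
      · rw [TF.zero hφ hz]; simp
    have e2 : ∫ z, φ z * ((1 : ℝ) ^ 2 * (F1.eval 0 ^ 2 + TH294.RG.ang F1 ea (κ z))) =
        (∫ z, φ z) + ∫ z, φ z * ang2 κ z := by
      rw [← integral_add iφ hi]
      congr 1; funext z
      rw [ang2_eq, F1_eval]; ring
    have e3 : ∫ z, φ z * (2 - ang2 κ z) = 2 * (∫ z, φ z) - ∫ z, φ z * ang2 κ z := by
      rw [← integral_const_mul, ← integral_sub (iφ.const_mul 2) hi]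
      congr 1; funext z; ring
    rw [e1, e2, e3]
    simp only [F1_eval]
    rw [integral_mul_const]
    ring
  have k3 : Tendsto (fun n => ((∫ z, φ z * G a (h n) (u n) z ^ 2) - (∫ z, φ z * u n z ^ 4) +
    ∫ z, φ z * (2 - ang2 κ z)) / (1 + ∫ z in K, u n z ^ 4)) atTop (𝓝 0) :=
    key.congr fun n => by rw [← e n]
  rw [Metric.tendsto_atTop] at k3 ⊢
  intro ε hε
  obtain ⟨N1, hN1⟩ := eventually_atTop.1 hC
  have D0 : 0 < 1 + |C| := by positivity
  obtain ⟨N2, hN2⟩ := k3 (ε / (1 + |C|)) (by positivity)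
  refine ⟨max N1 N2, fun n hn => ?_⟩
  have h1 := hN1 n ((le_max_left _ _).trans hn)
  have h2 := hN2 n ((le_max_right _ _).trans hn)
  rw [Real.dist_eq, sub_zero] at h2 ⊢
  have p0 : 0 ≤ ∫ z in K, u n z ^ 4 := integral_nonneg fun z => by positivity
  have p1 : 0 < 1 + ∫ z in K, u n z ^ 4 := by linarith
  rw [abs_div, abs_of_pos p1, div_lt_iff₀ p1] at h2
  have p2 : 1 + ∫ z in K, u n z ^ 4 ≤ 1 + |C| := by linarith [le_abs_self C]
  have p3 : ε / (1 + |C|) * (1 + ∫ z in K, u n z ^ 4) ≤ ε := by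
    rw [div_mul_eq_mul_div, div_le_iff₀ D0]
    exact mul_le_mul_of_nonneg_left p2 hε.le
  linarith

/-- **the fourth moment of the gradient**, uniform directions -/
theorem grad4 (hB : IsOpen B) (H : RawG B a h u M1) (hb : Bd B fun n z => u n z ^ 4)
    {φ : ℂ → ℝ} (hφ : TF B φ) :
    Tendsto (fun n => (∫ z, φ z * G a (h n) (u n) z ^ 2) - (∫ z, φ z * u n z ^ 4) + ∫ z, φ z)
      atTop (𝓝 0) := by
  have iφ : Integrable φ := hφ.1.continuous.integrable_of_hasCompactSupport hφ.2.1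
  have k := grad4' (κ := unif) hB H hb hφ (by simpa only [ang2_unif, mul_one] using iφ)
  refine k.congr fun n => ?_
  congr 2; funext z
  rw [ang2_unif]; ring

/-- **The flux inequality.** -/
theorem flux_ineq' {κ : Kernel ℂ ℝ} [IsMarkovKernel κ] (hB : IsOpen B)
    (H : RawG B a h u (TH294.RG.MM (fun _ => 1) ea κ)) (hb : Bd B fun n z => u n z ^ 4)
    {w : ℝ → ℝ} (cw : Continuous w) {M : ℝ} (hM : ∀ x, |P w x| ≤ M) {φ : ℂ → ℝ} (hφ : TF B φ)
    (hφ0 : ∀ z, 0 ≤ φ z) (hi : Integrable (fun z => φ z * ang2 κ z)) {ε : ℝ} (hε : 0 < ε) :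
    ∀ᶠ n in atTop, ∫ z, φ z * (2 * (u n z * P w (u n z)) - w (u n z) ^ 2) ≤
      (∫ z, φ z * u n z ^ 4) - (∫ z, φ z * (2 - ang2 κ z)) + ε := by
  have g2 := G_bd hB H hb
  have g1 : Bd B fun n z => G a (h n) (u n) z :=
    Bd1 (fun n => G_co hB H.sa (H.sm n) (h n)) g2
  have f := flux_lim hB H g1 cw hM hφ
  have q := grad4' hB H hb hφ hi
  have hSc : IsCompact (tsupport φ) := hφ.2.1
  have hSB : tsupport φ ⊆ B := hφ.2.2
  have z0 : ∀ z, z ∉ tsupport φ → φ z = 0 := fun z hz => image_eq_zero_of_notMem_tsupport hz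
  have cφ : Continuous φ := hφ.1.continuous
  filter_upwards [f.eventually (lt_mem_nhds (show -(ε / 4) < 0 by linarith)),
    q.eventually (gt_mem_nhds (show 0 < ε / 4 by linarith))] with n n1 n2
  have su := H.sm n
  have cu : ContinuousOn (u n) (tsupport φ) := su.continuousOn.mono hSB
  have cP : ContinuousOn (fun z => P w (u n z)) (tsupport φ) := (P_c cw).comp_continuousOn cu
  have cwu : ContinuousOn (fun z => w (u n z)) (tsupport φ) := cw.comp_continuousOn cu
  have cG : ContinuousOn (fun z => G a (h n) (u n) z) (tsupport φ) :=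
    (G_co hB H.sa su (h n)).mono hSB
  have i1 : Integrable (fun z => φ z * (u n z * P w (u n z))) :=
    rint hSc (cφ.continuousOn.mul (cu.mul cP)) fun z hz => by rw [z0 z hz, zero_mul]
  have i2 : Integrable (fun z => φ z * w (u n z) ^ 2) :=
    rint hSc (cφ.continuousOn.mul (cwu.pow 2)) fun z hz => by rw [z0 z hz, zero_mul]
  have i3 : Integrable (fun z => φ z * (w (u n z) * G a (h n) (u n) z)) :=
    rint hSc (cφ.continuousOn.mul (cwu.mul cG)) fun z hz => by rw [z0 z hz, zero_mul]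
  have i4 : Integrable (fun z => φ z * G a (h n) (u n) z ^ 2) :=
    rint hSc (cφ.continuousOn.mul (cG.pow 2)) fun z hz => by rw [z0 z hz, zero_mul]
  have e1 : ∫ z, φ z * (2 * (u n z * P w (u n z)) - w (u n z) ^ 2) =
      2 * (∫ z, φ z * (u n z * P w (u n z))) - ∫ z, φ z * w (u n z) ^ 2 := by
    rw [← integral_const_mul, ← integral_sub (i1.const_mul 2) i2]
    congr 1; funext z; ring
  have e2 : 2 * (∫ z, φ z * (w (u n z) * G a (h n) (u n) z)) - (∫ z, φ z * w (u n z) ^ 2) ≤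
      ∫ z, φ z * G a (h n) (u n) z ^ 2 := by
    rw [← integral_const_mul, ← integral_sub (i3.const_mul 2) i2]
    refine integral_mono ((i3.const_mul 2).sub i2) i4 fun z => ?_
    show 2 * (φ z * (w (u n z) * G a (h n) (u n) z)) - φ z * w (u n z) ^ 2 ≤ _
    nlinarith [mul_nonneg (hφ0 z) (sq_nonneg (w (u n z) - G a (h n) (u n) z))]
  rw [e1]
  linarith

/-- **The flux inequality**, uniform directions -/
theorem flux_ineq (hB : IsOpen B) (H : RawG B a h u M1) (hb : Bd B fun n z => u n z ^ 4)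
    {w : ℝ → ℝ} (cw : Continuous w) {M : ℝ} (hM : ∀ x, |P w x| ≤ M) {φ : ℂ → ℝ} (hφ : TF B φ)
    (hφ0 : ∀ z, 0 ≤ φ z) {ε : ℝ} (hε : 0 < ε) :
    ∀ᶠ n in atTop, ∫ z, φ z * (2 * (u n z * P w (u n z)) - w (u n z) ^ 2) ≤
      (∫ z, φ z * u n z ^ 4) - (∫ z, φ z) + ε := by
  have iφ : Integrable φ := hφ.1.continuous.integrable_of_hasCompactSupport hφ.2.1
  have k := flux_ineq' (κ := unif) hB H hb cw hM hφ hφ0
    (by simpa only [ang2_unif, mul_one] using iφ) hε
  refine k.mono fun n hn => hn.trans (le_of_eq ?_)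
  congr 3; funext z
  rw [ang2_unif]; ring

end

end Pool.Agent.Q175.RW.SX
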