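import Pool.Agent.Q175.RW.SX

/-! The sixth moment. -/
set_option autoImplicit false
open MeasureTheory Filter Topology Complex
open scoped ContDiff ENNReal

namespace Pool.Agent.Q175.RW.SX

open Pool.Agent.W745.RW Pool.Agent.TH294.RS
open Pool.Agent.TH294.RG (RawG ea par unif ea_meas ea_norm opP sR AG)
open Pool.Agent.TH421.AC (rint out_int rsd rdA)

noncomputable section

lemma P_min {v V : ℝ → ℝ} {R : ℝ} (hR : 0 ≤ R) (hV : ∀ x, HasDerivAt V (v x) x) (V0 : V 0 = 0)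
    (vR : v R = 0) (cv : Continuous v) {x : ℝ} (hx : 0 ≤ x) :
    P (fun x => v (min |x| R)) x = V (min x R) := by
  have cw : Continuous (fun x => v (min |x| R)) := by fun_prop
  have base : ∀ y, 0 ≤ y → y ≤ R → ∫ t in (0 : ℝ)..y, v (min |t| R) = V y := by
    intro y h0 h1
    have e : ∫ t in (0 : ℝ)..y, v (min |t| R) = ∫ t in (0 : ℝ)..y, v t := by
      refine intervalIntegral.integral_congr fun t ht => ?_
      rw [Set.uIcc_of_le h0] at ht
      show v (min |t| R) = v t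
      rw [abs_of_nonneg ht.1, min_eq_left (ht.2.trans h1)]
    rw [e, intervalIntegral.integral_eq_sub_of_hasDerivAt (fun t _ => hV t)
      (cv.intervalIntegrable _ _), V0, sub_zero]
  unfold P
  rcases le_total x R with h | h
  · rw [min_eq_left h]; exact base x hx h
  · rw [min_eq_right h, ← intervalIntegral.integral_add_adjacent_intervals
      (cw.intervalIntegrable 0 R) (cw.intervalIntegrable R x), base R hR le_rfl]
    have e : ∫ t in R..x, v (min |t| R) = ∫ _t in R..x, (0 : ℝ) := by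
      refine intervalIntegral.integral_congr fun t ht => ?_
      rw [Set.uIcc_of_le h] at ht
      show v (min |t| R) = 0
      rw [abs_of_nonneg (hR.trans ht.1), min_eq_right ht.1, vR]
    rw [e]; simp

lemma P_odd {w : ℝ → ℝ} (hw : ∀ x, w (-x) = w x) (x : ℝ) : P w (-x) = -P w x := by
  unfold P
  have e : ∫ t in (0 : ℝ)..(-x), w t = ∫ t in (0 : ℝ)..(-x), w (-t) := by
    congr 1; funext t; rw [hw]
  rw [e, intervalIntegral.integral_comp_neg, neg_zero, neg_neg, intervalIntegral.integral_symm]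

lemma xP {v V : ℝ → ℝ} {R : ℝ} (hR : 0 ≤ R) (hV : ∀ x, HasDerivAt V (v x) x) (V0 : V 0 = 0)
    (vR : v R = 0) (cv : Continuous v) (x : ℝ) :
    x * P (fun x => v (min |x| R)) x = |x| * V (min |x| R) := by
  rcases le_total 0 x with h | h
  · rw [P_min hR hV V0 vR cv h, abs_of_nonneg h]
  · have h1 := P_min hR hV V0 vR cv (x := -x) (by linarith)
    rw [P_odd (fun x => by rw [abs_neg])] at h1
    rw [abs_of_nonpos h, ← h1]; ring

lemma P_bd {v V : ℝ → ℝ} {R : ℝ} (hR : 0 ≤ R) (hV : ∀ x, HasDerivAt V (v x) x) (V0 : V 0 = 0)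
    (vR : v R = 0) (cv : Continuous v) : ∃ M : ℝ, ∀ x, |P (fun x => v (min |x| R)) x| ≤ M := by
  have cV : Continuous V := continuous_iff_continuousAt.2 fun x => (hV x).continuousAt
  obtain ⟨M, hM⟩ := (isCompact_Icc (a := (0 : ℝ)) (b := R)).exists_bound_of_continuousOn
    cV.continuousOn
  refine ⟨M, fun x => ?_⟩
  have k : ∀ y, 0 ≤ y → |P (fun x => v (min |x| R)) y| ≤ M := fun y hy => by
    rw [P_min hR hV V0 vR cv hy]
    exact hM _ ⟨le_min hy hR, min_le_right _ _⟩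
  rcases le_total 0 x with h | h
  · exact k x h
  · have h1 := k (-x) (by linarith)
    rw [P_odd (fun x => by rw [abs_neg]), abs_neg] at h1
    exact h1

/-- the profile for the sixth moment -/
def v6 (t : ℝ) : ℝ := 11 / 8 * (117 / 40 * t + 9 / 20 * t ^ 2 - t ^ 3)
def V6 (t : ℝ) : ℝ := 11 / 8 * (117 / 80 * t ^ 2 + 3 / 20 * t ^ 3 - t ^ 4 / 4)
def w6 (x : ℝ) : ℝ := v6 (min |x| (39 / 20))

lemma V6_d (x : ℝ) : HasDerivAt V6 (v6 x) x := by
  have h2 := (hasDerivAt_pow 2 x).const_mul (117 / 80 : ℝ)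
  have h3 := (hasDerivAt_pow 3 x).const_mul (3 / 20 : ℝ)
  have h4 := (hasDerivAt_pow 4 x).div_const (4 : ℝ)
  have h5 := ((h2.add h3).sub h4).const_mul (11 / 8 : ℝ)
  refine h5.congr_deriv ?_
  unfold v6; push_cast; ring

lemma v6_c : Continuous v6 := by unfold v6; fun_prop
lemma w6_c : Continuous w6 := by unfold w6; have := v6_c; fun_prop
lemma v6_R : v6 (39 / 20) = 0 := by unfold v6; norm_num
lemma V6_0 : V6 0 = 0 := by unfold V6; norm_num

lemma w6_x (x : ℝ) : x * P w6 x = |x| * V6 (min |x| (39 / 20)) :=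
  xP (by norm_num) V6_d V6_0 v6_R v6_c x

lemma Q_nn {t : ℝ} (h0 : 0 ≤ t) (h1 : t ≤ 39 / 20) :
    0 ≤ 96719 / 163840 - 24453 / 40960 * t - 16133 / 40960 * t ^ 2 + 649 / 1024 * t ^ 3 -
      93 / 512 * t ^ 4 := by
  nlinarith [sq_nonneg (0.7678 - 1.285 * t + 0.4496 * t ^ 2),
    mul_nonneg (mul_nonneg h0 (sub_nonneg.2 h1)) (sq_nonneg (0.8401 - 0.6195 * t)),
    mul_nonneg h0 (sub_nonneg.2 h1), mul_nonneg h0 h0]

lemma key6 (x : ℝ) : 10 - 107 / 10 * (x ^ 2 - 1) + 67 / 10 * (x ^ 4 - 3) ≤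
    x ^ 6 + 5 / 8 * (2 * (x * P w6 x) - w6 x ^ 2 - x ^ 4 + 1) := by
  rw [w6_x]
  obtain ⟨t, ht⟩ : ∃ t, t = |x| := ⟨_, rfl⟩
  have t0 : 0 ≤ t := by rw [ht]; exact abs_nonneg x
  have e2 : x ^ 2 = t ^ 2 := by rw [ht, sq_abs]
  have e4 : x ^ 4 = t ^ 4 := by
    have : x ^ 4 = (x ^ 2) ^ 2 := by ring
    rw [this, e2]; ring
  have e6 : x ^ 6 = t ^ 6 := by
    have : x ^ 6 = (x ^ 2) ^ 3 := by ring
    rw [this, e2]; ring
  unfold w6
  rw [e2, e4, e6, ← ht]
  rcases le_total t (39 / 20) with h | h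
  · rw [min_eq_left h]
    have := Q_nn t0 h
    have h2 := mul_nonneg (sq_nonneg t) this
    unfold V6 v6
    nlinarith
  · rw [min_eq_right h, v6_R]
    obtain ⟨s, hs⟩ : ∃ s, s = t - 39 / 20 := ⟨_, rfl⟩
    have s0 : 0 ≤ s := by linarith
    have et : t = s + 39 / 20 := by linarith
    rw [et]
    unfold V6
    have k1 : 0 ≤ s ^ 3 := by positivity
    have k2 : 0 ≤ s ^ 4 := by positivity
    have k3 : 0 ≤ s ^ 5 := by positivity
    have k4 : 0 ≤ s ^ 6 := by positivity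
    nlinarith [sq_nonneg (s - 1 / 110)]

variable {B : Set ℂ} {a : ℂ → ℝ} {h : ℕ → ℝ} {u : ℕ → ℂ → ℝ}

/-- the second moment -/
lemma two_lim (H : RawG B a h u M1) {φ : ℂ → ℝ} (hφ : TF B φ) :
    Tendsto (fun n => ∫ z, φ z * u n z ^ 2) atTop (𝓝 (∫ z, φ z)) := by
  have h1 := H.qe φ hφ 0
  have h2 := (Complex.continuous_re.tendsto _).comp h1
  have e1 : (∫ z, (φ z : ℂ) * M1 0 z) = ((∫ z, φ z : ℝ) : ℂ) := by
    rw [← integral_complex_ofReal]
    congr 1; funext z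
    show (φ z : ℂ) * TH294.RG.MM (fun _ => (1 : ℝ)) ea unif 0 z = _
    rw [TH294.RG.MM_0]; simp
  rw [e1, ofReal_re] at h2
  refine h2.congr fun n => ?_
  show (∫ z, (φ z : ℂ) * ((u n z : ℂ) * (DP a (h n))^[0] (fun w => (u n w : ℂ)) z)).re = _
  have e2 : (∫ z, (φ z : ℂ) * ((u n z : ℂ) * (DP a (h n))^[0] (fun w => (u n w : ℂ)) z)) =
      ((∫ z, φ z * u n z ^ 2 : ℝ) : ℂ) := by
    rw [← integral_complex_ofReal]
    congr 1; funext z
    simp only [Function.iterate_zero, id_eq]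
    push_cast; ring
  rw [e2, ofReal_re]

/-- the fourth moment from below -/
lemma four_low (hB : IsOpen B) (H : RawG B a h u M1) {φ : ℂ → ℝ} (hφ : TF B φ)
    (hφ0 : ∀ z, 0 ≤ φ z) {ε : ℝ} (hε : 0 < ε) :
    ∀ᶠ n in atTop, 3 * (∫ z, φ z) - ε ≤ ∫ z, φ z * u n z ^ 4 := by
  have h1 := TH294.RG.RawG.main hB (m := fun _ => 1) (ν := unif) ea_meas ea_norm
    (fun K hK _ => mem1 K hK) H hφ hφ0 hε
  have e : ∫ z, φ z * TH294.RG.GD (fun _ => 1) ea unif z = 3 * ∫ z, φ z := by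
    rw [← integral_const_mul]
    congr 1; funext z
    unfold TH294.RG.GD
    have : unif z = TH294.RG.mu0 := by simp only [unif, ProbabilityTheory.Kernel.const_apply]
    rw [this, TM.par_mu0]; ring
  rw [e] at h1
  exact h1

/-- the sixth moment from below under local bounds -/
theorem six_loc (hB : IsOpen B) (H : RawG B a h u M1) (hb : Bd B fun n z => u n z ^ 4)
    {φ : ℂ → ℝ} (hφ : TF B φ) (hφ0 : ∀ z, 0 ≤ φ z) {ε : ℝ} (hε : 0 < ε) :
    ∀ᶠ n in atTop, 10 * (∫ z, φ z) - ε ≤ ∫ z, φ z * u n z ^ 6 := by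
  obtain ⟨M, hM⟩ := P_bd (by norm_num) V6_d V6_0 v6_R v6_c
  have hM' : ∀ x, |P w6 x| ≤ M := hM
  have f1 := flux_ineq hB H hb w6_c hM' hφ hφ0 (show 0 < ε / 100 by positivity)
  have f2 := four_low hB H hφ hφ0 (show 0 < ε / 100 by positivity)
  have f3 := (two_lim H hφ).eventually (gt_mem_nhds
    (show (∫ z, φ z) < (∫ z, φ z) + ε / 100 by linarith))
  have hSc : IsCompact (tsupport φ) := hφ.2.1
  have hSB : tsupport φ ⊆ B := hφ.2.2
  have z0 : ∀ z, z ∉ tsupport φ → φ z = 0 := fun z hz => image_eq_zero_of_notMem_tsupport hz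
  have cφ : Continuous φ := hφ.1.continuous
  filter_upwards [f1, f2, f3] with n n1 n2 n3
  have cu : ContinuousOn (u n) (tsupport φ) := (H.sm n).continuousOn.mono hSB
  have cP : ContinuousOn (fun z => P w6 (u n z)) (tsupport φ) := (P_c w6_c).comp_continuousOn cu
  have cwu : ContinuousOn (fun z => w6 (u n z)) (tsupport φ) := w6_c.comp_continuousOn cu
  have iφ : Integrable φ := cφ.integrable_of_hasCompactSupport hφ.2.1
  have ik : ∀ k : ℕ, Integrable (fun z => φ z * u n z ^ k) := fun k =>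
    rint hSc (cφ.continuousOn.mul (cu.pow k)) fun z hz => by rw [z0 z hz, zero_mul]
  have iw : Integrable (fun z => φ z * (2 * (u n z * P w6 (u n z)) - w6 (u n z) ^ 2)) :=
    rint hSc (cφ.continuousOn.mul ((continuousOn_const.mul (cu.mul cP)).sub (cwu.pow 2)))
      fun z hz => by rw [z0 z hz, zero_mul]
  have pt : ∀ z, φ z * (10 - 107 / 10 * (u n z ^ 2 - 1) + 67 / 10 * (u n z ^ 4 - 3)) ≤
      φ z * (u n z ^ 6 + 5 / 8 * (2 * (u n z * P w6 (u n z)) - w6 (u n z) ^ 2 - u n z ^ 4 + 1)) :=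
    fun z => mul_le_mul_of_nonneg_left (key6 (u n z)) (hφ0 z)
  have e1 : ∫ z, φ z * (10 - 107 / 10 * (u n z ^ 2 - 1) + 67 / 10 * (u n z ^ 4 - 3)) =
      (3 / 5) * (∫ z, φ z) - 107 / 10 * (∫ z, φ z * u n z ^ 2) +
        67 / 10 * ∫ z, φ z * u n z ^ 4 := by
    have j1 : Integrable (fun z => (3 / 5) * φ z - 107 / 10 * (φ z * u n z ^ 2)) :=
      (iφ.const_mul _).sub ((ik 2).const_mul _)
    rw [← integral_const_mul, ← integral_const_mul, ← integral_const_mul,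
      ← integral_sub (iφ.const_mul _) ((ik 2).const_mul _), ← integral_add j1 ((ik 4).const_mul _)]
    congr 1; funext z; ring
  have e2 : ∫ z, φ z * (u n z ^ 6 + 5 / 8 * (2 * (u n z * P w6 (u n z)) - w6 (u n z) ^ 2 -
      u n z ^ 4 + 1)) = (∫ z, φ z * u n z ^ 6) +
      5 / 8 * (∫ z, φ z * (2 * (u n z * P w6 (u n z)) - w6 (u n z) ^ 2)) -
      5 / 8 * (∫ z, φ z * u n z ^ 4) + 5 / 8 * ∫ z, φ z := by
    have j1 : Integrable (fun z => φ z * u n z ^ 6 +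
      5 / 8 * (φ z * (2 * (u n z * P w6 (u n z)) - w6 (u n z) ^ 2))) :=
      (ik 6).add (iw.const_mul _)
    have j2 : Integrable (fun z => φ z * u n z ^ 6 +
      5 / 8 * (φ z * (2 * (u n z * P w6 (u n z)) - w6 (u n z) ^ 2)) -
      5 / 8 * (φ z * u n z ^ 4)) := j1.sub ((ik 4).const_mul _)
    rw [← integral_const_mul, ← integral_const_mul, ← integral_const_mul,
      ← integral_add (ik 6) (iw.const_mul _), ← integral_sub j1 ((ik 4).const_mul _),
      ← integral_add j2 (iφ.const_mul _)]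
    congr 1; funext z; ring
  have tot := integral_mono (f := fun z => φ z * (10 - 107 / 10 * (u n z ^ 2 - 1) +
      67 / 10 * (u n z ^ 4 - 3)))
    (g := fun z => φ z * (u n z ^ 6 + 5 / 8 * (2 * (u n z * P w6 (u n z)) - w6 (u n z) ^ 2 -
      u n z ^ 4 + 1)))
    (rint hSc (cφ.continuousOn.mul ((continuousOn_const.sub (continuousOn_const.mul
      ((cu.pow 2).sub continuousOn_const))).add (continuousOn_const.mul
      ((cu.pow 4).sub continuousOn_const)))) fun z hz => by rw [z0 z hz, zero_mul])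
    (rint hSc (cφ.continuousOn.mul ((cu.pow 6).add (continuousOn_const.mul
      ((((continuousOn_const.mul (cu.mul cP)).sub (cwu.pow 2)).sub (cu.pow 4)).add
        continuousOn_const)))) fun z hz => by rw [z0 z hz, zero_mul]) pt
  rw [e1, e2] at tot
  linarith

lemma even_pt {m : ℕ} (hm : 2 ≤ m) (x : ℝ) :
    (m / 2 : ℝ) * (√10) ^ (m - 2) * x ^ 6 - (m / 2 - 1 : ℝ) * (√10) ^ m * x ^ 2 ≤
      x ^ (2 * (m + 1)) := by
  obtain ⟨y, hy⟩ : ∃ y, y = x ^ 2 := ⟨_, rfl⟩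
  have y0 : 0 ≤ y := by rw [hy]; positivity
  have s0 : 0 < √10 := Real.sqrt_pos.2 (by norm_num)
  have s2 : √10 ^ 2 = 10 := Real.sq_sqrt (by norm_num)
  have e1 : x ^ (2 * (m + 1)) = y ^ m * y := by rw [hy, pow_mul, pow_succ]
  have e2 : x ^ 6 = y ^ 2 * y := by rw [hy]; ring
  rw [e1, e2, ← hy]
  have sm : √10 ^ m = √10 ^ (m - 2) * 10 := by
    calc √10 ^ m = √10 ^ (m - 2 + 2) := by congr 1; omega
      _ = √10 ^ (m - 2) * √10 ^ 2 := pow_add _ _ _
      _ = √10 ^ (m - 2) * 10 := by rw [s2]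
  -- Bernoulli
  have p1 : (1 : ℝ) ≤ (m : ℝ) / 2 := by
    have : (2 : ℝ) ≤ m := by exact_mod_cast hm
    linarith
  have k := one_add_mul_self_le_rpow_one_add (s := y ^ 2 / 10 - 1) (p := (m : ℝ) / 2)
    (by have : 0 ≤ y ^ 2 / 10 := by positivity
        linarith) p1
  have k2 : (1 + (y ^ 2 / 10 - 1)) ^ ((m : ℝ) / 2) = (y / √10) ^ m := by
    have e : 1 + (y ^ 2 / 10 - 1) = (y / √10) ^ 2 := by rw [div_pow, s2]; ring
    rw [e, ← Real.rpow_natCast (y / √10) 2, ← Real.rpow_mul (by positivity)]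
    rw [show ((2 : ℕ) : ℝ) * ((m : ℝ) / 2) = (m : ℝ) by push_cast; ring, Real.rpow_natCast]
  rw [k2, div_pow] at k
  have k3 : (1 + (m : ℝ) / 2 * (y ^ 2 / 10 - 1)) * √10 ^ m ≤ y ^ m := by
    rwa [le_div_iff₀ (by positivity)] at k
  have k4 := mul_le_mul_of_nonneg_right k3 y0
  have e5 : (1 + (m : ℝ) / 2 * (y ^ 2 / 10 - 1)) * √10 ^ m * y =
      (m / 2 : ℝ) * (√10) ^ (m - 2) * (y ^ 2 * y) - (m / 2 - 1 : ℝ) * (√10) ^ m * y := by
    rw [sm]; ring
  rw [e5] at k4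
  exact k4

/-- all even moments under local bounds -/
theorem even_loc (hB : IsOpen B) (H : RawG B a h u M1) (hb : Bd B fun n z => u n z ^ 4)
    {m : ℕ} (hm : 2 ≤ m) {φ : ℂ → ℝ} (hφ : TF B φ) (hφ0 : ∀ z, 0 ≤ φ z) {ε : ℝ} (hε : 0 < ε) :
    ∀ᶠ n in atTop, √10 ^ m * (∫ z, φ z) - ε ≤ ∫ z, φ z * u n z ^ (2 * (m + 1)) := by
  have s0 : 0 < √10 := Real.sqrt_pos.2 (by norm_num)
  have s2 : √10 ^ 2 = 10 := Real.sq_sqrt (by norm_num)
  have sm : √10 ^ m = √10 ^ (m - 2) * 10 := by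
    calc √10 ^ m = √10 ^ (m - 2 + 2) := by congr 1; omega
      _ = √10 ^ (m - 2) * √10 ^ 2 := pow_add _ _ _
      _ = √10 ^ (m - 2) * 10 := by rw [s2]
  obtain ⟨A, hA⟩ : ∃ A : ℝ, A = (m / 2 : ℝ) * (√10) ^ (m - 2) := ⟨_, rfl⟩
  obtain ⟨D, hD⟩ : ∃ D : ℝ, D = (m / 2 - 1 : ℝ) * (√10) ^ m := ⟨_, rfl⟩
  have hm' : (2 : ℝ) ≤ m := by exact_mod_cast hm
  have A0 : 0 < A := by rw [hA]; positivity
  have D0 : 0 ≤ D := by rw [hD]; exact mul_nonneg (by linarith) (by positivity)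
  have f1 := six_loc hB H hb hφ hφ0 (show 0 < ε / (2 * A) by positivity)
  have f3 := (two_lim H hφ).eventually (gt_mem_nhds
    (show (∫ z, φ z) < (∫ z, φ z) + ε / (2 * (D + 1)) by
      have : 0 < ε / (2 * (D + 1)) := by positivity
      linarith))
  have hSc : IsCompact (tsupport φ) := hφ.2.1
  have hSB : tsupport φ ⊆ B := hφ.2.2
  have z0 : ∀ z, z ∉ tsupport φ → φ z = 0 := fun z hz => image_eq_zero_of_notMem_tsupport hz
  have cφ : Continuous φ := hφ.1.continuous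
  filter_upwards [f1, f3] with n n1 n3
  have cu : ContinuousOn (u n) (tsupport φ) := (H.sm n).continuousOn.mono hSB
  have ik : ∀ k : ℕ, Integrable (fun z => φ z * u n z ^ k) := fun k =>
    rint hSc (cφ.continuousOn.mul (cu.pow k)) fun z hz => by rw [z0 z hz, zero_mul]
  have j : Integrable (fun z => A * (φ z * u n z ^ 6) - D * (φ z * u n z ^ 2)) :=
    ((ik 6).const_mul _).sub ((ik 2).const_mul _)
  have tot : A * (∫ z, φ z * u n z ^ 6) - D * (∫ z, φ z * u n z ^ 2) ≤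
      ∫ z, φ z * u n z ^ (2 * (m + 1)) := by
    rw [← integral_const_mul, ← integral_const_mul,
      ← integral_sub ((ik 6).const_mul _) ((ik 2).const_mul _)]
    refine integral_mono j (ik _) fun z => ?_
    have h1 := mul_le_mul_of_nonneg_left (even_pt hm (u n z)) (hφ0 z)
    rw [← hA, ← hD] at h1
    show A * (φ z * u n z ^ 6) - D * (φ z * u n z ^ 2) ≤ φ z * u n z ^ (2 * (m + 1))
    linarith
  have q1 := mul_le_mul_of_nonneg_left n1 A0.le
  have q2 : A * (ε / (2 * A)) = ε / 2 := by field_simp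
  have q3 := mul_le_mul_of_nonneg_left n3.le D0
  have q4 : D * (ε / (2 * (D + 1))) ≤ ε / 2 := by
    rw [mul_div_assoc', div_le_div_iff₀ (by positivity) (by norm_num)]
    nlinarith
  have q5 : A * 10 - D = √10 ^ m := by rw [hA, hD, sm]; ring
  have q6 : √10 ^ m * (∫ z, φ z) = A * (10 * ∫ z, φ z) - D * ∫ z, φ z := by rw [← q5]; ring
  rw [q6]
  nlinarith

/-- **All even moments**, for all test functions -/
theorem even_all {Ω : Set ℂ} (hΩ : IsOpen Ω) (H : RawG Ω a h u M1) {m : ℕ} (hm : 2 ≤ m)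
    {ψ : ℂ → ℝ} (hψ : TF Ω ψ) (hψ0 : ∀ z, 0 ≤ ψ z) {ε : ℝ} (hε : 0 < ε) :
    ∀ᶠ n in atTop, √10 ^ m * (∫ z, ψ z) - ε ≤ ∫ z, ψ z * u n z ^ (2 * (m + 1)) := by
  have s0 : 0 < √10 := Real.sqrt_pos.2 (by norm_num)
  have ev : ∀ x : ℝ, 0 ≤ x ^ (2 * (m + 1)) := fun x => by rw [pow_mul]; positivity
  by_contra hcon
  rw [not_eventually] at hcon
  obtain ⟨σ, hσ, hσ'⟩ := extraction_of_frequently_atTop hcon
  obtain ⟨M, hM⟩ : ∃ M : ℝ, M = √10 ^ m * (∫ z, ψ z) - ε := ⟨_, rfl⟩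
  have hσM : ∀ n, ∫ z, ψ z * u (σ n) z ^ (2 * (m + 1)) < M := fun n => by
    rw [hM]; exact not_le.1 (hσ' n)
  obtain ⟨B, hBdef⟩ : ∃ B : Set ℂ, B = {z | 0 < ψ z} := ⟨_, rfl⟩
  have hB : IsOpen B := by rw [hBdef]; exact isOpen_lt continuous_const hψ.1.continuous
  have hBΩ : B ⊆ Ω := by
    intro z hz
    rw [hBdef] at hz
    apply hψ.2.2
    apply subset_tsupport
    exact (ne_of_gt hz : ψ z ≠ 0)
  have HB := H.sub hBΩ hσ
  have hint : ∀ n, Integrable (fun z => ψ z * u (σ n) z ^ (2 * (m + 1))) := fun n =>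
    Pool.Agent.W311.RW.int_mul hΩ hψ ((H.sm (σ n)).continuousOn.pow _)
  have hnn : ∀ n z, 0 ≤ ψ z * u (σ n) z ^ (2 * (m + 1)) := fun n z => mul_nonneg (hψ0 z) (ev _)
  have hb : Bd B fun n z => u (σ n) z ^ 4 := by
    intro K hK hKB
    obtain ⟨c, hc, hc'⟩ : ∃ c : ℝ, 0 < c ∧ ∀ z ∈ K, c ≤ ψ z := by
      by_cases hne : K.Nonempty
      · obtain ⟨z0, hz0, hmin⟩ := hK.exists_isMinOn hne hψ.1.continuous.continuousOn
        refine ⟨ψ z0, ?_, fun z hz => hmin hz⟩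
        have := hKB hz0
        rw [hBdef] at this
        exact this
      · exact ⟨1, one_pos, fun z hz => absurd ⟨z, hz⟩ hne⟩
    refine ⟨1 * ((∫ z in K, (1 : ℝ)) + c⁻¹ * M), Eventually.of_forall fun n => ?_⟩
    have c0 : ContinuousOn (u (σ n)) K := (H.sm (σ n)).continuousOn.mono (hKB.trans hBΩ)
    have c1 : ContinuousOn (fun z => u (σ n) z ^ (2 * (m + 1))) K := c0.pow _
    have c2 : ContinuousOn (fun z => ψ z * u (σ n) z ^ (2 * (m + 1))) K :=
      hψ.1.continuous.continuousOn.mul c1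
    have b1 : ∫ z in K, u (σ n) z ^ (2 * (m + 1)) ≤ c⁻¹ * M := by
      refine intK_c hK (by positivity : (0:ℝ) ≤ c⁻¹) c1 c2 (fun z hz => ?_)
        ((setIntegral_le_integral (hint n) (ae_of_all _ (hnn n))).trans (hσM n).le)
      have h1 := hc' z hz
      have h2 := ev (u (σ n) z)
      rw [inv_mul_eq_div, le_div_iff₀ hc]
      nlinarith
    refine intK_lin hK zero_le_one (c0.pow 4) continuousOn_const c1 (fun z _ => ?_) le_rfl b1
    show u (σ n) z ^ 4 ≤ 1 * (1 + u (σ n) z ^ (2 * (m + 1)))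
    obtain ⟨y, hy⟩ : ∃ y, y = u (σ n) z ^ 2 := ⟨_, rfl⟩
    have y0 : 0 ≤ y := by rw [hy]; positivity
    have e1 : u (σ n) z ^ 4 = y ^ 2 := by rw [hy]; ring
    have e2 : u (σ n) z ^ (2 * (m + 1)) = y ^ (m + 1) := by rw [hy, pow_mul]
    rw [e1, e2, one_mul]
    rcases le_total y 1 with h | h
    · have a1 : y ^ 2 ≤ 1 := pow_le_one₀ y0 h
      have a2 : 0 ≤ y ^ (m + 1) := by positivity
      linarith
    · have a1 : y ^ 2 ≤ y ^ (m + 1) := pow_le_pow_right₀ h (by omega)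
      linarith
  obtain ⟨V, hV⟩ : ∃ V : ℝ, V = ∫ _z in tsupport ψ, (1 : ℝ) := ⟨_, rfl⟩
  have hV0 : 0 ≤ V := by rw [hV]; exact integral_nonneg fun z => zero_le_one
  obtain ⟨δ, hδdef⟩ : ∃ δ : ℝ, δ = ε / (4 * (√10 ^ m * V + 1)) := ⟨_, rfl⟩
  have hδ : 0 < δ := by rw [hδdef]; positivity
  obtain ⟨φ, hφ, hφ0, hφψ, hdiff⟩ := trunc hψ hψ0 hδ
  rw [← hBdef] at hφ
  have iψ : Integrable ψ := hψ.1.continuous.integrable_of_hasCompactSupport hψ.2.1
  have iφ : Integrable φ := hφ.1.continuous.integrable_of_hasCompactSupport hφ.2.1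
  have h2 : (∫ z, ψ z) - ∫ z, φ z ≤ 2 * δ * V := by
    rw [← integral_sub iψ iφ, hV, ← integral_const_mul,
      ← integral_indicator hψ.2.1.measurableSet]
    refine integral_mono (iψ.sub iφ) ((integrable_indicator_iff
      hψ.2.1.measurableSet).2 ((continuousOn_const).integrableOn_compact hψ.2.1)) fun z => ?_
    have h3 := hdiff z
    simpa using h3
  have h4 := even_loc hB HB hb hm hφ hφ0 (show 0 < ε / 4 by positivity)
  obtain ⟨n, hn⟩ := h4.exists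
  have h5 : ∫ z, φ z * u (σ n) z ^ (2 * (m + 1)) ≤ ∫ z, ψ z * u (σ n) z ^ (2 * (m + 1)) := by
    refine integral_mono_of_nonneg (ae_of_all _ fun z => mul_nonneg (hφ0 z) (ev _))
      (hint n) (ae_of_all _ fun z => ?_)
    exact mul_le_mul_of_nonneg_right (hφψ z) (ev _)
  have h6 := hσM n
  have h7 : √10 ^ m * (2 * δ * V) ≤ ε / 2 := by
    have h8 : δ * (4 * (√10 ^ m * V + 1)) = ε := by
      rw [hδdef]; field_simp
    nlinarith [mul_nonneg (pow_nonneg s0.le m) hV0]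
  have h9 := mul_le_mul_of_nonneg_left h2 (pow_nonneg s0.le m)
  rw [hM] at h6
  nlinarith

/-- **All even moments**, continuous weights -/
theorem even_fin {Ω : Set ℂ} (hΩ : IsOpen Ω) (H : RawG Ω a h u M1) {m : ℕ} (hm : 2 ≤ m)
    {U : Set ℂ} (hU : IsOpen U) (hUΩ : U ⊆ Ω) {w : ℂ → ℝ}
    (hw : ContinuousOn w U) (hw0 : ∀ z ∈ U, 0 ≤ w z) :
    ENNReal.ofReal (√10 ^ m) * ∫⁻ z in U, ENNReal.ofReal (w z) ≤
      liminf (fun n => ∫⁻ z in U, ENNReal.ofReal (w z * u n z ^ (2 * (m + 1)))) atTop := by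
  have hnn : ∀ n z, 0 ≤ u n z ^ (2 * (m + 1)) := fun n z => by
    rw [pow_mul]; positivity
  refine weight_of_open hU (fun n => ((H.sm n).continuousOn.mono hUΩ).pow _)
    (fun V hV hVU => ?_) hw hw0
  refine open_of_test hV (by positivity)
    (fun n => ((H.sm n).continuousOn.mono (hVU.trans hUΩ)).pow _) hnn fun ψ hψ hψ0 ε hε => ?_
  exact even_all hΩ H hm ⟨hψ.1, hψ.2.1, hψ.2.2.trans (hVU.trans hUΩ)⟩ hψ0 hε

end

end Pool.Agent.Q175.RW.SX
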