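import Pool.Agent.Q175.RW.SX2
import Pool.Agent.Q175.RW.LL3
import Pool.Agent.TH294.RG.Pl10

/-! The flux inequality for limit laws. -/
set_option autoImplicit false
open MeasureTheory Filter Topology Complex ProbabilityTheory
open scoped ContDiff ENNReal

namespace Pool.Agent.Q175.RW.SX

open Pool.Agent.W745.RW Pool.Agent.TH294.RS Pool.Agent.Q175.RW.LL
open Pool.Agent.TH294.RG (RawG ea par ea_meas ea_norm)
open Pool.Agent.Y139.PD (area)
open Pool.Agent.TH421.AC (rint)

noncomputable section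

variable {Ω : Set ℂ} {ρ : ℂ → ℝ} {lam : ℕ → ℝ} {u : ℕ → ℂ → ℝ} {κ : Kernel ℂ ℝ} {K : ℝ}
  {ν : Measure ℝ} {σ : ℕ → ℕ}

lemma ang2_meas (κ : Kernel ℂ ℝ) [IsMarkovKernel κ] : Measurable (ang2 κ) := by
  have h := TH294.RG.ang_meas (ν := κ) ea_meas F1
  have e : (fun z => TH294.RG.ang F1 ea (κ z)) = ang2 κ := funext fun z => ang2_eq κ z
  rw [← e]; exact h

lemma ang2_bd (κ : Kernel ℂ ℝ) [IsMarkovKernel κ] (z : ℂ) : 0 ≤ ang2 κ z ∧ ang2 κ z ≤ 2 := by
  have h := TH294.RG.ang_le (ν := κ) ea_norm (F := F1) (C := 1) (fun x h0 h4 => by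
    rw [F1_eval]
    have h1 : -1 ≤ 1 - x / 2 := by linarith
    have h2 : 1 - x / 2 ≤ 1 := by linarith
    nlinarith) z
  rw [ang2_eq] at h
  exact ⟨h.1, by linarith [h.2]⟩

variable [IsMarkovKernel κ]

/-- the flux inequality for limit laws, basic form -/
theorem lim_flux (X : LD Ω ρ lam u κ K) [IsProbabilityMeasure ν] (hσ : StrictMono σ)
    (h : WL Ω ρ u ν σ) {w : ℝ → ℝ} (cw : Continuous w) {M : ℝ} (hM : ∀ x, |P w x| ≤ M)
    (hw : ∀ x, |w x| ≤ M) :
    ∫ x, (2 * (x * P w x) - w x ^ 2) ∂ν ≤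
      K - 2 + (∫ z, ang2 κ z ∂(area Ω ρ)) / (area Ω ρ Set.univ).toReal := by
  have := X.fm
  have M0 : 0 ≤ M := (abs_nonneg _).trans (hw 0)
  obtain ⟨V, hV⟩ : ∃ V : ℝ, V = (area Ω ρ Set.univ).toReal := ⟨_, rfl⟩
  have V0 : 0 < V := by rw [hV]; exact X.pos
  obtain ⟨g, hg⟩ : ∃ g : ℝ → ℝ, g = fun x => 2 * (x * P w x) - w x ^ 2 := ⟨_, rfl⟩
  have cg : Continuous g := by
    rw [hg]
    exact (continuous_const.mul (continuous_id.mul (P_c cw))).sub (cw.pow 2)
  have gb : ∀ x, |g x| ≤ 2 * M * |x| + M ^ 2 := by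
    intro x
    rw [hg]
    show |2 * (x * P w x) - w x ^ 2| ≤ _
    refine (abs_sub _ _).trans ?_
    have h1 : |2 * (x * P w x)| ≤ 2 * M * |x| := by
      rw [abs_mul, abs_mul, abs_two]
      have := mul_le_mul_of_nonneg_left (hM x) (abs_nonneg x)
      linarith
    have h2 : |w x ^ 2| ≤ M ^ 2 := by
      rw [abs_pow]
      exact pow_le_pow_left₀ (abs_nonneg _) (hw x) 2
    exact add_le_add h1 h2
  -- convergence
  obtain ⟨ig, lg⟩ := X.mom hσ h cg (c := 2 * M + M ^ 2) (by positivity) fun x hx => by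
    refine (gb x).trans ?_
    have h3 : |x| ≤ |x| ^ 3 := by
      calc |x| = |x| * 1 := (mul_one _).symm
        _ ≤ |x| * |x| ^ 2 := mul_le_mul_of_nonneg_left (one_le_pow₀ hx) (abs_nonneg x)
        _ = |x| ^ 3 := by ring
    have h4 : (1 : ℝ) ≤ |x| ^ 3 := one_le_pow₀ hx
    nlinarith [mul_le_mul_of_nonneg_left h3 M0, mul_le_mul_of_nonneg_left h4 (sq_nonneg M)]
  -- the growth of g
  have gr : ∀ e : ℝ, 0 < e → ∃ c : ℝ, 0 ≤ c ∧ ∀ x, |g x| ≤ e * x ^ 4 + c := by
    intro e he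
    refine ⟨(2 * M) ^ 2 / e + e + M ^ 2 + 2 * M, by positivity, fun x => ?_⟩
    refine (gb x).trans ?_
    obtain ⟨t, ht⟩ : ∃ t, t = |x| := ⟨_, rfl⟩
    have t0 : 0 ≤ t := by rw [ht]; exact abs_nonneg _
    have e4 : x ^ 4 = t ^ 4 := by rw [ht, ← abs_pow, abs_of_nonneg (by positivity)]
    rw [← ht, e4]
    have a1 : 2 * M * t ≤ (2 * M) ^ 2 / e + e * t ^ 2 := by
      have h1 : 0 ≤ (2 * M - e * t) ^ 2 / e := by positivity
      have h2 : (2 * M - e * t) ^ 2 / e = (2 * M) ^ 2 / e - 2 * (2 * M) * t + e * t ^ 2 := by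
        field_simp
        ring
      have h3 : 0 ≤ 2 * M * t := by positivity
      linarith
    have a2 : t ^ 2 ≤ t ^ 4 + 1 := by nlinarith [sq_nonneg (t ^ 2 - 1), sq_nonneg t]
    have a3 := mul_le_mul_of_nonneg_left a2 he.le
    linarith
  -- up to an error
  have key : ∀ e : ℝ, 0 < e → ∫ x, g x ∂ν ≤ K - 2 +
      (∫ z, ang2 κ z ∂(area Ω ρ)) / V + e := by
    intro e he
    obtain ⟨B, hB⟩ : ∃ B, B = |K * V| + 1 := ⟨_, rfl⟩
    have B0 : 0 < B := by rw [hB]; positivity
    obtain ⟨c, c0, hc⟩ := gr (e * V / (8 * B)) (by positivity)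
    obtain ⟨χ, h1, h2, h3, h4⟩ := X.cuts
    rw [← hV] at h4
    obtain ⟨η, hη⟩ : ∃ η, η = e * V / (8 * (c + 3)) := ⟨_, rfl⟩
    have η0 : 0 < η := by rw [hη]; positivity
    obtain ⟨j, hj⟩ := (h4.eventually (lt_mem_nhds (show V - η < V by linarith))).exists
    have ij := X.iχ (h1 j)
    have cV : ∫ z, χ j z ∂(area Ω ρ) ≤ V := by
      have : ∫ z, χ j z ∂(area Ω ρ) ≤ ∫ _z : ℂ, (1 : ℝ) ∂(area Ω ρ) :=
        integral_mono ij (integrable_const _) (h3 j)
      rw [integral_const, smul_eq_mul, mul_one] at this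
      rw [hV]; exact this
    -- local inequality
    have tφ : TF Ω (fun z => χ j z * ρ z) := TF.mulc X.oΩ (h1 j) X.sρ
    have tφ0 : ∀ z, 0 ≤ χ j z * ρ z := fun z => by
      by_cases hz : z ∈ Ω
      · exact mul_nonneg (h2 j z) (X.pρ z hz).le
      · rw [TF.zero (h1 j) hz, zero_mul]
    have iang : Integrable (fun z => χ j z * ρ z * ang2 κ z) := by
      have iφ : Integrable (fun z => χ j z * ρ z) :=
        tφ.1.continuous.integrable_of_hasCompactSupport tφ.2.1
      refine iφ.mul_bdd (c := 2) (ang2_meas κ).aestronglyMeasurable (ae_of_all _ fun z => ?_)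
      have := ang2_bd κ z
      rw [Real.norm_eq_abs, abs_of_nonneg this.1]
      exact this.2
    have hb4 : Bd Ω fun n z => u n z ^ 4 := fun S hS hSΩ => by
      obtain ⟨C, -, hC⟩ := X.K4 hS hSΩ
      exact ⟨C, hC⟩
    have loc := flux_ineq' X.oΩ X.rawG hb4 cw hM tφ tφ0 iang (show 0 < e * V / 8 by positivity)
    have ev := (hσ.tendsto_atTop.eventually loc).and ((hσ.tendsto_atTop.eventually
      (X.h4 (e * V / 8) (by positivity))).and (hσ.tendsto_atTop.eventually (X.h4 1 one_pos)))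
    refine le_of_tendsto lg ?_
    filter_upwards [ev] with n hn
    obtain ⟨n1, n2, n3⟩ := hn
    rw [← hV] at n2 n3 ⊢
    rw [div_le_iff₀ V0]
    have e1 : ∫ z, χ j z * ρ z * (2 * (u (σ n) z * P w (u (σ n) z)) - w (u (σ n) z) ^ 2) =
        ∫ z, χ j z * g (u (σ n) z) ∂(area Ω ρ) := by rw [X.test (h1 j), hg]
    have e2 : ∫ z, χ j z * ρ z * u (σ n) z ^ 4 = ∫ z, χ j z * u (σ n) z ^ 4 ∂(area Ω ρ) :=
      X.test (h1 j) _
    have e3 : ∫ z, χ j z * ρ z * (2 - ang2 κ z) = ∫ z, χ j z * (2 - ang2 κ z) ∂(area Ω ρ) :=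
      X.test (h1 j) _
    rw [e1, e2, e3] at n1
    have iA : Integrable (fun z => ang2 κ z) (area Ω ρ) :=
      Integrable.mono' (integrable_const (2 : ℝ)) (ang2_meas κ).aestronglyMeasurable
        (ae_of_all _ fun z => by
          have := ang2_bd κ z
          rw [Real.norm_eq_abs, abs_of_nonneg this.1]; exact this.2)
    have iD : Integrable (fun z => 2 - ang2 κ z) (area Ω ρ) := (integrable_const 2).sub iA
    have i0 : Integrable (fun z => χ j z * (2 - ang2 κ z)) (area Ω ρ) :=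
      Integrable.bdd_mul (c := 1) iD (h1 j).1.continuous.aestronglyMeasurable
        (ae_of_all _ fun z => by rw [Real.norm_eq_abs, abs_of_nonneg (h2 j z)]; exact h3 j z)
    have i3 : Integrable (fun z => 1 - χ j z) (area Ω ρ) := (integrable_const (1 : ℝ)).sub ij
    -- the direction term
    have b1 : 2 * V - (∫ z, ang2 κ z ∂(area Ω ρ)) - 2 * η ≤
        ∫ z, χ j z * (2 - ang2 κ z) ∂(area Ω ρ) := by
      have s1 : (∫ z, (2 - ang2 κ z) ∂(area Ω ρ)) - 2 * (∫ z, (1 - χ j z) ∂(area Ω ρ)) ≤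
          ∫ z, χ j z * (2 - ang2 κ z) ∂(area Ω ρ) := by
        rw [← integral_const_mul, ← integral_sub iD (i3.const_mul 2)]
        refine integral_mono (iD.sub (i3.const_mul 2)) i0 fun z => ?_
        have q := ang2_bd κ z
        have q0 : 0 ≤ 1 - χ j z := by linarith [h3 j z]
        show 2 - ang2 κ z - 2 * (1 - χ j z) ≤ χ j z * (2 - ang2 κ z)
        nlinarith [mul_nonneg q0 q.1]
      rw [integral_sub (integrable_const _) iA, integral_sub (integrable_const _) ij,
        integral_const, integral_const, smul_eq_mul, smul_eq_mul, mul_one] at s1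
      have eV : (area Ω ρ).real Set.univ = V := by rw [hV]; rfl
      rw [eV] at s1
      linarith
    -- the fourth moment
    have b2 : ∫ z, χ j z * u (σ n) z ^ 4 ∂(area Ω ρ) ≤ ∫ z, u (σ n) z ^ 4 ∂(area Ω ρ) := by
      refine integral_mono_of_nonneg (ae_of_all _ fun z => mul_nonneg (h2 j z) (by positivity))
        (X.i4 _) (ae_of_all _ fun z => mul_le_of_le_one_left (by positivity) (h3 j z))
    -- the tail of g
    have ig' : Integrable (fun z => g (u (σ n) z)) (area Ω ρ) := by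
      refine Integrable.mono' (((X.i4 (σ n)).const_mul (e * V / (8 * B))).add
        (integrable_const c)) (cg.comp_aestronglyMeasurable (X.ume _)) (ae_of_all _ fun z => hc _)
    have i5 : Integrable (fun z => χ j z * g (u (σ n) z)) (area Ω ρ) :=
      Integrable.bdd_mul (c := 1) ig' (h1 j).1.continuous.aestronglyMeasurable
        (ae_of_all _ fun z => by rw [Real.norm_eq_abs, abs_of_nonneg (h2 j z)]; exact h3 j z)
    have b3 : (∫ z, g (u (σ n) z) ∂(area Ω ρ)) - ∫ z, χ j z * g (u (σ n) z) ∂(area Ω ρ) ≤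
        e * V / (8 * B) * (∫ z, u (σ n) z ^ 4 ∂(area Ω ρ)) + c * η := by
      have s1 : (∫ z, g (u (σ n) z) ∂(area Ω ρ)) - ∫ z, χ j z * g (u (σ n) z) ∂(area Ω ρ) ≤
          ∫ z, (e * V / (8 * B) * u (σ n) z ^ 4 + c * (1 - χ j z)) ∂(area Ω ρ) := by
        rw [← integral_sub ig' i5]
        refine integral_mono (ig'.sub i5) (((X.i4 _).const_mul _).add (i3.const_mul c))
          fun z => ?_
        have q0 : 0 ≤ 1 - χ j z := by linarith [h3 j z]
        have q1 : 1 - χ j z ≤ 1 := by linarith [h2 j z]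
        show g (u (σ n) z) - χ j z * g (u (σ n) z) ≤
          e * V / (8 * B) * u (σ n) z ^ 4 + c * (1 - χ j z)
        have r0 := (le_abs_self _).trans (hc (u (σ n) z))
        have r1 := mul_le_mul_of_nonneg_left r0 q0
        have r2 : (1 - χ j z) * (e * V / (8 * B) * u (σ n) z ^ 4) ≤
            e * V / (8 * B) * u (σ n) z ^ 4 := mul_le_of_le_one_left (by positivity) q1
        nlinarith
      rw [integral_add ((X.i4 _).const_mul _) (i3.const_mul c), integral_const_mul,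
        integral_const_mul, integral_sub (integrable_const _) ij, integral_const, smul_eq_mul,
        mul_one] at s1
      have eV : (area Ω ρ).real Set.univ = V := by rw [hV]; rfl
      rw [eV] at s1
      have s2 : c * (V - ∫ z, χ j z ∂(area Ω ρ)) ≤ c * η :=
        mul_le_mul_of_nonneg_left (by linarith) c0
      linarith
    have b4 : e * V / (8 * B) * (∫ z, u (σ n) z ^ 4 ∂(area Ω ρ)) ≤ e * V / 8 := by
      have r1 : ∫ z, u (σ n) z ^ 4 ∂(area Ω ρ) ≤ B := n3.trans (by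
        rw [hB]; linarith [le_abs_self (K * V)])
      calc e * V / (8 * B) * (∫ z, u (σ n) z ^ 4 ∂(area Ω ρ)) ≤ e * V / (8 * B) * B :=
          mul_le_mul_of_nonneg_left r1 (by positivity)
        _ = e * V / 8 := by field_simp
    have b5 : (c + 3) * η = e * V / 8 := by rw [hη]; field_simp
    have b6 : ((K - 2 + (∫ z, ang2 κ z ∂(area Ω ρ)) / V + e) * V) =
        K * V - 2 * V + (∫ z, ang2 κ z ∂(area Ω ρ)) + e * V := by field_simp
    rw [b6]
    have eVp : 0 < e * V := by positivity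
    nlinarith
  rw [hg] at key
  rw [← hV]
  exact le_of_forall_pos_le_add key

/-- **the flux inequality for limit laws** -/
theorem lim_stein (X : LD Ω ρ lam u κ K) [IsProbabilityMeasure ν] (hσ : StrictMono σ)
    (h : WL Ω ρ u ν σ) {w : ℝ → ℝ} (cw : Continuous w) {M : ℝ} (hM : ∀ x, |P w x| ≤ M)
    (hw : ∀ x, |w x| ≤ M) :
    (∫ x, x * P w x ∂ν) ^ 2 ≤ (K - 2 + (∫ z, ang2 κ z ∂(area Ω ρ)) /
      (area Ω ρ Set.univ).toReal) * ∫ x, w x ^ 2 ∂ν := by
  have := X.fm
  obtain ⟨A, hA⟩ : ∃ A, A = K - 2 + (∫ z, ang2 κ z ∂(area Ω ρ)) /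
      (area Ω ρ Set.univ).toReal := ⟨_, rfl⟩
  have i1 : Integrable (fun x => x * P w x) ν := by
    obtain ⟨i, -⟩ := X.mom hσ h (p := fun x => x * P w x)
      (continuous_id.mul (P_c cw)) (c := M) ((abs_nonneg _).trans (hw 0)) fun x hx => by
        rw [abs_mul]
        have h1 := mul_le_mul_of_nonneg_left (hM x) (abs_nonneg x)
        have h3 : |x| ≤ |x| ^ 3 := by
          calc |x| = |x| * 1 := (mul_one _).symm
            _ ≤ |x| * |x| ^ 2 := mul_le_mul_of_nonneg_left (one_le_pow₀ hx) (abs_nonneg x)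
            _ = |x| ^ 3 := by ring
        nlinarith [mul_le_mul_of_nonneg_left h3 ((abs_nonneg _).trans (hw 0))]
    exact i
  have i2 : Integrable (fun x => w x ^ 2) ν := by
    refine Integrable.mono' (integrable_const (M ^ 2)) (cw.pow 2).aestronglyMeasurable
      (ae_of_all _ fun x => ?_)
    rw [Real.norm_eq_abs, abs_pow]
    exact pow_le_pow_left₀ (abs_nonneg _) (hw x) 2
  obtain ⟨I, hI⟩ : ∃ I, I = ∫ x, x * P w x ∂ν := ⟨_, rfl⟩
  obtain ⟨J, hJ⟩ : ∃ J, J = ∫ x, w x ^ 2 ∂ν := ⟨_, rfl⟩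
  have J0 : 0 ≤ J := by rw [hJ]; exact integral_nonneg fun x => sq_nonneg _
  have quad : ∀ s : ℝ, 2 * s * I - s ^ 2 * J ≤ A := by
    intro s
    have Ps : ∀ x, P (fun x => s * w x) x = s * P w x := fun x => by
      unfold P; rw [intervalIntegral.integral_const_mul]
    have k := lim_flux X hσ h (w := fun x => s * w x) (continuous_const.mul cw)
      (M := |s| * M) (fun x => by
        rw [Ps, abs_mul]; exact mul_le_mul_of_nonneg_left (hM x) (abs_nonneg s))
      (fun x => by rw [abs_mul]; exact mul_le_mul_of_nonneg_left (hw x) (abs_nonneg s))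
    rw [← hA] at k
    have e : ∫ x, (2 * (x * P (fun x => s * w x) x) - (s * w x) ^ 2) ∂ν =
        2 * s * I - s ^ 2 * J := by
      rw [hI, hJ, ← integral_const_mul, ← integral_const_mul,
        ← integral_sub (i1.const_mul _) (i2.const_mul _)]
      congr 1; funext x
      rw [Ps]; ring
    rw [e] at k
    exact k
  rw [← hI, ← hJ, ← hA]
  rcases J0.eq_or_lt with hJ0 | hJ0
  · have : I = 0 := by
      by_contra hne
      have := quad ((A + 1) / (2 * I))
      rw [← hJ0] at this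
      have e : 2 * ((A + 1) / (2 * I)) * I = A + 1 := by field_simp
      rw [e] at this
      linarith
    rw [this, ← hJ0]; simp
  · have := quad (I / J)
    have e : 2 * (I / J) * I - (I / J) ^ 2 * J = I ^ 2 / J := by field_simp; ring
    rw [e, div_le_iff₀ hJ0] at this
    exact this

end

end Pool.Agent.Q175.RW.SX
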