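import Pool.Agent.Q175.RW.SX3

/-! Absolute moments: the first and the third. -/
set_option autoImplicit false
open MeasureTheory Filter Topology Complex ProbabilityTheory
open scoped ContDiff ENNReal

namespace Pool.Agent.Q175.RW.SX

open Pool.Agent.W745.RW Pool.Agent.TH294.RS Pool.Agent.Q175.RW.LL
open Pool.Agent.TH294.RG (RawG ea par ea_meas ea_norm)
open Pool.Agent.Y139.PD (area)
open Pool.Agent.TH421.AC (rint)

noncomputable section

variable {Ω : Set ℂ} {ρ : ℂ → ℝ} {lam : ℕ → ℝ} {u : ℕ → ℂ → ℝ} {κ : Kernel ℂ ℝ} {K : ℝ}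

variable [IsMarkovKernel κ]

/-- the flux inequality on the whole surface -/
theorem flux_glob (X : LD Ω ρ lam u κ K) {w : ℝ → ℝ} (cw : Continuous w) {M : ℝ}
    (hM : ∀ x, |P w x| ≤ M) (hw : ∀ x, |w x| ≤ M) {ε : ℝ} (hε : 0 < ε) :
    ∀ᶠ n in atTop, ∫ z, (2 * (u n z * P w (u n z)) - w (u n z) ^ 2) ∂(area Ω ρ) ≤
      (∫ z, u n z ^ 4 ∂(area Ω ρ)) - 2 * (area Ω ρ Set.univ).toReal +
        (∫ z, ang2 κ z ∂(area Ω ρ)) + ε := by
  have := X.fm
  have M0 : 0 ≤ M := (abs_nonneg _).trans (hw 0)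
  obtain ⟨V, hV⟩ : ∃ V : ℝ, V = (area Ω ρ Set.univ).toReal := ⟨_, rfl⟩
  have V0 : 0 < V := by rw [hV]; exact X.pos
  obtain ⟨g, hg⟩ : ∃ g : ℝ → ℝ, g = fun x => 2 * (x * P w x) - w x ^ 2 := ⟨_, rfl⟩
  have cg : Continuous g := by
    rw [hg]
    exact (continuous_const.mul (continuous_id.mul (P_c cw))).sub (cw.pow 2)
  have gb : ∀ x, |g x| ≤ 2 * M * |x| + M ^ 2 := by
    intro x
    rw [hg]
    show |2 * (x * P w x) - w x ^ 2| ≤ _
    refine (abs_sub _ _).trans ?_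
    have h1 : |2 * (x * P w x)| ≤ 2 * M * |x| := by
      rw [abs_mul, abs_mul, abs_two]
      have := mul_le_mul_of_nonneg_left (hM x) (abs_nonneg x)
      linarith
    have h2 : |w x ^ 2| ≤ M ^ 2 := by
      rw [abs_pow]
      exact pow_le_pow_left₀ (abs_nonneg _) (hw x) 2
    exact add_le_add h1 h2
  have gr : ∀ e : ℝ, 0 < e → ∃ c : ℝ, 0 ≤ c ∧ ∀ x, |g x| ≤ e * x ^ 4 + c := by
    intro e he
    refine ⟨(2 * M) ^ 2 / e + e + M ^ 2 + 2 * M, by positivity, fun x => ?_⟩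
    refine (gb x).trans ?_
    obtain ⟨t, ht⟩ : ∃ t, t = |x| := ⟨_, rfl⟩
    have t0 : 0 ≤ t := by rw [ht]; exact abs_nonneg _
    have e4 : x ^ 4 = t ^ 4 := by rw [ht, ← abs_pow, abs_of_nonneg (by positivity)]
    rw [← ht, e4]
    have a1 : 2 * M * t ≤ (2 * M) ^ 2 / e + e * t ^ 2 := by
      have h1 : 0 ≤ (2 * M - e * t) ^ 2 / e := by positivity
      have h2 : (2 * M - e * t) ^ 2 / e = (2 * M) ^ 2 / e - 2 * (2 * M) * t + e * t ^ 2 := by
        field_simp
        ring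
      have h3 : 0 ≤ 2 * M * t := by positivity
      linarith
    have a2 : t ^ 2 ≤ t ^ 4 + 1 := by nlinarith [sq_nonneg (t ^ 2 - 1), sq_nonneg t]
    have a3 := mul_le_mul_of_nonneg_left a2 he.le
    linarith
  obtain ⟨B, hB⟩ : ∃ B, B = |K * V| + 1 := ⟨_, rfl⟩
  have B0 : 0 < B := by rw [hB]; positivity
  obtain ⟨c, c0, hc⟩ := gr (ε / (8 * B)) (by positivity)
  obtain ⟨χ, h1, h2, h3, h4⟩ := X.cuts
  rw [← hV] at h4
  obtain ⟨η, hη⟩ : ∃ η, η = ε / (8 * (c + 3)) := ⟨_, rfl⟩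
  have η0 : 0 < η := by rw [hη]; positivity
  obtain ⟨j, hj⟩ := (h4.eventually (lt_mem_nhds (show V - η < V by linarith))).exists
  have ij := X.iχ (h1 j)
  have tφ : TF Ω (fun z => χ j z * ρ z) := TF.mulc X.oΩ (h1 j) X.sρ
  have tφ0 : ∀ z, 0 ≤ χ j z * ρ z := fun z => by
    by_cases hz : z ∈ Ω
    · exact mul_nonneg (h2 j z) (X.pρ z hz).le
    · rw [TF.zero (h1 j) hz, zero_mul]
  have iang : Integrable (fun z => χ j z * ρ z * ang2 κ z) := by
    have iφ : Integrable (fun z => χ j z * ρ z) :=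
      tφ.1.continuous.integrable_of_hasCompactSupport tφ.2.1
    refine iφ.mul_bdd (c := 2) (ang2_meas κ).aestronglyMeasurable (ae_of_all _ fun z => ?_)
    have := ang2_bd κ z
    rw [Real.norm_eq_abs, abs_of_nonneg this.1]
    exact this.2
  have hb4 : Bd Ω fun n z => u n z ^ 4 := fun S hS hSΩ => by
    obtain ⟨C, -, hC⟩ := X.K4 hS hSΩ
    exact ⟨C, hC⟩
  have loc := flux_ineq' X.oΩ X.rawG hb4 cw hM tφ tφ0 iang (show 0 < ε / 8 by positivity)
  filter_upwards [loc, X.h4 1 one_pos] with n n1 n3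
  rw [← hV] at n3 ⊢
  have e1 : ∫ z, χ j z * ρ z * (2 * (u n z * P w (u n z)) - w (u n z) ^ 2) =
      ∫ z, χ j z * g (u n z) ∂(area Ω ρ) := by rw [X.test (h1 j), hg]
  have e2 : ∫ z, χ j z * ρ z * u n z ^ 4 = ∫ z, χ j z * u n z ^ 4 ∂(area Ω ρ) :=
    X.test (h1 j) _
  have e3 : ∫ z, χ j z * ρ z * (2 - ang2 κ z) = ∫ z, χ j z * (2 - ang2 κ z) ∂(area Ω ρ) :=
    X.test (h1 j) _
  rw [e1, e2, e3] at n1
  have iA : Integrable (fun z => ang2 κ z) (area Ω ρ) :=
    Integrable.mono' (integrable_const (2 : ℝ)) (ang2_meas κ).aestronglyMeasurable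
      (ae_of_all _ fun z => by
        have := ang2_bd κ z
        rw [Real.norm_eq_abs, abs_of_nonneg this.1]; exact this.2)
  have iD : Integrable (fun z => 2 - ang2 κ z) (area Ω ρ) := (integrable_const 2).sub iA
  have i0 : Integrable (fun z => χ j z * (2 - ang2 κ z)) (area Ω ρ) :=
    Integrable.bdd_mul (c := 1) iD (h1 j).1.continuous.aestronglyMeasurable
      (ae_of_all _ fun z => by rw [Real.norm_eq_abs, abs_of_nonneg (h2 j z)]; exact h3 j z)
  have i3 : Integrable (fun z => 1 - χ j z) (area Ω ρ) := (integrable_const (1 : ℝ)).sub ij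
  have eV : (area Ω ρ).real Set.univ = V := by rw [hV]; rfl
  -- the direction term
  have b1 : 2 * V - (∫ z, ang2 κ z ∂(area Ω ρ)) - 2 * η ≤
      ∫ z, χ j z * (2 - ang2 κ z) ∂(area Ω ρ) := by
    have s1 : (∫ z, (2 - ang2 κ z) ∂(area Ω ρ)) - 2 * (∫ z, (1 - χ j z) ∂(area Ω ρ)) ≤
        ∫ z, χ j z * (2 - ang2 κ z) ∂(area Ω ρ) := by
      rw [← integral_const_mul, ← integral_sub iD (i3.const_mul 2)]
      refine integral_mono (iD.sub (i3.const_mul 2)) i0 fun z => ?_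
      have q := ang2_bd κ z
      have q0 : 0 ≤ 1 - χ j z := by linarith [h3 j z]
      show 2 - ang2 κ z - 2 * (1 - χ j z) ≤ χ j z * (2 - ang2 κ z)
      nlinarith [mul_nonneg q0 q.1]
    rw [integral_sub (integrable_const _) iA, integral_sub (integrable_const _) ij,
      integral_const, integral_const, smul_eq_mul, smul_eq_mul, mul_one] at s1
    rw [eV] at s1
    linarith
  have b2 : ∫ z, χ j z * u n z ^ 4 ∂(area Ω ρ) ≤ ∫ z, u n z ^ 4 ∂(area Ω ρ) := by
    refine integral_mono_of_nonneg (ae_of_all _ fun z => mul_nonneg (h2 j z) (by positivity))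
      (X.i4 _) (ae_of_all _ fun z => mul_le_of_le_one_left (by positivity) (h3 j z))
  have ig' : Integrable (fun z => g (u n z)) (area Ω ρ) := by
    refine Integrable.mono' (((X.i4 n).const_mul (ε / (8 * B))).add
      (integrable_const c)) (cg.comp_aestronglyMeasurable (X.ume _)) (ae_of_all _ fun z => hc _)
  have i5 : Integrable (fun z => χ j z * g (u n z)) (area Ω ρ) :=
    Integrable.bdd_mul (c := 1) ig' (h1 j).1.continuous.aestronglyMeasurable
      (ae_of_all _ fun z => by rw [Real.norm_eq_abs, abs_of_nonneg (h2 j z)]; exact h3 j z)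
  have b3 : (∫ z, g (u n z) ∂(area Ω ρ)) - ∫ z, χ j z * g (u n z) ∂(area Ω ρ) ≤
      ε / (8 * B) * (∫ z, u n z ^ 4 ∂(area Ω ρ)) + c * η := by
    have s1 : (∫ z, g (u n z) ∂(area Ω ρ)) - ∫ z, χ j z * g (u n z) ∂(area Ω ρ) ≤
        ∫ z, (ε / (8 * B) * u n z ^ 4 + c * (1 - χ j z)) ∂(area Ω ρ) := by
      rw [← integral_sub ig' i5]
      refine integral_mono (ig'.sub i5) (((X.i4 _).const_mul _).add (i3.const_mul c))
        fun z => ?_
      have q0 : 0 ≤ 1 - χ j z := by linarith [h3 j z]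
      have q1 : 1 - χ j z ≤ 1 := by linarith [h2 j z]
      show g (u n z) - χ j z * g (u n z) ≤ ε / (8 * B) * u n z ^ 4 + c * (1 - χ j z)
      have r0 := (le_abs_self _).trans (hc (u n z))
      have r1 := mul_le_mul_of_nonneg_left r0 q0
      have r2 : (1 - χ j z) * (ε / (8 * B) * u n z ^ 4) ≤
          ε / (8 * B) * u n z ^ 4 := mul_le_of_le_one_left (by positivity) q1
      nlinarith
    rw [integral_add ((X.i4 _).const_mul _) (i3.const_mul c), integral_const_mul,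
      integral_const_mul, integral_sub (integrable_const _) ij, integral_const, smul_eq_mul,
      mul_one] at s1
    rw [eV] at s1
    have s2 : c * (V - ∫ z, χ j z ∂(area Ω ρ)) ≤ c * η :=
      mul_le_mul_of_nonneg_left (by linarith) c0
    linarith
  have b4 : ε / (8 * B) * (∫ z, u n z ^ 4 ∂(area Ω ρ)) ≤ ε / 8 := by
    have r1 : ∫ z, u n z ^ 4 ∂(area Ω ρ) ≤ B := n3.trans (by
      rw [hB]; linarith [le_abs_self (K * V)])
    calc ε / (8 * B) * (∫ z, u n z ^ 4 ∂(area Ω ρ)) ≤ ε / (8 * B) * B :=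
        mul_le_mul_of_nonneg_left r1 (by positivity)
      _ = ε / 8 := by field_simp
  have b5 : (c + 3) * η = ε / 8 := by rw [hη]; field_simp
  have eF : ∫ z, (2 * (u n z * P w (u n z)) - w (u n z) ^ 2) ∂(area Ω ρ) =
      ∫ z, g (u n z) ∂(area Ω ρ) := by rw [hg]
  rw [eF]
  linarith

/-- a moment bound from a pointwise inequality -/
theorem cert (X : LD Ω ρ lam u κ K) {w : ℝ → ℝ} (cw : Continuous w) {M : ℝ}
    (hM : ∀ x, |P w x| ≤ M) (hw : ∀ x, |w x| ≤ M) {F : ℝ → ℝ} (cF : Continuous F) {c : ℝ}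
    (hF : ∀ x, |F x| ≤ c * (1 + x ^ 4)) {C a b l : ℝ} (b0 : 0 ≤ b) (l0 : 0 ≤ l)
    (pt : ∀ x, C + a * (x ^ 2 - 1) - b * (x ^ 4 - 3) -
      l * (2 * (x * P w x) - w x ^ 2 - 2) ≤ F x) {ε : ℝ} (hε : 0 < ε) :
    ∀ᶠ n in atTop, (C - (b + l) * (K - 3)) * (area Ω ρ Set.univ).toReal -
      l * ((∫ z, ang2 κ z ∂(area Ω ρ)) - (area Ω ρ Set.univ).toReal) - ε ≤
      ∫ z, F (u n z) ∂(area Ω ρ) := by
  have := X.fm
  have M0 : 0 ≤ M := (abs_nonneg _).trans (hw 0)
  obtain ⟨V, hV⟩ : ∃ V : ℝ, V = (area Ω ρ Set.univ).toReal := ⟨_, rfl⟩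
  obtain ⟨A, hA⟩ : ∃ A : ℝ, A = ∫ z, ang2 κ z ∂(area Ω ρ) := ⟨_, rfl⟩
  obtain ⟨δ, hδ⟩ : ∃ δ : ℝ, δ = ε / (|a| + b + 2 * l + 1) := ⟨_, rfl⟩
  have d0 : 0 < |a| + b + 2 * l + 1 := by positivity
  have δ0 : 0 < δ := by rw [hδ]; positivity
  have eδ : (|a| + b + 2 * l + 1) * δ = ε := by rw [hδ]; field_simp
  have two := X.two
  filter_upwards [flux_glob X cw hM hw δ0, X.h4 δ δ0,
    two.eventually (gt_mem_nhds (show (area Ω ρ Set.univ).toReal <
      (area Ω ρ Set.univ).toReal + δ by linarith)),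
    two.eventually (lt_mem_nhds (show (area Ω ρ Set.univ).toReal - δ <
      (area Ω ρ Set.univ).toReal by linarith))] with n n1 n2 n3 n4
  rw [← hV] at n1 n2 n3 n4 ⊢
  rw [← hA] at n1 ⊢
  have d1 : Integrable (fun z => 1 + u n z ^ 4) (area Ω ρ) :=
    (integrable_const (1 : ℝ)).add (X.i4 n)
  have cp2 : Continuous (fun x : ℝ => x ^ 2) := continuous_pow 2
  have m2 : AEStronglyMeasurable (fun z => u n z ^ 2) (area Ω ρ) :=
    cp2.comp_aestronglyMeasurable (X.ume n)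
  have i2 : Integrable (fun z => u n z ^ 2) (area Ω ρ) := by
    refine Integrable.mono' d1 m2 (ae_of_all _ fun z => ?_)
    show ‖u n z ^ 2‖ ≤ 1 + u n z ^ 4
    rw [Real.norm_eq_abs, abs_of_nonneg (sq_nonneg _)]
    nlinarith [sq_nonneg (u n z ^ 2 - 1), sq_nonneg (u n z)]
  have i4 := X.i4 n
  have mF : AEStronglyMeasurable (fun z => F (u n z)) (area Ω ρ) :=
    cF.comp_aestronglyMeasurable (X.ume n)
  have iF : Integrable (fun z => F (u n z)) (area Ω ρ) :=
    Integrable.mono' (d1.const_mul c) mF (ae_of_all _ fun z => hF (u n z))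
  have iw : Integrable (fun z => 2 * (u n z * P w (u n z)) - w (u n z) ^ 2) (area Ω ρ) := by
    have cg : Continuous (fun x : ℝ => 2 * (x * P w x) - w x ^ 2) :=
      (continuous_const.mul (continuous_id.mul (P_c cw))).sub (cw.pow 2)
    have mg : AEStronglyMeasurable (fun z => 2 * (u n z * P w (u n z)) - w (u n z) ^ 2)
        (area Ω ρ) := cg.comp_aestronglyMeasurable (X.ume n)
    refine Integrable.mono' (d1.const_mul (4 * M + M ^ 2)) mg (ae_of_all _ fun z => ?_)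
    show |2 * (u n z * P w (u n z)) - w (u n z) ^ 2| ≤ (4 * M + M ^ 2) * (1 + u n z ^ 4)
    obtain ⟨x, hx⟩ : ∃ x, x = u n z := ⟨_, rfl⟩
    rw [← hx]
    refine (abs_sub _ _).trans ?_
    have h1 : |2 * (x * P w x)| ≤ 2 * M * |x| := by
      rw [abs_mul, abs_mul, abs_two]
      have := mul_le_mul_of_nonneg_left (hM x) (abs_nonneg x)
      linarith
    have h2 : |w x ^ 2| ≤ M ^ 2 := by
      rw [abs_pow]
      exact pow_le_pow_left₀ (abs_nonneg _) (hw x) 2
    have h3 : |x| ≤ 1 + x ^ 4 := by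
      rw [abs_le]
      constructor <;>
        nlinarith [sq_nonneg (x ^ 2 - 1), sq_nonneg (x - 1), sq_nonneg (x + 1)]
    have h4 := mul_le_mul_of_nonneg_left h3 M0
    have h5 : 0 ≤ M ^ 2 * x ^ 4 := by positivity
    have h6 : 0 ≤ M * (1 + x ^ 4) := by positivity
    nlinarith
  have s2 : Integrable (fun z => u n z ^ 2 - 1) (area Ω ρ) := i2.sub (integrable_const 1)
  have s4 : Integrable (fun z => u n z ^ 4 - 3) (area Ω ρ) := i4.sub (integrable_const 3)
  have sw : Integrable (fun z => 2 * (u n z * P w (u n z)) - w (u n z) ^ 2 - 2) (area Ω ρ) :=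
    iw.sub (integrable_const 2)
  have j1 : Integrable (fun z => C + a * (u n z ^ 2 - 1)) (area Ω ρ) :=
    (integrable_const C).add (s2.const_mul a)
  have j2 : Integrable (fun z => C + a * (u n z ^ 2 - 1) - b * (u n z ^ 4 - 3)) (area Ω ρ) :=
    j1.sub (s4.const_mul b)
  have j3 : Integrable (fun z => C + a * (u n z ^ 2 - 1) - b * (u n z ^ 4 - 3) -
      l * (2 * (u n z * P w (u n z)) - w (u n z) ^ 2 - 2)) (area Ω ρ) := j2.sub (sw.const_mul l)
  have tot : ∫ z, (C + a * (u n z ^ 2 - 1) - b * (u n z ^ 4 - 3) -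
      l * (2 * (u n z * P w (u n z)) - w (u n z) ^ 2 - 2)) ∂(area Ω ρ) ≤
      ∫ z, F (u n z) ∂(area Ω ρ) := integral_mono j3 iF (fun z => pt (u n z))
  have e1 : ∫ z, (C + a * (u n z ^ 2 - 1) - b * (u n z ^ 4 - 3) -
      l * (2 * (u n z * P w (u n z)) - w (u n z) ^ 2 - 2)) ∂(area Ω ρ) =
      C * V + a * ((∫ z, u n z ^ 2 ∂(area Ω ρ)) - V) - b * ((∫ z, u n z ^ 4 ∂(area Ω ρ)) - 3 * V) -
      l * ((∫ z, (2 * (u n z * P w (u n z)) - w (u n z) ^ 2) ∂(area Ω ρ)) - 2 * V) := by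
    have eV : ∀ t : ℝ, ∫ _z : ℂ, t ∂(area Ω ρ) = t * V := fun t => by
      rw [integral_const, smul_eq_mul, hV, mul_comm]; rfl
    rw [integral_sub j2 (sw.const_mul l), integral_sub j1 (s4.const_mul b),
      integral_add (integrable_const C) (s2.const_mul a),
      integral_const_mul, integral_const_mul, integral_const_mul,
      integral_sub i2 (integrable_const 1), integral_sub i4 (integrable_const 3),
      integral_sub iw (integrable_const 2), eV, eV, eV, eV]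
    ring
  rw [e1] at tot
  have f1 : l * ((∫ z, (2 * (u n z * P w (u n z)) - w (u n z) ^ 2) ∂(area Ω ρ)) - 2 * V) ≤
      l * (((∫ z, u n z ^ 4 ∂(area Ω ρ)) - 2 * V + A + δ) - 2 * V) :=
    mul_le_mul_of_nonneg_left (by linarith) l0
  have f2 : (b + l) * (∫ z, u n z ^ 4 ∂(area Ω ρ)) ≤ (b + l) * (K * V + δ) :=
    mul_le_mul_of_nonneg_left n2 (by positivity)
  have f3 : -(|a| * δ) ≤ a * ((∫ z, u n z ^ 2 ∂(area Ω ρ)) - V) := by
    have h1 : |a * ((∫ z, u n z ^ 2 ∂(area Ω ρ)) - V)| ≤ |a| * δ := by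
      rw [abs_mul]
      refine mul_le_mul_of_nonneg_left ?_ (abs_nonneg a)
      rw [abs_le]
      constructor <;> linarith
    exact (abs_le.1 h1).1
  linarith

end

end Pool.Agent.Q175.RW.SX
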