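import Pool.Agent.Q175.RW.SX4

/-! The profiles for the first and the third absolute moment. -/
set_option autoImplicit false
open MeasureTheory Filter Topology Complex ProbabilityTheory
open scoped ContDiff ENNReal

namespace Pool.Agent.Q175.RW.SX

open Pool.Agent.W745.RW Pool.Agent.TH294.RS Pool.Agent.Q175.RW.LL
open Pool.Agent.TH294.RG (RawG ea par ea_meas ea_norm)
open Pool.Agent.Y139.PD (area)

noncomputable section

/-- cubic profiles -/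
def vq (p q r t : ℝ) : ℝ := p * t + q * t ^ 2 + r * t ^ 3
def Vq (p q r t : ℝ) : ℝ := p * t ^ 2 / 2 + q * t ^ 3 / 3 + r * t ^ 4 / 4

lemma Vq_d (p q r x : ℝ) : HasDerivAt (Vq p q r) (vq p q r x) x := by
  have h2 := ((hasDerivAt_pow 2 x).const_mul p).div_const (2 : ℝ)
  have h3 := ((hasDerivAt_pow 3 x).const_mul q).div_const (3 : ℝ)
  have h4 := ((hasDerivAt_pow 4 x).const_mul r).div_const (4 : ℝ)
  refine ((h2.add h3).add h4).congr_deriv ?_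
  unfold vq; push_cast; ring

lemma vq_c (p q r : ℝ) : Continuous (vq p q r) := by unfold vq; fun_prop
lemma Vq_0 (p q r : ℝ) : Vq p q r 0 = 0 := by unfold Vq; norm_num

def w1 (x : ℝ) : ℝ := vq (33 / 4) (-141 / 20) (3 / 2) (min |x| (5 / 2))
def w3 (x : ℝ) : ℝ := vq 6 (-3) 0 (min |x| 2)

lemma w1_c : Continuous w1 := by
  unfold w1
  have := vq_c (33 / 4) (-141 / 20) (3 / 2)
  fun_prop

lemma w3_c : Continuous w3 := by
  unfold w3
  have := vq_c 6 (-3) 0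
  fun_prop

lemma w1_R : vq (33 / 4) (-141 / 20) (3 / 2) (5 / 2) = 0 := by unfold vq; norm_num
lemma w3_R : vq 6 (-3) 0 2 = 0 := by unfold vq; norm_num

lemma w1_x (x : ℝ) : x * P w1 x = |x| * Vq (33 / 4) (-141 / 20) (3 / 2) (min |x| (5 / 2)) :=
  xP (by norm_num) (Vq_d _ _ _) (Vq_0 _ _ _) w1_R (vq_c _ _ _) x

lemma w3_x (x : ℝ) : x * P w3 x = |x| * Vq 6 (-3) 0 (min |x| 2) :=
  xP (by norm_num) (Vq_d _ _ _) (Vq_0 _ _ _) w3_R (vq_c _ _ _) x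

lemma w_bd {v : ℝ → ℝ} (cv : Continuous v) {R : ℝ} (hR : 0 ≤ R) :
    ∃ M : ℝ, ∀ x, |v (min |x| R)| ≤ M := by
  obtain ⟨M, hM⟩ := (isCompact_Icc (a := (0 : ℝ)) (b := R)).exists_bound_of_continuousOn
    cv.continuousOn
  exact ⟨M, fun x => hM _ ⟨le_min (abs_nonneg x) hR, min_le_right _ _⟩⟩

lemma w1_bd : ∃ M : ℝ, (∀ x, |P w1 x| ≤ M) ∧ ∀ x, |w1 x| ≤ M := by
  obtain ⟨M, hM⟩ := P_bd (R := 5 / 2) (by norm_num) (Vq_d (33 / 4) (-141 / 20) (3 / 2))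
    (Vq_0 _ _ _) w1_R (vq_c _ _ _)
  obtain ⟨N, hN⟩ := w_bd (vq_c (33 / 4) (-141 / 20) (3 / 2)) (R := 5 / 2) (by norm_num)
  exact ⟨max M N, fun x => (hM x).trans (le_max_left _ _), fun x => (hN x).trans (le_max_right _ _)⟩

lemma w3_bd : ∃ M : ℝ, (∀ x, |P w3 x| ≤ M) ∧ ∀ x, |w3 x| ≤ M := by
  obtain ⟨M, hM⟩ := P_bd (R := 2) (by norm_num) (Vq_d 6 (-3) 0)
    (Vq_0 _ _ _) w3_R (vq_c _ _ _)
  obtain ⟨N, hN⟩ := w_bd (vq_c 6 (-3) 0) (R := 2) (by norm_num)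
  exact ⟨max M N, fun x => (hM x).trans (le_max_left _ _), fun x => (hN x).trans (le_max_right _ _)⟩

lemma Q1_nn {t : ℝ} (h0 : 0 ≤ t) (h1 : t ≤ 5 / 2) :
    0 ≤ 3 / 1000 + t - 28411 / 8000 * t ^ 2 + 94677 / 20000 * t ^ 3 - 585159 / 200000 * t ^ 4 +
      4161 / 5000 * t ^ 5 - 171 / 2000 * t ^ 6 := by
  have e : 3 / 1000 + t - 28411 / 8000 * t ^ 2 + 94677 / 20000 * t ^ 3 - 585159 / 200000 * t ^ 4 +
      4161 / 5000 * t ^ 5 - 171 / 2000 * t ^ 6 =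
      (-3873 / 100000 - 272939 / 1000000 * t + 310703 / 500000 * t ^ 2 -
        48357 / 200000 * t ^ 3) ^ 2 +
      t * (5 / 2 - t) * (312867 / 500000 - 509193 / 500000 * t + 379421 / 1000000 * t ^ 2) ^ 2 +
      (14999871 / 10000000000 + 54817 / 100000000000 * t + 35283 / 200000000000 * t ^ 2 -
        62621 / 25000000000 * t ^ 3 + 366061 / 125000000000 * t ^ 4 -
        3015389 / 2000000000000 * t ^ 5 + 38627 / 125000000000 * t ^ 6) := by ring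
  rw [e]
  have a1 : 0 ≤ t * (5 / 2 - t) *
      (312867 / 500000 - 509193 / 500000 * t + 379421 / 1000000 * t ^ 2) ^ 2 :=
    mul_nonneg (mul_nonneg h0 (by linarith)) (sq_nonneg _)
  have b3 : t ^ 3 ≤ (5 / 2) ^ 3 := pow_le_pow_left₀ h0 h1 3
  have b5 : t ^ 5 ≤ (5 / 2) ^ 5 := pow_le_pow_left₀ h0 h1 5
  have c2 : 0 ≤ t ^ 2 := by positivity
  have c4 : 0 ≤ t ^ 4 := by positivity
  have c6 : 0 ≤ t ^ 6 := by positivity
  have s := sq_nonneg (-3873 / 100000 - 272939 / 1000000 * t + 310703 / 500000 * t ^ 2 -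
        48357 / 200000 * t ^ 3)
  have r : 0 ≤ 14999871 / 10000000000 + 54817 / 100000000000 * t + 35283 / 200000000000 * t ^ 2 -
        62621 / 25000000000 * t ^ 3 + 366061 / 125000000000 * t ^ 4 -
        3015389 / 2000000000000 * t ^ 5 + 38627 / 125000000000 * t ^ 6 := by
    norm_num at b3 b5
    linarith
  linarith

/-- the pointwise inequality for the first absolute moment -/
lemma key1 (x : ℝ) : 16 / 25 + 193 / 200 * (x ^ 2 - 1) - 41 / 500 * (x ^ 4 - 3) -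
    19 / 500 * (2 * (x * P w1 x) - w1 x ^ 2 - 2) ≤ |x| := by
  rw [w1_x]
  obtain ⟨t, ht⟩ : ∃ t, t = |x| := ⟨_, rfl⟩
  have t0 : 0 ≤ t := by rw [ht]; exact abs_nonneg x
  have e2 : x ^ 2 = t ^ 2 := by rw [ht, sq_abs]
  have e4 : x ^ 4 = t ^ 4 := by
    have : x ^ 4 = (x ^ 2) ^ 2 := by ring
    rw [this, e2]; ring
  unfold w1
  rw [e2, e4, ← ht]
  rcases le_total t (5 / 2) with h | h
  · rw [min_eq_left h]
    have := Q1_nn t0 h
    unfold Vq vq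
    nlinarith
  · rw [min_eq_right h, w1_R]
    obtain ⟨s, hs⟩ : ∃ s, s = t - 5 / 2 := ⟨_, rfl⟩
    have s0 : 0 ≤ s := by linarith
    have et : t = s + 5 / 2 := by linarith
    rw [et]
    unfold Vq
    have k1 : 0 ≤ s ^ 3 := by positivity
    have k2 : 0 ≤ s ^ 4 := by positivity
    have k3 : 0 ≤ s ^ 2 := by positivity
    nlinarith

/-- the pointwise inequality for the third absolute moment -/
lemma key3 (x : ℝ) : -17 / 10 + -43 / 50 * (x ^ 2 - 1) - 261 / 1000 * (x ^ 4 - 3) -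
    3 / 125 * (2 * (x * P w3 x) - w3 x ^ 2 - 2) ≤ -|x| ^ 3 := by
  rw [w3_x]
  obtain ⟨t, ht⟩ : ∃ t, t = |x| := ⟨_, rfl⟩
  have t0 : 0 ≤ t := by rw [ht]; exact abs_nonneg x
  have e2 : x ^ 2 = t ^ 2 := by rw [ht, sq_abs]
  have e4 : x ^ 4 = t ^ 4 := by
    have : x ^ 4 = (x ^ 2) ^ 2 := by ring
    rw [this, e2]; ring
  unfold w3
  rw [e2, e4, ← ht]
  rcases le_total t 2 with h | h
  · rw [min_eq_left h]
    have q : 0 ≤ 9 / 1000 - 1 / 250 * t ^ 2 + 1 / 125 * t ^ 3 - 3 / 1000 * t ^ 4 := by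
      nlinarith [mul_nonneg (mul_nonneg t0 t0) (sub_nonneg.2 h), mul_nonneg t0 (sub_nonneg.2 h),
        mul_nonneg (mul_nonneg (mul_nonneg t0 t0) t0) (sub_nonneg.2 h), sq_nonneg (t - 1 / 2)]
    unfold Vq vq
    nlinarith
  · rw [min_eq_right h, w3_R]
    obtain ⟨s, hs⟩ : ∃ s, s = t - 2 := ⟨_, rfl⟩
    have s0 : 0 ≤ s := by linarith
    have et : t = s + 2 := by linarith
    rw [et]
    unfold Vq
    have k1 : 0 ≤ s ^ 3 := by positivity
    have k2 : 0 ≤ s ^ 4 := by positivity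
    nlinarith [sq_nonneg (s - 1 / 100)]

variable {Ω : Set ℂ} {ρ : ℂ → ℝ} {lam : ℕ → ℝ} {u : ℕ → ℂ → ℝ} {κ : Kernel ℂ ℝ} {K : ℝ}

variable [IsMarkovKernel κ]

lemma gr1 (x : ℝ) : |(|x|)| ≤ 1 * (1 + x ^ 4) := by
  rw [abs_abs, abs_le]
  constructor <;> nlinarith [sq_nonneg (x ^ 2 - 1), sq_nonneg (x - 1), sq_nonneg (x + 1)]

lemma gr3 (x : ℝ) : |(-|x| ^ 3)| ≤ 1 * (1 + x ^ 4) := by
  rw [abs_neg, abs_of_nonneg (by positivity)]
  obtain ⟨t, ht⟩ : ∃ t, t = |x| := ⟨_, rfl⟩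
  have t0 : 0 ≤ t := by rw [ht]; exact abs_nonneg x
  have e4 : x ^ 4 = t ^ 4 := by rw [ht, ← abs_pow, abs_of_nonneg (by positivity)]
  rw [e4, ← ht]
  nlinarith [sq_nonneg (t ^ 2 - t), sq_nonneg (t ^ 2 - 1), sq_nonneg (t - 1), sq_nonneg t]

/-- **the first absolute moment** -/
theorem abs_low (X : LD Ω ρ lam u κ K) {ε : ℝ} (hε : 0 < ε) :
    ∀ᶠ n in atTop, (16 / 25 - 3 / 25 * (K - 3)) * (area Ω ρ Set.univ).toReal -
      19 / 500 * ((∫ z, ang2 κ z ∂(area Ω ρ)) - (area Ω ρ Set.univ).toReal) - ε ≤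
      ∫ z, |u n z| ∂(area Ω ρ) := by
  obtain ⟨M, h1, h2⟩ := w1_bd
  refine (cert X w1_c h1 h2 (F := fun x => |x|) continuous_abs gr1 (b := 41 / 500) (l := 19 / 500)
    (by norm_num) (by norm_num) key1 hε).mono fun n hn => le_trans (le_of_eq ?_) hn
  norm_num

/-- **the third absolute moment** -/
theorem abs3_up (X : LD Ω ρ lam u κ K) {ε : ℝ} (hε : 0 < ε) :
    ∀ᶠ n in atTop, ∫ z, |u n z| ^ 3 ∂(area Ω ρ) ≤
      (17 / 10 + 57 / 200 * (K - 3)) * (area Ω ρ Set.univ).toReal +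
      3 / 125 * ((∫ z, ang2 κ z ∂(area Ω ρ)) - (area Ω ρ Set.univ).toReal) + ε := by
  obtain ⟨M, h1, h2⟩ := w3_bd
  have cF : Continuous (fun x : ℝ => -|x| ^ 3) := (continuous_abs.pow 3).neg
  refine (cert X w3_c h1 h2 (F := fun x => -|x| ^ 3) cF gr3 (b := 261 / 1000) (l := 3 / 125)
    (by norm_num) (by norm_num) key3 hε).mono fun n hn => ?_
  rw [integral_neg] at hn
  have e : (-17 / 10 - (261 / 1000 + 3 / 125) * (K - 3)) * (area Ω ρ Set.univ).toReal =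
      -((17 / 10 + 57 / 200 * (K - 3)) * (area Ω ρ Set.univ).toReal) := by ring
  rw [e] at hn
  linarith

end

end Pool.Agent.Q175.RW.SX
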