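import Pool.Agent.Q175.RW.SX3

/-! The sixth moment for arbitrary directions. -/
set_option autoImplicit false
open MeasureTheory Filter Topology Complex ProbabilityTheory
open scoped ContDiff ENNReal

namespace Pool.Agent.Q175.RW.SX

open Pool.Agent.W745.RW Pool.Agent.TH294.RS
open Pool.Agent.TH294.RG (RawG ea par ea_meas ea_norm opP sR AG)
open Pool.Agent.TH421.AC (rint out_int rsd rdA)

noncomputable section

variable {B : Set ℂ} {a : ℂ → ℝ} {h : ℕ → ℝ} {u : ℕ → ℂ → ℝ} {κ : Kernel ℂ ℝ}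

variable [IsMarkovKernel κ]

/-- the second moment -/
lemma two_lim' (H : RawG B a h u (TH294.RG.MM (fun _ => 1) ea κ)) {φ : ℂ → ℝ} (hφ : TF B φ) :
    Tendsto (fun n => ∫ z, φ z * u n z ^ 2) atTop (𝓝 (∫ z, φ z)) := by
  have h1 := H.qe φ hφ 0
  have h2 := (Complex.continuous_re.tendsto _).comp h1
  have e1 : (∫ z, (φ z : ℂ) * TH294.RG.MM (fun _ => (1 : ℝ)) ea κ 0 z) =
      ((∫ z, φ z : ℝ) : ℂ) := by
    rw [← integral_complex_ofReal]
    congr 1; funext z
    rw [TH294.RG.MM_0]; simp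
  rw [e1, ofReal_re] at h2
  refine h2.congr fun n => ?_
  show (∫ z, (φ z : ℂ) * ((u n z : ℂ) * (DP a (h n))^[0] (fun w => (u n w : ℂ)) z)).re = _
  have e2 : (∫ z, (φ z : ℂ) * ((u n z : ℂ) * (DP a (h n))^[0] (fun w => (u n w : ℂ)) z)) =
      ((∫ z, φ z * u n z ^ 2 : ℝ) : ℂ) := by
    rw [← integral_complex_ofReal]
    congr 1; funext z
    simp only [Function.iterate_zero, id_eq]
    push_cast; ring
  rw [e2, ofReal_re]

/-- the lower bound of the sixth moment -/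
def W6 (κ : Kernel ℂ ℝ) (z : ℂ) : ℝ :=
  10 - 5 / 8 * (ang2 κ z - 1) - 201 / 20 * par ea (κ z)

lemma W6_meas : Measurable (W6 κ) :=
  (measurable_const.sub (((ang2_meas κ).sub_const 1).const_mul _)).sub
    ((TH294.RG.par_meas (ν := κ) ea_meas).const_mul _)

lemma W6_bd (z : ℂ) : |W6 κ z| ≤ 21 := by
  have h1 := ang2_bd κ z
  have h2 := TH294.RG.par_nn ea (κ z)
  have h3 := TH294.RG.par_le ea (κ z)
  unfold W6
  rw [abs_le]
  constructor <;> linarith

lemma iφb {φ : ℂ → ℝ} (iφ : Integrable φ) {b : ℂ → ℝ} (mb : Measurable b) {C : ℝ}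
    (hb : ∀ z, |b z| ≤ C) : Integrable (fun z => φ z * b z) :=
  iφ.mul_bdd (c := C) mb.aestronglyMeasurable (ae_of_all _ fun z => hb z)

lemma i_ang {φ : ℂ → ℝ} (iφ : Integrable φ) : Integrable (fun z => φ z * ang2 κ z) :=
  iφb iφ (ang2_meas κ) (C := 2) fun z => by
    have := ang2_bd κ z
    rw [abs_of_nonneg this.1]; exact this.2

lemma i_par {φ : ℂ → ℝ} (iφ : Integrable φ) : Integrable (fun z => φ z * par ea (κ z)) :=
  iφb iφ (TH294.RG.par_meas (ν := κ) ea_meas) (C := 1) fun z => by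
    rw [abs_of_nonneg (TH294.RG.par_nn ea (κ z))]; exact TH294.RG.par_le ea (κ z)

/-- the fourth moment from below -/
lemma four_low' (hB : IsOpen B) (H : RawG B a h u (TH294.RG.MM (fun _ => 1) ea κ)) {φ : ℂ → ℝ}
    (hφ : TF B φ) (hφ0 : ∀ z, 0 ≤ φ z) {ε : ℝ} (hε : 0 < ε) :
    ∀ᶠ n in atTop, 3 * (∫ z, φ z) - 3 / 2 * (∫ z, φ z * par ea (κ z)) - ε ≤
      ∫ z, φ z * u n z ^ 4 := by
  have h1 := TH294.RG.RawG.main hB (m := fun _ => 1) (ν := κ) ea_meas ea_norm
    (fun K hK _ => mem1 K hK) H hφ hφ0 hε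
  have iφ : Integrable φ := hφ.1.continuous.integrable_of_hasCompactSupport hφ.2.1
  have e : ∫ z, φ z * TH294.RG.GD (fun _ => 1) ea κ z =
      3 * (∫ z, φ z) - 3 / 2 * ∫ z, φ z * par ea (κ z) := by
    rw [← integral_const_mul, ← integral_const_mul,
      ← integral_sub (iφ.const_mul _) ((i_par iφ).const_mul _)]
    congr 1; funext z
    unfold TH294.RG.GD
    ring
  rw [e] at h1
  exact h1

/-- the sixth moment from below under local bounds -/
theorem six_loc' (hB : IsOpen B) (H : RawG B a h u (TH294.RG.MM (fun _ => 1) ea κ))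
    (hb : Bd B fun n z => u n z ^ 4)
    {φ : ℂ → ℝ} (hφ : TF B φ) (hφ0 : ∀ z, 0 ≤ φ z) {ε : ℝ} (hε : 0 < ε) :
    ∀ᶠ n in atTop, (∫ z, φ z * W6 κ z) - ε ≤ ∫ z, φ z * u n z ^ 6 := by
  obtain ⟨M, hM⟩ := P_bd (by norm_num) V6_d V6_0 v6_R v6_c
  have hM' : ∀ x, |P w6 x| ≤ M := hM
  have iφ : Integrable φ := hφ.1.continuous.integrable_of_hasCompactSupport hφ.2.1
  have f1 := flux_ineq' hB H hb w6_c hM' hφ hφ0 (i_ang iφ) (show 0 < ε / 100 by positivity)
  have f2 := four_low' hB H hφ hφ0 (show 0 < ε / 100 by positivity)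
  have f3 := (two_lim' H hφ).eventually (gt_mem_nhds
    (show (∫ z, φ z) < (∫ z, φ z) + ε / 100 by linarith))
  have hSc : IsCompact (tsupport φ) := hφ.2.1
  have hSB : tsupport φ ⊆ B := hφ.2.2
  have z0 : ∀ z, z ∉ tsupport φ → φ z = 0 := fun z hz => image_eq_zero_of_notMem_tsupport hz
  have cφ : Continuous φ := hφ.1.continuous
  have eD : ∫ z, φ z * (2 - ang2 κ z) = 2 * (∫ z, φ z) - ∫ z, φ z * ang2 κ z := by
    rw [← integral_const_mul, ← integral_sub (iφ.const_mul _) (i_ang iφ)]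
    congr 1; funext z; ring
  have eW : ∫ z, φ z * W6 κ z = 85 / 8 * (∫ z, φ z) - 5 / 8 * (∫ z, φ z * ang2 κ z) -
      201 / 20 * ∫ z, φ z * par ea (κ z) := by
    have j1 : Integrable (fun z => 85 / 8 * φ z - 5 / 8 * (φ z * ang2 κ z)) :=
      (iφ.const_mul _).sub ((i_ang iφ).const_mul _)
    rw [← integral_const_mul, ← integral_const_mul, ← integral_const_mul,
      ← integral_sub (iφ.const_mul _) ((i_ang iφ).const_mul _),
      ← integral_sub j1 ((i_par iφ).const_mul _)]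
    congr 1; funext z
    unfold W6
    ring
  rw [eW]
  rw [eD] at f1
  filter_upwards [f1, f2, f3] with n n1 n2 n3
  have cu : ContinuousOn (u n) (tsupport φ) := (H.sm n).continuousOn.mono hSB
  have cP : ContinuousOn (fun z => P w6 (u n z)) (tsupport φ) := (P_c w6_c).comp_continuousOn cu
  have cwu : ContinuousOn (fun z => w6 (u n z)) (tsupport φ) := w6_c.comp_continuousOn cu
  have ik : ∀ k : ℕ, Integrable (fun z => φ z * u n z ^ k) := fun k =>
    rint hSc (cφ.continuousOn.mul (cu.pow k)) fun z hz => by rw [z0 z hz, zero_mul]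
  have iw : Integrable (fun z => φ z * (2 * (u n z * P w6 (u n z)) - w6 (u n z) ^ 2)) :=
    rint hSc (cφ.continuousOn.mul ((continuousOn_const.mul (cu.mul cP)).sub (cwu.pow 2)))
      fun z hz => by rw [z0 z hz, zero_mul]
  have pt : ∀ z, φ z * (10 - 107 / 10 * (u n z ^ 2 - 1) + 67 / 10 * (u n z ^ 4 - 3)) ≤
      φ z * (u n z ^ 6 + 5 / 8 * (2 * (u n z * P w6 (u n z)) - w6 (u n z) ^ 2 - u n z ^ 4 + 1)) :=
    fun z => mul_le_mul_of_nonneg_left (key6 (u n z)) (hφ0 z)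
  have e1 : ∫ z, φ z * (10 - 107 / 10 * (u n z ^ 2 - 1) + 67 / 10 * (u n z ^ 4 - 3)) =
      (3 / 5) * (∫ z, φ z) - 107 / 10 * (∫ z, φ z * u n z ^ 2) +
        67 / 10 * ∫ z, φ z * u n z ^ 4 := by
    have j1 : Integrable (fun z => (3 / 5) * φ z - 107 / 10 * (φ z * u n z ^ 2)) :=
      (iφ.const_mul _).sub ((ik 2).const_mul _)
    rw [← integral_const_mul, ← integral_const_mul, ← integral_const_mul,
      ← integral_sub (iφ.const_mul _) ((ik 2).const_mul _), ← integral_add j1 ((ik 4).const_mul _)]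
    congr 1; funext z; ring
  have e2 : ∫ z, φ z * (u n z ^ 6 + 5 / 8 * (2 * (u n z * P w6 (u n z)) - w6 (u n z) ^ 2 -
      u n z ^ 4 + 1)) = (∫ z, φ z * u n z ^ 6) +
      5 / 8 * (∫ z, φ z * (2 * (u n z * P w6 (u n z)) - w6 (u n z) ^ 2)) -
      5 / 8 * (∫ z, φ z * u n z ^ 4) + 5 / 8 * ∫ z, φ z := by
    have j1 : Integrable (fun z => φ z * u n z ^ 6 +
      5 / 8 * (φ z * (2 * (u n z * P w6 (u n z)) - w6 (u n z) ^ 2))) :=
      (ik 6).add (iw.const_mul _)
    have j2 : Integrable (fun z => φ z * u n z ^ 6 +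
      5 / 8 * (φ z * (2 * (u n z * P w6 (u n z)) - w6 (u n z) ^ 2)) -
      5 / 8 * (φ z * u n z ^ 4)) := j1.sub ((ik 4).const_mul _)
    rw [← integral_const_mul, ← integral_const_mul, ← integral_const_mul,
      ← integral_add (ik 6) (iw.const_mul _), ← integral_sub j1 ((ik 4).const_mul _),
      ← integral_add j2 (iφ.const_mul _)]
    congr 1; funext z; ring
  have tot := integral_mono (f := fun z => φ z * (10 - 107 / 10 * (u n z ^ 2 - 1) +
      67 / 10 * (u n z ^ 4 - 3)))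
    (g := fun z => φ z * (u n z ^ 6 + 5 / 8 * (2 * (u n z * P w6 (u n z)) - w6 (u n z) ^ 2 -
      u n z ^ 4 + 1)))
    (rint hSc (cφ.continuousOn.mul ((continuousOn_const.sub (continuousOn_const.mul
      ((cu.pow 2).sub continuousOn_const))).add (continuousOn_const.mul
      ((cu.pow 4).sub continuousOn_const)))) fun z hz => by rw [z0 z hz, zero_mul])
    (rint hSc (cφ.continuousOn.mul ((cu.pow 6).add (continuousOn_const.mul
      ((((continuousOn_const.mul (cu.mul cP)).sub (cwu.pow 2)).sub (cu.pow 4)).add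
        continuousOn_const)))) fun z hz => by rw [z0 z hz, zero_mul]) pt
  rw [e1, e2] at tot
  linarith

/-- **The sixth moment**, for all test functions and all directions -/
theorem six_all {Ω : Set ℂ} (hΩ : IsOpen Ω) (H : RawG Ω a h u (TH294.RG.MM (fun _ => 1) ea κ))
    {ψ : ℂ → ℝ} (hψ : TF Ω ψ) (hψ0 : ∀ z, 0 ≤ ψ z) {ε : ℝ} (hε : 0 < ε) :
    ∀ᶠ n in atTop, (∫ z, ψ z * W6 κ z) - ε ≤ ∫ z, ψ z * u n z ^ 6 := by
  have ev : ∀ x : ℝ, 0 ≤ x ^ 6 := fun x => by positivity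
  by_contra hcon
  rw [not_eventually] at hcon
  obtain ⟨σ, hσ, hσ'⟩ := extraction_of_frequently_atTop hcon
  obtain ⟨M, hM⟩ : ∃ M : ℝ, M = (∫ z, ψ z * W6 κ z) - ε := ⟨_, rfl⟩
  have hσM : ∀ n, ∫ z, ψ z * u (σ n) z ^ 6 < M := fun n => by
    rw [hM]; exact not_le.1 (hσ' n)
  obtain ⟨B, hBdef⟩ : ∃ B : Set ℂ, B = {z | 0 < ψ z} := ⟨_, rfl⟩
  have hB : IsOpen B := by rw [hBdef]; exact isOpen_lt continuous_const hψ.1.continuous
  have hBΩ : B ⊆ Ω := by
    intro z hz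
    rw [hBdef] at hz
    apply hψ.2.2
    apply subset_tsupport
    exact (ne_of_gt hz : ψ z ≠ 0)
  have HB := H.sub hBΩ hσ
  have hint : ∀ n, Integrable (fun z => ψ z * u (σ n) z ^ 6) := fun n =>
    Pool.Agent.W311.RW.int_mul hΩ hψ ((H.sm (σ n)).continuousOn.pow _)
  have hnn : ∀ n z, 0 ≤ ψ z * u (σ n) z ^ 6 := fun n z => mul_nonneg (hψ0 z) (ev _)
  have hb : Bd B fun n z => u (σ n) z ^ 4 := by
    intro K hK hKB
    obtain ⟨c, hc, hc'⟩ : ∃ c : ℝ, 0 < c ∧ ∀ z ∈ K, c ≤ ψ z := by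
      by_cases hne : K.Nonempty
      · obtain ⟨z0, hz0, hmin⟩ := hK.exists_isMinOn hne hψ.1.continuous.continuousOn
        refine ⟨ψ z0, ?_, fun z hz => hmin hz⟩
        have := hKB hz0
        rw [hBdef] at this
        exact this
      · exact ⟨1, one_pos, fun z hz => absurd ⟨z, hz⟩ hne⟩
    refine ⟨1 * ((∫ z in K, (1 : ℝ)) + c⁻¹ * M), Eventually.of_forall fun n => ?_⟩
    have c0 : ContinuousOn (u (σ n)) K := (H.sm (σ n)).continuousOn.mono (hKB.trans hBΩ)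
    have c1 : ContinuousOn (fun z => u (σ n) z ^ 6) K := c0.pow _
    have c2 : ContinuousOn (fun z => ψ z * u (σ n) z ^ 6) K :=
      hψ.1.continuous.continuousOn.mul c1
    have b1 : ∫ z in K, u (σ n) z ^ 6 ≤ c⁻¹ * M := by
      refine intK_c hK (by positivity : (0:ℝ) ≤ c⁻¹) c1 c2 (fun z hz => ?_)
        ((setIntegral_le_integral (hint n) (ae_of_all _ (hnn n))).trans (hσM n).le)
      have h1 := hc' z hz
      have h2 := ev (u (σ n) z)
      rw [inv_mul_eq_div, le_div_iff₀ hc]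
      nlinarith
    refine intK_lin hK zero_le_one (c0.pow 4) continuousOn_const c1 (fun z _ => ?_) le_rfl b1
    show u (σ n) z ^ 4 ≤ 1 * (1 + u (σ n) z ^ 6)
    obtain ⟨y, hy⟩ : ∃ y, y = u (σ n) z ^ 2 := ⟨_, rfl⟩
    have y0 : 0 ≤ y := by rw [hy]; positivity
    have e1 : u (σ n) z ^ 4 = y ^ 2 := by rw [hy]; ring
    have e2 : u (σ n) z ^ 6 = y ^ 3 := by rw [hy]; ring
    rw [e1, e2, one_mul]
    nlinarith [mul_nonneg y0 (sq_nonneg (y - 1)), sq_nonneg (y - 1)]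
  obtain ⟨V, hV⟩ : ∃ V : ℝ, V = ∫ _z in tsupport ψ, (1 : ℝ) := ⟨_, rfl⟩
  have hV0 : 0 ≤ V := by rw [hV]; exact integral_nonneg fun z => zero_le_one
  obtain ⟨δ, hδdef⟩ : ∃ δ : ℝ, δ = ε / (4 * (21 * V + 1)) := ⟨_, rfl⟩
  have hδ : 0 < δ := by rw [hδdef]; positivity
  obtain ⟨φ, hφ, hφ0, hφψ, hdiff⟩ := trunc hψ hψ0 hδ
  rw [← hBdef] at hφ
  have iψ : Integrable ψ := hψ.1.continuous.integrable_of_hasCompactSupport hψ.2.1
  have iφ : Integrable φ := hφ.1.continuous.integrable_of_hasCompactSupport hφ.2.1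
  have jψ : Integrable (fun z => ψ z * W6 κ z) := iφb iψ W6_meas (C := 21) W6_bd
  have jφ : Integrable (fun z => φ z * W6 κ z) := iφb iφ W6_meas (C := 21) W6_bd
  have h2 : (∫ z, ψ z * W6 κ z) - ∫ z, φ z * W6 κ z ≤ 21 * (2 * δ * V) := by
    rw [← integral_sub jψ jφ, hV, ← integral_const_mul, ← integral_const_mul,
      ← integral_indicator hψ.2.1.measurableSet]
    refine integral_mono (jψ.sub jφ) ((integrable_indicator_iff
      hψ.2.1.measurableSet).2 ((continuousOn_const).integrableOn_compact hψ.2.1)) fun z => ?_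
    have h3 := hdiff z
    have h4 := W6_bd (κ := κ) z
    have h5 := hφψ z
    show ψ z * W6 κ z - φ z * W6 κ z ≤
      (tsupport ψ).indicator (fun _ => 21 * (2 * δ * 1)) z
    have e : (tsupport ψ).indicator (fun _ => 21 * (2 * δ * 1)) z =
        21 * (tsupport ψ).indicator (fun _ => 2 * δ) z := by
      by_cases hz : z ∈ tsupport ψ
      · rw [Set.indicator_of_mem hz, Set.indicator_of_mem hz]; ring
      · rw [Set.indicator_of_notMem hz, Set.indicator_of_notMem hz]; ring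
    rw [e]
    have h6 := (abs_le.1 h4).2
    have h7 : (ψ z - φ z) * W6 κ z ≤ (ψ z - φ z) * 21 :=
      mul_le_mul_of_nonneg_left h6 (by linarith)
    linarith
  have h4 := six_loc' hB HB hb hφ hφ0 (show 0 < ε / 4 by positivity)
  obtain ⟨n, hn⟩ := h4.exists
  have h5 : ∫ z, φ z * u (σ n) z ^ 6 ≤ ∫ z, ψ z * u (σ n) z ^ 6 := by
    refine integral_mono_of_nonneg (ae_of_all _ fun z => mul_nonneg (hφ0 z) (ev _))
      (hint n) (ae_of_all _ fun z => ?_)
    exact mul_le_mul_of_nonneg_right (hφψ z) (ev _)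
  have h6 := hσM n
  have h7 : 21 * (2 * δ * V) ≤ ε / 2 := by
    have h8 : δ * (4 * (21 * V + 1)) = ε := by
      rw [hδdef]; field_simp
    nlinarith
  have h9 : ∫ z, φ z * u (σ n) z ^ 6 < M := h5.trans_lt h6
  rw [hM] at h9
  linarith

end

end Pool.Agent.Q175.RW.SX
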