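import Pool.Agent.Q175.RW.TM2
import Pool.Agent.Y265.HY.JC6

/-! From the total fourth moment: joint moments with other eigenfunctions. -/
set_option autoImplicit false
open MeasureTheory Filter Topology Complex
open scoped ContDiff ENNReal

namespace Pool.Agent.Q175.RW.TM

open Pool.Agent.W745.RW Pool.Agent.TH294.RS Pool.Agent.Y265.HY

noncomputable section

variable {U : Set ℂ} {lam mu : ℕ → ℝ} {f g : ℕ → ℂ → ℝ} {ψ φ : ℂ → ℝ}

/-- truncation at the boundary of `U` -/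
theorem TD.trunc (X : TD U lam f) {A P : ℕ → ℂ → ℝ} (cA : ∀ n, ContinuousOn (A n) U)
    (cP : ∀ n, ContinuousOn (P n) U) (hA : ∀ n, ∀ z ∈ U, |A n z| ≤ f n z ^ 2 + 1)
    (iP : ∀ n, IntegrableOn (fun z => P n z ^ 2 / z.im ^ 2) U) {C : ℝ}
    (hP : ∀ᶠ n in atTop, ∫ z in U, P n z ^ 2 / z.im ^ 2 ≤ C)
    (hψ : ContDiffOn ℝ ∞ ψ U) {M : ℝ} (hM : ∀ z ∈ U, |ψ z| ≤ M)
    (loc : ∀ φ, TF U φ → Tendsto (fun n => ∫ z, φ z * (A n z * P n z) / z.im ^ 2) atTop (𝓝 0)) :
    Tendsto (fun n => ∫ z in U, ψ z * (A n z * P n z) / z.im ^ 2) atTop (𝓝 0) := by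
  have ci : ContinuousOn (fun z : ℂ => 1 / z.im ^ 2) U := X.ci
  obtain ⟨N, hN⟩ : ∃ N, N = |M| + 1 := ⟨_, rfl⟩
  have N0 : 0 < N := by rw [hN]; positivity
  have hNM : ∀ z ∈ U, |ψ z| ≤ N := fun z hz => (hM z hz).trans (by
    rw [hN]; linarith [le_abs_self M])
  obtain ⟨B, hB⟩ : ∃ B, B = |C| + 1 := ⟨_, rfl⟩
  have B0 : 0 < B := by rw [hB]; positivity
  have hCB : C ≤ B := by rw [hB]; linarith [le_abs_self C]
  -- majorant
  obtain ⟨T, hT⟩ : ∃ T : ℕ → ℂ → ℝ, ∀ n z, T n z = f n z ^ 4 / z.im ^ 2 + 1 / z.im ^ 2 :=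
    ⟨_, fun _ _ => rfl⟩
  have iT : ∀ n, IntegrableOn (T n) U := fun n => by
    have : IntegrableOn (fun z => f n z ^ 4 / z.im ^ 2 + 1 / z.im ^ 2) U := (X.i4 n).add X.fin
    exact this.congr (Eventually.of_forall fun z => (hT n z).symm)
  have pt : ∀ κ : ℝ, 0 < κ → ∀ n, ∀ z ∈ U, |A n z * P n z| / z.im ^ 2 ≤
      κ⁻¹ * T n z + κ * (P n z ^ 2 / z.im ^ 2) := by
    intro κ hκ n z hz
    have p := X.sU z hz
    have a1 := hA n z hz
    have a2 : A n z ^ 2 ≤ 2 * (f n z ^ 4 + 1) := by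
      have b1 : A n z ^ 2 ≤ (f n z ^ 2 + 1) ^ 2 := by
        rw [← sq_abs]
        exact pow_le_pow_left₀ (abs_nonneg _) a1 2
      nlinarith [sq_nonneg (f n z ^ 2 - 1)]
    have a3 : |A n z * P n z| ≤ κ⁻¹ * (f n z ^ 4 + 1) + κ * P n z ^ 2 := by
      have b2 : 2 * (κ⁻¹ * |A n z| * |P n z| * κ) ≤ κ⁻¹ * A n z ^ 2 + κ * P n z ^ 2 := by
        have b3 : 0 ≤ κ⁻¹ * (|A n z| - κ * |P n z|) ^ 2 := by positivity
        have b4 : κ⁻¹ * (|A n z| - κ * |P n z|) ^ 2 = κ⁻¹ * A n z ^ 2 -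
            2 * (κ⁻¹ * |A n z| * |P n z| * κ) + κ * P n z ^ 2 := by
          rw [← sq_abs (A n z), ← sq_abs (P n z)]
          field_simp
          ring
        linarith
      have b5 : κ⁻¹ * |A n z| * |P n z| * κ = |A n z * P n z| := by
        rw [abs_mul]; field_simp
      rw [b5] at b2
      have b6 : κ⁻¹ * A n z ^ 2 ≤ κ⁻¹ * (2 * (f n z ^ 4 + 1)) :=
        mul_le_mul_of_nonneg_left a2 (inv_pos.2 hκ).le
      have b7 : 0 ≤ κ * P n z ^ 2 := by positivity
      linarith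
    rw [hT]
    have e : κ⁻¹ * (f n z ^ 4 / z.im ^ 2 + 1 / z.im ^ 2) + κ * (P n z ^ 2 / z.im ^ 2) =
        (κ⁻¹ * (f n z ^ 4 + 1) + κ * P n z ^ 2) / z.im ^ 2 := by ring
    rw [e]
    exact div_le_div_of_nonneg_right a3 (by positivity)
  have iAP : ∀ n, IntegrableOn (fun z => A n z * P n z / z.im ^ 2) U := by
    intro n
    have i1 : IntegrableOn (fun z => (1 : ℝ)⁻¹ * T n z + 1 * (P n z ^ 2 / z.im ^ 2)) U :=
      ((iT n).const_mul _).add ((iP n).const_mul _)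
    have c1 : ContinuousOn (fun z => A n z * P n z / z.im ^ 2) U :=
      ((cA n).mul (cP n)).div (continuous_im.continuousOn.pow 2) fun z hz =>
        pow_ne_zero 2 (X.sU z hz).ne'
    refine Integrable.mono' i1 (c1.aestronglyMeasurable X.oU.measurableSet) ?_
    refine (ae_restrict_mem X.oU.measurableSet).mono fun z hz => ?_
    rw [Real.norm_eq_abs, abs_div, abs_of_nonneg (sq_nonneg z.im)]
    exact pt 1 one_pos n z hz
  obtain ⟨χ, h1, h2, h3, h4⟩ := QC.inner_cut X.oU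
  have l1 := QC.inner_lim X.oU h1 h2 h3 h4 X.fin
  rw [Metric.tendsto_atTop']
  intro ε hε
  obtain ⟨κ, hκ⟩ : ∃ κ, κ = ε / (8 * N * B) := ⟨_, rfl⟩
  have κ0 : 0 < κ := by rw [hκ]; positivity
  obtain ⟨η, hη⟩ : ∃ η, η = ε * κ / (64 * N) := ⟨_, rfl⟩
  have η0 : 0 < η := by rw [hη]; positivity
  obtain ⟨j, hj⟩ := (l1.eventually (lt_mem_nhds (show (∫ z in U, 1 / z.im ^ 2) - η <
    ∫ z in U, 1 / z.im ^ 2 by linarith))).exists
  have tχ := h1 j
  have cχ : ContinuousOn (fun z => 1 - χ j z) U :=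
    continuousOn_const.sub tχ.1.continuous.continuousOn
  have bχ : ∀ z ∈ U, |1 - χ j z| ≤ 1 := fun z _ => by
    rw [abs_le]; constructor <;> linarith [h2 j z, h3 j z]
  have w := X.weak cχ bχ
  have iχ : IntegrableOn (fun z => χ j z * (1 / z.im ^ 2)) U := by
    refine Integrable.bdd_mul (c := 1) X.fin (tχ.1.continuous.aestronglyMeasurable)
      (ae_of_all _ fun z => ?_)
    rw [Real.norm_eq_abs, abs_of_nonneg (h2 j z)]
    exact h3 j z
  have e1 : ∫ z in U, (1 - χ j z) / z.im ^ 2 =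
      (∫ z in U, 1 / z.im ^ 2) - ∫ z in U, χ j z * (1 / z.im ^ 2) := by
    rw [← integral_sub X.fin iχ]
    congr 1; funext z; ring
  have e1' : ∫ z in U, (1 - χ j z) / z.im ^ 2 < η := by rw [e1]; linarith
  have w1 := w.eventually (gt_mem_nhds (show 3 * (∫ z in U, (1 - χ j z) / z.im ^ 2) < 3 * η by
    linarith))
  -- the local part
  have tφ : TF U (fun z => χ j z * ψ z) := TF.mulc X.oU tχ hψ
  have L := loc _ tφ
  rw [Metric.tendsto_atTop'] at L
  obtain ⟨n1, hn1⟩ := L (ε / 2) (by positivity)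
  obtain ⟨n2, hn2⟩ := eventually_atTop.1 (w1.and hP)
  refine ⟨max n1 n2, fun n hn => ?_⟩
  have g1 := hn1 n ((le_max_left _ _).trans_lt hn)
  obtain ⟨g2, g3⟩ := hn2 n ((le_max_right _ _).trans hn.le)
  rw [dist_zero_right, Real.norm_eq_abs] at g1 ⊢
  have i1 : IntegrableOn (fun z => ψ z * (A n z * P n z) / z.im ^ 2) U := by
    have := Integrable.bdd_mul (c := N) (iAP n)
      (hψ.continuousOn.aestronglyMeasurable X.oU.measurableSet)
      ((ae_restrict_mem X.oU.measurableSet).mono fun z hz => hNM z hz)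
    refine this.congr (Eventually.of_forall fun z => ?_)
    show ψ z * (A n z * P n z / z.im ^ 2) = _
    ring
  have i2 : IntegrableOn (fun z => χ j z * ψ z * (A n z * P n z) / z.im ^ 2) U := by
    have := Integrable.bdd_mul (c := 1) i1 (tχ.1.continuous.aestronglyMeasurable)
      (ae_of_all _ fun z => by
        rw [Real.norm_eq_abs, abs_of_nonneg (h2 j z)]
        exact h3 j z)
    refine this.congr (Eventually.of_forall fun z => ?_)
    show χ j z * (ψ z * (A n z * P n z) / z.im ^ 2) = _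
    ring
  have e2 : ∫ z, χ j z * ψ z * (A n z * P n z) / z.im ^ 2 =
      ∫ z in U, χ j z * ψ z * (A n z * P n z) / z.im ^ 2 := by
    refine (setIntegral_eq_integral_of_forall_compl_eq_zero fun z hz => ?_).symm
    rw [TF.zero tχ hz]; simp
  rw [e2] at g1
  -- the rest
  have i3 : IntegrableOn (fun z => (1 - χ j z) * T n z) U :=
    Integrable.bdd_mul (c := 1) (iT n) (cχ.aestronglyMeasurable X.oU.measurableSet)
      ((ae_restrict_mem X.oU.measurableSet).mono fun z hz => bχ z hz)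
  have i4 : IntegrableOn (fun z => N * (κ⁻¹ * ((1 - χ j z) * T n z) +
      κ * (P n z ^ 2 / z.im ^ 2))) U :=
    ((i3.const_mul _).add ((iP n).const_mul _)).const_mul _
  have b1 : |(∫ z in U, ψ z * (A n z * P n z) / z.im ^ 2) -
      ∫ z in U, χ j z * ψ z * (A n z * P n z) / z.im ^ 2| ≤
      ∫ z in U, N * (κ⁻¹ * ((1 - χ j z) * T n z) + κ * (P n z ^ 2 / z.im ^ 2)) := by
    rw [← integral_sub i1 i2]
    refine (abs_integral_le_integral_abs).trans ?_
    refine setIntegral_mono_on (i1.sub i2).abs i4 X.oU.measurableSet fun z hz => ?_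
    have e : ψ z * (A n z * P n z) / z.im ^ 2 - χ j z * ψ z * (A n z * P n z) / z.im ^ 2 =
        ψ z * ((1 - χ j z) * ((A n z * P n z) / z.im ^ 2)) := by ring
    have q0 : 0 ≤ 1 - χ j z := by linarith [h3 j z]
    have q1 : 1 - χ j z ≤ 1 := by linarith [h2 j z]
    have p := X.sU z hz
    rw [e, abs_mul, abs_mul, abs_of_nonneg q0, abs_div, abs_of_nonneg (sq_nonneg z.im)]
    have q2 := pt κ κ0 n z hz
    have q3 : (1 - χ j z) * (|A n z * P n z| / z.im ^ 2) ≤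
        κ⁻¹ * ((1 - χ j z) * T n z) + κ * (P n z ^ 2 / z.im ^ 2) := by
      have r1 := mul_le_mul_of_nonneg_left q2 q0
      have r2 : (1 - χ j z) * (κ * (P n z ^ 2 / z.im ^ 2)) ≤ κ * (P n z ^ 2 / z.im ^ 2) :=
        mul_le_of_le_one_left (by positivity) q1
      linarith
    exact mul_le_mul (hNM z hz) q3 (mul_nonneg q0 (by positivity)) N0.le
  have b2 : ∫ z in U, N * (κ⁻¹ * ((1 - χ j z) * T n z) + κ * (P n z ^ 2 / z.im ^ 2)) =
      N * (κ⁻¹ * (∫ z in U, (1 - χ j z) * T n z) + κ * ∫ z in U, P n z ^ 2 / z.im ^ 2) := by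
    rw [integral_const_mul, integral_add (i3.const_mul _) ((iP n).const_mul _),
      integral_const_mul, integral_const_mul]
  have b3 : ∫ z in U, (1 - χ j z) * T n z = (∫ z in U, (1 - χ j z) * f n z ^ 4 / z.im ^ 2) +
      ∫ z in U, (1 - χ j z) / z.im ^ 2 := by
    have i5 : IntegrableOn (fun z => (1 - χ j z) / z.im ^ 2) U := X.iw cχ bχ
    rw [← integral_add (X.iw4 n cχ bχ) i5]
    refine integral_congr_ae (ae_of_all _ fun z => ?_)
    show (1 - χ j z) * T n z = _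
    rw [hT]; ring
  have b4 : ∫ z in U, (1 - χ j z) * T n z ≤ 4 * η := by rw [b3]; linarith
  have b5 : N * (κ⁻¹ * (∫ z in U, (1 - χ j z) * T n z) + κ * ∫ z in U, P n z ^ 2 / z.im ^ 2) ≤
      N * (κ⁻¹ * (4 * η) + κ * B) := by
    refine mul_le_mul_of_nonneg_left ?_ N0.le
    have r1 := mul_le_mul_of_nonneg_left b4 (inv_pos.2 κ0).le
    have r2 := mul_le_mul_of_nonneg_left (g3.trans hCB) κ0.le
    linarith
  have b6 : N * (κ⁻¹ * (4 * η) + κ * B) = ε / 16 + ε / 8 := by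
    have r1 : κ⁻¹ * (4 * η) = ε / (16 * N) := by
      rw [hη]; field_simp; norm_num
    have r2 : κ * B = ε / (8 * N) := by
      rw [hκ]; field_simp
    rw [r1, r2]; field_simp
  rw [b2] at b1
  have b7 := b1.trans (b5.trans b6.le)
  rw [abs_le] at b7
  rw [abs_lt] at g1 ⊢
  constructor
  · linarith [b7.1, g1.1]
  · linarith [b7.2, g1.2]

/-- **joint cubic moments** over the whole of `U` -/
theorem TD.cubic (X : TD U lam f) (D : JC.JD U lam mu f g)
    (iP : ∀ n, IntegrableOn (fun z => g n z ^ 2 / z.im ^ 2) U) {C : ℝ}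
    (hP : ∀ᶠ n in atTop, ∫ z in U, g n z ^ 2 / z.im ^ 2 ≤ C)
    (hψ : ContDiffOn ℝ ∞ ψ U) {M : ℝ} (hM : ∀ z ∈ U, |ψ z| ≤ M) :
    Tendsto (fun n => ∫ z in U, ψ z * (f n z ^ 2 * g n z) / z.im ^ 2) atTop (𝓝 0) := by
  have iy : ContDiffOn ℝ ∞ (fun z : ℂ => (z.im ^ 2)⁻¹) U := by
    refine ContDiffOn.inv ((imCLM.contDiff.pow 2).contDiffOn) fun z hz => ?_
    exact pow_ne_zero 2 (X.sU z hz).ne'
  refine X.trunc (A := fun n z => f n z ^ 2) (P := g) (fun n => (X.sf n).continuousOn.pow 2)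
    (fun n => (D.gs n).continuousOn) (fun n z _ => by
      rw [abs_of_nonneg (sq_nonneg _)]; linarith) iP hP hψ hM fun φ hφ => ?_
  have pos : ∀ φ : ℂ → ℝ, TF U φ → (∀ z, 0 ≤ φ z) →
      Tendsto (fun n => ∫ z, φ z * (f n z ^ 2 * g n z) / z.im ^ 2) atTop (𝓝 0) := by
    intro φ hφ φ0
    have tφ : TF U (fun z => φ z / z.im ^ 2) := TF.mulc X.oU hφ iy
    have l := X.loc hφ
    obtain ⟨b, b0, hb⟩ := tf_bd hφ
    rw [Metric.tendsto_atTop']
    intro ε hε
    obtain ⟨e, he⟩ : ∃ e, e = min 1 (ε ^ 2 / 4) := ⟨_, rfl⟩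
    have e0 : 0 < e := by rw [he]; positivity
    have e1 : e ≤ 1 := by rw [he]; exact min_le_left _ _
    have e2 : e ≤ ε ^ 2 / 4 := by rw [he]; exact min_le_right _ _
    obtain ⟨d, hd⟩ : ∃ d, d = ε ^ 2 / (8 * b * (|C| + 1)) := ⟨_, rfl⟩
    have d0 : 0 < d := by rw [hd]; positivity
    have k := D.all tφ (fun z => div_nonneg (φ0 z) (sq_nonneg _)) (c := 2 / 3) (Or.inl rfl) e0
    have l' := l.eventually (gt_mem_nhds (show 3 * (∫ z, φ z / z.im ^ 2) <
      3 * (∫ z, φ z / z.im ^ 2) + d by linarith))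
    obtain ⟨n0, hn0⟩ := eventually_atTop.1 (k.and (l'.and hP))
    refine ⟨n0, fun n hn => ?_⟩
    obtain ⟨k1, k2, k3⟩ := hn0 n hn.le
    have a1 : JC.JJ3 (fun z => φ z / z.im ^ 2) (f n) (g n) =
        ∫ z, φ z * (f n z ^ 2 * g n z) / z.im ^ 2 := by
      unfold JC.JJ3; congr 1; funext z; ring
    have a2 : JC.eX (fun z => φ z / z.im ^ 2) (f n) =
        (∫ z, φ z * f n z ^ 4 / z.im ^ 2) - 3 * ∫ z, φ z / z.im ^ 2 := by
      unfold JC.eX; congr 2; funext z; ring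
    have a3 : JC.mS (fun z => φ z / z.im ^ 2) (g n) = ∫ z, φ z * g n z ^ 2 / z.im ^ 2 := by
      unfold JC.mS; congr 1; funext z; ring
    rw [a1, a2, a3] at k1
    have a4 : ∫ z, φ z * g n z ^ 2 / z.im ^ 2 ≤ b * (|C| + 1) := by
      rw [← X.onU hφ]
      have r1 : ∫ z in U, φ z * g n z ^ 2 / z.im ^ 2 ≤ ∫ z in U, b * (g n z ^ 2 / z.im ^ 2) := by
        have i0 : IntegrableOn (fun z => φ z * g n z ^ 2 / z.im ^ 2) U := by
          have := Integrable.bdd_mul (c := b) (iP n) (hφ.1.continuous.aestronglyMeasurable)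
            (ae_of_all _ fun z => hb z)
          refine this.congr (Eventually.of_forall fun z => ?_)
          show φ z * (g n z ^ 2 / z.im ^ 2) = _
          ring
        refine setIntegral_mono_on i0 ((iP n).const_mul _) X.oU.measurableSet fun z hz => ?_
        rw [mul_div_assoc]
        exact mul_le_mul_of_nonneg_right ((le_abs_self _).trans (hb z)) (by positivity)
      rw [integral_const_mul] at r1
      have r2 := mul_le_mul_of_nonneg_left (k3.trans (show C ≤ |C| + 1 by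
        linarith [le_abs_self C])) b0.le
      linarith
    have a5 : 0 ≤ ∫ z, φ z * g n z ^ 2 / z.im ^ 2 :=
      integral_nonneg fun z => div_nonneg (mul_nonneg (φ0 z) (sq_nonneg _)) (sq_nonneg _)
    have a6 : (1 + e) * (2 / 3) * ((∫ z, φ z * f n z ^ 4 / z.im ^ 2) - 3 * ∫ z, φ z / z.im ^ 2) *
        (∫ z, φ z * g n z ^ 2 / z.im ^ 2) ≤ (2 * d) * (b * (|C| + 1)) := by
      have r1 : (1 + e) * (2 / 3) * ((∫ z, φ z * f n z ^ 4 / z.im ^ 2) -
          3 * ∫ z, φ z / z.im ^ 2) ≤ 2 * d := by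
        have r2 : (1 + e) * (2 / 3) ≤ 2 := by linarith
        have r3 : (1 + e) * (2 / 3) * ((∫ z, φ z * f n z ^ 4 / z.im ^ 2) -
          3 * ∫ z, φ z / z.im ^ 2) ≤ (1 + e) * (2 / 3) * d :=
          mul_le_mul_of_nonneg_left (by linarith) (by positivity)
        exact r3.trans (mul_le_mul_of_nonneg_right r2 d0.le)
      calc _ ≤ (2 * d) * (∫ z, φ z * g n z ^ 2 / z.im ^ 2) := mul_le_mul_of_nonneg_right r1 a5
        _ ≤ (2 * d) * (b * (|C| + 1)) := mul_le_mul_of_nonneg_left a4 (by positivity)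
    have a7 : (2 * d) * (b * (|C| + 1)) = ε ^ 2 / 4 := by
      rw [hd]; field_simp; norm_num
    rw [dist_zero_right, Real.norm_eq_abs]
    refine abs_lt_of_sq_lt_sq ?_ hε.le
    nlinarith [sq_pos_of_pos hε]
  obtain ⟨p, q, hp, hq, p0, q0, e⟩ := split X.oU hφ
  have l := (pos p hp p0).sub (pos q hq q0)
  rw [sub_zero] at l
  have ii : ∀ {p : ℂ → ℝ}, TF U p → ∀ n, Integrable (fun z => p z * (f n z ^ 2 * g n z) / z.im ^ 2) := by
    intro p hp n
    have tp : TF U (fun z => p z / z.im ^ 2) := TF.mulc X.oU hp iy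
    have := Pool.Agent.W311.RW.int_mul X.oU tp
      (((X.sf n).continuousOn.pow 2).mul (D.gs n).continuousOn)
    refine this.congr (Eventually.of_forall fun z => ?_)
    show p z / z.im ^ 2 * (f n z ^ 2 * g n z) = _
    ring
  refine l.congr fun n => ?_
  rw [← integral_sub (ii hp n) (ii hq n)]
  congr 1; funext z
  show _ = φ z * (f n z ^ 2 * g n z) / z.im ^ 2
  rw [e z]; ring

end

end Pool.Agent.Q175.RW.TM
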