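import Pool.Agent.TH294.RG.SpecH
import Pool.Agent.TH294.RG.Jc8
import Pool.Agent.TH294.RG.Js4

/-! Triple products and slow factors for general metrics and semiclassical measures. -/
set_option autoImplicit false
open MeasureTheory Filter Topology Complex ProbabilityTheory
open scoped ContDiff ENNReal

namespace Pool.Agent.Q175.RW.TP

open Pool.Agent.W745.RW Pool.Agent.TH294.RS Pool.Agent.TH294.RG

noncomputable section

variable {m : ℂ → ℝ} {ν : Kernel ℂ ℝ} {Ω : Set ℂ} {a : ℂ → ℝ} {h k : ℕ → ℝ}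
  {u v : ℕ → ℂ → ℝ} {K : Set ℂ} {φ : ℂ → ℝ}

/-- real eigenfunctions bounded in `L²` -/
lemma gs (hΩ : IsOpen Ω) (hv : ∀ n, ContDiffOn ℝ ∞ (v n) Ω)
    (he : ∀ n, ∀ z ∈ Ω, (k n) ^ 2 * (a z ^ 2 * lap (v n) z) + v n z = 0)
    (hvb : ∀ K : Set ℂ, IsCompact K → K ⊆ Ω → ∃ C : ℝ, ∀ᶠ n in atTop, ∫ z in K, v n z ^ 2 ≤ C) :
    GS Ω a k (fun _ => 1) 1 (fun n z => (v n z : ℂ)) := by
  refine ⟨⟨fun n => cxa (hv n), fun K hK hKH => ?_⟩, tendsto_const_nhds, fun n z hz => ?_⟩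
  · obtain ⟨C, hC⟩ := hvb K hK hKH
    refine ⟨C, hC.mono fun n hn => ?_⟩
    have e : ∀ z, ‖(v n z : ℂ)‖ ^ 2 = v n z ^ 2 := fun z => by
      rw [norm_real, Real.norm_eq_abs, sq_abs]
    simp only [e]
    exact hn
  · rw [lap_re hΩ (hv n) hz]
    have h4 : (k n) ^ 2 * (a z ^ 2 * lap (v n) z) = - (1 * v n z) := by
      have := he n z hz
      linarith
    exact_mod_cast h4

/-- **Triple products** -/
theorem triple [IsMarkovKernel ν] (hΩ : IsOpen Ω)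
    (hm : ∀ K : Set ℂ, IsCompact K → K ⊆ Ω → MemLp m 2 (volume.restrict K))
    (hms : ContDiffOn ℝ ∞ m Ω) (hp : ∀ᵐ z ∂(volume.restrict Ω), par ea (ν z) = 0)
    (H : RawG Ω a h u (MM m ea ν)) (kp : ∀ n, 0 < k n) (kl : Tendsto k atTop (𝓝 0))
    (hv : ∀ n, ContDiffOn ℝ ∞ (v n) Ω)
    (he : ∀ n, ∀ z ∈ Ω, (k n) ^ 2 * (a z ^ 2 * lap (v n) z) + v n z = 0)
    (hvb : ∀ K : Set ℂ, IsCompact K → K ⊆ Ω → ∃ C : ℝ, ∀ᶠ n in atTop, ∫ z in K, v n z ^ 2 ≤ C)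
    {c : ℝ} (hc : c = 2 / 3 ∨ (c = 1 / 3 ∧ ∃ δ : ℝ, 0 < δ ∧ ∀ᶠ n in atTop, δ ≤ (h n / k n) ^ 2) ∨
      (c = 0 ∧ ∃ δ : ℝ, 0 < δ ∧ ∀ᶠ n in atTop, δ ≤ (h n / k n) ^ 2 ∧
        δ ≤ |(h n / k n) ^ 2 - 4|))
    (hK : IsCompact K) (hKΩ : K ⊆ Ω) (hφ : TF (interior K) φ) (hφ0 : ∀ z, 0 ≤ φ z)
    {ε : ℝ} (hε : 0 < ε) :
    ∀ᶠ n in atTop, (∫ z, φ z * (u n z ^ 2 * v n z)) ^ 2 ≤
      c * ((∫ z, φ z * u n z ^ 4) - 3 * ∫ z, φ z * m z ^ 2) * (∫ z, φ z * v n z ^ 2) +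
        ε * (1 + ∫ z in K, u n z ^ 4) := by
  have HG := gs hΩ hv he hvb
  have eJ : ∀ n, ∫ z, (φ z : ℂ) * ((u n z : ℂ) ^ 2 * (v n z : ℂ)) =
      ((∫ z, φ z * (u n z ^ 2 * v n z) : ℝ) : ℂ) := by
    intro n
    rw [← integral_complex_ofReal]
    congr 1; funext z
    push_cast; ring
  have eV : ∀ n, ∫ z, φ z * ‖(v n z : ℂ)‖ ^ 2 = ∫ z, φ z * v n z ^ 2 := by
    intro n
    congr 1; funext z
    rw [norm_real, Real.norm_eq_abs, sq_abs]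
  have main : ∀ c : ℝ, (c = 2 / 3 ∨ (c = 1 / 3 ∧ ∃ δ : ℝ, 0 < δ ∧ ∀ᶠ n in atTop,
      δ ≤ (h n / k n) ^ 2)) → ∀ᶠ n in atTop, (∫ z, φ z * (u n z ^ 2 * v n z)) ^ 2 ≤
      c * ((∫ z, φ z * u n z ^ 4) - 3 * ∫ z, φ z * m z ^ 2) * (∫ z, φ z * v n z ^ 2) +
        ε * (1 + ∫ z in K, u n z ^ 4) := by
    intro c hc
    have key := joint_all hΩ hm hms hp H kp kl HG hc hK hKΩ hφ hφ0 hε
    refine key.mono fun n hn => ?_
    rw [eJ, eV, norm_real, Real.norm_eq_abs, sq_abs] at hn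
    exact hn
  rcases hc with h1 | h1 | ⟨h1, δ, hδ, h2⟩
  · exact main c (Or.inl h1)
  · exact main c (Or.inr h1)
  · have key := joint_off hm hp H kp kl HG hδ (h2.mono fun n hn => hn.1)
      (h2.mono fun n hn => hn.2) hK hKΩ hφ 0 0
    have k2 := (key.norm.pow 2).eventually (gt_mem_nhds (show ‖(0 : ℂ)‖ ^ 2 < ε by
      rw [norm_zero, zero_pow two_ne_zero]; exact hε))
    refine k2.mono fun n hn => ?_
    have T0 : 0 ≤ ∫ z in K, u n z ^ 4 := integral_nonneg fun z => by positivity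
    have Tp : 0 < 1 + ∫ z in K, u n z ^ 4 := by linarith
    have e : ∫ z, (φ z : ℂ) * (ww a h (fun n z => (u n z : ℂ)) 0 n z *
        ww a h (fun n z => (u n z : ℂ)) 0 n z * (v n z : ℂ)) =
        ((∫ z, φ z * (u n z ^ 2 * v n z) : ℝ) : ℂ) := by
      rw [← eJ]
      congr 1; funext z
      have : ww a h (fun n z => (u n z : ℂ)) 0 n z = (u n z : ℂ) := rfl
      rw [this]; ring
    rw [e, norm_mul, norm_inv, norm_real, norm_real, Real.norm_eq_abs, Real.norm_eq_abs,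
      abs_of_nonneg (Real.sqrt_nonneg _), mul_pow, inv_pow, Real.sq_sqrt Tp.le, sq_abs,
      inv_mul_lt_iff₀ Tp] at hn
    rw [h1, zero_mul, zero_mul, zero_add, mul_comm ε]
    exact hn.le

/-- `1 + ∫_K v⁴` -/
def nrm (K : Set ℂ) (f : ℂ → ℝ) : ℝ := 1 + ∫ z in K, f z ^ 4

lemma nrm_pos (K : Set ℂ) (f : ℂ → ℝ) : 1 ≤ nrm K f := by
  have : 0 ≤ ∫ z in K, f z ^ 4 := integral_nonneg fun z => by positivity
  unfold nrm; linarith

/-- the scaled eigenfunctions of much lower frequency vary slowly -/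
lemma slowg (hΩ : IsOpen Ω) (sa : ContDiffOn ℝ ∞ a Ω) (pa : ∀ z ∈ Ω, 0 < a z)
    (kp : ∀ n, 0 < k n) (kl : Tendsto k atTop (𝓝 0))
    (hr : Tendsto (fun n => h n / k n) atTop (𝓝 0)) (hv : ∀ n, ContDiffOn ℝ ∞ (v n) Ω)
    (he : ∀ n, ∀ z ∈ Ω, (k n) ^ 2 * (a z ^ 2 * lap (v n) z) + v n z = 0)
    (hK : IsCompact K) (hKH : K ⊆ Ω) : ∃ c : ℕ → ℝ, (∀ n, 0 < c n) ∧
    (∀ n, c n ^ 4 = (nrm K (v n))⁻¹) ∧
    SG (interior K) a h (fun n z => ((c n * v n z : ℝ) : ℂ)) := by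
  have hKi : interior K ⊆ Ω := interior_subset.trans hKH
  obtain ⟨c, cp, -, c4⟩ := exists_c (T := fun n => nrm K (v n)) (fun n => nrm_pos K (v n))
  refine ⟨c, cp, c4, ?_⟩
  have sm : ∀ n, ContDiffOn ℝ ∞ (fun z => c n * v n z) (interior K) := fun n =>
    contDiffOn_const.mul ((hv n).mono hKi)
  refine SG.sol isOpen_interior (sa.mono hKi) (fun z hz => pa z (hKi hz))
    (k := k) kp kl hr (v := fun n z => c n * v n z)
    ⟨fun n => cxa (sm n), fun K' _ hKB => ⟨1, Eventually.of_forall fun n => ?_⟩⟩ (fun n z hz => ?_)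
  · have N1 := nrm_pos K (v n)
    have e : ∀ z, ‖((c n * v n z : ℝ) : ℂ)‖ ^ 4 = (nrm K (v n))⁻¹ * v n z ^ 4 := fun z => by
      rw [norm_real, Real.norm_eq_abs, Even.pow_abs (by decide), mul_pow, c4]
    simp only [e]
    rw [integral_const_mul, inv_mul_le_iff₀ (by linarith)]
    have c0 : ContinuousOn (fun z => v n z ^ 4) K := ((hv n).continuousOn.mono hKH).pow 4
    have h1 : ∫ z in K', v n z ^ 4 ≤ ∫ z in K, v n z ^ 4 := by
      refine setIntegral_mono_set (c0.integrableOn_compact hK)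
        (ae_of_all _ fun z => by positivity) ?_
      exact (hKB.trans interior_subset).eventuallyLE
    unfold nrm
    linarith
  · rw [lap_re isOpen_interior (sm n) hz]
    have hz' : z ∈ Ω := hKi hz
    have e1 : lap (fun z => c n * v n z) z = c n * lap (v n) z := by
      have dx1 : ∀ b : ℂ, ∀ w ∈ Ω, fderiv ℝ (fun z => c n * v n z) w b =
          c n * fderiv ℝ (v n) w b := by
        intro b w hw
        have hd : DifferentiableAt ℝ (v n) w :=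
          ((hv n).contDiffAt (hΩ.mem_nhds hw)).differentiableAt (by simp)
        rw [fderiv_const_mul hd]
        rfl
      have dx2 : ∀ b : ℂ, fderiv ℝ (fun w => fderiv ℝ (fun z => c n * v n z) w b) z b =
          c n * fderiv ℝ (fun w => fderiv ℝ (v n) w b) z b := by
        intro b
        have e : (fun w => fderiv ℝ (fun z => c n * v n z) w b) =ᶠ[𝓝 z]
            fun w => c n * fderiv ℝ (v n) w b := by
          filter_upwards [hΩ.mem_nhds hz'] with w hw using dx1 b w hw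
        rw [e.fderiv_eq]
        have hd : DifferentiableAt ℝ (fun w => fderiv ℝ (v n) w b) z := by
          have h3 : ContDiffOn ℝ ∞ (fun w => fderiv ℝ (v n) w b) Ω :=
            ((hv n).fderiv_of_isOpen hΩ (by simp)).clm_apply contDiffOn_const
          exact (h3.contDiffAt (hΩ.mem_nhds hz')).differentiableAt (by simp)
        rw [fderiv_const_mul hd]
        rfl
      show fderiv ℝ (fun w => fderiv ℝ (fun z => c n * v n z) w 1) z 1 +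
        fderiv ℝ (fun w => fderiv ℝ (fun z => c n * v n z) w I) z I =
        c n * (fderiv ℝ (fun w => fderiv ℝ (v n) w 1) z 1 +
          fderiv ℝ (fun w => fderiv ℝ (v n) w I) z I)
      rw [dx2, dx2]; ring
    have h4 : (k n) ^ 2 * (a z ^ 2 * lap (fun z => c n * v n z) z) = - (c n * v n z) := by
      rw [e1]
      have := he n z hz'
      linear_combination c n * this
    exact_mod_cast h4

/-- **Slow factors** -/
theorem slow2 [IsMarkovKernel ν] (hΩ : IsOpen Ω)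
    (hm : ∀ K : Set ℂ, IsCompact K → K ⊆ Ω → MemLp m 2 (volume.restrict K))
    (hms : ContDiffOn ℝ ∞ m Ω) (hp : ∀ᵐ z ∂(volume.restrict Ω), par ea (ν z) = 0)
    (H : RawG Ω a h u (MM m ea ν)) {k1 k2 : ℕ → ℝ} {g1 g2 : ℕ → ℂ → ℝ}
    (kp1 : ∀ n, 0 < k1 n) (kl1 : Tendsto k1 atTop (𝓝 0))
    (hr1 : Tendsto (fun n => h n / k1 n) atTop (𝓝 0)) (hg1 : ∀ n, ContDiffOn ℝ ∞ (g1 n) Ω)
    (he1 : ∀ n, ∀ z ∈ Ω, (k1 n) ^ 2 * (a z ^ 2 * lap (g1 n) z) + g1 n z = 0)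
    (kp2 : ∀ n, 0 < k2 n) (kl2 : Tendsto k2 atTop (𝓝 0))
    (hr2 : Tendsto (fun n => h n / k2 n) atTop (𝓝 0)) (hg2 : ∀ n, ContDiffOn ℝ ∞ (g2 n) Ω)
    (he2 : ∀ n, ∀ z ∈ Ω, (k2 n) ^ 2 * (a z ^ 2 * lap (g2 n) z) + g2 n z = 0)
    (hK : IsCompact K) (hKΩ : K ⊆ Ω) (hφ : TF (interior K) φ) (hφ0 : ∀ z, 0 ≤ φ z)
    {ε : ℝ} (hε : 0 < ε) :
    ∀ᶠ n in atTop, (∫ z, φ z * ((u n z ^ 2 - m z) * (g1 n z * g2 n z))) ^ 2 ≤
      2 / 3 * ((∫ z, φ z * u n z ^ 4) - 3 * ∫ z, φ z * m z ^ 2) *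
        (∫ z, φ z * (g1 n z * g2 n z) ^ 2) +
        ε * nrm K (u n) * √(nrm K (g1 n) * nrm K (g2 n)) := by
  obtain ⟨c1, cp1, c14, S1⟩ := slowg hΩ H.sa H.pa kp1 kl1 hr1 hg1 he1 hK hKΩ
  obtain ⟨c2, cp2, c24, S2⟩ := slowg hΩ H.sa H.pa kp2 kl2 hr2 hg2 he2 hK hKΩ
  have key := slow_ineq hm hms hp H hK hKΩ S1 S2 hφ hφ0 hε
  refine key.mono fun n hn => ?_
  have N1 := nrm_pos K (g1 n)
  have N2 := nrm_pos K (g2 n)
  have e1 : ∫ z, (φ z : ℂ) * (((u n z : ℂ) ^ 2 - (m z : ℂ)) *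
      (((c1 n * g1 n z : ℝ) : ℂ) * ((c2 n * g2 n z : ℝ) : ℂ))) =
      ((c1 n * c2 n * (∫ z, φ z * ((u n z ^ 2 - m z) * (g1 n z * g2 n z))) : ℝ) : ℂ) := by
    rw [ofReal_mul, ← integral_complex_ofReal, ← integral_const_mul]
    congr 1; funext z
    push_cast; ring
  have e3 : ∫ z, φ z * ‖((c1 n * g1 n z : ℝ) : ℂ) * ((c2 n * g2 n z : ℝ) : ℂ)‖ ^ 2 =
      (c1 n * c2 n) ^ 2 * ∫ z, φ z * (g1 n z * g2 n z) ^ 2 := by
    rw [← integral_const_mul]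
    congr 1; funext z
    rw [← ofReal_mul, norm_real, Real.norm_eq_abs, sq_abs]; ring
  rw [e1, e3, norm_real, Real.norm_eq_abs, sq_abs, mul_pow] at hn
  have cc : (c1 n * c2 n) ^ 2 = (√(nrm K (g1 n) * nrm K (g2 n)))⁻¹ := by
    have h1 : ((c1 n * c2 n) ^ 2) ^ 2 = (nrm K (g1 n) * nrm K (g2 n))⁻¹ := by
      rw [mul_inv, ← c14, ← c24]; ring
    have h2 : (c1 n * c2 n) ^ 2 = √((nrm K (g1 n) * nrm K (g2 n))⁻¹) := by
      rw [← h1, Real.sqrt_sq (by positivity)]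
    rw [h2, Real.sqrt_inv]
  have Q0 : 0 < √(nrm K (g1 n) * nrm K (g2 n)) := Real.sqrt_pos.2 (by positivity)
  obtain ⟨Q, hQ⟩ : ∃ Q, Q = √(nrm K (g1 n) * nrm K (g2 n)) := ⟨_, rfl⟩
  obtain ⟨X, hX⟩ : ∃ X, X = ∫ z, φ z * (g1 n z * g2 n z) ^ 2 := ⟨_, rfl⟩
  obtain ⟨E, hE⟩ : ∃ E, E = (∫ z, φ z * u n z ^ 4) - 3 * ∫ z, φ z * m z ^ 2 := ⟨_, rfl⟩
  rw [← hQ] at cc Q0 ⊢
  rw [← hX] at hn ⊢
  rw [← hE] at hn ⊢
  rw [cc, inv_mul_le_iff₀ Q0] at hn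
  refine hn.trans (le_of_eq ?_)
  unfold nrm
  field_simp

/-- **Third powers and slow factors** -/
theorem slow3 [IsMarkovKernel ν] (hΩ : IsOpen Ω)
    (hm : ∀ K : Set ℂ, IsCompact K → K ⊆ Ω → MemLp m 2 (volume.restrict K))
    (hp : ∀ᵐ z ∂(volume.restrict Ω), par ea (ν z) = 0)
    (H : RawG Ω a h u (MM m ea ν)) (kp : ∀ n, 0 < k n) (kl : Tendsto k atTop (𝓝 0))
    (hr : Tendsto (fun n => h n / k n) atTop (𝓝 0)) (hv : ∀ n, ContDiffOn ℝ ∞ (v n) Ω)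
    (he : ∀ n, ∀ z ∈ Ω, (k n) ^ 2 * (a z ^ 2 * lap (v n) z) + v n z = 0)
    (hK : IsCompact K) (hKΩ : K ⊆ Ω) (hφ : TF (interior K) φ) (i j l : ℤ) :
    Tendsto (fun n => ‖∫ z, (φ z : ℂ) * (ww a h (fun n z => (u n z : ℂ)) i n z *
      ww a h (fun n z => (u n z : ℂ)) j n z * ww a h (fun n z => (u n z : ℂ)) l n z *
        (v n z : ℂ))‖ ^ 4 / (nrm K (u n) ^ 3 * nrm K (v n))) atTop (𝓝 0) := by
  obtain ⟨c, cp, c4, S⟩ := slowg hΩ H.sa H.pa kp kl hr hv he hK hKΩ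
  have key := slow_cube hm hp H hK hKΩ S hφ i j l
  refine key.congr fun n => ?_
  have e : ∫ z, (φ z : ℂ) * (ww a h (fun n z => (u n z : ℂ)) i n z *
      ww a h (fun n z => (u n z : ℂ)) j n z * (ww a h (fun n z => (u n z : ℂ)) l n z *
        ((c n * v n z : ℝ) : ℂ))) = (c n : ℂ) * ∫ z, (φ z : ℂ) *
        (ww a h (fun n z => (u n z : ℂ)) i n z *
      ww a h (fun n z => (u n z : ℂ)) j n z * ww a h (fun n z => (u n z : ℂ)) l n z *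
        (v n z : ℂ)) := by
    rw [← integral_const_mul]
    congr 1; funext z
    push_cast; ring
  have N1 := nrm_pos K (u n)
  have N2 := nrm_pos K (v n)
  rw [e, norm_mul, norm_real, Real.norm_eq_abs, abs_of_pos (cp n), mul_pow, c4]
  have e2 : 1 + ∫ z in K, u n z ^ 4 = nrm K (u n) := rfl
  rw [e2]
  have n1 : nrm K (u n) ≠ 0 := by linarith
  have n2 : nrm K (v n) ≠ 0 := by linarith
  field_simp

end

end Pool.Agent.Q175.RW.TP
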